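import Mathlib
import Pool.Graph.R_pool_sql_team_seeded_9f66d723.W5h55.SH.A7
set_option autoImplicit false

/-! The differential equation of the radial factors (Bessel functions). -/

open MeasureTheory Set Metric
open scoped ENNReal RealInnerProductSpace

namespace Pool.Agent.H243.RA

open Pool.Agent.W5h55.SH

theorem DD_succ' (m N : ℕ) : DD (m + 1) N = 2 * ((m : ℝ) + 1) * N * DD m (N + 2) := by
  rw [DD_succ]
  have := DD_shift m N
  linear_combination (2 * ((m : ℝ) + 1)) * this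

theorem phi_int0 (N : ℕ) (hN : 1 ≤ N) (s : ℝ) (hs : 0 ≤ s) :
    ∫ t in (0 : ℝ)..s, -(t / N) * phi (N + 2) t = phi N s - 1 := by
  have hN0 : (0 : ℝ) < N := by exact_mod_cast hN
  have h1 : HasSum (fun m : ℕ => ∫ t in (0 : ℝ)..s,
      -(t / N) * ((-1 : ℝ) ^ m * t ^ (2 * m) / DD m (N + 2)))
      (∫ t in (0 : ℝ)..s, -(t / N) * phi (N + 2) t) := by
    refine intervalIntegral.hasSum_integral_of_dominated_convergence
      (fun m _ => (s / N) * ((s ^ 2) ^ m / m.factorial)) ?_ ?_ ?_ ?_ ?_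
    · intro m
      exact (by fun_prop : Continuous fun t : ℝ => -(t / N) *
        ((-1 : ℝ) ^ m * t ^ (2 * m) / DD m (N + 2))).aestronglyMeasurable
    · intro m
      refine Filter.Eventually.of_forall fun t ht => ?_
      rw [uIoc_of_le hs] at ht
      have hta : |t| ≤ s := by rw [abs_of_pos ht.1]; exact ht.2
      rw [norm_mul, norm_neg, norm_div, Real.norm_of_nonneg hN0.le, Real.norm_eq_abs]
      refine mul_le_mul ?_ (phi_term (N + 2) (by omega) m t s hta) (norm_nonneg _) (by positivity)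
      gcongr
    · exact Filter.Eventually.of_forall fun t _ =>
        (Real.summable_pow_div_factorial (s ^ 2)).mul_left _
    · exact continuous_const.intervalIntegrable _ _
    · refine Filter.Eventually.of_forall fun t _ => ?_
      exact (phi_sum (N + 2) (by omega) t).hasSum.mul_left _
  have h2 : ∀ m : ℕ, ∫ t in (0 : ℝ)..s,
      -(t / N) * ((-1 : ℝ) ^ m * t ^ (2 * m) / DD m (N + 2)) =
      ((-1 : ℝ) ^ (m + 1) * s ^ (2 * (m + 1)) / DD (m + 1) N) := by
    intro m
    have e1 : ∀ t : ℝ, -(t / N) * ((-1 : ℝ) ^ m * t ^ (2 * m) / DD m (N + 2)) =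
        (-(-1 : ℝ) ^ m / (N * DD m (N + 2))) * t ^ (2 * m + 1) := by
      intro t
      have h5 := DD_pos m (N + 2) (by omega)
      rw [pow_succ]
      field_simp
    simp_rw [e1]
    rw [intervalIntegral.integral_const_mul, integral_pow, DD_succ']
    have h5 := DD_pos m (N + 2) (by omega)
    have e3 : (((2 * m + 1 : ℕ) : ℝ) + 1) = 2 * (m + 1) := by push_cast; ring
    rw [e3, zero_pow (by omega), sub_zero]
    have e2 : 2 * m + 1 + 1 = 2 * (m + 1) := by ring
    rw [e2]
    have h6 : (0 : ℝ) < (m : ℝ) + 1 := by positivity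
    rw [pow_succ (-1 : ℝ)]
    field_simp
  simp_rw [h2] at h1
  have h3 := (phi_sum N hN s).hasSum
  have h4 := (hasSum_nat_add_iff' (f := fun m : ℕ => (-1 : ℝ) ^ m * s ^ (2 * m) / DD m N)
    (g := phi N s) 1).2 h3
  have h5 := h1.unique h4
  rw [h5]
  simp [DD]

theorem phi_deriv0 (N : ℕ) (hN : 1 ≤ N) (s : ℝ) (hs : 0 < s) :
    HasDerivAt (phi N) (-(s / N) * phi (N + 2) s) s := by
  have hc : Continuous fun t : ℝ => -(t / N) * phi (N + 2) t := by
    have := phi_cont (N + 2) (by omega)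
    fun_prop
  have h1 := intervalIntegral.integral_hasDerivAt_right (hc.intervalIntegrable 0 s)
    (hc.stronglyMeasurableAtFilter _ _) hc.continuousAt
  have h2 : HasDerivAt (fun u => phi N u - 1) (-(s / N) * phi (N + 2) s) s := by
    refine h1.congr_of_eventuallyEq ?_
    filter_upwards [Ioi_mem_nhds hs] with u hu
    exact (phi_int0 N hN u (le_of_lt hu)).symm
  have h3 := h2.add_const 1
  refine h3.congr_of_eventuallyEq ?_
  filter_upwards with u
  simp

/-- the Bessel function `c x^ν φ_{2ν+2}(x)`, `ν = l + (d-2)/2` -/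
noncomputable def nu (d l : ℕ) : ℝ := l + ((d : ℝ) - 2) / 2

noncomputable def jj (d l : ℕ) (x : ℝ) : ℝ := x ^ (((d : ℝ) - 2) / 2) * ga d l x

noncomputable def kk (d l : ℕ) (x : ℝ) : ℝ :=
  cc d l * x ^ (nu d l) * (nu d l * phi (2 * l + d) x - x ^ 2 / (2 * l + d : ℕ) * phi (2 * l + d + 2) x)

theorem jj_eq (d l : ℕ) (x : ℝ) (hx : 0 < x) :
    jj d l x = cc d l * x ^ (nu d l) * phi (2 * l + d) x := by
  unfold jj ga nu
  rw [Real.rpow_add hx, Real.rpow_natCast]
  ring

theorem jj_deriv (d l : ℕ) (hd : 2 ≤ d) (x : ℝ) (hx : 0 < x) :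
    HasDerivAt (jj d l) (kk d l x / x) x := by
  have h1 : HasDerivAt (fun x : ℝ => cc d l * x ^ (nu d l) * phi (2 * l + d) x)
      (cc d l * (nu d l * x ^ (nu d l - 1)) * phi (2 * l + d) x + cc d l * x ^ (nu d l) *
        (-(x / (2 * l + d : ℕ)) * phi (2 * l + d + 2) x)) x :=
    ((Real.hasDerivAt_rpow_const (Or.inl hx.ne')).const_mul _).mul
      (phi_deriv0 (2 * l + d) (by omega) x hx)
  have h2 : HasDerivAt (jj d l) _ x := h1.congr_of_eventuallyEq (by
    filter_upwards [Ioi_mem_nhds hx] with u hu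
    exact jj_eq d l u hu)
  convert h2 using 1
  unfold kk
  rw [Real.rpow_sub_one hx.ne']
  have hN : (0 : ℝ) < ((2 * l + d : ℕ) : ℝ) := by exact_mod_cast (by omega : 0 < 2 * l + d)
  field_simp
  ring

theorem kk_deriv (d l : ℕ) (hd : 2 ≤ d) (x : ℝ) (hx : 0 < x) :
    HasDerivAt (kk d l) ((nu d l ^ 2 - x ^ 2) / x * jj d l x) x := by
  set N : ℕ := 2 * l + d with hN
  have hN1 : 1 ≤ N := by omega
  have hN0 : (0 : ℝ) < (N : ℝ) := by exact_mod_cast hN1
  have hNν : (N : ℝ) = 2 * nu d l + 2 := by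
    rw [hN]; unfold nu; push_cast; ring
  have e1 : ∀ u : ℝ, 0 < u → kk d l u = cc d l * (nu d l * (u ^ (nu d l) * phi N u) -
      (1 / N) * (u ^ (nu d l + 2 - N) * (u ^ N * phi (N + 2) u))) := by
    intro u hu
    unfold kk
    have : u ^ (nu d l + 2 - N) * u ^ N = u ^ (nu d l) * u ^ 2 := by
      rw [← Real.rpow_natCast u N, ← Real.rpow_add hu, ← Real.rpow_natCast u 2, ← Real.rpow_add hu]
      congr 1
      push_cast
      ring
    rw [← hN, ← mul_assoc (u ^ (nu d l + 2 - (N : ℝ))), this]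
    field_simp
  have h1 : HasDerivAt (fun u : ℝ => cc d l * (nu d l * (u ^ (nu d l) * phi N u) -
      (1 / N) * (u ^ (nu d l + 2 - N) * (u ^ N * phi (N + 2) u))))
      (cc d l * (nu d l * (nu d l * x ^ (nu d l - 1) * phi N x + x ^ (nu d l) *
        (-(x / N) * phi (N + 2) x)) -
      (1 / N) * (((nu d l + 2 - N) * x ^ (nu d l + 2 - N - 1)) * (x ^ N * phi (N + 2) x) +
        x ^ (nu d l + 2 - N) * (N * x ^ (N - 1) * phi N x)))) x := by
    have a1 := (Real.hasDerivAt_rpow_const (x := x) (p := nu d l) (Or.inl hx.ne')).mul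
      (phi_deriv0 N hN1 x hx)
    have a2 := (Real.hasDerivAt_rpow_const (x := x) (p := nu d l + 2 - N) (Or.inl hx.ne')).mul
      (phi_deriv N hN1 x hx)
    exact ((a1.const_mul (nu d l)).sub (a2.const_mul (1 / (N : ℝ)))).const_mul (cc d l)
  have h2 : HasDerivAt (kk d l) _ x := h1.congr_of_eventuallyEq (by
    filter_upwards [Ioi_mem_nhds hx] with u hu
    exact e1 u hu)
  convert h2 using 1
  rw [jj_eq d l x hx, ← hN]
  have r1 : x ^ (nu d l - 1) = x ^ (nu d l) / x := Real.rpow_sub_one hx.ne' _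
  have r2 : x ^ (nu d l + 2 - N - 1) * x ^ N = x ^ (nu d l) * x := by
    rw [← Real.rpow_natCast x N, ← Real.rpow_add hx]
    nth_rewrite 3 [← Real.rpow_one x]
    rw [← Real.rpow_add hx]
    congr 1
    ring
  have r3 : x ^ (nu d l + 2 - N) * x ^ (N - 1) = x ^ (nu d l) * x := by
    have : x ^ (N - 1) = x ^ ((N : ℝ) - 1) := by
      rw [← Real.rpow_natCast x (N - 1), Nat.cast_sub hN1, Nat.cast_one]
    rw [this, ← Real.rpow_add hx]
    nth_rewrite 3 [← Real.rpow_one x]
    rw [← Real.rpow_add hx]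
    congr 1
    ring
  have r2' : (nu d l + 2 - N) * x ^ (nu d l + 2 - N - 1) * (x ^ N * phi (N + 2) x) =
      (nu d l + 2 - N) * (x ^ (nu d l) * x) * phi (N + 2) x := by
    rw [← r2]; ring
  have r3' : x ^ (nu d l + 2 - N) * (N * x ^ (N - 1) * phi N x) =
      N * (x ^ (nu d l) * x) * phi N x := by
    rw [← r3]; ring
  rw [r1, r2', r3', hNν]
  have h7 : (nu d l + 1 : ℝ) ≠ 0 := by
    intro h
    rw [hNν] at hN0
    linarith
  have h8 : (2 * nu d l + 2 : ℝ) = 2 * (nu d l + 1) := by ring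
  rw [h8]
  field_simp
  ring

end Pool.Agent.H243.RA
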