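import Mathlib
set_option autoImplicit false

/-! Phase-amplitude analysis of the equation `(x d/dx)^2 j = (ν² - x²) j`. -/

open MeasureTheory Set
open scoped ENNReal

namespace Pool.Agent.H243.RA

/-- solutions of Bessel's equation with the natural normalisation in the mean -/
structure BD (ν C : ℝ) (j k : ℝ → ℝ) : Prop where
  nn : 0 ≤ ν
  dj : ∀ x, 0 < x → HasDerivAt j (k x / x) x
  dk : ∀ x, 0 < x → HasDerivAt k ((ν ^ 2 - x ^ 2) / x * j x) x
  l2 : ∀ R, 1 ≤ R → ∫ x in R..(2 * R), x * j x ^ 2 ≤ C * R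
  bd : ∀ x, 0 < x → x ≤ 2 → |j x| ≤ C
  z0 : 1 ≤ ν → Filter.Tendsto (fun x => j x * k x) (nhdsWithin 0 (Ioi 0)) (nhds 0)

/-- `(x²-ν²)^(1/4)` -/
noncomputable def rr (ν x : ℝ) : ℝ := (x ^ 2 - ν ^ 2) ^ ((1 : ℝ) / 4)

theorem rr_nonneg (ν x : ℝ) (h : ν ^ 2 ≤ x ^ 2) : 0 ≤ rr ν x := by
  unfold rr
  exact Real.rpow_nonneg (by linarith) _

theorem rr_pos (ν x : ℝ) (h : ν ^ 2 < x ^ 2) : 0 < rr ν x := by
  unfold rr
  exact Real.rpow_pos_of_pos (by linarith) _

theorem rr_four (ν x : ℝ) (h : ν ^ 2 ≤ x ^ 2) : rr ν x ^ 4 = x ^ 2 - ν ^ 2 := by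
  unfold rr
  rw [← Real.rpow_natCast, ← Real.rpow_mul (by linarith)]
  norm_num

theorem rr_deriv (ν x : ℝ) (h : ν ^ 2 < x ^ 2) :
    HasDerivAt (rr ν) (x / (2 * rr ν x ^ 3)) x := by
  have h0 : 0 < x ^ 2 - ν ^ 2 := by linarith
  have h1 : HasDerivAt (fun x : ℝ => x ^ 2 - ν ^ 2) (2 * x) x := by
    simpa using (hasDerivAt_pow 2 x).sub_const (ν ^ 2)
  have h2 := h1.rpow_const (p := (1 : ℝ) / 4) (Or.inl h0.ne')
  refine HasDerivAt.congr_deriv (f := rr ν) h2 ?_
  have h3 := rr_pos ν x h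
  have e : (x ^ 2 - ν ^ 2) ^ ((1 : ℝ) / 4 - 1) = 1 / rr ν x ^ 3 := by
    unfold rr
    rw [← Real.rpow_natCast ((x ^ 2 - ν ^ 2) ^ ((1 : ℝ) / 4)) 3, ← Real.rpow_mul h0.le, one_div,
      one_div, ← Real.rpow_neg h0.le]
    norm_num
  rw [e]
  field_simp
  ring

section
variable {ν C : ℝ} {j k : ℝ → ℝ}

noncomputable def ZZ (ν : ℝ) (j : ℝ → ℝ) (x : ℝ) : ℝ := rr ν x * j x

noncomputable def YY (ν : ℝ) (j k : ℝ → ℝ) (x : ℝ) : ℝ :=
  k x / rr ν x + x ^ 2 / 2 * (j x / rr ν x ^ 5)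

noncomputable def VV (ν x : ℝ) : ℝ := x * (x ^ 2 / 4 + ν ^ 2) / rr ν x ^ 10

noncomputable def UU (ν x : ℝ) : ℝ := 1 / 4 / rr ν x ^ 2 + 5 / 12 * ν ^ 2 / rr ν x ^ 6

noncomputable def EE (ν : ℝ) (j k : ℝ → ℝ) (x : ℝ) : ℝ := ZZ ν j x ^ 2 + YY ν j k x ^ 2

theorem sq_lt (hν : 0 ≤ ν) {x : ℝ} (hx : ν < x) : ν ^ 2 < x ^ 2 := by
  nlinarith

theorem ZZ_deriv (h : BD ν C j k) {x : ℝ} (hx : ν < x) :
    HasDerivAt (ZZ ν j) (rr ν x ^ 2 / x * YY ν j k x) x := by
  have hx0 : 0 < x := lt_of_le_of_lt h.nn hx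
  have h1 := (rr_deriv ν x (sq_lt h.nn hx)).mul (h.dj x hx0)
  refine HasDerivAt.congr_deriv (f := ZZ ν j) h1 ?_
  have hr := rr_pos ν x (sq_lt h.nn hx)
  unfold YY
  field_simp
  ring

theorem YY_deriv (h : BD ν C j k) {x : ℝ} (hx : ν < x) :
    HasDerivAt (YY ν j k) (-(rr ν x ^ 2 / x * ZZ ν j x) - VV ν x * ZZ ν j x) x := by
  have hx0 : 0 < x := lt_of_le_of_lt h.nn hx
  have hr := rr_pos ν x (sq_lt h.nn hx)
  have h4 := rr_four ν x (sq_lt h.nn hx).le
  have a1 := (h.dk x hx0).div (rr_deriv ν x (sq_lt h.nn hx)) hr.ne'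
  have a2 := (h.dj x hx0).div ((rr_deriv ν x (sq_lt h.nn hx)).pow 5)
    (by simp only [Pi.pow_apply]; positivity)
  have a3 : HasDerivAt (fun x : ℝ => x ^ 2 / 2) x x := by
    have := (hasDerivAt_pow 2 x).div_const 2
    simpa using this
  have h1 := a1.add (a3.mul a2)
  refine HasDerivAt.congr_deriv (f := YY ν j k) h1 ?_
  unfold ZZ VV
  simp only [Pi.pow_apply, Pi.div_apply]
  have e1 : ν ^ 2 = x ^ 2 - rr ν x ^ 4 := by linarith
  rw [e1]
  field_simp
  ring

theorem UU_deriv (hν : 0 ≤ ν) {x : ℝ} (hx : ν < x) :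
    HasDerivAt (UU ν) (-VV ν x) x := by
  have hx0 : 0 < x := lt_of_le_of_lt hν hx
  have hr := rr_pos ν x (sq_lt hν hx)
  have h4 := rr_four ν x (sq_lt hν hx).le
  have b1 := (rr_deriv ν x (sq_lt hν hx)).pow 2
  have b2 := (rr_deriv ν x (sq_lt hν hx)).pow 6
  have a1 := (hasDerivAt_const x ((1 : ℝ) / 4)).div b1 (by simp only [Pi.pow_apply]; positivity)
  have a2 := (hasDerivAt_const x (5 / 12 * ν ^ 2)).div b2 (by simp only [Pi.pow_apply]; positivity)
  have h1 := a1.add a2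
  refine HasDerivAt.congr_deriv (f := UU ν) h1 ?_
  unfold VV
  simp only [Pi.pow_apply]
  have e1 : ν ^ 2 = x ^ 2 - rr ν x ^ 4 := by linarith
  rw [e1]
  field_simp
  ring

theorem VV_nonneg (hν : 0 ≤ ν) {x : ℝ} (hx : ν < x) : 0 ≤ VV ν x := by
  have hx0 : 0 < x := lt_of_le_of_lt hν hx
  have hr := rr_pos ν x (sq_lt hν hx)
  unfold VV
  positivity

theorem UU_nonneg (hν : 0 ≤ ν) {x : ℝ} (hx : ν < x) : 0 ≤ UU ν x := by
  have hr := rr_pos ν x (sq_lt hν hx)
  unfold UU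
  positivity

theorem EE_deriv (h : BD ν C j k) {x : ℝ} (hx : ν < x) :
    HasDerivAt (EE ν j k) (-2 * VV ν x * ZZ ν j x * YY ν j k x) x := by
  have h1 := ((ZZ_deriv h hx).pow 2).add ((YY_deriv h hx).pow 2)
  refine HasDerivAt.congr_deriv (f := EE ν j k) h1 ?_
  ring

theorem EE_nonneg (x : ℝ) : 0 ≤ EE ν j k x := by unfold EE; positivity

theorem EE_mono (h : BD ν C j k) : MonotoneOn (fun x => EE ν j k x * Real.exp (-UU ν x)) (Ioi ν) := by
  have hd : ∀ x ∈ Ioi ν, HasDerivAt (fun x => EE ν j k x * Real.exp (-UU ν x))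
      ((-2 * VV ν x * ZZ ν j x * YY ν j k x) * Real.exp (-UU ν x) +
        EE ν j k x * (Real.exp (-UU ν x) * (- -VV ν x))) x := by
    intro x hx
    exact (EE_deriv h hx).mul ((UU_deriv h.nn hx).neg.exp)
  apply monotoneOn_of_deriv_nonneg (convex_Ioi ν)
  · intro x hx
    exact (hd x hx).continuousAt.continuousWithinAt
  · intro x hx
    rw [interior_Ioi] at hx
    exact (hd x hx).differentiableAt.differentiableWithinAt
  · intro x hx
    rw [interior_Ioi] at hx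
    rw [(hd x hx).deriv]
    have hV := VV_nonneg h.nn hx
    have : (-2 * VV ν x * ZZ ν j x * YY ν j k x) * Real.exp (-UU ν x) +
        EE ν j k x * (Real.exp (-UU ν x) * (- -VV ν x)) =
        VV ν x * (ZZ ν j x - YY ν j k x) ^ 2 * Real.exp (-UU ν x) := by
      unfold EE
      ring
    rw [this]
    positivity

theorem EE_anti (h : BD ν C j k) : AntitoneOn (fun x => EE ν j k x * Real.exp (UU ν x)) (Ioi ν) := by
  have hd : ∀ x ∈ Ioi ν, HasDerivAt (fun x => EE ν j k x * Real.exp (UU ν x))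
      ((-2 * VV ν x * ZZ ν j x * YY ν j k x) * Real.exp (UU ν x) +
        EE ν j k x * (Real.exp (UU ν x) * (-VV ν x))) x := by
    intro x hx
    exact (EE_deriv h hx).mul ((UU_deriv h.nn hx).exp)
  apply antitoneOn_of_deriv_nonpos (convex_Ioi ν)
  · intro x hx
    exact (hd x hx).continuousAt.continuousWithinAt
  · intro x hx
    rw [interior_Ioi] at hx
    exact (hd x hx).differentiableAt.differentiableWithinAt
  · intro x hx
    rw [interior_Ioi] at hx
    rw [(hd x hx).deriv]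
    have hV := VV_nonneg h.nn hx
    have : (-2 * VV ν x * ZZ ν j x * YY ν j k x) * Real.exp (UU ν x) +
        EE ν j k x * (Real.exp (UU ν x) * (-VV ν x)) =
        -(VV ν x * (ZZ ν j x + YY ν j k x) ^ 2 * Real.exp (UU ν x)) := by
      unfold EE
      ring
    rw [this]
    have : 0 ≤ VV ν x * (ZZ ν j x + YY ν j k x) ^ 2 * Real.exp (UU ν x) := by positivity
    linarith

/-- the threshold `max(1,ν)^(1/3)` -/
noncomputable def ss (ν : ℝ) : ℝ := (max 1 ν) ^ ((1 : ℝ) / 3)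

theorem ss_three (ν : ℝ) : ss ν ^ 3 = max 1 ν := by
  unfold ss
  rw [← Real.rpow_natCast, ← Real.rpow_mul (by positivity)]
  norm_num

theorem ss_one (ν : ℝ) : 1 ≤ ss ν := by
  unfold ss
  exact Real.one_le_rpow (le_max_left _ _) (by norm_num)

theorem exp_two_thirds : Real.exp (2 / 3) ≤ 2 := by
  have h := Real.exp_one_lt_d9
  have h1 : Real.exp (2 / 3) ^ 3 = Real.exp 1 ^ 2 := by
    rw [← Real.exp_nat_mul, ← Real.exp_nat_mul]
    norm_num
  have h2 : Real.exp 1 ^ 2 ≤ 8 := by nlinarith [Real.exp_pos 1]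
  by_contra hc
  push Not at hc
  have : (2 : ℝ) ^ 3 < Real.exp (2 / 3) ^ 3 := pow_lt_pow_left₀ hc (by norm_num) (by norm_num)
  rw [h1] at this
  linarith

theorem UU_le (hν : 0 ≤ ν) {x : ℝ} (hs : ss ν ≤ rr ν x) : UU ν x ≤ 2 / 3 := by
  have h1 := ss_one ν
  have h3 := ss_three ν
  set r := rr ν x
  have hr : 1 ≤ r := h1.trans hs
  have hν3 : ν ≤ r ^ 3 := by
    calc ν ≤ max 1 ν := le_max_right _ _
      _ = ss ν ^ 3 := h3.symm
      _ ≤ r ^ 3 := pow_le_pow_left₀ (by linarith) hs 3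
  unfold UU
  have e1 : 1 / 4 / r ^ 2 ≤ 1 / 4 := by
    apply div_le_self (by norm_num)
    exact one_le_pow₀ hr
  have e2 : 5 / 12 * ν ^ 2 / r ^ 6 ≤ 5 / 12 := by
    rw [div_le_iff₀ (by positivity)]
    have : ν ^ 2 ≤ (r ^ 3) ^ 2 := pow_le_pow_left₀ hν hν3 2
    nlinarith
  change 1 / 4 / r ^ 2 + 5 / 12 * ν ^ 2 / r ^ 6 ≤ 2 / 3
  linarith

theorem UU_nonneg' {x : ℝ} (hν : 0 ≤ ν) (hx : ν < x) : 0 ≤ UU ν x := UU_nonneg hν hx

/-- comparability of the energies -/
theorem EE_comp (h : BD ν C j k) {x y : ℝ} (hx : ν < x) (hs : ss ν ≤ rr ν x) (hxy : x ≤ y) :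
    EE ν j k x ≤ 2 * EE ν j k y ∧ EE ν j k y ≤ 2 * EE ν j k x := by
  have hy : ν < y := lt_of_lt_of_le hx hxy
  have h1 := EE_mono h hx hy hxy
  have h2 := EE_anti h hx hy hxy
  simp only at h1 h2
  have u1 := UU_le h.nn hs
  have u2 := UU_nonneg h.nn hx
  have u3 := UU_nonneg h.nn hy
  have hE1 : 0 ≤ EE ν j k x := EE_nonneg x
  have hE2 : 0 ≤ EE ν j k y := EE_nonneg y
  have e2 := exp_two_thirds
  constructor
  · have a1 : Real.exp (-UU ν y) ≤ 1 := Real.exp_le_one_iff.2 (by linarith)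
    have a2 : EE ν j k x * Real.exp (-UU ν x) ≤ EE ν j k y := by
      calc _ ≤ _ := h1
        _ ≤ EE ν j k y * 1 := mul_le_mul_of_nonneg_left a1 hE2
        _ = _ := mul_one _
    have a3 : EE ν j k x = EE ν j k x * Real.exp (-UU ν x) * Real.exp (UU ν x) := by
      rw [mul_assoc, ← Real.exp_add]; simp
    rw [a3]
    calc EE ν j k x * Real.exp (-UU ν x) * Real.exp (UU ν x)
        ≤ EE ν j k y * Real.exp (UU ν x) := mul_le_mul_of_nonneg_right a2 (Real.exp_pos _).le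
      _ ≤ EE ν j k y * 2 := mul_le_mul_of_nonneg_left
          ((Real.exp_le_exp.2 u1).trans e2) hE2
      _ = _ := mul_comm _ _
  · have a1 : 1 ≤ Real.exp (UU ν y) := Real.one_le_exp u3
    calc EE ν j k y = EE ν j k y * 1 := (mul_one _).symm
      _ ≤ EE ν j k y * Real.exp (UU ν y) := mul_le_mul_of_nonneg_left a1 hE2
      _ ≤ EE ν j k x * Real.exp (UU ν x) := h2
      _ ≤ EE ν j k x * 2 := mul_le_mul_of_nonneg_left ((Real.exp_le_exp.2 u1).trans e2) hE1
      _ = _ := mul_comm _ _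

theorem BD.cont_j (h : BD ν C j k) : ContinuousOn j (Ioi 0) := fun x hx =>
  (h.dj x hx).continuousAt.continuousWithinAt

/-- **Boundedness of the energy.** -/
theorem EE_bound (h : BD ν C j k) {x : ℝ} (hx : ν < x) (hs : ss ν ≤ rr ν x) :
    EE ν j k x ≤ 8 * C := by
  have hν := h.nn
  have hx0 : 0 < x := lt_of_le_of_lt hν hx
  set R : ℝ := x + 2 * ν + 100 with hR
  have hR1 : 1 ≤ R := by linarith
  have hxR : x ≤ R := by linarith
  have hνR : ν < R := by linarith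
  set e : ℝ := EE ν j k x with he
  have he0 : 0 ≤ e := EE_nonneg x
  -- the function t j²
  have hcont : ContinuousOn (fun t : ℝ => t * j t ^ 2) (Ioi 0) :=
    continuousOn_id.mul (h.cont_j.pow 2)
  have hint : ∀ a b : ℝ, 0 < a → 0 < b → IntervalIntegrable (fun t : ℝ => t * j t ^ 2) volume a b := by
    intro a b ha hb
    apply ContinuousOn.intervalIntegrable
    apply hcont.mono
    intro t ht
    exact lt_of_lt_of_le (lt_min ha hb) ht.1
  -- derivative of ZY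
  have hZY : ∀ y, ν < y → HasDerivAt (fun y => ZZ ν j y * YY ν j k y)
      (rr ν y ^ 2 / y * YY ν j k y * YY ν j k y + ZZ ν j y *
        (-(rr ν y ^ 2 / y * ZZ ν j y) - VV ν y * ZZ ν j y)) y := fun y hy =>
    (ZZ_deriv h hy).mul (YY_deriv h hy)
  set G : ℝ → ℝ := fun y => ZZ ν j y * YY ν j k y + 3 * (∫ t in R..y, t * j t ^ 2) - 2 / 5 * e * y
    with hG
  have hGd : ∀ y, ν < y → HasDerivAt G ((rr ν y ^ 2 / y * YY ν j k y * YY ν j k y + ZZ ν j y *
        (-(rr ν y ^ 2 / y * ZZ ν j y) - VV ν y * ZZ ν j y)) + 3 * (y * j y ^ 2) - 2 / 5 * e * 1) y := by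
    intro y hy
    have hy0 : 0 < y := lt_of_le_of_lt hν hy
    have a1 : HasDerivAt (fun y => ∫ t in R..y, t * j t ^ 2) (y * j y ^ 2) y := by
      apply intervalIntegral.integral_hasDerivAt_right (hint R y (by linarith) hy0)
      · exact ContinuousOn.stronglyMeasurableAtFilter isOpen_Ioi hcont y hy0
      · exact hcont.continuousAt (Ioi_mem_nhds hy0)
    exact ((hZY y hy).add (a1.const_mul 3)).sub ((hasDerivAt_id y).const_mul (2 / 5 * e))
  have hmono : MonotoneOn G (Icc R (2 * R)) := by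
    apply monotoneOn_of_deriv_nonneg (convex_Icc _ _)
    · intro y hy
      exact (hGd y (by linarith [hy.1])).continuousAt.continuousWithinAt
    · intro y hy
      rw [interior_Icc] at hy
      exact (hGd y (by linarith [hy.1])).differentiableAt.differentiableWithinAt
    · intro y hy
      rw [interior_Icc] at hy
      have hyν : ν < y := by linarith [hy.1]
      have hy0 : 0 < y := lt_of_le_of_lt hν hyν
      rw [(hGd y hyν).deriv]
      have hr := rr_pos ν y (sq_lt hν hyν)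
      have h4 := rr_four ν y (sq_lt hν hyν).le
      set r := rr ν y with hr'
      have hyν2 : 2 * ν ≤ y := by linarith [hy.1]
      have hw : 3 / 4 * y ^ 2 ≤ r ^ 4 := by rw [h4]; nlinarith
      have hw2 : r ^ 4 ≤ y ^ 2 := by rw [h4]; nlinarith
      have hr2 : r ^ 2 ≤ y := by
        have : (r ^ 2) ^ 2 ≤ y ^ 2 := by rw [← pow_mul]; exact hw2
        exact (pow_le_pow_iff_left₀ (by positivity) hy0.le (by norm_num)).1 this
      have hr3 : 4 / 5 * y ≤ r ^ 2 := by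
        have : (4 / 5 * y) ^ 2 ≤ (r ^ 2) ^ 2 := by rw [← pow_mul]; nlinarith
        exact (pow_le_pow_iff_left₀ (by positivity) (by positivity) (by norm_num)).1 this
      have hq1 : 4 / 5 ≤ r ^ 2 / y := by rw [le_div_iff₀ hy0]; exact hr3
      have hq2 : r ^ 2 / y ≤ 1 := by rw [div_le_one hy0]; exact hr2
      have hV1 : VV ν y ≤ 1 := by
        unfold VV
        rw [← hr', div_le_one (by positivity)]
        have b1 : y * (y ^ 2 / 4 + ν ^ 2) ≤ y * (y ^ 2 / 2) := by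
          apply mul_le_mul_of_nonneg_left _ hy0.le
          nlinarith
        have b2 : (4 / 5 * y) ^ 5 ≤ (r ^ 2) ^ 5 := pow_le_pow_left₀ (by positivity) hr3 5
        have b3 : y * (y ^ 2 / 2) ≤ (4 / 5 * y) ^ 5 := by
          have hy100 : 100 ≤ y := by linarith [hy.1]
          have : (4 / 5 * y) ^ 5 = 1024 / 3125 * y ^ 2 * y ^ 3 := by ring
          rw [this]
          have b4 : 1 / 2 ≤ 1024 / 3125 * y ^ 2 := by nlinarith
          calc y * (y ^ 2 / 2) = 1 / 2 * y ^ 3 := by ring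
            _ ≤ _ := mul_le_mul_of_nonneg_right b4 (by positivity)
        calc _ ≤ _ := b1
          _ ≤ _ := b3
          _ ≤ _ := b2
          _ = _ := by ring
      have hV0 := VV_nonneg hν hyν
      have hEy := (EE_comp h hx hs (by linarith [hy.1] : x ≤ y)).1
      rw [← he] at hEy
      have hZj : ZZ ν j y ^ 2 ≤ y * j y ^ 2 := by
        unfold ZZ
        rw [← hr', mul_pow]
        exact mul_le_mul_of_nonneg_right hr2 (sq_nonneg _)
      unfold EE at hEy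
      set Z := ZZ ν j y
      set Y := YY ν j k y
      set q := r ^ 2 / y
      have c1 : 4 / 5 * Y ^ 2 ≤ q * Y ^ 2 := mul_le_mul_of_nonneg_right hq1 (sq_nonneg _)
      have c2 : q * Z ^ 2 ≤ 1 * Z ^ 2 := mul_le_mul_of_nonneg_right hq2 (sq_nonneg _)
      have c3 : VV ν y * Z ^ 2 ≤ 1 * Z ^ 2 := mul_le_mul_of_nonneg_right hV1 (sq_nonneg _)
      nlinarith
  have hfin := hmono (left_mem_Icc.2 (by linarith)) (right_mem_Icc.2 (by linarith))
    (by linarith : R ≤ 2 * R)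
  simp only [hG, intervalIntegral.integral_same] at hfin
  have hl2 := h.l2 R hR1
  have hEb : ∀ y, x ≤ y → |ZZ ν j y * YY ν j k y| ≤ e := by
    intro y hy
    have h1 := (EE_comp h hx hs hy).2
    unfold EE at h1
    rw [abs_le]
    have h2 : ZZ ν j x ^ 2 + YY ν j k x ^ 2 = e := rfl
    rw [h2] at h1
    constructor
    · nlinarith [sq_nonneg (ZZ ν j y + YY ν j k y)]
    · nlinarith [sq_nonneg (ZZ ν j y - YY ν j k y)]
  have b1 := abs_le.1 (hEb R hxR)
  have b2 := abs_le.1 (hEb (2 * R) (by linarith))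
  have hfin2 : 2 / 5 * e * R ≤ 2 * e + 3 * (C * R) := by linarith [b1.1, b2.2]
  have hR100 : 100 ≤ R := by linarith
  by_contra hcon
  push Not at hcon
  nlinarith

end

end Pool.Agent.H243.RA
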