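import Mathlib
import Pool.Agent.H243.RA.B2
set_option autoImplicit false

/-! The turning region and the complex amplitude. -/

open MeasureTheory Set
open scoped ENNReal

namespace Pool.Agent.H243.RA

section
variable {ν C : ℝ} {j k : ℝ → ℝ}

/-- the complex amplitude `Z - iY` -/
noncomputable def cz (ν : ℝ) (j k : ℝ → ℝ) (x : ℝ) : ℂ :=
  (ZZ ν j x : ℂ) - Complex.I * (YY ν j k x : ℂ)

theorem cz_deriv (h : BD ν C j k) {x : ℝ} (hx : ν < x) :
    HasDerivAt (cz ν j k) (Complex.I * ((rr ν x ^ 2 / x : ℝ) : ℂ) * cz ν j k x +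
      Complex.I * ((VV ν x * ZZ ν j x : ℝ) : ℂ)) x := by
  have h1 := (ZZ_deriv h hx).ofReal_comp
  have h2 := ((YY_deriv h hx).ofReal_comp).const_mul Complex.I
  refine HasDerivAt.congr_deriv (f := cz ν j k) (h1.sub h2) ?_
  unfold cz
  push_cast
  linear_combination (((rr ν x : ℂ) ^ 2 / x) * (YY ν j k x : ℂ)) * Complex.I_sq

theorem cz_re (x : ℝ) : (cz ν j k x).re = ZZ ν j x := by
  unfold cz
  simp

theorem cz_norm_sq (x : ℝ) : ‖cz ν j k x‖ ^ 2 = EE ν j k x := by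
  rw [← Complex.normSq_eq_norm_sq, Complex.normSq_apply]
  unfold cz EE
  simp
  ring

theorem BD.C_nonneg (h : BD ν C j k) : 0 ≤ C := by
  have h1 := h.l2 1 le_rfl
  have h2 : 0 ≤ ∫ x in (1 : ℝ)..(2 * 1), x * j x ^ 2 := by
    apply intervalIntegral.integral_nonneg (by norm_num)
    intro u hu
    have : 0 ≤ u := by linarith [hu.1]
    positivity
  linarith

theorem cz_bound (h : BD ν C j k) {x : ℝ} (hx : ν < x) (hs : ss ν ≤ rr ν x) :
    ‖cz ν j k x‖ ^ 2 ≤ 8 * C := by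
  rw [cz_norm_sq]
  exact EE_bound h hx hs

theorem ZZ_abs_le (x : ℝ) : |ZZ ν j x| ≤ ‖cz ν j k x‖ := by
  rw [← cz_re (k := k)]
  exact Complex.abs_re_le_norm _

/-- `j k` is nonnegative below `ν` -/
theorem jk_nonneg (h : BD ν C j k) (hν : 1 ≤ ν) {x : ℝ} (hx : 0 < x) (hxν : x ≤ ν) :
    0 ≤ j x * k x := by
  have hd : ∀ y, 0 < y → HasDerivAt (fun y => j y * k y)
      (k y / y * k y + j y * ((ν ^ 2 - y ^ 2) / y * j y)) y := fun y hy =>
    (h.dj y hy).mul (h.dk y hy)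
  have hmono : MonotoneOn (fun y => j y * k y) (Ioc 0 ν) := by
    apply monotoneOn_of_deriv_nonneg (convex_Ioc _ _)
    · intro y hy
      exact (hd y hy.1).continuousAt.continuousWithinAt
    · intro y hy
      rw [interior_Ioc] at hy
      exact (hd y hy.1).differentiableAt.differentiableWithinAt
    · intro y hy
      rw [interior_Ioc] at hy
      rw [(hd y hy.1).deriv]
      have hy0 := hy.1
      have : 0 ≤ ν ^ 2 - y ^ 2 := by nlinarith [hy.2]
      have e : k y / y * k y + j y * ((ν ^ 2 - y ^ 2) / y * j y) =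
          (k y ^ 2 + (ν ^ 2 - y ^ 2) * j y ^ 2) / y := by ring
      rw [e]
      positivity
  refine le_of_tendsto (h.z0 hν) ?_
  filter_upwards [Ioc_mem_nhdsGT hx] with y hy
  exact hmono ⟨hy.1, hy.2.trans hxν⟩ ⟨hx, hxν⟩ hy.2

theorem jsq_mono (h : BD ν C j k) (hν : 1 ≤ ν) : MonotoneOn (fun y => j y ^ 2) (Ioc 0 ν) := by
  have hd : ∀ y, 0 < y → HasDerivAt (fun y => j y ^ 2) (2 * j y * (k y / y)) y := fun y hy =>
    HasDerivAt.congr_deriv ((h.dj y hy).pow 2) (by simp)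
  apply monotoneOn_of_deriv_nonneg (convex_Ioc _ _)
  · intro y hy
    exact (hd y hy.1).continuousAt.continuousWithinAt
  · intro y hy
    rw [interior_Ioc] at hy
    exact (hd y hy.1).differentiableAt.differentiableWithinAt
  · intro y hy
    rw [interior_Ioc] at hy
    rw [(hd y hy.1).deriv]
    have h1 := jk_nonneg h hν hy.1 hy.2.le
    have hy0 := hy.1
    have e : 2 * j y * (k y / y) = 2 * (j y * k y) / y := by ring
    rw [e]
    positivity

theorem growth (h : BD ν C j k) (hν : 1 ≤ ν) {x x' : ℝ} (hx : 0 < x) (hxx : x ≤ x') (hx' : x' ≤ ν) :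
    j x ^ 2 * (1 + (ν ^ 2 - x' ^ 2) * (x' - x) ^ 2 / ν ^ 2) ≤ j x' ^ 2 := by
  have hν0 : 0 < ν := by linarith
  set c : ℝ := (ν ^ 2 - x' ^ 2) * j x ^ 2 / ν with hc
  have hw : 0 ≤ ν ^ 2 - x' ^ 2 := by nlinarith
  have hc0 : 0 ≤ c := by positivity
  have hdm : ∀ y, 0 < y → HasDerivAt (fun y => j y * k y - c * (y - x))
      (k y / y * k y + j y * ((ν ^ 2 - y ^ 2) / y * j y) - c * 1) y := fun y hy =>
    ((h.dj y hy).mul (h.dk y hy)).sub (((hasDerivAt_id y).sub_const x).const_mul c)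
  have hm1 : MonotoneOn (fun y => j y * k y - c * (y - x)) (Icc x x') := by
    apply monotoneOn_of_deriv_nonneg (convex_Icc _ _)
    · intro y hy
      exact (hdm y (lt_of_lt_of_le hx hy.1)).continuousAt.continuousWithinAt
    · intro y hy
      rw [interior_Icc] at hy
      exact (hdm y (hx.trans hy.1)).differentiableAt.differentiableWithinAt
    · intro y hy
      rw [interior_Icc] at hy
      have hy0 : 0 < y := hx.trans hy.1
      rw [(hdm y hy0).deriv]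
      have hyν : y ≤ ν := hy.2.le.trans hx'
      have h1 := jsq_mono h hν ⟨hx, hxx.trans hx'⟩ ⟨hy0, hyν⟩ hy.1.le
      simp only at h1
      have h2 : ν ^ 2 - x' ^ 2 ≤ ν ^ 2 - y ^ 2 := by nlinarith [hy.2]
      have h3 : c ≤ (ν ^ 2 - y ^ 2) * j y ^ 2 / y := by
        rw [hc]
        apply div_le_div₀ (by nlinarith [sq_nonneg (j y)]) _ hy0 hyν
        exact mul_le_mul h2 h1 (sq_nonneg _) (by linarith)
      have h4 : 0 ≤ k y / y * k y := by
        rw [div_mul_eq_mul_div, ← sq]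
        positivity
      have h5 : j y * ((ν ^ 2 - y ^ 2) / y * j y) = (ν ^ 2 - y ^ 2) * j y ^ 2 / y := by ring
      rw [h5]
      linarith
  have hM : ∀ y ∈ Icc x x', c * (y - x) ≤ j y * k y := by
    intro y hy
    have h1 := hm1 (left_mem_Icc.2 hxx) hy hy.1
    simp only [sub_self, mul_zero, sub_zero] at h1
    have h2 := jk_nonneg h hν hx (hxx.trans hx')
    linarith
  have hda : ∀ y, 0 < y → HasDerivAt (fun y => j y ^ 2 - c / ν * (y - x) ^ 2)
      (2 * j y * (k y / y) - c / ν * (2 * (y - x))) y := fun y hy => by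
    have h1 := (h.dj y hy).pow 2
    have h2 := (((hasDerivAt_id y).sub_const x).pow 2).const_mul (c / ν)
    refine HasDerivAt.congr_deriv (h1.sub h2) ?_
    simp
  have hm2 : MonotoneOn (fun y => j y ^ 2 - c / ν * (y - x) ^ 2) (Icc x x') := by
    apply monotoneOn_of_deriv_nonneg (convex_Icc _ _)
    · intro y hy
      exact (hda y (lt_of_lt_of_le hx hy.1)).continuousAt.continuousWithinAt
    · intro y hy
      rw [interior_Icc] at hy
      exact (hda y (hx.trans hy.1)).differentiableAt.differentiableWithinAt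
    · intro y hy
      rw [interior_Icc] at hy
      have hy0 : 0 < y := hx.trans hy.1
      rw [(hda y hy0).deriv]
      have h1 := hM y ⟨hy.1.le, hy.2.le⟩
      have hyν : y ≤ ν := hy.2.le.trans hx'
      have h2 : c / ν * (y - x) ≤ (j y * k y) / y := by
        rw [div_mul_eq_mul_div]
        apply div_le_div₀ _ h1 hy0 hyν
        exact (mul_nonneg hc0 (by linarith [hy.1])).trans h1
      have e : 2 * j y * (k y / y) - c / ν * (2 * (y - x)) =
          2 * ((j y * k y) / y - c / ν * (y - x)) := by ring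
      rw [e]
      linarith
  have h3 := hm2 (left_mem_Icc.2 hxx) (right_mem_Icc.2 hxx) hxx
  simp only [sub_self] at h3
  have e : j x ^ 2 * (1 + (ν ^ 2 - x' ^ 2) * (x' - x) ^ 2 / ν ^ 2) =
      j x ^ 2 + c / ν * (x' - x) ^ 2 := by
    rw [hc]
    field_simp
  rw [e]
  nlinarith

theorem gron_alg (s y ν r J K : ℝ) (hs : 0 < s) (hy : 0 < y) (hν : 0 < ν) (hνy : ν ≤ y)
    (hr : r = s ^ 2 / ν) (hw : y ^ 2 - ν ^ 2 ≤ s ^ 4) :
    0 ≤ 2 * (J * K) * ((s ^ 2 - (y ^ 2 - ν ^ 2) / s ^ 2) / y) +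
      r * (s ^ 2 * J ^ 2 + K ^ 2 / s ^ 2) := by
  have hw0 : 0 ≤ y ^ 2 - ν ^ 2 := by nlinarith
  have q1 : (y ^ 2 - ν ^ 2) / s ^ 2 ≤ s ^ 2 := by
    rw [div_le_iff₀ (by positivity)]
    calc _ ≤ _ := hw
      _ = _ := by ring
  have q2 : 0 ≤ (y ^ 2 - ν ^ 2) / s ^ 2 := by positivity
  set g : ℝ := (s ^ 2 - (y ^ 2 - ν ^ 2) / s ^ 2) / y with hg
  have hg0 : 0 ≤ g := div_nonneg (by linarith) hy.le
  have hg1 : g ≤ r := by
    rw [hg, hr]
    exact div_le_div₀ (by positivity) (by linarith) hν hνy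
  have a1 : s ^ 2 * J ^ 2 + K ^ 2 / s ^ 2 = (s * |J| - |K| / s) ^ 2 + 2 * (|J| * |K|) := by
    rw [sub_sq, mul_pow, div_pow, sq_abs, sq_abs]
    field_simp
    ring
  have hFj : 2 * |J * K| ≤ s ^ 2 * J ^ 2 + K ^ 2 / s ^ 2 := by
    rw [a1, abs_mul]
    linarith [sq_nonneg (s * |J| - |K| / s)]
  set F : ℝ := s ^ 2 * J ^ 2 + K ^ 2 / s ^ 2 with hF
  have hF0 : 0 ≤ F := by rw [hF]; positivity
  have h2 : 2 * |J * K| * g ≤ F * r := mul_le_mul hFj hg1 hg0 hF0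
  have h3 : -(|J * K|) * g ≤ (J * K) * g := mul_le_mul_of_nonneg_right (neg_abs_le _) hg0
  linarith

/-- the transition interval above `ν` -/
theorem trans_bound (h : BD ν C j k) (hν : 1 ≤ ν) {x : ℝ} (hx : ν ≤ x)
    (hs : x ^ 2 - ν ^ 2 ≤ ss ν ^ 4) : ss ν ^ 2 * j x ^ 2 ≤ 48 * C := by
  have hν0 : 0 < ν := by linarith
  have hC := h.C_nonneg
  set s := ss ν with hsd
  have hs1 : 1 ≤ s := ss_one ν
  have hs3 : s ^ 3 = ν := by rw [hsd, ss_three, max_eq_right hν]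
  -- the end point
  set x0 : ℝ := Real.sqrt (ν ^ 2 + s ^ 4) with hx0d
  have hx02 : x0 ^ 2 = ν ^ 2 + s ^ 4 := Real.sq_sqrt (by positivity)
  have hx0 : 0 < x0 := Real.sqrt_pos.2 (by positivity)
  have hνx0 : ν < x0 := by
    apply lt_of_pow_lt_pow_left₀ 2 hx0.le
    rw [hx02]
    have : 0 < s ^ 4 := by positivity
    linarith
  have hxx0 : x ≤ x0 := by
    apply Real.le_sqrt_of_sq_le
    linarith
  have hrr : rr ν x0 = s := by
    have h4 := rr_four ν x0 (by rw [hx02]; nlinarith [sq_nonneg (s ^ 2)])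
    have hr0 := rr_nonneg ν x0 (by rw [hx02]; nlinarith [sq_nonneg (s ^ 2)])
    rw [hx02] at h4
    have : rr ν x0 ^ 4 = s ^ 4 := by linarith
    exact (pow_left_inj₀ hr0 (by linarith) (by norm_num)).1 this
  have hE := EE_bound h hνx0 (by rw [hrr])
  unfold EE ZZ YY at hE
  rw [hrr] at hE
  -- F at x0
  set F : ℝ → ℝ := fun y => s ^ 2 * j y ^ 2 + k y ^ 2 / s ^ 2 with hF
  have hs0 : 0 < s := by linarith
  have hx0s : x0 ^ 2 ≤ 2 * s ^ 6 := by
    rw [hx02]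
    have e1 : ν ^ 2 = s ^ 6 := by rw [← hs3]; ring
    have e2 : s ^ 4 ≤ s ^ 6 := pow_le_pow_right₀ hs1 (by norm_num)
    linarith
  have hF0 : F x0 ≤ 24 * C := by
    simp only [hF]
    set Y := k x0 / s + x0 ^ 2 / 2 * (j x0 / s ^ 5) with hY
    have e1 : k x0 / s = Y - x0 ^ 2 / 2 * (j x0 / s ^ 5) := by rw [hY]; ring
    have e2 : k x0 ^ 2 / s ^ 2 = (Y - x0 ^ 2 / 2 * (j x0 / s ^ 5)) ^ 2 := by rw [← e1, div_pow]
    have e3 : (x0 ^ 2 / 2 * (j x0 / s ^ 5)) ^ 2 ≤ (s * j x0) ^ 2 := by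
      have a1 : (x0 ^ 2 / 2 * (j x0 / s ^ 5)) ^ 2 = (x0 ^ 2 / (2 * s ^ 6)) ^ 2 * (s * j x0) ^ 2 := by
        field_simp
      rw [a1]
      have a2 : x0 ^ 2 / (2 * s ^ 6) ≤ 1 := by
        rw [div_le_one (by positivity)]; exact hx0s
      have a3 : (x0 ^ 2 / (2 * s ^ 6)) ^ 2 ≤ 1 := pow_le_one₀ (by positivity) a2
      calc _ ≤ 1 * (s * j x0) ^ 2 := mul_le_mul_of_nonneg_right a3 (sq_nonneg _)
        _ = _ := one_mul _
    rw [e2]
    have e4 : (Y - x0 ^ 2 / 2 * (j x0 / s ^ 5)) ^ 2 ≤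
        2 * Y ^ 2 + 2 * (x0 ^ 2 / 2 * (j x0 / s ^ 5)) ^ 2 := by
      nlinarith [sq_nonneg (Y + x0 ^ 2 / 2 * (j x0 / s ^ 5))]
    have e5 : s ^ 2 * j x0 ^ 2 = (s * j x0) ^ 2 := by ring
    rw [e5]
    nlinarith [sq_nonneg Y, sq_nonneg (s * j x0)]
  -- Gronwall
  set r : ℝ := s ^ 2 / ν with hr
  have hFd : ∀ y, 0 < y → HasDerivAt (fun y => F y * Real.exp (r * y))
      ((s ^ 2 * (2 * j y * (k y / y)) + 2 * k y * ((ν ^ 2 - y ^ 2) / y * j y) / s ^ 2) *
        Real.exp (r * y) + F y * (Real.exp (r * y) * (r * 1))) y := by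
    intro y hy
    have a1 := ((h.dj y hy).pow 2).const_mul (s ^ 2)
    have a2 := ((h.dk y hy).pow 2).div_const (s ^ 2)
    have a3 : HasDerivAt F (s ^ 2 * (2 * j y * (k y / y)) +
        2 * k y * ((ν ^ 2 - y ^ 2) / y * j y) / s ^ 2) y := by
      refine HasDerivAt.congr_deriv (a1.add a2) ?_
      simp
    exact a3.mul (((hasDerivAt_id y).const_mul r).exp)
  have hmono : MonotoneOn (fun y => F y * Real.exp (r * y)) (Icc ν x0) := by
    apply monotoneOn_of_deriv_nonneg (convex_Icc _ _)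
    · intro y hy
      exact (hFd y (lt_of_lt_of_le hν0 hy.1)).continuousAt.continuousWithinAt
    · intro y hy
      rw [interior_Icc] at hy
      exact (hFd y (hν0.trans hy.1)).differentiableAt.differentiableWithinAt
    · intro y hy
      rw [interior_Icc] at hy
      have hy0 : 0 < y := hν0.trans hy.1
      rw [(hFd y hy0).deriv]
      have e : (s ^ 2 * (2 * j y * (k y / y)) + 2 * k y * ((ν ^ 2 - y ^ 2) / y * j y) / s ^ 2) *
        Real.exp (r * y) + F y * (Real.exp (r * y) * (r * 1)) =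
        (2 * (j y * k y) * ((s ^ 2 - (y ^ 2 - ν ^ 2) / s ^ 2) / y) + r * F y) * Real.exp (r * y) := by
        field_simp
        ring
      rw [e]
      apply mul_nonneg _ (Real.exp_pos _).le
      have hw : y ^ 2 - ν ^ 2 ≤ s ^ 4 := by nlinarith [hy.2]
      exact gron_alg s y ν r (j y) (k y) hs0 hy0 hν0 hy.1.le hr hw
  have hfin := hmono ⟨hx, hxx0⟩ ⟨hνx0.le, le_rfl⟩ hxx0
  simp only at hfin
  have hlen : r * (x0 - x) ≤ 1 / 2 := by
    have h1 : x0 - ν ≤ s ^ 4 / (2 * ν) := by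
      rw [le_div_iff₀ (by positivity)]
      nlinarith [hνx0]
    have h2 : x0 - x ≤ s ^ 4 / (2 * ν) := by linarith
    have hr0 : 0 ≤ r := by rw [hr]; positivity
    calc r * (x0 - x) ≤ r * (s ^ 4 / (2 * ν)) := mul_le_mul_of_nonneg_left h2 hr0
      _ = 1 / 2 := by
        rw [hr, ← hs3]
        field_simp
  have hF1 : F x ≤ F x0 * Real.exp (r * (x0 - x)) := by
    have e1 : F x = F x * Real.exp (r * x) * Real.exp (-(r * x)) := by
      rw [mul_assoc, ← Real.exp_add]; simp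
    have e2 : F x0 * Real.exp (r * (x0 - x)) = F x0 * Real.exp (r * x0) * Real.exp (-(r * x)) := by
      rw [mul_assoc, ← Real.exp_add]
      congr 2
      ring
    rw [e1, e2]
    exact mul_le_mul_of_nonneg_right hfin (Real.exp_pos _).le
  have hexp : Real.exp (r * (x0 - x)) ≤ 2 := by
    calc _ ≤ Real.exp (2 / 3) := Real.exp_le_exp.2 (by linarith)
      _ ≤ 2 := exp_two_thirds
  have hF00 : 0 ≤ F x0 := by simp only [hF]; positivity
  have hF2 : F x ≤ 48 * C := by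
    calc F x ≤ _ := hF1
      _ ≤ F x0 * 2 := mul_le_mul_of_nonneg_left hexp hF00
      _ ≤ _ := by linarith
  have : s ^ 2 * j x ^ 2 ≤ F x := by
    simp only [hF]
    have : 0 ≤ k x ^ 2 / s ^ 2 := by positivity
    linarith
  linarith

theorem alg1 (σ s ν : ℝ) (hs : 0 < s) (hν : s ^ 3 = ν) :
    σ ^ 3 / 32 = (σ * s ^ 4 / 2) * ((σ * s ^ 4) / (4 * ν)) ^ 2 / ν ^ 2 := by
  subst hν
  field_simp
  ring

/-- decay below the turning point -/
theorem decay (h : BD ν C j k) (hν : 1 ≤ ν) (n : ℕ) : ∀ x, 0 < x → x ≤ ν →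
    (ν ^ 2 - x ^ 2) / ss ν ^ 4 ≤ 8 * 2 ^ n →
    ss ν ^ 2 * j x ^ 2 * (1 + (ν ^ 2 - x ^ 2) / ss ν ^ 4) ^ 4 ≤ 48 * 9 ^ 4 * C := by
  have hν0 : 0 < ν := by linarith
  have hC := h.C_nonneg
  have hs1 : 1 ≤ ss ν := ss_one ν
  have hs3 : ss ν ^ 3 = ν := by rw [ss_three, max_eq_right hν]
  have hνb := trans_bound h hν le_rfl (by
    have : 0 < ss ν ^ 4 := by positivity
    simp only [sub_self]
    exact this.le)
  have hall : ∀ x, 0 < x → x ≤ ν → ss ν ^ 2 * j x ^ 2 ≤ 48 * C := by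
    intro x hx hxν
    have := jsq_mono h hν ⟨hx, hxν⟩ ⟨hν0, le_rfl⟩ hxν
    simp only at this
    calc _ ≤ ss ν ^ 2 * j ν ^ 2 := mul_le_mul_of_nonneg_left this (by positivity)
      _ ≤ _ := hνb
  induction n with
  | zero =>
    intro x hx hxν hσ
    have hw : 0 ≤ (ν ^ 2 - x ^ 2) / ss ν ^ 4 := div_nonneg (by nlinarith) (by positivity)
    have h1 : (1 + (ν ^ 2 - x ^ 2) / ss ν ^ 4) ^ 4 ≤ 9 ^ 4 := by
      apply pow_le_pow_left₀ (by linarith)
      simp only [pow_zero, mul_one] at hσ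
      linarith
    calc _ ≤ (48 * C) * 9 ^ 4 := mul_le_mul (hall x hx hxν) h1 (by positivity) (by linarith)
      _ = _ := by ring
  | succ n ih =>
    intro x hx hxν hσ
    set σ : ℝ := (ν ^ 2 - x ^ 2) / ss ν ^ 4 with hσd
    have hσ0 : 0 ≤ σ := div_nonneg (by nlinarith) (by positivity)
    by_cases h8 : σ ≤ 8 * 2 ^ n
    · exact ih x hx hxν h8
    push Not at h8
    have hσ8 : 8 ≤ σ := by
      have : (1 : ℝ) ≤ 2 ^ n := one_le_pow₀ (by norm_num)
      linarith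
    set x' : ℝ := Real.sqrt ((ν ^ 2 + x ^ 2) / 2) with hx'
    have hx'2 : x' ^ 2 = (ν ^ 2 + x ^ 2) / 2 := Real.sq_sqrt (by positivity)
    have hx'0 : 0 < x' := Real.sqrt_pos.2 (by positivity)
    have hxx' : x ≤ x' := by
      apply Real.le_sqrt_of_sq_le
      nlinarith
    have hx'ν : x' ≤ ν := by
      apply (pow_le_pow_iff_left₀ hx'0.le hν0.le (n := 2) (by norm_num)).1
      rw [hx'2]
      nlinarith
    have hw : ν ^ 2 - x ^ 2 = σ * ss ν ^ 4 := by
      rw [hσd]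
      field_simp
    have hσ' : (ν ^ 2 - x' ^ 2) / ss ν ^ 4 = σ / 2 := by
      rw [hx'2, hσd]
      ring
    have h2 := ih x' hx'0 hx'ν (by
      rw [hσ']
      rw [pow_succ] at hσ
      linarith)
    rw [hσ'] at h2
    have h3 := growth h hν hx hxx' hx'ν
    have hdiff : (ν ^ 2 - x ^ 2) / (4 * ν) ≤ x' - x := by
      rw [div_le_iff₀ (by positivity)]
      nlinarith
    have h4 : 1 + σ ^ 3 / 32 ≤ 1 + (ν ^ 2 - x' ^ 2) * (x' - x) ^ 2 / ν ^ 2 := by
      have a1 : ((ν ^ 2 - x ^ 2) / (4 * ν)) ^ 2 ≤ (x' - x) ^ 2 := by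
        apply pow_le_pow_left₀ _ hdiff
        exact div_nonneg (by nlinarith) (by positivity)
      have a2 : ν ^ 2 - x' ^ 2 = σ * ss ν ^ 4 / 2 := by rw [hx'2]; linarith
      have a3 : σ ^ 3 / 32 = (ν ^ 2 - x' ^ 2) * ((ν ^ 2 - x ^ 2) / (4 * ν)) ^ 2 / ν ^ 2 := by
        rw [a2, hw]
        exact alg1 σ (ss ν) ν (by linarith) hs3
      rw [a3]
      have a4 : 0 ≤ ν ^ 2 - x' ^ 2 := by nlinarith
      gcongr
    have h5 : j x ^ 2 * (1 + σ ^ 3 / 32) ≤ j x' ^ 2 :=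
      (mul_le_mul_of_nonneg_left h4 (sq_nonneg _)).trans h3
    have h6 : (1 + σ) ^ 4 ≤ (1 + σ ^ 3 / 32) * (1 + σ / 2) ^ 4 := by
      have b1 : (1 + σ) ^ 4 ≤ (2 * (1 + σ / 2)) ^ 4 := by
        apply pow_le_pow_left₀ (by linarith)
        linarith
      have b2 : (16 : ℝ) ≤ 1 + σ ^ 3 / 32 := by
        have : (8 : ℝ) ^ 3 ≤ σ ^ 3 := pow_le_pow_left₀ (by norm_num) hσ8 3
        linarith
      calc _ ≤ _ := b1
        _ = 16 * (1 + σ / 2) ^ 4 := by ring
        _ ≤ _ := mul_le_mul_of_nonneg_right b2 (by positivity)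
    calc ss ν ^ 2 * j x ^ 2 * (1 + σ) ^ 4
        ≤ ss ν ^ 2 * j x ^ 2 * ((1 + σ ^ 3 / 32) * (1 + σ / 2) ^ 4) :=
          mul_le_mul_of_nonneg_left h6 (by positivity)
      _ = ss ν ^ 2 * (j x ^ 2 * (1 + σ ^ 3 / 32)) * (1 + σ / 2) ^ 4 := by ring
      _ ≤ ss ν ^ 2 * j x' ^ 2 * (1 + σ / 2) ^ 4 := by gcongr
      _ ≤ _ := h2

/-- **Bound below and in the turning region.** -/
theorem turning (h : BD ν C j k) {x : ℝ} (hx : 0 < x) (hs : x ^ 2 - ν ^ 2 ≤ ss ν ^ 4) :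
    ss ν ^ 2 * j x ^ 2 * (1 + |x ^ 2 - ν ^ 2| / ss ν ^ 4) ^ 4 ≤ 48 * 9 ^ 4 * (C + C ^ 2) := by
  have hC := h.C_nonneg
  have hs1 : 1 ≤ ss ν := ss_one ν
  by_cases hν : 1 ≤ ν
  · have hν0 : 0 < ν := by linarith
    rcases le_total x ν with hxν | hxν
    · have hw : 0 ≤ ν ^ 2 - x ^ 2 := by nlinarith
      have e : |x ^ 2 - ν ^ 2| = ν ^ 2 - x ^ 2 := by
        rw [abs_sub_comm, abs_of_nonneg hw]
      rw [e]
      obtain ⟨n, hn⟩ := pow_unbounded_of_one_lt ((ν ^ 2 - x ^ 2) / ss ν ^ 4) (one_lt_two)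
      have h1 := decay h hν n x hx hxν (by
        have : (0 : ℝ) < 2 ^ n := by positivity
        linarith)
      nlinarith [sq_nonneg C]
    · have hw : 0 ≤ x ^ 2 - ν ^ 2 := by nlinarith
      rw [abs_of_nonneg hw]
      have h1 := trans_bound h hν hxν hs
      have h2 : (x ^ 2 - ν ^ 2) / ss ν ^ 4 ≤ 1 := by
        rw [div_le_one (by positivity)]; exact hs
      have h2' : 0 ≤ (x ^ 2 - ν ^ 2) / ss ν ^ 4 := by positivity
      have h3 : (1 + (x ^ 2 - ν ^ 2) / ss ν ^ 4) ^ 4 ≤ 9 ^ 4 := by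
        apply pow_le_pow_left₀ (by linarith)
        linarith
      calc _ ≤ (48 * C) * 9 ^ 4 := mul_le_mul h1 h3 (by positivity) (by linarith)
        _ ≤ _ := by nlinarith [sq_nonneg C]
  · push Not at hν
    have hν0 := h.nn
    have e1 : ss ν = 1 := by
      unfold ss
      rw [max_eq_left hν.le]
      simp
    rw [e1] at hs ⊢
    have hx2 : x ^ 2 ≤ 2 := by nlinarith
    have hx2' : x ≤ 2 := by nlinarith
    have h1 := h.bd x hx hx2'
    have h2 : j x ^ 2 ≤ C ^ 2 := by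
      rw [← sq_abs]
      exact pow_le_pow_left₀ (abs_nonneg _) h1 2
    have h3 : |x ^ 2 - ν ^ 2| ≤ 2 := by
      rw [abs_le]
      constructor <;> nlinarith
    have h4 : (1 + |x ^ 2 - ν ^ 2| / 1 ^ 4) ^ 4 ≤ 9 ^ 4 := by
      apply pow_le_pow_left₀ (by positivity)
      simp only [one_pow, div_one]
      linarith
    calc _ = j x ^ 2 * (1 + |x ^ 2 - ν ^ 2| / 1 ^ 4) ^ 4 := by ring
      _ ≤ C ^ 2 * 9 ^ 4 := mul_le_mul h2 h4 (by positivity) (by positivity)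
      _ ≤ _ := by nlinarith [sq_nonneg C]

end

end Pool.Agent.H243.RA
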