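import Mathlib
import Pool.Agent.H243.RA.B1
import Pool.Agent.H243.RA.B3
set_option autoImplicit false

/-! The radial factors satisfy the hypotheses of the phase-amplitude analysis. -/

open MeasureTheory Set Metric
open scoped ENNReal RealInnerProductSpace Topology

namespace Pool.Agent.H243.RA

open Pool.Agent.W5h55.SH
open Pool.Agent.H789R2.FR (E sg sg_finite)

theorem nu_nonneg (d l : ℕ) (hd : 2 ≤ d) : 0 ≤ nu d l := by
  unfold nu
  have h1 : (2 : ℝ) ≤ d := by exact_mod_cast hd
  have h2 : (0 : ℝ) ≤ l := Nat.cast_nonneg l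
  linarith

theorem jj_sq (d l : ℕ) (hd : 2 ≤ d) (x : ℝ) (hx : 0 < x) :
    x * jj d l x ^ 2 = x ^ (d - 1) * ga d l x ^ 2 := by
  unfold jj
  rw [mul_pow]
  have h1 : (x ^ (((d : ℝ) - 2) / 2)) ^ 2 = x ^ (d - 2) := by
    rw [← Real.rpow_natCast, ← Real.rpow_mul hx.le, ← Real.rpow_natCast x (d - 2),
      Nat.cast_sub hd]
    congr 1
    push_cast
    ring
  rw [h1]
  have h2 : d - 1 = (d - 2) + 1 := by omega
  rw [h2, pow_succ]
  ring

theorem jj_cont (d l : ℕ) (hd : 2 ≤ d) : Continuous (jj d l) := by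
  unfold jj
  have h1 : (0 : ℝ) ≤ ((d : ℝ) - 2) / 2 := by
    have : (2 : ℝ) ≤ d := by exact_mod_cast hd
    linarith
  exact (Real.continuous_rpow_const h1).mul (ga_cont (by omega) l)

theorem jj_BD (d : ℕ) (hd : 2 ≤ d) : ∃ C : ℝ, 0 < C ∧ ∀ l : ℕ, BD (nu d l) C (jj d l) (kk d l) := by
  obtain ⟨C, hC, hL2⟩ := ga_L2 d hd
  have := sg_finite d
  set A : ℝ := (2 : ℝ) ^ (((d : ℝ) - 2) / 2) * (sg d).real univ with hA
  have hA0 : 0 ≤ A := by positivity
  refine ⟨C + A, by linarith, fun l => ⟨nu_nonneg d l hd, fun x hx => jj_deriv d l hd x hx,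
    fun x hx => kk_deriv d l hd x hx, ?_, ?_, ?_⟩⟩
  · intro R hR
    have h1 := hL2 l R hR
    have hc : Continuous fun x : ℝ => x * jj d l x ^ 2 := continuous_id.mul ((jj_cont d l hd).pow 2)
    rw [intervalIntegral.integral_of_le (by linarith)]
    have h2 : ENNReal.ofReal (∫ x in Ioc R (2 * R), x * jj d l x ^ 2) ≤ ENNReal.ofReal (C * R) := by
      rw [ofReal_integral_eq_lintegral_ofReal]
      · refine le_trans (le_of_eq ?_) h1
        refine setLIntegral_congr_fun measurableSet_Ioc fun x hx => ?_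
        have hx0 : 0 < x := lt_trans (by linarith) hx.1
        rw [jj_sq d l hd x hx0, ENNReal.ofReal_mul (by positivity)]
        congr 1
        rw [← ofReal_norm_eq_enorm, ENNReal.ofReal_rpow_of_nonneg (norm_nonneg _) (by norm_num)]
        congr 1
        rw [Real.norm_eq_abs, ← sq_abs]
        norm_cast
      · exact (hc.intervalIntegrable R (2 * R)).1
      · refine (ae_restrict_iff' measurableSet_Ioc).2 (Filter.Eventually.of_forall fun x hx => ?_)
        have hx0 : 0 < x := lt_trans (by linarith) hx.1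
        simp only [Pi.zero_apply]
        positivity
    have h3 := (ENNReal.ofReal_le_ofReal_iff (by positivity)).1 h2
    nlinarith
  · intro x hx hx2
    have h1 := ga_le hd l x hx.le
    unfold jj
    rw [abs_mul, abs_of_nonneg (Real.rpow_nonneg hx.le _)]
    have h2 : x ^ (((d : ℝ) - 2) / 2) ≤ 2 ^ (((d : ℝ) - 2) / 2) := by
      apply Real.rpow_le_rpow hx.le hx2
      have : (2 : ℝ) ≤ d := by exact_mod_cast hd
      linarith
    calc _ ≤ A := mul_le_mul h2 h1 (abs_nonneg _) (by positivity)
      _ ≤ _ := by linarith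
  · intro hν
    have h0 : Filter.Tendsto (fun x => (cc d l * x ^ (nu d l) * phi (2 * l + d) x) * kk d l x)
        (𝓝[>] 0) (𝓝 ((cc d l * (0 : ℝ) ^ (nu d l) * phi (2 * l + d) 0) * kk d l 0)) := by
      have c1 : ContinuousAt (fun x : ℝ => x ^ (nu d l)) 0 :=
        Real.continuousAt_rpow_const 0 _ (Or.inr (by linarith))
      have c2 : ContinuousAt (phi (2 * l + d)) 0 := (phi_cont _ (by omega)).continuousAt
      have c3 : ContinuousAt (phi (2 * l + d + 2)) 0 := (phi_cont _ (by omega)).continuousAt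
      have c4 : ContinuousAt (fun x : ℝ => nu d l * phi (2 * l + d) x -
          x ^ 2 / (2 * l + d : ℕ) * phi (2 * l + d + 2) x) 0 :=
        (continuousAt_const.mul c2).sub (((continuousAt_id.pow 2).div_const _).mul c3)
      have c5 : ContinuousAt (fun x => (cc d l * x ^ (nu d l) * phi (2 * l + d) x) * kk d l x) 0 := by
        unfold kk
        exact ((continuousAt_const.mul c1).mul c2).mul ((continuousAt_const.mul c1).mul c4)
      exact c5.tendsto.mono_left nhdsWithin_le_nhds
    rw [Real.zero_rpow (by linarith)] at h0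
    simp only [mul_zero, zero_mul] at h0
    refine h0.congr' ?_
    filter_upwards [self_mem_nhdsWithin] with x hx
    rw [jj_eq d l x hx]

end Pool.Agent.H243.RA
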