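import Mathlib
set_option autoImplicit false

/-! Elementary inequalities for `√(β - t²)`. -/

namespace Pool.Agent.H243.RA

/-- four points with the same centre of mass: `x2 ≤ x1 ≤ y1 ≤ y2` -/
theorem fourpt_identity (x1 y1 x2 y2 β f1 g1 f2 g2 : ℝ)
    (h1 : f1 ^ 2 = β - x1 ^ 2) (h2 : g1 ^ 2 = β - y1 ^ 2) (h3 : f2 ^ 2 = β - x2 ^ 2)
    (h4 : g2 ^ 2 = β - y2 ^ 2) (hf1 : 0 < f1) (hg1 : 0 < g1) (hf2 : 0 < f2) (hg2 : 0 < g2)
    (hs : x1 + y1 = x2 + y2) :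
    f1 + g1 - f2 - g2 = (x1 - x2) * ((y1 + y2) / (g1 + g2) - (x1 + x2) / (f1 + f2)) := by
  have e1 : f1 - f2 = -((x1 - x2) * (x1 + x2)) / (f1 + f2) := by
    rw [eq_div_iff (by positivity)]
    nlinarith
  have e2 : g1 - g2 = ((x1 - x2) * (y1 + y2)) / (g1 + g2) := by
    rw [eq_div_iff (by positivity)]
    have : x1 - x2 = y2 - y1 := by linarith
    rw [this]
    nlinarith
  have : f1 + g1 - f2 - g2 = (f1 - f2) + (g1 - g2) := by ring
  rw [this, e1, e2]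
  ring

theorem f_anti (x y β f g : ℝ) (hf : 0 < f) (hg : 0 < g) (h1 : f ^ 2 = β - x ^ 2)
    (h2 : g ^ 2 = β - y ^ 2) (hx : 0 ≤ x) (hxy : x ≤ y) : g ≤ f := by
  apply (pow_le_pow_iff_left₀ hg.le hf.le (n := 2) (by norm_num)).1
  rw [h1, h2]
  nlinarith

theorem fourpt_lower (x1 y1 x2 y2 β f1 g1 f2 g2 F : ℝ)
    (h1 : f1 ^ 2 = β - x1 ^ 2) (h2 : g1 ^ 2 = β - y1 ^ 2) (h3 : f2 ^ 2 = β - x2 ^ 2)
    (h4 : g2 ^ 2 = β - y2 ^ 2) (hf1 : 0 < f1) (hg1 : 0 < g1) (hf2 : 0 < f2) (hg2 : 0 < g2)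
    (hs : x1 + y1 = x2 + y2) (hx2 : 0 ≤ x2) (hxx : x2 ≤ x1) (hxy : x1 ≤ y1) (hF1 : f1 ≤ F)
    (hF2 : f2 ≤ F) (hF3 : g1 ≤ F) (hF4 : g2 ≤ F) :
    ((y2 - x2) ^ 2 - (y1 - x1) ^ 2) * ((x1 + y1) ^ 2 + F ^ 2) / (32 * F ^ 3) ≤
      f1 + g1 - f2 - g2 := by
  rw [fourpt_identity x1 y1 x2 y2 β f1 g1 f2 g2 h1 h2 h3 h4 hf1 hg1 hf2 hg2 hs]
  have hF : 0 < F := lt_of_lt_of_le hf1 hF1
  set δ : ℝ := x1 - x2 with hδ
  have hδ0 : 0 ≤ δ := by rw [hδ]; linarith
  set V : ℝ := (y1 - x1) + (y2 - x2) with hV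
  have hyy : y1 ≤ y2 := by linarith
  have hV0 : 0 ≤ V := by rw [hV]; linarith
  set u : ℝ := x1 + y1 with hu
  have hu0 : 0 ≤ u := by rw [hu]; linarith
  have ediff : (y2 - x2) ^ 2 - (y1 - x1) ^ 2 = 2 * δ * V := by
    have : y2 = u - x2 := by rw [hu]; linarith
    rw [hδ, hV, this, hu]
    ring
  rw [ediff]
  set fy : ℝ := g1 + g2 with hfy
  set fx : ℝ := f1 + f2 with hfx
  have hfy0 : 0 < fy := by positivity
  have hfx0 : 0 < fx := by positivity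
  have hfy2 : fy ≤ 2 * F := by rw [hfy]; linarith
  have hfx2 : fx ≤ 2 * F := by rw [hfx]; linarith
  -- fx - fy lower bound
  have key : ∀ x y f g : ℝ, 0 < f → 0 < g → f ≤ F → g ≤ F → f ^ 2 = β - x ^ 2 →
      g ^ 2 = β - y ^ 2 → x ≤ y → x + y = u → (y - x) * u / (2 * F) ≤ f - g := by
    intro x y f g hf hg hfF hgF e1 e2 hxy' hsum
    have e3 : f - g = (y - x) * u / (f + g) := by
      rw [eq_div_iff (by positivity), ← hsum]
      nlinarith
    rw [e3]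
    apply div_le_div_of_nonneg_left _ (by positivity) (by linarith)
    exact mul_nonneg (by linarith) hu0
  have k1 := key x1 y1 f1 g1 hf1 hg1 hF1 hF3 h1 h2 hxy rfl
  have k2 := key x2 y2 f2 g2 hf2 hg2 hF2 hF4 h3 h4 (by linarith) (by rw [← hs])
  have k3 : V * u / (2 * F) ≤ fx - fy := by
    have : V * u / (2 * F) = (y1 - x1) * u / (2 * F) + (y2 - x2) * u / (2 * F) := by
      rw [hV]; ring
    rw [this, hfx, hfy]
    linarith
  have hfxy : fy ≤ fx := by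
    have : 0 ≤ V * u / (2 * F) := by positivity
    linarith
  -- decomposition
  have hX : 0 ≤ x1 + x2 := by linarith
  have dec : (y1 + y2) / fy - (x1 + x2) / fx = V / fy + (x1 + x2) * ((fx - fy) / (fx * fy)) := by
    have : V = (y1 + y2) - (x1 + x2) := by rw [hV]; ring
    rw [this]
    field_simp
    ring
  have b1 : V / (2 * F) ≤ V / fy := div_le_div_of_nonneg_left hV0 hfy0 hfy2
  have b2 : (V * u / (2 * F)) / (2 * F * (2 * F)) ≤ (fx - fy) / (fx * fy) := by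
    apply div_le_div₀ (by linarith) k3 (by positivity)
    exact mul_le_mul hfx2 hfy2 hfy0.le (by positivity)
  have b3 : V / (2 * F) + (x1 + x2) * ((V * u / (2 * F)) / (2 * F * (2 * F))) ≤
      (y1 + y2) / fy - (x1 + x2) / fx := by
    rw [dec]
    have := mul_le_mul_of_nonneg_left b2 hX
    linarith
  refine le_trans ?_ (mul_le_mul_of_nonneg_left b3 hδ0)
  have e5 : δ * (V / (2 * F) + (x1 + x2) * ((V * u / (2 * F)) / (2 * F * (2 * F)))) =
      2 * δ * V * (8 * F ^ 2 + 2 * (x1 + x2) * u) / (32 * F ^ 3) := by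
    field_simp
    ring
  rw [e5]
  apply div_le_div_of_nonneg_right _ (by positivity)
  apply mul_le_mul_of_nonneg_left _ (by positivity)
  by_cases hc : 2 * F ^ 2 ≤ u ^ 2
  · have h5 : u * (y2 - x2) ≤ F ^ 2 := by
      have : u * (y2 - x2) = f2 ^ 2 - g2 ^ 2 := by
        rw [h3, h4, hs]
        ring
      rw [this]
      nlinarith [pow_le_pow_left₀ hf2.le hF2 2]
    have h6 : u ^ 2 ≤ 2 * ((x1 + x2) * u) := by
      have : u - (y2 - x2) ≤ x1 + x2 := by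
        rw [hu]
        linarith
      nlinarith
    nlinarith [sq_nonneg F]
  · push Not at hc
    have : 0 ≤ (x1 + x2) * u := by positivity
    nlinarith

/-- convexity of `1/√(β-t²)` -/
theorem fourpt_conv (x1 y1 x2 y2 β f1 g1 f2 g2 : ℝ)
    (h1 : f1 ^ 2 = β - x1 ^ 2) (h2 : g1 ^ 2 = β - y1 ^ 2) (h3 : f2 ^ 2 = β - x2 ^ 2)
    (h4 : g2 ^ 2 = β - y2 ^ 2) (hf1 : 0 < f1) (hg1 : 0 < g1) (hf2 : 0 < f2) (hg2 : 0 < g2)
    (hs : x1 + y1 = x2 + y2) (hx2 : 0 ≤ x2) (hxx : x2 ≤ x1) (hxy : x1 ≤ y1) :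
    1 / f1 + 1 / g1 ≤ 1 / f2 + 1 / g2 := by
  have hyy : y1 ≤ y2 := by linarith
  have a1 : g1 ≤ f1 := f_anti x1 y1 β f1 g1 hf1 hg1 h1 h2 (by linarith) hxy
  have a2 : g2 ≤ g1 := f_anti y1 y2 β g1 g2 hg1 hg2 h2 h4 (by linarith) hyy
  have a3 : f1 ≤ f2 := f_anti x2 x1 β f2 f1 hf2 hf1 h3 h1 hx2 hxx
  have e1 : 1 / f1 - 1 / f2 = (x1 - x2) * (x1 + x2) / ((f1 + f2) * (f1 * f2)) := by
    have : f2 - f1 = (x1 - x2) * (x1 + x2) / (f1 + f2) := by
      rw [eq_div_iff (by positivity)]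
      nlinarith
    have e : 1 / f1 - 1 / f2 = (f2 - f1) / (f1 * f2) := by
      field_simp
    rw [e, this]
    field_simp
  have e2 : 1 / g2 - 1 / g1 = (x1 - x2) * (y1 + y2) / ((g1 + g2) * (g1 * g2)) := by
    have : g1 - g2 = (x1 - x2) * (y1 + y2) / (g1 + g2) := by
      rw [eq_div_iff (by positivity)]
      have : x1 - x2 = y2 - y1 := by linarith
      rw [this]
      nlinarith
    have e : 1 / g2 - 1 / g1 = (g1 - g2) / (g1 * g2) := by
      field_simp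
    rw [e, this]
    field_simp
  have e3 : (x1 - x2) * (x1 + x2) / ((f1 + f2) * (f1 * f2)) ≤
      (x1 - x2) * (y1 + y2) / ((g1 + g2) * (g1 * g2)) := by
    apply div_le_div₀
    · exact mul_nonneg (by linarith) (by linarith)
    · exact mul_le_mul_of_nonneg_left (by linarith) (by linarith)
    · positivity
    · apply mul_le_mul (by linarith) _ (by positivity) (by positivity)
      exact mul_le_mul (by linarith) (by linarith) hg2.le (by positivity)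
  linarith

end Pool.Agent.H243.RA
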