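import Mathlib
set_option autoImplicit false

/-! A first derivative test for products of phases and amplitudes of bounded variation. -/

open MeasureTheory Set
open scoped ENNReal

namespace Pool.Agent.H243.RA

/-- amplitudes: sup plus total variation at most `A` -/
def BV1 (f : ℝ → ℝ) (α β A : ℝ) : Prop :=
  ∃ (f' : ℝ → ℝ) (s v : ℝ), (∀ x ∈ Icc α β, HasDerivAt f (f' x) x) ∧ ContinuousOn f' (Icc α β) ∧
    (∀ x ∈ Icc α β, |f x| ≤ s) ∧ (∫ x in α..β, |f' x|) ≤ v ∧ 0 ≤ s ∧ 0 ≤ v ∧ s + v ≤ A

theorem BV1.contOn {f : ℝ → ℝ} {α β A : ℝ} (h : BV1 f α β A) : ContinuousOn f (Icc α β) := by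
  obtain ⟨f', s, v, h1, -⟩ := h
  exact fun x hx => (h1 x hx).continuousAt.continuousWithinAt

theorem BV1.mul {f g : ℝ → ℝ} {α β A B : ℝ} (hαβ : α ≤ β) (hf : BV1 f α β A) (hg : BV1 g α β B) :
    BV1 (fun x => f x * g x) α β (A * B) := by
  have cf := hf.contOn
  have cg := hg.contOn
  obtain ⟨f', s, v, h1, h2, h3, h4, h5, h6, h7⟩ := hf
  obtain ⟨g', s', v', k1, k2, k3, k4, k5, k6, k7⟩ := hg
  refine ⟨fun x => f' x * g x + f x * g' x, s * s', v * s' + s * v', ?_, ?_, ?_, ?_,
    by positivity, by positivity, ?_⟩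
  · intro x hx
    exact (h1 x hx).mul (k1 x hx)
  · exact (h2.mul cg).add (cf.mul k2)
  · intro x hx
    rw [abs_mul]
    exact mul_le_mul (h3 x hx) (k3 x hx) (abs_nonneg _) h5
  · have i1 : IntervalIntegrable (fun x => |f' x|) volume α β := by
      apply ContinuousOn.intervalIntegrable
      rw [uIcc_of_le hαβ]
      exact h2.abs
    have i2 : IntervalIntegrable (fun x => |g' x|) volume α β := by
      apply ContinuousOn.intervalIntegrable
      rw [uIcc_of_le hαβ]
      exact k2.abs
    calc ∫ x in α..β, |f' x * g x + f x * g' x|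
        ≤ ∫ x in α..β, (|f' x| * s' + s * |g' x|) := by
          apply intervalIntegral.integral_mono_on hαβ
          · apply ContinuousOn.intervalIntegrable
            rw [uIcc_of_le hαβ]
            exact ((h2.mul cg).add (cf.mul k2)).abs
          · exact (i1.mul_const s').add (i2.const_mul s)
          · intro x hx
            calc |f' x * g x + f x * g' x| ≤ |f' x * g x| + |f x * g' x| := abs_add_le _ _
              _ = |f' x| * |g x| + |f x| * |g' x| := by rw [abs_mul, abs_mul]
              _ ≤ _ := by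
                have a1 := mul_le_mul_of_nonneg_left (k3 x hx) (abs_nonneg (f' x))
                have a2 := mul_le_mul_of_nonneg_right (h3 x hx) (abs_nonneg (g' x))
                linarith
      _ = (∫ x in α..β, |f' x|) * s' + s * ∫ x in α..β, |g' x| := by
          rw [intervalIntegral.integral_add (i1.mul_const s') (i2.const_mul s),
            intervalIntegral.integral_mul_const, intervalIntegral.integral_const_mul]
      _ ≤ _ := by
          have a1 := mul_le_mul_of_nonneg_right h4 k5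
          have a2 := mul_le_mul_of_nonneg_left k4 h5
          linarith
  · have : s * s' + (v * s' + s * v') ≤ (s + v) * (s' + v') := by nlinarith
    exact this.trans (mul_le_mul h7 k7 (by positivity) (by linarith))

/-- a nonnegative monotone or antitone function -/
theorem BV1.of_anti {f f' : ℝ → ℝ} {α β s : ℝ} (hαβ : α ≤ β)
    (hd : ∀ x ∈ Icc α β, HasDerivAt f (f' x) x) (hc : ContinuousOn f' (Icc α β))
    (hn : ∀ x ∈ Icc α β, f' x ≤ 0) (h0 : ∀ x ∈ Icc α β, 0 ≤ f x) (hs : ∀ x ∈ Icc α β, f x ≤ s) :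
    BV1 f α β (2 * s) := by
  have hs0 : 0 ≤ s := (h0 α (left_mem_Icc.2 hαβ)).trans (hs α (left_mem_Icc.2 hαβ))
  refine ⟨f', s, s, hd, hc, ?_, ?_, hs0, hs0, by linarith⟩
  · intro x hx
    rw [abs_of_nonneg (h0 x hx)]
    exact hs x hx
  · have e : ∫ x in α..β, |f' x| = ∫ x in α..β, -f' x := by
      apply intervalIntegral.integral_congr
      intro x hx
      rw [uIcc_of_le hαβ] at hx
      exact abs_of_nonpos (hn x hx)
    have hi : IntervalIntegrable f' volume α β := by
      apply ContinuousOn.intervalIntegrable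
      rw [uIcc_of_le hαβ]
      exact hc
    rw [e, intervalIntegral.integral_neg, intervalIntegral.integral_eq_sub_of_hasDerivAt (f := f)
      (by rw [uIcc_of_le hαβ]; exact hd) hi]
    have := h0 β (right_mem_Icc.2 hαβ)
    have := hs α (left_mem_Icc.2 hαβ)
    linarith

theorem BV1.of_mono {f f' : ℝ → ℝ} {α β s : ℝ} (hαβ : α ≤ β)
    (hd : ∀ x ∈ Icc α β, HasDerivAt f (f' x) x) (hc : ContinuousOn f' (Icc α β))
    (hn : ∀ x ∈ Icc α β, 0 ≤ f' x) (h0 : ∀ x ∈ Icc α β, 0 ≤ f x) (hs : ∀ x ∈ Icc α β, f x ≤ s) :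
    BV1 f α β (2 * s) := by
  have hs0 : 0 ≤ s := (h0 α (left_mem_Icc.2 hαβ)).trans (hs α (left_mem_Icc.2 hαβ))
  refine ⟨f', s, s, hd, hc, ?_, ?_, hs0, hs0, by linarith⟩
  · intro x hx
    rw [abs_of_nonneg (h0 x hx)]
    exact hs x hx
  · have e : ∫ x in α..β, |f' x| = ∫ x in α..β, f' x := by
      apply intervalIntegral.integral_congr
      intro x hx
      rw [uIcc_of_le hαβ] at hx
      exact abs_of_nonneg (hn x hx)
    have hi : IntervalIntegrable f' volume α β := by
      apply ContinuousOn.intervalIntegrable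
      rw [uIcc_of_le hαβ]
      exact hc
    rw [e, intervalIntegral.integral_eq_sub_of_hasDerivAt (f := f)
      (by rw [uIcc_of_le hαβ]; exact hd) hi]
    have := h0 α (left_mem_Icc.2 hαβ)
    have := hs β (right_mem_Icc.2 hαβ)
    linarith

/-- phases: `p' = i q p + r` -/
def PH (p : ℝ → ℂ) (q : ℝ → ℝ) (α β M ρ : ℝ) : Prop :=
  ∃ r : ℝ → ℂ, (∀ x ∈ Icc α β, HasDerivAt p (Complex.I * (q x : ℂ) * p x + r x) x) ∧
    ContinuousOn r (Icc α β) ∧ (∀ x ∈ Icc α β, ‖p x‖ ≤ M) ∧ (∫ x in α..β, ‖r x‖) ≤ ρ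

theorem PH.contOn {p : ℝ → ℂ} {q : ℝ → ℝ} {α β M ρ : ℝ} (h : PH p q α β M ρ) :
    ContinuousOn p (Icc α β) := by
  obtain ⟨r, h1, -⟩ := h
  exact fun x hx => (h1 x hx).continuousAt.continuousWithinAt

theorem PH.mul {p p' : ℝ → ℂ} {q q' : ℝ → ℝ} {α β M ρ M' ρ' : ℝ} (hαβ : α ≤ β) (hM : 0 ≤ M)
    (hM' : 0 ≤ M') (h : PH p q α β M ρ) (k : PH p' q' α β M' ρ') :
    PH (fun x => p x * p' x) (fun x => q x + q' x) α β (M * M') (ρ * M' + M * ρ') := by
  have cp := h.contOn
  have cp' := k.contOn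
  obtain ⟨r, h1, h2, h3, h4⟩ := h
  obtain ⟨r', k1, k2, k3, k4⟩ := k
  refine ⟨fun x => r x * p' x + p x * r' x, ?_, (h2.mul cp').add (cp.mul k2), ?_, ?_⟩
  · intro x hx
    refine HasDerivAt.congr_deriv ((h1 x hx).mul (k1 x hx)) ?_
    push_cast
    ring
  · intro x hx
    rw [norm_mul]
    exact mul_le_mul (h3 x hx) (k3 x hx) (norm_nonneg _) hM
  · have i1 : IntervalIntegrable (fun x => ‖r x‖) volume α β := by
      apply ContinuousOn.intervalIntegrable
      rw [uIcc_of_le hαβ]
      exact h2.norm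
    have i2 : IntervalIntegrable (fun x => ‖r' x‖) volume α β := by
      apply ContinuousOn.intervalIntegrable
      rw [uIcc_of_le hαβ]
      exact k2.norm
    calc ∫ x in α..β, ‖r x * p' x + p x * r' x‖
        ≤ ∫ x in α..β, (‖r x‖ * M' + M * ‖r' x‖) := by
          apply intervalIntegral.integral_mono_on hαβ
          · apply ContinuousOn.intervalIntegrable
            rw [uIcc_of_le hαβ]
            exact ((h2.mul cp').add (cp.mul k2)).norm
          · exact (i1.mul_const M').add (i2.const_mul M)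
          · intro x hx
            calc ‖r x * p' x + p x * r' x‖ ≤ ‖r x * p' x‖ + ‖p x * r' x‖ := norm_add_le _ _
              _ = ‖r x‖ * ‖p' x‖ + ‖p x‖ * ‖r' x‖ := by rw [norm_mul, norm_mul]
              _ ≤ _ := by
                have a1 := mul_le_mul_of_nonneg_left (k3 x hx) (norm_nonneg (r x))
                have a2 := mul_le_mul_of_nonneg_right (h3 x hx) (norm_nonneg (r' x))
                linarith
      _ = (∫ x in α..β, ‖r x‖) * M' + M * ∫ x in α..β, ‖r' x‖ := by
          rw [intervalIntegral.integral_add (i1.mul_const M') (i2.const_mul M),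
            intervalIntegral.integral_mul_const, intervalIntegral.integral_const_mul]
      _ ≤ _ := by
          have a1 := mul_le_mul_of_nonneg_right h4 hM'
          have a2 := mul_le_mul_of_nonneg_left k4 hM
          linarith

theorem PH.conj {p : ℝ → ℂ} {q : ℝ → ℝ} {α β M ρ : ℝ} (h : PH p q α β M ρ) :
    PH (fun x => (starRingEnd ℂ) (p x)) (fun x => -q x) α β M ρ := by
  obtain ⟨r, h1, h2, h3, h4⟩ := h
  refine ⟨fun x => (starRingEnd ℂ) (r x), ?_, Complex.continuous_conj.comp_continuousOn h2, ?_, ?_⟩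
  · intro x hx
    have := (h1 x hx).star
    refine HasDerivAt.congr_deriv this ?_
    simp
  · intro x hx
    rw [RCLike.norm_conj]
    exact h3 x hx
  · simp_rw [RCLike.norm_conj]
    exact h4

/-- **The first derivative test.** -/
theorem vdc {a D D' : ℝ → ℝ} {P : ℝ → ℂ} {α β A δ M ρ : ℝ} (hαβ : α ≤ β) (hδ : 0 < δ) (hM : 0 ≤ M)
    (hA : 0 ≤ A) (ha : BV1 a α β A)
    (hD : ∀ x ∈ Icc α β, HasDerivAt D (D' x) x) (hDc : ContinuousOn D' (Icc α β))
    (hDn : ∀ x ∈ Icc α β, D' x ≤ 0) (hDδ : ∀ x ∈ Icc α β, δ ≤ D x) (hP : PH P D α β M ρ) :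
    ‖∫ x in α..β, (a x : ℂ) * P x‖ ≤ 2 * A / δ * (2 * M + ρ) := by
  have hDpos : ∀ x ∈ Icc α β, 0 < D x := fun x hx => lt_of_lt_of_le hδ (hDδ x hx)
  have hDcont : ContinuousOn D (Icc α β) := fun x hx => (hD x hx).continuousAt.continuousWithinAt
  have hinv : BV1 (fun x => (D x)⁻¹) α β (2 * δ⁻¹) := by
    apply BV1.of_mono (f' := fun x => -D' x / D x ^ 2) hαβ
    · intro x hx
      exact (hD x hx).inv (hDpos x hx).ne'
    · exact hDc.neg.div (hDcont.pow 2) fun x hx => (pow_pos (hDpos x hx) 2).ne'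
    · intro x hx
      exact div_nonneg (by linarith [hDn x hx]) (sq_nonneg _)
    · intro x hx
      exact (inv_pos.2 (hDpos x hx)).le
    · intro x hx
      exact inv_anti₀ hδ (hDδ x hx)
  have hg := ha.mul hαβ hinv
  have cg := hg.contOn
  have cP := hP.contOn
  obtain ⟨g', s, v, g1, g2, g3, g4, g5, g6, g7⟩ := hg
  obtain ⟨r, p1, p2, p3, p4⟩ := hP
  set g : ℝ → ℝ := fun x => a x * (D x)⁻¹ with hgd
  have huIcc : uIcc α β = Icc α β := uIcc_of_le hαβ
  have hder : ∀ x ∈ uIcc α β, HasDerivAt (fun x => (g x : ℂ) * P x)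
      ((g' x : ℂ) * P x + (g x : ℂ) * (Complex.I * (D x : ℂ) * P x + r x)) x := by
    intro x hx
    rw [huIcc] at hx
    exact ((g1 x hx).ofReal_comp).mul (p1 x hx)
  have cg' : ContinuousOn (fun x => (g x : ℂ)) (Icc α β) :=
    Complex.continuous_ofReal.comp_continuousOn cg
  have cgd : ContinuousOn (fun x => (g' x : ℂ)) (Icc α β) :=
    Complex.continuous_ofReal.comp_continuousOn g2
  have cD : ContinuousOn (fun x => (D x : ℂ)) (Icc α β) :=
    Complex.continuous_ofReal.comp_continuousOn hDcont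
  have ca : ContinuousOn (fun x => (a x : ℂ)) (Icc α β) :=
    Complex.continuous_ofReal.comp_continuousOn ha.contOn
  have ii : ∀ f : ℝ → ℂ, ContinuousOn f (Icc α β) → IntervalIntegrable f volume α β := by
    intro f hf
    apply ContinuousOn.intervalIntegrable
    rw [huIcc]
    exact hf
  have i1 : IntervalIntegrable (fun x => (g' x : ℂ) * P x) volume α β := ii _ (cgd.mul cP)
  have i2 : IntervalIntegrable (fun x => (g x : ℂ) * r x) volume α β := ii _ (cg'.mul p2)
  have i3 : IntervalIntegrable (fun x => (a x : ℂ) * P x) volume α β := ii _ (ca.mul cP)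
  have hftc := intervalIntegral.integral_eq_sub_of_hasDerivAt hder
    (ii _ ((cgd.mul cP).add (cg'.mul (((continuousOn_const.mul cD).mul cP).add p2))))
  have hsplit : ∫ x in α..β, ((g' x : ℂ) * P x + (g x : ℂ) * (Complex.I * (D x : ℂ) * P x + r x)) =
      (∫ x in α..β, (g' x : ℂ) * P x) + (∫ x in α..β, (g x : ℂ) * r x) +
        Complex.I * ∫ x in α..β, (a x : ℂ) * P x := by
    rw [← intervalIntegral.integral_const_mul, ← intervalIntegral.integral_add i1 i2,
      ← intervalIntegral.integral_add (i1.add i2) (i3.const_mul _)]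
    apply intervalIntegral.integral_congr
    intro x hx
    rw [huIcc] at hx
    have hDx := (hDpos x hx).ne'
    have hDx' : (D x : ℂ) ≠ 0 := by exact_mod_cast hDx
    simp only [hgd]
    push_cast
    field_simp
    ring
  rw [hsplit] at hftc
  have hI : Complex.I * ∫ x in α..β, (a x : ℂ) * P x =
      (g β : ℂ) * P β - (g α : ℂ) * P α - (∫ x in α..β, (g' x : ℂ) * P x) -
        ∫ x in α..β, (g x : ℂ) * r x := by
    linear_combination hftc
  have hn : ‖∫ x in α..β, (a x : ℂ) * P x‖ = ‖Complex.I * ∫ x in α..β, (a x : ℂ) * P x‖ := by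
    rw [norm_mul, Complex.norm_I, one_mul]
  rw [hn, hI]
  have t1 : ‖(g β : ℂ) * P β‖ ≤ s * M := by
    rw [norm_mul, Complex.norm_real]
    exact mul_le_mul (g3 β (right_mem_Icc.2 hαβ)) (p3 β (right_mem_Icc.2 hαβ)) (norm_nonneg _) g5
  have t2 : ‖(g α : ℂ) * P α‖ ≤ s * M := by
    rw [norm_mul, Complex.norm_real]
    exact mul_le_mul (g3 α (left_mem_Icc.2 hαβ)) (p3 α (left_mem_Icc.2 hαβ)) (norm_nonneg _) g5
  have t3 : ‖∫ x in α..β, (g' x : ℂ) * P x‖ ≤ v * M := by
    calc ‖∫ x in α..β, (g' x : ℂ) * P x‖ ≤ ∫ x in α..β, ‖(g' x : ℂ) * P x‖ :=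
          intervalIntegral.norm_integral_le_integral_norm hαβ
      _ ≤ ∫ x in α..β, |g' x| * M := by
          apply intervalIntegral.integral_mono_on hαβ i1.norm
          · apply ContinuousOn.intervalIntegrable
            rw [huIcc]
            exact g2.abs.mul continuousOn_const
          · intro x hx
            rw [norm_mul, Complex.norm_real]
            exact mul_le_mul_of_nonneg_left (p3 x hx) (norm_nonneg _)
      _ = (∫ x in α..β, |g' x|) * M := by rw [intervalIntegral.integral_mul_const]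
      _ ≤ v * M := mul_le_mul_of_nonneg_right g4 hM
  have t4 : ‖∫ x in α..β, (g x : ℂ) * r x‖ ≤ s * ρ := by
    calc ‖∫ x in α..β, (g x : ℂ) * r x‖ ≤ ∫ x in α..β, ‖(g x : ℂ) * r x‖ :=
          intervalIntegral.norm_integral_le_integral_norm hαβ
      _ ≤ ∫ x in α..β, s * ‖r x‖ := by
          apply intervalIntegral.integral_mono_on hαβ i2.norm
          · apply ContinuousOn.intervalIntegrable
            rw [huIcc]
            exact continuousOn_const.mul p2.norm
          · intro x hx
            rw [norm_mul, Complex.norm_real]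
            exact mul_le_mul_of_nonneg_right (g3 x hx) (norm_nonneg _)
      _ = s * ∫ x in α..β, ‖r x‖ := by rw [intervalIntegral.integral_const_mul]
      _ ≤ s * ρ := mul_le_mul_of_nonneg_left p4 g5
  have hρ : 0 ≤ ρ := by
    refine le_trans ?_ p4
    exact intervalIntegral.integral_nonneg hαβ fun _ _ => norm_nonneg _
  calc ‖(g β : ℂ) * P β - (g α : ℂ) * P α - (∫ x in α..β, (g' x : ℂ) * P x) -
        ∫ x in α..β, (g x : ℂ) * r x‖ ≤ s * M + s * M + v * M + s * ρ := by
        refine (norm_sub_le _ _).trans ?_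
        refine add_le_add ((norm_sub_le _ _).trans (add_le_add ((norm_sub_le _ _).trans
          (add_le_add t1 t2)) t3)) t4
    _ ≤ (A * (2 * δ⁻¹)) * (2 * M + ρ) := by
        have e1 : s * M + s * M + v * M + s * ρ ≤ (s + v) * (2 * M + ρ) := by nlinarith
        exact e1.trans (mul_le_mul_of_nonneg_right g7 (by linarith))
    _ = _ := by
        field_simp

end Pool.Agent.H243.RA
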