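import Mathlib
import Pool.Agent.H243.RA.B3
import Pool.Agent.H243.RA.C1
import Pool.Agent.H243.RA.C2
set_option autoImplicit false

/-! The kernel bound. -/

open MeasureTheory Set
open scoped ENNReal

namespace Pool.Agent.H243.RA

section
variable {ν C : ℝ} {j k : ℝ → ℝ}

theorem rr_contAt (ν x : ℝ) (h : ν ^ 2 < x ^ 2) : ContinuousAt (rr ν) x :=
  (rr_deriv ν x h).continuousAt

theorem VV_contOn (hν : 0 ≤ ν) : ContinuousOn (VV ν) (Ioi ν) := by
  intro x hx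
  have h1 := rr_contAt ν x (sq_lt hν hx)
  have h2 := rr_pos ν x (sq_lt hν hx)
  unfold VV
  exact (ContinuousAt.div (by fun_prop) (h1.pow 10) (pow_pos h2 10).ne').continuousWithinAt

theorem PH_cz (h : BD ν C j k) {a α β : ℝ} (ha : 0 < a) (hαβ : α ≤ β) (hα : ν < α * a)
    (hs : ∀ x ∈ Icc α β, ss ν ≤ rr ν (x * a)) (hα0 : 0 < α) :
    PH (fun x => cz ν j k (x * a)) (fun x => rr ν (x * a) ^ 2 / x) α β (Real.sqrt (8 * C))
      (Real.sqrt (8 * C)) := by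
  have hx : ∀ x ∈ Icc α β, ν < x * a := fun x hx =>
    lt_of_lt_of_le hα (mul_le_mul_of_nonneg_right hx.1 ha.le)
  have hM : ∀ x ∈ Icc α β, ‖cz ν j k (x * a)‖ ≤ Real.sqrt (8 * C) := fun x hx' =>
    Real.le_sqrt_of_sq_le (cz_bound h (hx x hx') (hs x hx'))
  have hsc : ∀ x : ℝ, HasDerivAt (fun x => x * a) a x := fun x => by
    simpa using (hasDerivAt_id x).mul_const a
  have cV : ContinuousOn (fun x => VV ν (x * a)) (Icc α β) :=
    (VV_contOn h.nn).comp (by fun_prop) fun x hx' => hx x hx'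
  have cZ : ContinuousOn (fun x => ZZ ν j (x * a)) (Icc α β) := by
    intro x hx'
    have h1 := (ZZ_deriv h (hx x hx')).continuousAt
    exact (ContinuousAt.comp (f := fun x => x * a) h1 (hsc x).continuousAt).continuousWithinAt
  refine ⟨fun x => Complex.I * ((VV ν (x * a) * ZZ ν j (x * a) * a : ℝ) : ℂ), ?_, ?_, hM, ?_⟩
  · intro x hx'
    have h1 := (cz_deriv h (hx x hx')).scomp x (hsc x)
    refine HasDerivAt.congr_deriv h1 ?_
    have hx0 : (x : ℂ) ≠ 0 := by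
      have : 0 < x := lt_of_lt_of_le hα0 hx'.1
      exact_mod_cast this.ne'
    have ha0 : (a : ℂ) ≠ 0 := by exact_mod_cast ha.ne'
    simp only [Complex.real_smul]
    push_cast
    field_simp
  · refine continuousOn_const.mul (Complex.continuous_ofReal.comp_continuousOn ?_)
    exact (cV.mul cZ).mul continuousOn_const
  · have hVn : ∀ x ∈ Icc α β, 0 ≤ VV ν (x * a) := fun x hx' => VV_nonneg h.nn (hx x hx')
    have e1 : ∫ x in α..β, VV ν (x * a) * a = UU ν (α * a) - UU ν (β * a) := by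
      have hd : ∀ x ∈ uIcc α β, HasDerivAt (fun x => -UU ν (x * a)) (VV ν (x * a) * a) x := by
        intro x hx'
        rw [uIcc_of_le hαβ] at hx'
        have h1 := ((UU_deriv h.nn (hx x hx')).comp x (hsc x)).neg
        refine HasDerivAt.congr_deriv h1 ?_
        ring
      rw [intervalIntegral.integral_eq_sub_of_hasDerivAt hd]
      · ring
      · apply ContinuousOn.intervalIntegrable
        rw [uIcc_of_le hαβ]
        exact cV.mul continuousOn_const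
    have e2 : UU ν (α * a) - UU ν (β * a) ≤ 1 := by
      have u1 := UU_le h.nn (hs α (left_mem_Icc.2 hαβ))
      have u2 := UU_nonneg h.nn (hx β (right_mem_Icc.2 hαβ))
      linarith
    calc ∫ x in α..β, ‖Complex.I * ((VV ν (x * a) * ZZ ν j (x * a) * a : ℝ) : ℂ)‖
        ≤ ∫ x in α..β, VV ν (x * a) * a * Real.sqrt (8 * C) := by
          apply intervalIntegral.integral_mono_on hαβ
          · apply ContinuousOn.intervalIntegrable
            rw [uIcc_of_le hαβ]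
            refine ContinuousOn.norm (continuousOn_const.mul
              (Complex.continuous_ofReal.comp_continuousOn ?_))
            exact (cV.mul cZ).mul continuousOn_const
          · apply ContinuousOn.intervalIntegrable
            rw [uIcc_of_le hαβ]
            exact (cV.mul continuousOn_const).mul continuousOn_const
          · intro x hx'
            rw [norm_mul, Complex.norm_I, one_mul, Complex.norm_real, Real.norm_eq_abs, abs_mul,
              abs_mul, abs_of_nonneg (hVn x hx'), abs_of_pos ha]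
            have := (ZZ_abs_le (ν := ν) (j := j) (k := k) (x * a)).trans (hM x hx')
            calc VV ν (x * a) * |ZZ ν j (x * a)| * a = VV ν (x * a) * a * |ZZ ν j (x * a)| := by ring
              _ ≤ _ := mul_le_mul_of_nonneg_left this (mul_nonneg (hVn x hx') ha.le)
      _ = (UU ν (α * a) - UU ν (β * a)) * Real.sqrt (8 * C) := by
          rw [intervalIntegral.integral_mul_const, e1]
      _ ≤ 1 * Real.sqrt (8 * C) := mul_le_mul_of_nonneg_right e2 (Real.sqrt_nonneg _)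
      _ = _ := one_mul _

theorem BV_rr (hν : 0 ≤ ν) {a α β ω : ℝ} (ha : 0 < a) (hαβ : α ≤ β) (hα : ν < α * a)
    (hω : 0 < ω) (hs : ∀ x ∈ Icc α β, ω ≤ rr ν (x * a)) :
    BV1 (fun x => (rr ν (x * a))⁻¹) α β (2 * ω⁻¹) := by
  have hx : ∀ x ∈ Icc α β, ν < x * a := fun x hx =>
    lt_of_lt_of_le hα (mul_le_mul_of_nonneg_right hx.1 ha.le)
  have hsc : ∀ x : ℝ, HasDerivAt (fun x => x * a) a x := fun x => by
    simpa using (hasDerivAt_id x).mul_const a
  have hrp : ∀ x ∈ Icc α β, 0 < rr ν (x * a) := fun x hx' => lt_of_lt_of_le hω (hs x hx')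
  have hrc : ContinuousOn (fun x => rr ν (x * a)) (Icc α β) := by
    intro x hx'
    have h1 := rr_contAt ν (x * a) (sq_lt hν (hx x hx'))
    exact (ContinuousAt.comp (f := fun x => x * a) h1 (hsc x).continuousAt).continuousWithinAt
  apply BV1.of_anti (f' := fun x => -(x * a / (2 * rr ν (x * a) ^ 3) * a) / rr ν (x * a) ^ 2) hαβ
  · intro x hx'
    have h0 := (rr_deriv ν (x * a) (sq_lt hν (hx x hx'))).comp x (hsc x)
    have h00 : HasDerivAt (fun x => rr ν (x * a)) (x * a / (2 * rr ν (x * a) ^ 3) * a) x := h0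
    exact h00.inv (hrp x hx').ne'
  · apply ContinuousOn.div
    · apply ContinuousOn.neg
      apply ContinuousOn.mul _ continuousOn_const
      apply ContinuousOn.div (by fun_prop) (continuousOn_const.mul (hrc.pow 3))
      intro x hx'
      exact (mul_pos two_pos (pow_pos (hrp x hx') 3)).ne'
    · exact hrc.pow 2
    · intro x hx'
      exact (pow_pos (hrp x hx') 2).ne'
  · intro x hx'
    have h1 := hrp x hx'
    have h2 : 0 < x * a := lt_of_le_of_lt hν (hx x hx')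
    have : 0 ≤ x * a / (2 * rr ν (x * a) ^ 3) * a / rr ν (x * a) ^ 2 := by positivity
    rw [neg_div]
    linarith
  · intro x hx'
    exact (inv_pos.2 (hrp x hx')).le
  · intro x hx'
    exact inv_anti₀ hω (hs x hx')

/-- the frequency `√(λ²a²-ν²)/λ` -/
theorem freq_deriv (hν : 0 ≤ ν) {a x : ℝ} (hx0 : 0 < x) (hx : ν < x * a) :
    HasDerivAt (fun x => rr ν (x * a) ^ 2 / x) (ν ^ 2 / x ^ 3 * (1 / (rr ν (x * a) ^ 2 / x))) x := by
  have hsc : HasDerivAt (fun x => x * a) a x := by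
    simpa using (hasDerivAt_id x).mul_const a
  have hr := rr_pos ν (x * a) (sq_lt hν hx)
  have h4 := rr_four ν (x * a) (sq_lt hν hx).le
  have h1 := (((rr_deriv ν (x * a) (sq_lt hν hx)).comp x hsc).pow 2).div (hasDerivAt_id x) hx0.ne'
  refine HasDerivAt.congr_deriv h1 ?_
  simp only [Function.comp_apply, Pi.pow_apply, id]
  have e1 : ν ^ 2 = (x * a) ^ 2 - rr ν (x * a) ^ 4 := by linarith
  rw [e1]
  field_simp
  ring

theorem freq_sq (hν : 0 ≤ ν) {t x : ℝ} (hx0 : 0 < x) (ht : t ^ 2 ≤ 1)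
    (hx : ν < x * Real.sqrt (1 - t ^ 2)) :
    (rr ν (x * Real.sqrt (1 - t ^ 2)) ^ 2 / x) ^ 2 = (1 - ν ^ 2 / x ^ 2) - t ^ 2 := by
  have h4 := rr_four ν (x * Real.sqrt (1 - t ^ 2)) (sq_lt hν hx).le
  have hs : Real.sqrt (1 - t ^ 2) ^ 2 = 1 - t ^ 2 := Real.sq_sqrt (by linarith)
  rw [div_pow, ← pow_mul, h4, mul_pow, hs]
  field_simp
  ring

/-- abbreviation: `√(1-t²)` -/
noncomputable def cs (t : ℝ) : ℝ := Real.sqrt (1 - t ^ 2)

theorem cs_sq {t : ℝ} (ht : t ^ 2 ≤ 1) : cs t ^ 2 = 1 - t ^ 2 := Real.sq_sqrt (by linarith)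

/-- the product over the four points -/
noncomputable def amp (ν x1 y1 x2 y2 x : ℝ) : ℝ :=
  (rr ν (x * cs x1))⁻¹ * (rr ν (x * cs y1))⁻¹ * ((rr ν (x * cs x2))⁻¹ * (rr ν (x * cs y2))⁻¹)

noncomputable def pha (ν : ℝ) (j k : ℝ → ℝ) (x1 y1 x2 y2 x : ℝ) : ℂ :=
  (cz ν j k (x * cs x1) * cz ν j k (x * cs y1)) *
    ((starRingEnd ℂ) (cz ν j k (x * cs x2)) * (starRingEnd ℂ) (cz ν j k (x * cs y2)))

theorem kernel (h : BD ν C j k) {x1 y1 x2 y2 α β Λ ω : ℝ} (hx2 : 0 ≤ x2) (hxx : x2 < x1)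
    (hxy : x1 ≤ y1) (hy2 : y2 < 1) (hsum : x1 + y1 = x2 + y2) (hΛ : 0 < Λ) (hΛα : Λ ≤ α)
    (hαβ : α ≤ β) (hω : ss ν ≤ ω)
    (hw : ∀ x ∈ Icc α β, ∀ t ∈ ({x1, y1, x2, y2} : Set ℝ),
      ω ^ 4 ≤ (x * cs t) ^ 2 - ν ^ 2 ∧ (x * cs t) ^ 2 - ν ^ 2 ≤ 2 * ω ^ 4) :
    ‖∫ x in α..β, (amp ν x1 y1 x2 y2 x : ℂ) * pha ν j k x1 y1 x2 y2 x‖ ≤
      192 * (8 * C) ^ 2 / ω ^ 4 * (32 * (Real.sqrt 2 * ω ^ 2 / Λ) ^ 3 /
        (((y2 - x2) ^ 2 - (y1 - x1) ^ 2) * ((x1 + y1) ^ 2 + (Real.sqrt 2 * ω ^ 2 / Λ) ^ 2))) := by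
  have hν := h.nn
  have hC := h.C_nonneg
  have hs1 := ss_one ν
  have hω1 : 1 ≤ ω := hs1.trans hω
  have hω0 : 0 < ω := by linarith
  have hα0 : 0 < α := lt_of_lt_of_le hΛ hΛα
  have hyy : y1 < y2 := by linarith
  have hx0 : ∀ x ∈ Icc α β, 0 < x := fun x hx => lt_of_lt_of_le hα0 hx.1
  -- t in [0,1)
  have ht : ∀ t ∈ ({x1, y1, x2, y2} : Set ℝ), 0 ≤ t ∧ t < 1 := by
    intro t ht
    simp only [mem_insert_iff, mem_singleton_iff] at ht
    rcases ht with rfl | rfl | rfl | rfl <;> constructor <;> linarith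
  have hcs : ∀ t ∈ ({x1, y1, x2, y2} : Set ℝ), 0 < cs t := by
    intro t ht'
    obtain ⟨h0, h1⟩ := ht t ht'
    exact Real.sqrt_pos.2 (by nlinarith)
  have hsq : ∀ t ∈ ({x1, y1, x2, y2} : Set ℝ), t ^ 2 ≤ 1 := by
    intro t ht'
    obtain ⟨h0, h1⟩ := ht t ht'
    nlinarith
  have hlt : ∀ x ∈ Icc α β, ∀ t ∈ ({x1, y1, x2, y2} : Set ℝ), ν < x * cs t := by
    intro x hx t ht'
    have h1 := (hw x hx t ht').1
    have h2 : 0 < x * cs t := mul_pos (hx0 x hx) (hcs t ht')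
    have h3 : 0 < ω ^ 4 := by positivity
    apply lt_of_pow_lt_pow_left₀ 2 h2.le
    linarith
  have hrr : ∀ x ∈ Icc α β, ∀ t ∈ ({x1, y1, x2, y2} : Set ℝ), ω ≤ rr ν (x * cs t) := by
    intro x hx t ht'
    have h4 := rr_four ν (x * cs t) (sq_lt hν (hlt x hx t ht')).le
    have h5 := rr_nonneg ν (x * cs t) (sq_lt hν (hlt x hx t ht')).le
    apply (pow_le_pow_iff_left₀ hω0.le h5 (n := 4) (by norm_num)).1
    rw [h4]
    exact (hw x hx t ht').1
  set F : ℝ := Real.sqrt 2 * ω ^ 2 / Λ with hF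
  have hF0 : 0 < F := by rw [hF]; positivity
  have hFle : ∀ x ∈ Icc α β, ∀ t ∈ ({x1, y1, x2, y2} : Set ℝ), rr ν (x * cs t) ^ 2 / x ≤ F := by
    intro x hx t ht'
    have h4 := rr_four ν (x * cs t) (sq_lt hν (hlt x hx t ht')).le
    rw [hF]
    apply div_le_div₀ (by positivity) _ hΛ (hΛα.trans hx.1)
    apply (pow_le_pow_iff_left₀ (by positivity) (by positivity) (n := 2) (by norm_num)).1
    have e : (Real.sqrt 2 * ω ^ 2) ^ 2 = 2 * ω ^ 4 := by
      rw [mul_pow, Real.sq_sqrt (by norm_num), ← pow_mul]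
    rw [← pow_mul, h4, e]
    exact (hw x hx t ht').2
  have m1 : x1 ∈ ({x1, y1, x2, y2} : Set ℝ) := by simp
  have m2 : y1 ∈ ({x1, y1, x2, y2} : Set ℝ) := by simp
  have m3 : x2 ∈ ({x1, y1, x2, y2} : Set ℝ) := by simp
  have m4 : y2 ∈ ({x1, y1, x2, y2} : Set ℝ) := by simp
  -- amplitude
  have ba : BV1 (amp ν x1 y1 x2 y2) α β ((2 * ω⁻¹) * (2 * ω⁻¹) * ((2 * ω⁻¹) * (2 * ω⁻¹))) := by
    have b : ∀ t ∈ ({x1, y1, x2, y2} : Set ℝ), BV1 (fun x => (rr ν (x * cs t))⁻¹) α β (2 * ω⁻¹) :=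
      fun t ht' => BV_rr hν (hcs t ht') hαβ (hlt α (left_mem_Icc.2 hαβ) t ht') hω0
        (fun x hx => hrr x hx t ht')
    exact ((b x1 m1).mul hαβ (b y1 m2)).mul hαβ ((b x2 m3).mul hαβ (b y2 m4))
  -- phase
  set M : ℝ := Real.sqrt (8 * C) with hM
  have hM0 : 0 ≤ M := Real.sqrt_nonneg _
  have hM2 : M ^ 2 = 8 * C := Real.sq_sqrt (by positivity)
  have bp : ∀ t ∈ ({x1, y1, x2, y2} : Set ℝ), PH (fun x => cz ν j k (x * cs t))
      (fun x => rr ν (x * cs t) ^ 2 / x) α β M M := fun t ht' =>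
    PH_cz h (hcs t ht') hαβ (hlt α (left_mem_Icc.2 hαβ) t ht')
      (fun x hx => hω.trans (hrr x hx t ht')) hα0
  have hph := ((bp x1 m1).mul hαβ hM0 hM0 (bp y1 m2)).mul hαβ (mul_nonneg hM0 hM0)
    (mul_nonneg hM0 hM0) (((bp x2 m3).conj).mul hαβ hM0 hM0 ((bp y2 m4).conj))
  -- the difference of the frequencies
  set fr : ℝ → ℝ → ℝ := fun t x => rr ν (x * cs t) ^ 2 / x with hfr
  have hfpos : ∀ x ∈ Icc α β, ∀ t ∈ ({x1, y1, x2, y2} : Set ℝ), 0 < fr t x := by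
    intro x hx t ht'
    have h1 := hrr x hx t ht'
    have h2 := hx0 x hx
    have h3 : 0 < rr ν (x * cs t) := by linarith
    simp only [hfr]
    positivity
  have hfd : ∀ x ∈ Icc α β, ∀ t ∈ ({x1, y1, x2, y2} : Set ℝ),
      HasDerivAt (fr t) (ν ^ 2 / x ^ 3 * (1 / fr t x)) x := by
    intro x hx t ht'
    exact freq_deriv hν (hx0 x hx) (hlt x hx t ht')
  have hfs : ∀ x ∈ Icc α β, ∀ t ∈ ({x1, y1, x2, y2} : Set ℝ),
      fr t x ^ 2 = (1 - ν ^ 2 / x ^ 2) - t ^ 2 := by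
    intro x hx t ht'
    exact freq_sq hν (hx0 x hx) (hsq t ht') (hlt x hx t ht')
  set δ : ℝ := ((y2 - x2) ^ 2 - (y1 - x1) ^ 2) * ((x1 + y1) ^ 2 + F ^ 2) / (32 * F ^ 3) with hδ
  have hdiff : 0 < (y2 - x2) ^ 2 - (y1 - x1) ^ 2 := by nlinarith
  have hδ0 : 0 < δ := by rw [hδ]; positivity
  have hDd : ∀ x ∈ Icc α β, HasDerivAt (fun x => fr x1 x + fr y1 x + (-fr x2 x + -fr y2 x))
      (ν ^ 2 / x ^ 3 * (1 / fr x1 x + 1 / fr y1 x - (1 / fr x2 x + 1 / fr y2 x))) x := by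
    intro x hx
    refine HasDerivAt.congr_deriv (((hfd x hx x1 m1).add (hfd x hx y1 m2)).add
      ((hfd x hx x2 m3).neg.add (hfd x hx y2 m4).neg)) ?_
    ring
  have hfc : ∀ t ∈ ({x1, y1, x2, y2} : Set ℝ), ContinuousOn (fr t) (Icc α β) := fun t ht' x hx =>
    (hfd x hx t ht').continuousAt.continuousWithinAt
  have hv := vdc (a := amp ν x1 y1 x2 y2) (D := fun x => fr x1 x + fr y1 x + (-fr x2 x + -fr y2 x))
    (D' := fun x => ν ^ 2 / x ^ 3 * (1 / fr x1 x + 1 / fr y1 x - (1 / fr x2 x + 1 / fr y2 x)))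
    hαβ hδ0 (mul_nonneg (mul_nonneg hM0 hM0) (mul_nonneg hM0 hM0)) (by positivity) ba hDd
    (by
      have i : ∀ t ∈ ({x1, y1, x2, y2} : Set ℝ), ContinuousOn (fun x => 1 / fr t x) (Icc α β) :=
        fun t ht' => continuousOn_const.div (hfc t ht') fun x hx => (hfpos x hx t ht').ne'
      have i3 : ContinuousOn (fun x : ℝ => ν ^ 2 / x ^ 3) (Icc α β) :=
        continuousOn_const.div (by fun_prop) fun x hx => (pow_pos (hx0 x hx) 3).ne'
      exact i3.mul (((i x1 m1).add (i y1 m2)).sub ((i x2 m3).add (i y2 m4))))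
    (by
      intro x hx
      have h1 := fourpt_conv x1 y1 x2 y2 (1 - ν ^ 2 / x ^ 2) (fr x1 x) (fr y1 x) (fr x2 x) (fr y2 x)
        (hfs x hx x1 m1) (hfs x hx y1 m2) (hfs x hx x2 m3) (hfs x hx y2 m4) (hfpos x hx x1 m1)
        (hfpos x hx y1 m2) (hfpos x hx x2 m3) (hfpos x hx y2 m4) hsum hx2 hxx.le hxy
      have h2 := hx0 x hx
      apply mul_nonpos_of_nonneg_of_nonpos (by positivity)
      linarith)
    (by
      intro x hx
      have h1 := fourpt_lower x1 y1 x2 y2 (1 - ν ^ 2 / x ^ 2) (fr x1 x) (fr y1 x) (fr x2 x)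
        (fr y2 x) F
        (hfs x hx x1 m1) (hfs x hx y1 m2) (hfs x hx x2 m3) (hfs x hx y2 m4) (hfpos x hx x1 m1)
        (hfpos x hx y1 m2) (hfpos x hx x2 m3) (hfpos x hx y2 m4) hsum hx2 hxx.le hxy
        (hFle x hx x1 m1) (hFle x hx x2 m3) (hFle x hx y1 m2) (hFle x hx y2 m4)
      rw [hδ]
      linarith)
    hph
  refine le_trans hv (le_of_eq ?_)
  have e1 : 2 * (M * M * (M * M)) + ((M * M + M * M) * (M * M) + M * M * (M * M + M * M)) =
      6 * (M ^ 2) ^ 2 := by ring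
  rw [e1, hM2, hδ]
  field_simp
  ring

theorem kernel_triv (h : BD ν C j k) {x1 y1 x2 y2 α β ω : ℝ} (hα0 : 0 < α)
    (hαβ : α ≤ β) (hω : ss ν ≤ ω) (ht : ∀ t ∈ ({x1, y1, x2, y2} : Set ℝ), 0 ≤ t ∧ t < 1)
    (hw : ∀ x ∈ Icc α β, ∀ t ∈ ({x1, y1, x2, y2} : Set ℝ),
      ω ^ 4 ≤ (x * cs t) ^ 2 - ν ^ 2) :
    ‖∫ x in α..β, (amp ν x1 y1 x2 y2 x : ℂ) * pha ν j k x1 y1 x2 y2 x‖ ≤
      (8 * C) ^ 2 / ω ^ 4 * (β - α) := by
  have hν := h.nn
  have hC := h.C_nonneg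
  have hs1 := ss_one ν
  have hω0 : 0 < ω := by linarith
  have hx0 : ∀ x ∈ Icc α β, 0 < x := fun x hx => lt_of_lt_of_le hα0 hx.1
  have hcs : ∀ t ∈ ({x1, y1, x2, y2} : Set ℝ), 0 < cs t := by
    intro t ht'
    obtain ⟨h0, h1⟩ := ht t ht'
    exact Real.sqrt_pos.2 (by nlinarith)
  have hlt : ∀ x ∈ Icc α β, ∀ t ∈ ({x1, y1, x2, y2} : Set ℝ), ν < x * cs t := by
    intro x hx t ht'
    have h1 := hw x hx t ht'
    have h2 : 0 < x * cs t := mul_pos (hx0 x hx) (hcs t ht')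
    have h3 : 0 < ω ^ 4 := by positivity
    apply lt_of_pow_lt_pow_left₀ 2 h2.le
    linarith
  have hrr : ∀ x ∈ Icc α β, ∀ t ∈ ({x1, y1, x2, y2} : Set ℝ), ω ≤ rr ν (x * cs t) := by
    intro x hx t ht'
    have h4 := rr_four ν (x * cs t) (sq_lt hν (hlt x hx t ht')).le
    have h5 := rr_nonneg ν (x * cs t) (sq_lt hν (hlt x hx t ht')).le
    apply (pow_le_pow_iff_left₀ hω0.le h5 (n := 4) (by norm_num)).1
    rw [h4]
    exact hw x hx t ht'
  set M : ℝ := Real.sqrt (8 * C) with hM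
  have hM0 : 0 ≤ M := Real.sqrt_nonneg _
  have hM2 : M ^ 2 = 8 * C := Real.sq_sqrt (by positivity)
  have m1 : x1 ∈ ({x1, y1, x2, y2} : Set ℝ) := by simp
  have m2 : y1 ∈ ({x1, y1, x2, y2} : Set ℝ) := by simp
  have m3 : x2 ∈ ({x1, y1, x2, y2} : Set ℝ) := by simp
  have m4 : y2 ∈ ({x1, y1, x2, y2} : Set ℝ) := by simp
  have hb := intervalIntegral.norm_integral_le_of_norm_le_const (a := α) (b := β)
    (f := fun x => (amp ν x1 y1 x2 y2 x : ℂ) * pha ν j k x1 y1 x2 y2 x)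
    (C := (8 * C) ^ 2 / ω ^ 4) (by
      intro x hx
      rw [uIoc_of_le hαβ] at hx
      have hx' : x ∈ Icc α β := ⟨hx.1.le, hx.2⟩
      have hM' : ∀ t ∈ ({x1, y1, x2, y2} : Set ℝ), ‖cz ν j k (x * cs t)‖ ≤ M := fun t ht' =>
        Real.le_sqrt_of_sq_le (cz_bound h (hlt x hx' t ht') (hω.trans (hrr x hx' t ht')))
      have hi : ∀ t ∈ ({x1, y1, x2, y2} : Set ℝ), |(rr ν (x * cs t))⁻¹| ≤ ω⁻¹ := by
        intro t ht'
        have h1 := hrr x hx' t ht'
        rw [abs_of_pos (inv_pos.2 (by linarith))]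
        exact inv_anti₀ hω0 h1
      rw [norm_mul, Complex.norm_real, Real.norm_eq_abs]
      unfold amp pha
      rw [abs_mul, abs_mul, abs_mul, norm_mul, norm_mul, norm_mul, RCLike.norm_conj,
        RCLike.norm_conj]
      have a1 : |(rr ν (x * cs x1))⁻¹| * |(rr ν (x * cs y1))⁻¹| *
          (|(rr ν (x * cs x2))⁻¹| * |(rr ν (x * cs y2))⁻¹|) ≤ ω⁻¹ * ω⁻¹ * (ω⁻¹ * ω⁻¹) := by
        have := hi x1 m1
        have := hi y1 m2
        have := hi x2 m3
        have := hi y2 m4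
        gcongr
      have a2 : ‖cz ν j k (x * cs x1)‖ * ‖cz ν j k (x * cs y1)‖ *
          (‖cz ν j k (x * cs x2)‖ * ‖cz ν j k (x * cs y2)‖) ≤ M * M * (M * M) := by
        have := hM' x1 m1
        have := hM' y1 m2
        have := hM' x2 m3
        have := hM' y2 m4
        gcongr
      calc _ ≤ (ω⁻¹ * ω⁻¹ * (ω⁻¹ * ω⁻¹)) * (M * M * (M * M)) :=
            mul_le_mul a1 a2 (by positivity) (by positivity)
        _ = (M ^ 2) ^ 2 / ω ^ 4 := by field_simp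
        _ = _ := by rw [hM2])
  rwa [abs_of_nonneg (by linarith)] at hb

end

end Pool.Agent.H243.RA
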