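import Mathlib
import Pool.Graph.R_seed8.H789R2.FR.Planch
set_option autoImplicit false

/-! General `TT*` and Plancherel lemmas. -/

open MeasureTheory Set
open scoped ENNReal

namespace Pool.Agent.H243.RA

theorem tt_star {X Y : Type*} [MeasurableSpace X] [MeasurableSpace Y] (μ : Measure X)
    (τ : Measure Y) [IsFiniteMeasure μ] [IsFiniteMeasure τ] (B : X → Y → ℂ)
    (hB : Measurable (Function.uncurry B)) (M : ℝ) (hM : ∀ x y, ‖B x y‖ ≤ M) (F : Y → ℂ)
    (hF : Measurable F) (hF1 : ∀ y, ‖F y‖ ≤ 1) :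
    ∫⁻ x, ‖∫ y, F y * B x y ∂τ‖ₑ ^ 2 ∂μ ≤
      ∫⁻ y, ∫⁻ y', ‖∫ x, B x y * (starRingEnd ℂ) (B x y') ∂μ‖ₑ ∂τ ∂τ := by
  by_cases hX : IsEmpty X
  · have : μ = 0 := Measure.eq_zero_of_isEmpty μ
    simp [this]
  by_cases hY : IsEmpty Y
  · have : τ = 0 := Measure.eq_zero_of_isEmpty τ
    simp [this]
  rw [not_isEmpty_iff] at hX hY
  have hM0 : 0 ≤ M := (norm_nonneg _).trans (hM hX.some hY.some)
  set G : X → ℂ := fun x => ∫ y, F y * B x y ∂τ with hG
  have hmFB : Measurable fun p : X × Y => F p.2 * B p.1 p.2 :=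
    (hF.comp measurable_snd).mul hB
  have hGm : StronglyMeasurable G := hmFB.stronglyMeasurable.integral_prod_right
  have hFB : ∀ x y, ‖F y * B x y‖ ≤ M := fun x y => by
    rw [norm_mul]
    calc ‖F y‖ * ‖B x y‖ ≤ 1 * M := mul_le_mul (hF1 y) (hM x y) (norm_nonneg _) zero_le_one
      _ = M := one_mul _
  have hGb : ∀ x, ‖G x‖ ≤ M * τ.real univ := fun x =>
    norm_integral_le_of_norm_le_const (Filter.Eventually.of_forall fun y => hFB x y)
  set Φ : X → Y × Y → ℂ := fun x p => (F p.1 * B x p.1) * (starRingEnd ℂ) (F p.2 * B x p.2) with hΦ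
  have hΦm : Measurable (Function.uncurry Φ) := by
    have a1 : Measurable fun q : X × (Y × Y) => F q.2.1 * B q.1 q.2.1 :=
      hmFB.comp (measurable_fst.prodMk (measurable_fst.comp measurable_snd))
    have a2 : Measurable fun q : X × (Y × Y) => F q.2.2 * B q.1 q.2.2 :=
      hmFB.comp (measurable_fst.prodMk (measurable_snd.comp measurable_snd))
    exact a1.mul (Complex.continuous_conj.measurable.comp a2)
  have hΦb : ∀ x p, ‖Φ x p‖ ≤ M * M := fun x p => by
    simp only [hΦ]
    rw [norm_mul, RCLike.norm_conj]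
    exact mul_le_mul (hFB _ _) (hFB _ _) (norm_nonneg _) hM0
  have h1 : ∀ x, ((‖G x‖ ^ 2 : ℝ) : ℂ) = ∫ p, Φ x p ∂(τ.prod τ) := by
    intro x
    simp only [hΦ]
    rw [integral_prod_mul (μ := τ) (ν := τ) (fun y => F y * B x y)
      (fun y => (starRingEnd ℂ) (F y * B x y)), integral_conj]
    rw [Complex.mul_conj, Complex.normSq_eq_norm_sq]
  have h2 : ∫ x, ((‖G x‖ ^ 2 : ℝ) : ℂ) ∂μ = ∫ p, ∫ x, Φ x p ∂μ ∂(τ.prod τ) := by
    simp_rw [h1]
    apply integral_integral_swap
    exact Integrable.of_bound hΦm.aestronglyMeasurable (M * M)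
      (Filter.Eventually.of_forall fun q => hΦb q.1 q.2)
  have h3 : ∫⁻ x, ‖G x‖ₑ ^ 2 ∂μ = ‖∫ x, ((‖G x‖ ^ 2 : ℝ) : ℂ) ∂μ‖ₑ := by
    have hint : Integrable (fun x => ‖G x‖ ^ 2) μ :=
      Integrable.of_bound (hGm.norm.measurable.pow_const 2).aestronglyMeasurable
        ((M * τ.real univ) ^ 2) (Filter.Eventually.of_forall fun x => by
          rw [Real.norm_of_nonneg (sq_nonneg _)]
          exact pow_le_pow_left₀ (norm_nonneg _) (hGb x) 2)
    rw [integral_complex_ofReal, ← ofReal_norm, Complex.norm_real,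
      Real.norm_of_nonneg (integral_nonneg fun x => sq_nonneg _),
      ofReal_integral_eq_lintegral_ofReal hint (Filter.Eventually.of_forall fun x => sq_nonneg _)]
    refine lintegral_congr fun x => ?_
    rw [ENNReal.ofReal_pow (norm_nonneg _), ofReal_norm]
  rw [h3, h2]
  refine (enorm_integral_le_lintegral_enorm _).trans ?_
  have hKm : Measurable fun p : Y × Y => ‖∫ x, B x p.1 * (starRingEnd ℂ) (B x p.2) ∂μ‖ₑ := by
    have a1 : Measurable fun q : (Y × Y) × X => B q.2 q.1.1 * (starRingEnd ℂ) (B q.2 q.1.2) := by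
      have b1 : Measurable fun q : (Y × Y) × X => B q.2 q.1.1 :=
        hB.comp (measurable_snd.prodMk (measurable_fst.comp measurable_fst))
      have b2 : Measurable fun q : (Y × Y) × X => B q.2 q.1.2 :=
        hB.comp (measurable_snd.prodMk (measurable_snd.comp measurable_fst))
      exact b1.mul (Complex.continuous_conj.measurable.comp b2)
    exact (a1.stronglyMeasurable.integral_prod_right').measurable.enorm
  calc ∫⁻ p, ‖∫ x, Φ x p ∂μ‖ₑ ∂(τ.prod τ)
      ≤ ∫⁻ p : Y × Y, ‖∫ x, B x p.1 * (starRingEnd ℂ) (B x p.2) ∂μ‖ₑ ∂(τ.prod τ) := by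
        apply lintegral_mono
        intro p
        have e : ∫ x, Φ x p ∂μ = (F p.1 * (starRingEnd ℂ) (F p.2)) *
            ∫ x, B x p.1 * (starRingEnd ℂ) (B x p.2) ∂μ := by
          rw [← integral_const_mul]
          refine integral_congr_ae (Filter.Eventually.of_forall fun x => ?_)
          simp only [hΦ, map_mul]
          ring
        simp only
        rw [e, enorm_mul]
        calc ‖F p.1 * (starRingEnd ℂ) (F p.2)‖ₑ * _ ≤ 1 * _ := by
              gcongr
              rw [← ofReal_norm, norm_mul, RCLike.norm_conj]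
              rw [ENNReal.ofReal_le_one]
              exact mul_le_one₀ (hF1 _) (norm_nonneg _) (hF1 _)
          _ = _ := one_mul _
    _ = _ := lintegral_prod _ hKm.aemeasurable

theorem sq_conv (f : ℝ → ℂ) (hf : Measurable f) (M : ℝ) (hM : ∀ t, ‖f t‖ ≤ M)
    (h0 : ∀ t, t ∉ Ioo (0 : ℝ) 1 → f t = 0) (z : ℝ) :
    (∫ t in Ioo (0 : ℝ) 1, Complex.exp (-((z * t : ℝ) : ℂ) * Complex.I) * f t) ^ 2 =
      ∫ u in Ioo (0 : ℝ) 2, Complex.exp (-((z * u : ℝ) : ℂ) * Complex.I) *
        ∫ t in Ioo (0 : ℝ) 1, f t * f (u - t) := by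
  have hM0 : 0 ≤ M := (norm_nonneg _).trans (hM 0)
  set e : ℝ → ℂ := fun t => Complex.exp (-((z * t : ℝ) : ℂ) * Complex.I) with he
  have hem : Measurable e := by
    have : Continuous e := by simp only [he]; fun_prop
    exact this.measurable
  have hen : ∀ t, ‖e t‖ = 1 := fun t => by
    simp only [he]
    rw [show -((z * t : ℝ) : ℂ) * Complex.I = ((-(z * t) : ℝ) : ℂ) * Complex.I by push_cast; ring]
    exact Complex.norm_exp_ofReal_mul_I _
  have hadd : ∀ s t, e s * e t = e (s + t) := fun s t => by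
    simp only [he]
    rw [← Complex.exp_add]
    congr 1
    push_cast
    ring
  have hs : ∀ g : ℝ → ℂ, ∫ t in Ioo (0 : ℝ) 1, g t * f t = ∫ t, g t * f t := by
    intro g
    rw [← integral_indicator measurableSet_Ioo]
    congr 1
    funext t
    by_cases ht : t ∈ Ioo (0 : ℝ) 1
    · rw [indicator_of_mem ht]
    · rw [indicator_of_notMem ht, h0 t ht, mul_zero]
  have hs2 : ∀ u, ∫ t in Ioo (0 : ℝ) 1, f t * f (u - t) = ∫ t, f t * f (u - t) := by
    intro u
    rw [← integral_indicator measurableSet_Ioo]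
    congr 1
    funext t
    by_cases ht : t ∈ Ioo (0 : ℝ) 1
    · rw [indicator_of_mem ht]
    · rw [indicator_of_notMem ht, h0 t ht, zero_mul]
  have hsupp : ∀ u, u ∉ Ioo (0 : ℝ) 2 → ∫ t, f t * f (u - t) = 0 := by
    intro u hu
    have : (fun t => f t * f (u - t)) = fun _ => 0 := by
      funext t
      by_cases ht : t ∈ Ioo (0 : ℝ) 1
      · by_cases ht' : u - t ∈ Ioo (0 : ℝ) 1
        · exfalso
          apply hu
          constructor
          · linarith [ht.1, ht'.1]
          · linarith [ht.2, ht'.2]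
        · rw [h0 _ ht', mul_zero]
      · rw [h0 _ ht, zero_mul]
    rw [this, integral_zero]
  have hR : ∫ u in Ioo (0 : ℝ) 2, e u * ∫ t in Ioo (0 : ℝ) 1, f t * f (u - t) =
      ∫ u, e u * ∫ t, f t * f (u - t) := by
    rw [← integral_indicator measurableSet_Ioo]
    congr 1
    funext u
    by_cases hu : u ∈ Ioo (0 : ℝ) 2
    · rw [indicator_of_mem hu, hs2]
    · rw [indicator_of_notMem hu, hsupp u hu, mul_zero]
  -- integrability of f
  have hfi : Integrable f := by
    have h1 : IntegrableOn f (Ioo (0 : ℝ) 1) :=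
      Integrable.of_bound hf.aestronglyMeasurable M (Filter.Eventually.of_forall hM)
    have h2 : f = (Ioo (0 : ℝ) 1).indicator f := by
      funext t
      by_cases ht : t ∈ Ioo (0 : ℝ) 1
      · rw [indicator_of_mem ht]
      · rw [indicator_of_notMem ht, h0 t ht]
    rw [h2]
    exact h1.integrable_indicator measurableSet_Ioo
  have hprod : Integrable (fun p : ℝ × ℝ => f p.2 * f (p.1 - p.2)) (volume.prod volume) := by
    have := hfi.convolution_integrand (L := ContinuousLinearMap.mul ℝ ℂ) hfi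
    exact this
  have hprod' : Integrable (fun p : ℝ × ℝ => e p.1 * (f p.2 * f (p.1 - p.2)))
      (volume.prod volume) := by
    have := hprod.bdd_mul (c := 1) (f := fun p : ℝ × ℝ => e p.1)
      (hem.comp measurable_fst).aestronglyMeasurable
      (Filter.Eventually.of_forall fun p => (hen p.1).le)
    exact this
  change (∫ t in Ioo (0 : ℝ) 1, e t * f t) ^ 2 = _
  rw [hR, hs e, sq]
  calc (∫ t, e t * f t) * ∫ t, e t * f t
      = ∫ t, (e t * f t) * ∫ s, e s * f s := by rw [integral_mul_const]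
    _ = ∫ t, ∫ u, e u * (f t * f (u - t)) := by
        refine integral_congr_ae (Filter.Eventually.of_forall fun t => ?_)
        simp only
        rw [← integral_sub_right_eq_self (fun s => e s * f s) t, ← integral_const_mul]
        refine integral_congr_ae (Filter.Eventually.of_forall fun u => ?_)
        simp only
        have : e u = e t * e (u - t) := by rw [hadd]; congr 1; ring
        rw [this]
        ring
    _ = ∫ u, ∫ t, e u * (f t * f (u - t)) := by
        apply integral_integral_swap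
        exact hprod'.swap
    _ = ∫ u, e u * ∫ t, f t * f (u - t) := by
        refine integral_congr_ae (Filter.Eventually.of_forall fun u => ?_)
        simp only
        rw [integral_const_mul]

theorem four_planch (f : ℝ → ℂ) (hf : Measurable f) (M : ℝ) (hM : ∀ t, ‖f t‖ ≤ M)
    (h0 : ∀ t, t ∉ Ioo (0 : ℝ) 1 → f t = 0) :
    ∫⁻ z : ℝ, ‖∫ t in Ioo (0 : ℝ) 1, Complex.exp (-((z * t : ℝ) : ℂ) * Complex.I) * f t‖ₑ ^ 4 ≤
      ENNReal.ofReal (2 * Real.pi) *
        ∫⁻ u in Ioo (0 : ℝ) 2, ‖∫ t in Ioo (0 : ℝ) 1, f t * f (u - t)‖ₑ ^ 2 := by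
  have hM0 : 0 ≤ M := (norm_nonneg _).trans (hM 0)
  set H : ℝ → ℂ := fun u => ∫ t in Ioo (0 : ℝ) 1, f t * f (u - t) with hH
  have hHm : Measurable H := by
    have a1 : Measurable fun p : ℝ × ℝ => f p.2 * f (p.1 - p.2) :=
      (hf.comp measurable_snd).mul (hf.comp (measurable_fst.sub measurable_snd))
    exact (a1.stronglyMeasurable.integral_prod_right' (ν := volume.restrict (Ioo (0 : ℝ) 1))).measurable
  have hHb : ∀ u, ‖H u‖ ≤ M * M := by
    intro u
    have := norm_setIntegral_le_of_norm_le_const (s := Ioo (0 : ℝ) 1) (μ := volume)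
      (f := fun t => f t * f (u - t)) (C := M * M) (by simp) (fun t _ => by
        rw [norm_mul]
        exact mul_le_mul (hM _) (hM _) (norm_nonneg _) hM0)
    simpa using this
  have hpl := Pool.Agent.H789R2.FR.pl_phase (Ioo (0 : ℝ) 2) measurableSet_Ioo (by simp) (fun c => c)
    (fun _ => 1) measurable_id measurable_const (fun c _ => hasDerivWithinAt_id c _)
    (fun _ _ => one_ne_zero) (injOn_id _) H hHm ⟨M * M, hHb⟩
  calc ∫⁻ z : ℝ, ‖∫ t in Ioo (0 : ℝ) 1, Complex.exp (-((z * t : ℝ) : ℂ) * Complex.I) * f t‖ₑ ^ 4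
      = ∫⁻ z : ℝ, ENNReal.ofReal (‖∫ u in Ioo (0 : ℝ) 2,
          Complex.exp (-((z * u : ℝ) : ℂ) * Complex.I) * H u‖ ^ 2) := by
        refine lintegral_congr fun z => ?_
        rw [← sq_conv f hf M hM h0 z, norm_pow, ← pow_mul, ENNReal.ofReal_pow (norm_nonneg _),
          ofReal_norm]
    _ ≤ _ := hpl
    _ = _ := by
        congr 1
        refine lintegral_congr fun u => ?_
        rw [abs_one, div_one, ENNReal.ofReal_pow (norm_nonneg _), ofReal_norm]

end Pool.Agent.H243.RA
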