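import Mathlib
import Pool.Agent.H243.RA.C3
import Pool.Agent.H243.RA.C4
set_option autoImplicit false

/-! The pieces and their kernels. -/

open MeasureTheory Set
open scoped ENNReal

namespace Pool.Agent.H243.RA

section
variable {ν C : ℝ} {j k : ℝ → ℝ}

/-- the piece where `ω⁴ < x²(1-t²) - ν² ≤ 2ω⁴` -/
noncomputable def Ap (ν : ℝ) (j k : ℝ → ℝ) (ω x t : ℝ) : ℂ :=
  open Classical in
  if (0 < x ∧ 0 < t ∧ t < 1) ∧ ω ^ 4 < (x * cs t) ^ 2 - ν ^ 2 ∧ (x * cs t) ^ 2 - ν ^ 2 ≤ 2 * ω ^ 4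
  then (((rr ν (x * cs t))⁻¹ : ℝ) : ℂ) * cz ν j k (x * cs t) else 0

theorem rr_meas (ν : ℝ) : Measurable (rr ν) := by unfold rr; fun_prop

theorem cs_meas : Measurable cs := by unfold cs; fun_prop

theorem cz_meas (hj : Measurable j) (hk : Measurable k) : Measurable (cz ν j k) := by
  have h1 := rr_meas ν
  have hZ : Measurable (ZZ ν j) := by unfold ZZ; fun_prop
  have hY : Measurable (YY ν j k) := by unfold YY; fun_prop
  unfold cz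
  fun_prop

theorem Ap_meas (hj : Measurable j) (hk : Measurable k) (ω : ℝ) :
    Measurable (Function.uncurry (Ap ν j k ω)) := by
  have h1 := cz_meas (ν := ν) hj hk
  have h2 := rr_meas ν
  have h3 := cs_meas
  have hx : Measurable fun p : ℝ × ℝ => p.1 * cs p.2 :=
    measurable_fst.mul (h3.comp measurable_snd)
  unfold Ap
  apply Measurable.ite
  · apply MeasurableSet.inter
    · exact (measurableSet_lt measurable_const measurable_fst).inter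
        ((measurableSet_lt measurable_const measurable_snd).inter
          (measurableSet_lt measurable_snd measurable_const))
    · exact (measurableSet_lt measurable_const ((hx.pow_const 2).sub_const _)).inter
        (measurableSet_le ((hx.pow_const 2).sub_const _) measurable_const)
  · exact (Complex.measurable_ofReal.comp (h2.comp hx).inv).mul (h1.comp hx)
  · exact measurable_const

theorem cs_pos {t : ℝ} (h0 : 0 < t) (h1 : t < 1) : 0 < cs t := Real.sqrt_pos.2 (by nlinarith)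

theorem Ap_zero (ω x t : ℝ) (ht : t ∉ Ioo (0 : ℝ) 1) : Ap ν j k ω x t = 0 := by
  unfold Ap
  rw [if_neg]
  rintro ⟨⟨_, h1, h2⟩, _⟩
  exact ht ⟨h1, h2⟩

theorem Ap_bound (h : BD ν C j k) {ω : ℝ} (hω : ss ν ≤ ω) (x t : ℝ) :
    ‖Ap ν j k ω x t‖ ≤ Real.sqrt (8 * C) := by
  have hs1 := ss_one ν
  have hω0 : 0 < ω := by linarith
  unfold Ap
  split_ifs with hc
  · obtain ⟨⟨hx, ht0, ht1⟩, h1, h2⟩ := hc
    have hcs := cs_pos ht0 ht1
    have hxc : 0 < x * cs t := mul_pos hx hcs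
    have hlt : ν < x * cs t := by
      have h3 : 0 < ω ^ 4 := by positivity
      apply lt_of_pow_lt_pow_left₀ 2 hxc.le
      linarith
    have h4 := rr_four ν (x * cs t) (sq_lt h.nn hlt).le
    have h5 := rr_nonneg ν (x * cs t) (sq_lt h.nn hlt).le
    have hrr : ω ≤ rr ν (x * cs t) := by
      apply (pow_le_pow_iff_left₀ (by linarith) h5 (n := 4) (by norm_num)).1
      rw [h4]
      exact h1.le
    have h6 : ‖cz ν j k (x * cs t)‖ ≤ Real.sqrt (8 * C) :=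
      Real.le_sqrt_of_sq_le (cz_bound h hlt (hω.trans hrr))
    rw [norm_mul, Complex.norm_real, Real.norm_eq_abs, abs_of_nonneg (inv_nonneg.2 h5)]
    have h7 : (rr ν (x * cs t))⁻¹ ≤ 1 := inv_le_one_of_one_le₀ (by linarith)
    calc _ ≤ 1 * Real.sqrt (8 * C) := mul_le_mul h7 h6 (norm_nonneg _) zero_le_one
      _ = _ := one_mul _
  · simp

/-- the endpoints -/
noncomputable def lo (ν ω t : ℝ) : ℝ := Real.sqrt (ω ^ 4 + ν ^ 2) / cs t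
noncomputable def hi (ν ω t : ℝ) : ℝ := Real.sqrt (2 * ω ^ 4 + ν ^ 2) / cs t

theorem lo_lt {ω x t : ℝ} (hx : 0 < x) (ht0 : 0 < t) (ht1 : t < 1) :
    ω ^ 4 < (x * cs t) ^ 2 - ν ^ 2 ↔ lo ν ω t < x := by
  have hcs := cs_pos ht0 ht1
  unfold lo
  rw [div_lt_iff₀ hcs, Real.sqrt_lt' (by positivity)]
  constructor <;> intro h <;> linarith

theorem lo_le {ω x t : ℝ} (hx : 0 < x) (ht0 : 0 < t) (ht1 : t < 1) :
    ω ^ 4 ≤ (x * cs t) ^ 2 - ν ^ 2 ↔ lo ν ω t ≤ x := by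
  have hcs := cs_pos ht0 ht1
  unfold lo
  rw [div_le_iff₀ hcs, Real.sqrt_le_left (by positivity)]
  constructor <;> intro h <;> linarith

theorem le_hi {ω x t : ℝ} (hx : 0 < x) (ht0 : 0 < t) (ht1 : t < 1) :
    (x * cs t) ^ 2 - ν ^ 2 ≤ 2 * ω ^ 4 ↔ x ≤ hi ν ω t := by
  have hcs := cs_pos ht0 ht1
  unfold hi
  rw [le_div_iff₀ hcs, Real.le_sqrt' (by positivity)]
  constructor <;> intro h <;> linarith

/-- the kernel -/
noncomputable def Kk (ν : ℝ) (j k : ℝ → ℝ) (ω Λ u t t' : ℝ) : ℂ :=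
  ∫ x in Ioc Λ (2 * Λ), (Ap ν j k ω x t * Ap ν j k ω x (u - t)) *
    (starRingEnd ℂ) (Ap ν j k ω x t' * Ap ν j k ω x (u - t'))

/-- the kernel as an integral over an interval -/
theorem Kk_eq (ω Λ : ℝ) (hΛ : 0 < Λ) {x1 y1 x2 y2 : ℝ} (h1 : x1 ∈ Ioo (0 : ℝ) 1)
    (h2 : y1 ∈ Ioo (0 : ℝ) 1) (h3 : x2 ∈ Ioo (0 : ℝ) 1) (h4 : y2 ∈ Ioo (0 : ℝ) 1) :
    ∃ α β : ℝ, Λ ≤ α ∧ β ≤ 2 * Λ ∧ (∀ x ∈ Icc α β, ∀ t ∈ ({x1, y1, x2, y2} : Set ℝ),
      ω ^ 4 ≤ (x * cs t) ^ 2 - ν ^ 2 ∧ (x * cs t) ^ 2 - ν ^ 2 ≤ 2 * ω ^ 4) ∧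
    (∫ x in Ioc Λ (2 * Λ), (Ap ν j k ω x x1 * Ap ν j k ω x y1) *
      (starRingEnd ℂ) (Ap ν j k ω x x2 * Ap ν j k ω x y2)) =
      ∫ x in Ioc α β, (amp ν x1 y1 x2 y2 x : ℂ) * pha ν j k x1 y1 x2 y2 x := by
  set α : ℝ := max Λ (max (max (lo ν ω x1) (lo ν ω y1)) (max (lo ν ω x2) (lo ν ω y2))) with hα
  set β : ℝ := min (2 * Λ) (min (min (hi ν ω x1) (hi ν ω y1)) (min (hi ν ω x2) (hi ν ω y2))) with hβ
  have hΛα : Λ ≤ α := le_max_left _ _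
  have hβΛ : β ≤ 2 * Λ := min_le_left _ _
  have hα' : ∀ x, α ≤ x ↔ Λ ≤ x ∧ (lo ν ω x1 ≤ x ∧ lo ν ω y1 ≤ x) ∧ lo ν ω x2 ≤ x ∧
      lo ν ω y2 ≤ x := by
    intro x; rw [hα, max_le_iff, max_le_iff, max_le_iff, max_le_iff]
  have hα'' : ∀ x, α < x ↔ Λ < x ∧ (lo ν ω x1 < x ∧ lo ν ω y1 < x) ∧ lo ν ω x2 < x ∧
      lo ν ω y2 < x := by
    intro x; rw [hα, max_lt_iff, max_lt_iff, max_lt_iff, max_lt_iff]
  have hβ' : ∀ x, x ≤ β ↔ x ≤ 2 * Λ ∧ (x ≤ hi ν ω x1 ∧ x ≤ hi ν ω y1) ∧ x ≤ hi ν ω x2 ∧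
      x ≤ hi ν ω y2 := by
    intro x; rw [hβ, le_min_iff, le_min_iff, le_min_iff, le_min_iff]
  refine ⟨α, β, hΛα, hβΛ, ?_, ?_⟩
  · intro x hx t ht
    have hx0 : 0 < x := lt_of_lt_of_le hΛ (hΛα.trans hx.1)
    obtain ⟨_, ⟨a1, a2⟩, a3, a4⟩ := (hα' x).1 hx.1
    obtain ⟨_, ⟨b1, b2⟩, b3, b4⟩ := (hβ' x).1 hx.2
    simp only [mem_insert_iff, mem_singleton_iff] at ht
    rcases ht with rfl | rfl | rfl | rfl
    · exact ⟨(lo_le hx0 h1.1 h1.2).2 a1, (le_hi hx0 h1.1 h1.2).2 b1⟩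
    · exact ⟨(lo_le hx0 h2.1 h2.2).2 a2, (le_hi hx0 h2.1 h2.2).2 b2⟩
    · exact ⟨(lo_le hx0 h3.1 h3.2).2 a3, (le_hi hx0 h3.1 h3.2).2 b3⟩
    · exact ⟨(lo_le hx0 h4.1 h4.2).2 a4, (le_hi hx0 h4.1 h4.2).2 b4⟩
  · rw [← integral_indicator measurableSet_Ioc, ← integral_indicator measurableSet_Ioc]
    congr 1
    funext x
    have hAp : ∀ t ∈ Ioo (0 : ℝ) 1, 0 < x → lo ν ω t < x → x ≤ hi ν ω t →
        Ap ν j k ω x t = (((rr ν (x * cs t))⁻¹ : ℝ) : ℂ) * cz ν j k (x * cs t) := by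
      intro t ht hx0 a b
      unfold Ap
      rw [if_pos ⟨⟨hx0, ht.1, ht.2⟩, (lo_lt hx0 ht.1 ht.2).2 a, (le_hi hx0 ht.1 ht.2).2 b⟩]
    have hAp0 : ∀ t ∈ Ioo (0 : ℝ) 1, 0 < x → ¬(lo ν ω t < x ∧ x ≤ hi ν ω t) →
        Ap ν j k ω x t = 0 := by
      intro t ht hx0 a
      unfold Ap
      rw [if_neg]
      rintro ⟨_, b, c⟩
      exact a ⟨(lo_lt hx0 ht.1 ht.2).1 b, (le_hi hx0 ht.1 ht.2).1 c⟩
    by_cases hx : x ∈ Ioc α β
    · have hx0 : 0 < x := lt_of_lt_of_le hΛ (hΛα.trans hx.1.le)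
      obtain ⟨a0, ⟨a1, a2⟩, a3, a4⟩ := (hα'' x).1 hx.1
      obtain ⟨b0, ⟨b1, b2⟩, b3, b4⟩ := (hβ' x).1 hx.2
      rw [indicator_of_mem hx, indicator_of_mem (show x ∈ Ioc Λ (2 * Λ) from ⟨a0, b0⟩),
        hAp x1 h1 hx0 a1 b1, hAp y1 h2 hx0 a2 b2, hAp x2 h3 hx0 a3 b3, hAp y2 h4 hx0 a4 b4]
      unfold amp pha
      simp only [map_mul, Complex.conj_ofReal]
      push_cast
      ring
    · rw [indicator_of_notMem hx]
      by_cases hx' : x ∈ Ioc Λ (2 * Λ)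
      · rw [indicator_of_mem hx']
        have hx0 : 0 < x := hΛ.trans hx'.1
        by_cases c1 : lo ν ω x1 < x ∧ x ≤ hi ν ω x1
        · by_cases c2 : lo ν ω y1 < x ∧ x ≤ hi ν ω y1
          · by_cases c3 : lo ν ω x2 < x ∧ x ≤ hi ν ω x2
            · by_cases c4 : lo ν ω y2 < x ∧ x ≤ hi ν ω y2
              · exfalso
                exact hx ⟨(hα'' x).2 ⟨hx'.1, ⟨c1.1, c2.1⟩, c3.1, c4.1⟩,
                  (hβ' x).2 ⟨hx'.2, ⟨c1.2, c2.2⟩, c3.2, c4.2⟩⟩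
              · rw [hAp0 y2 h4 hx0 c4]; simp
            · rw [hAp0 x2 h3 hx0 c3]; simp
          · rw [hAp0 y1 h2 hx0 c2]; simp
        · rw [hAp0 x1 h1 hx0 c1]; simp
      · rw [indicator_of_notMem hx']

/-- the kernel is zero unless all four points are in the unit interval -/
theorem Kk_zero (ω Λ u t t' : ℝ) (h : ¬(t ∈ Ioo (0 : ℝ) 1 ∧ u - t ∈ Ioo (0 : ℝ) 1 ∧
    t' ∈ Ioo (0 : ℝ) 1 ∧ u - t' ∈ Ioo (0 : ℝ) 1)) : Kk ν j k ω Λ u t t' = 0 := by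
  unfold Kk
  have : (fun x => (Ap ν j k ω x t * Ap ν j k ω x (u - t)) *
    (starRingEnd ℂ) (Ap ν j k ω x t' * Ap ν j k ω x (u - t'))) = fun _ => 0 := by
    funext x
    by_cases h1 : t ∈ Ioo (0 : ℝ) 1
    · by_cases h2 : u - t ∈ Ioo (0 : ℝ) 1
      · by_cases h3 : t' ∈ Ioo (0 : ℝ) 1
        · by_cases h4 : u - t' ∈ Ioo (0 : ℝ) 1
          · exact absurd ⟨h1, h2, h3, h4⟩ h
          · rw [Ap_zero ω x _ h4]; simp
        · rw [Ap_zero ω x _ h3]; simp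
      · rw [Ap_zero ω x _ h2]; simp
    · rw [Ap_zero ω x _ h1]; simp
  rw [this]
  simp

theorem Kk_triv (h : BD ν C j k) {ω Λ : ℝ} (hΛ : 0 < Λ) (hω : ss ν ≤ ω) (u t t' : ℝ) :
    ‖Kk ν j k ω Λ u t t'‖ ≤ (8 * C) ^ 2 / ω ^ 4 * Λ := by
  have hC := h.C_nonneg
  have hω0 : 0 < ω := by linarith [ss_one ν]
  by_cases hc : t ∈ Ioo (0 : ℝ) 1 ∧ u - t ∈ Ioo (0 : ℝ) 1 ∧
    t' ∈ Ioo (0 : ℝ) 1 ∧ u - t' ∈ Ioo (0 : ℝ) 1
  · obtain ⟨h1, h2, h3, h4⟩ := hc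
    obtain ⟨α, β, hα, hβ, hw, he⟩ := Kk_eq (ν := ν) (j := j) (k := k) ω Λ hΛ h1 h2 h3 h4
    unfold Kk
    rw [he]
    rcases le_or_gt β α with hαβ | hαβ
    · rw [Ioc_eq_empty (not_lt.2 hαβ)]
      simp only [Measure.restrict_empty, integral_zero_measure, norm_zero]
      positivity
    · rw [← intervalIntegral.integral_of_le hαβ.le]
      refine (kernel_triv h (lt_of_lt_of_le hΛ hα) hαβ.le hω ?_
        (fun x hx t ht => (hw x hx t ht).1)).trans ?_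
      · intro s hs
        simp only [mem_insert_iff, mem_singleton_iff] at hs
        rcases hs with rfl | rfl | rfl | rfl
        · exact ⟨h1.1.le, h1.2⟩
        · exact ⟨h2.1.le, h2.2⟩
        · exact ⟨h3.1.le, h3.2⟩
        · exact ⟨h4.1.le, h4.2⟩
      · apply mul_le_mul_of_nonneg_left _ (by positivity)
        linarith
  · rw [Kk_zero ω Λ u t t' hc, norm_zero]
    positivity

/-- ordered version of the main bound -/
theorem four_bound (h : BD ν C j k) {ω Λ : ℝ} (hΛ : 0 < Λ) (hω : ss ν ≤ ω)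
    {x1 y1 x2 y2 : ℝ} (h1 : x1 ∈ Ioo (0 : ℝ) 1) (h2 : y1 ∈ Ioo (0 : ℝ) 1)
    (h3 : x2 ∈ Ioo (0 : ℝ) 1) (h4 : y2 ∈ Ioo (0 : ℝ) 1) (hsum : x1 + y1 = x2 + y2)
    (hxx : x2 < x1) (hxy : x1 ≤ y1) :
    ‖∫ x in Ioc Λ (2 * Λ), (Ap ν j k ω x x1 * Ap ν j k ω x y1) *
      (starRingEnd ℂ) (Ap ν j k ω x x2 * Ap ν j k ω x y2)‖ ≤
      192 * (8 * C) ^ 2 / ω ^ 4 * (32 * (Real.sqrt 2 * ω ^ 2 / Λ) ^ 3 /
        (((y2 - x2) ^ 2 - (y1 - x1) ^ 2) * ((x1 + y1) ^ 2 + (Real.sqrt 2 * ω ^ 2 / Λ) ^ 2))) := by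
  have hC := h.C_nonneg
  have hω0 : 0 < ω := by linarith [ss_one ν]
  obtain ⟨α, β, hα, hβ, hw, he⟩ := Kk_eq (ν := ν) (j := j) (k := k) ω Λ hΛ h1 h2 h3 h4
  rw [he]
  rcases le_or_gt β α with hαβ | hαβ
  · rw [Ioc_eq_empty (not_lt.2 hαβ)]
    simp only [Measure.restrict_empty, integral_zero_measure, norm_zero]
    have : 0 < (y2 - x2) ^ 2 - (y1 - x1) ^ 2 := by nlinarith
    positivity
  · rw [← intervalIntegral.integral_of_le hαβ.le]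
    exact kernel h h3.1.le hxx hxy h4.2 hsum hΛ hα hαβ.le hω hw

theorem Kk_main (h : BD ν C j k) {ω Λ : ℝ} (hΛ : 0 < Λ) (hω : ss ν ≤ ω) (u t t' : ℝ)
    (hne : (2 * t - u) ^ 2 ≠ (2 * t' - u) ^ 2) :
    ‖Kk ν j k ω Λ u t t'‖ ≤ 192 * (8 * C) ^ 2 / ω ^ 4 * (32 * (Real.sqrt 2 * ω ^ 2 / Λ) ^ 3 /
        (|(2 * t' - u) ^ 2 - (2 * t - u) ^ 2| * (u ^ 2 + (Real.sqrt 2 * ω ^ 2 / Λ) ^ 2))) := by
  have hC := h.C_nonneg
  have hω0 : 0 < ω := by linarith [ss_one ν]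
  by_cases hc : t ∈ Ioo (0 : ℝ) 1 ∧ u - t ∈ Ioo (0 : ℝ) 1 ∧
    t' ∈ Ioo (0 : ℝ) 1 ∧ u - t' ∈ Ioo (0 : ℝ) 1
  swap
  · rw [Kk_zero ω Λ u t t' hc, norm_zero]
    positivity
  -- the ordered statement for the pair `s, s'` with `|2s-u| < |2s'-u|`
  have key : ∀ s s' : ℝ, s ∈ Ioo (0 : ℝ) 1 → u - s ∈ Ioo (0 : ℝ) 1 → s' ∈ Ioo (0 : ℝ) 1 →
      u - s' ∈ Ioo (0 : ℝ) 1 → (2 * s - u) ^ 2 < (2 * s' - u) ^ 2 →
      ‖Kk ν j k ω Λ u s s'‖ ≤ 192 * (8 * C) ^ 2 / ω ^ 4 * (32 * (Real.sqrt 2 * ω ^ 2 / Λ) ^ 3 /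
        (((2 * s' - u) ^ 2 - (2 * s - u) ^ 2) * (u ^ 2 + (Real.sqrt 2 * ω ^ 2 / Λ) ^ 2))) := by
    intro s s' h1 h2 h3 h4 hlt
    have hsym1 : ∀ a b : ℝ, ∀ x, Ap ν j k ω x a * Ap ν j k ω x b = Ap ν j k ω x b * Ap ν j k ω x a :=
      fun a b x => mul_comm _ _
    unfold Kk
    rcases le_total s (u - s) with c1 | c1 <;> rcases le_total s' (u - s') with c2 | c2
    · have hb := four_bound h hΛ hω h1 h2 h3 h4 (by ring) (by
        by_contra hcon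
        push Not at hcon
        nlinarith) c1
      convert hb using 4
      · ring
      · ring
    · have hb := four_bound h hΛ hω h1 h2 h4 h3 (by ring) (by
        by_contra hcon
        push Not at hcon
        nlinarith) c1
      simp_rw [hsym1 s' (u - s')]
      convert hb using 4
      · ring
      · ring
    · have hb := four_bound h hΛ hω h2 h1 h3 h4 (by ring) (by
        by_contra hcon
        push Not at hcon
        nlinarith) c1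
      simp_rw [hsym1 s (u - s)]
      convert hb using 4
      · ring
      · ring
    · have hb := four_bound h hΛ hω h2 h1 h4 h3 (by ring) (by
        by_contra hcon
        push Not at hcon
        nlinarith) c1
      simp_rw [hsym1 s (u - s), hsym1 s' (u - s')]
      convert hb using 4
      · ring
      · ring
  obtain ⟨h1, h2, h3, h4⟩ := hc
  rcases lt_or_gt_of_ne hne with hlt | hlt
  · rw [abs_of_pos (by linarith)]
    exact key t t' h1 h2 h3 h4 hlt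
  · have hconj : ‖Kk ν j k ω Λ u t t'‖ = ‖Kk ν j k ω Λ u t' t‖ := by
      rw [← RCLike.norm_conj (Kk ν j k ω Λ u t' t)]
      unfold Kk
      rw [← integral_conj]
      congr 2
      funext x
      simp only [map_mul, Complex.conj_conj]
      ring
    rw [hconj, abs_sub_comm, abs_of_pos (by linarith)]
    exact key t' t h3 h4 h1 h2 hlt

end

end Pool.Agent.H243.RA
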