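import Mathlib
import Pool.Agent.H243.RA.C5
set_option autoImplicit false

/-! Integration of the kernel. -/

open MeasureTheory Set
open scoped ENNReal

namespace Pool.Agent.H243.RA

/-- the singular weight -/
noncomputable def gg (ε p : ℝ) : ℝ≥0∞ := (ENNReal.ofReal |p|) ^ (-(1 - ε))

theorem gg_meas (ε : ℝ) : Measurable (gg ε) := by unfold gg; fun_prop

theorem gg_fin (ε : ℝ) (hε : 0 < ε) : ∫⁻ p in Ioo (-2 : ℝ) 2, gg ε p < ∞ := by
  have h1 : ∫⁻ p in Ioo (0 : ℝ) 2, gg ε p < ∞ := by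
    have hi : IntegrableOn (fun p : ℝ => p ^ (-(1 - ε))) (Ioo 0 2) :=
      (intervalIntegral.integrableOn_Ioo_rpow_iff (by norm_num)).2 (by linarith)
    have h2 := hi.lintegral_lt_top
    refine lt_of_le_of_lt (le_of_eq ?_) h2
    refine setLIntegral_congr_fun measurableSet_Ioo fun p hp => ?_
    unfold gg
    rw [abs_of_pos hp.1, ENNReal.ofReal_rpow_of_pos hp.1]
  have h2 : ∫⁻ p in Ioo (-2 : ℝ) 0, gg ε p = ∫⁻ p in Ioo (0 : ℝ) 2, gg ε p := by
    rw [← lintegral_indicator measurableSet_Ioo, ← lintegral_indicator measurableSet_Ioo,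
      ← lintegral_neg_eq_self]
    refine lintegral_congr fun p => ?_
    by_cases hp : p ∈ Ioo (0 : ℝ) 2
    · rw [indicator_of_mem hp, indicator_of_mem (by constructor <;> linarith [hp.1, hp.2])]
      unfold gg
      rw [abs_neg]
    · rw [indicator_of_notMem hp, indicator_of_notMem]
      intro h
      exact hp ⟨by linarith [h.2], by linarith [h.1]⟩
  have h3 : ∫⁻ p in Ioo (-2 : ℝ) 2, gg ε p ≤ ∫⁻ p in Ioo (-2 : ℝ) 0 ∪ (Ioo (0 : ℝ) 2 ∪ {0}), gg ε p := by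
    apply lintegral_mono_set
    intro p hp
    rcases lt_trichotomy p 0 with h | h | h
    · left; exact ⟨hp.1, h⟩
    · right; right; exact h
    · right; left; exact ⟨h, hp.2⟩
  refine lt_of_le_of_lt h3 ?_
  refine lt_of_le_of_lt (lintegral_union_le _ _ _) ?_
  rw [h2]
  refine ENNReal.add_lt_top.2 ⟨h1, ?_⟩
  refine lt_of_le_of_lt (lintegral_union_le _ _ _) ?_
  refine ENNReal.add_lt_top.2 ⟨h1, ?_⟩
  simp

/-- the constant -/
noncomputable def G1 (ε : ℝ) : ℝ := (∫⁻ p in Ioo (-2 : ℝ) 2, gg ε p).toReal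

theorem G1_eq (ε : ℝ) (hε : 0 < ε) : ∫⁻ p in Ioo (-2 : ℝ) 2, gg ε p = ENNReal.ofReal (G1 ε) :=
  (ENNReal.ofReal_toReal (gg_fin ε hε).ne).symm

theorem double (ε : ℝ) (hε : 0 < ε) (u : ℝ) (hu : u ∈ Ioo (0 : ℝ) 2) :
    ∫⁻ t in Ioo (0 : ℝ) 1, ∫⁻ t' in Ioo (0 : ℝ) 1, gg ε (t' - t) * gg ε (t' + t - u) ≤
      ENNReal.ofReal (G1 ε ^ 2) := by
  set G : ℝ → ℝ≥0∞ := (Ioo (-2 : ℝ) 2).indicator (gg ε) with hG
  have hGm : Measurable G := (gg_meas ε).indicator measurableSet_Ioo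
  have hGi : ∫⁻ p, G p = ENNReal.ofReal (G1 ε) := by
    rw [hG, lintegral_indicator measurableSet_Ioo, G1_eq ε hε]
  calc ∫⁻ t in Ioo (0 : ℝ) 1, ∫⁻ t' in Ioo (0 : ℝ) 1, gg ε (t' - t) * gg ε (t' + t - u)
      ≤ ∫⁻ t in Ioo (0 : ℝ) 1, ∫⁻ t' in Ioo (0 : ℝ) 1, G (t' - t) * G (t' + t - u) := by
        apply setLIntegral_mono' measurableSet_Ioo
        intro t ht
        apply setLIntegral_mono' measurableSet_Ioo
        intro t' ht'
        simp only [hG]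
        rw [indicator_of_mem (by constructor <;> linarith [ht.1, ht.2, ht'.1, ht'.2]),
          indicator_of_mem (by constructor <;> linarith [ht.1, ht.2, ht'.1, ht'.2, hu.1, hu.2])]
    _ ≤ ∫⁻ t, ∫⁻ t', G (t' - t) * G (t' + t - u) := by
        refine (setLIntegral_le_lintegral _ _).trans ?_
        exact lintegral_mono fun t => setLIntegral_le_lintegral _ _
    _ = ∫⁻ t, ∫⁻ p, G p * G (p + (2 * t - u)) := by
        refine lintegral_congr fun t => ?_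
        rw [← lintegral_add_right_eq_self _ t]
        refine lintegral_congr fun p => ?_
        congr 2
        · ring
        · ring
    _ = ∫⁻ p, ∫⁻ t, G p * G (p + (2 * t - u)) := by
        apply lintegral_lintegral_swap
        exact ((hGm.comp measurable_snd).mul (hGm.comp (by fun_prop))).aemeasurable
    _ = ∫⁻ p, G p * (ENNReal.ofReal (1 / 2) * ENNReal.ofReal (G1 ε)) := by
        refine lintegral_congr fun p => ?_
        have hm1 : Measurable fun t : ℝ => G (p + (2 * t - u)) := hGm.comp (by fun_prop)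
        rw [lintegral_const_mul _ hm1]
        congr 1
        have h1 : ∫⁻ t, G (p + (2 * t - u)) = ∫⁻ t, G (t + (p - u)) ∂(Measure.map (fun t => 2 * t) volume) := by
          have hm3 : Measurable fun t : ℝ => G (t + (p - u)) := hGm.comp (by fun_prop)
          have hm4 : Measurable fun t : ℝ => 2 * t := by fun_prop
          rw [lintegral_map hm3 hm4]
          refine lintegral_congr fun t => ?_
          congr 1
          ring
        rw [h1, Real.map_volume_mul_left (by norm_num), lintegral_smul_measure,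
          lintegral_add_right_eq_self (fun t => G t) (p - u), hGi]
        norm_num
    _ = ENNReal.ofReal (G1 ε) * (ENNReal.ofReal (1 / 2) * ENNReal.ofReal (G1 ε)) := by
        rw [lintegral_mul_const _ hGm, hGi]
    _ ≤ _ := by
        have h0 : 0 ≤ G1 ε := ENNReal.toReal_nonneg
        rw [← ENNReal.ofReal_mul (by norm_num), ← ENNReal.ofReal_mul h0]
        apply ENNReal.ofReal_le_ofReal
        nlinarith [sq_nonneg (G1 ε)]

theorem cauchy_int (F : ℝ) (hF : 0 < F) :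
    ∫⁻ u in Ioo (0 : ℝ) 2, ENNReal.ofReal ((u ^ 2 + F ^ 2)⁻¹) ≤ ENNReal.ofReal (Real.pi / F) := by
  have hd : ∀ u : ℝ, HasDerivAt (fun u => 1 / F * Real.arctan (u / F)) ((u ^ 2 + F ^ 2)⁻¹) u := by
    intro u
    have h1 := (((hasDerivAt_id u).div_const F).arctan).const_mul (1 / F)
    refine HasDerivAt.congr_deriv h1 ?_
    simp only [id]
    field_simp
    ring
  have hc : Continuous fun u : ℝ => (u ^ 2 + F ^ 2)⁻¹ := by
    apply Continuous.inv₀ (by fun_prop)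
    intro u
    positivity
  rw [← ofReal_integral_eq_lintegral_ofReal]
  · apply ENNReal.ofReal_le_ofReal
    rw [← integral_Ioc_eq_integral_Ioo, ← intervalIntegral.integral_of_le (by norm_num),
      intervalIntegral.integral_eq_sub_of_hasDerivAt (fun u _ => hd u) (hc.intervalIntegrable _ _)]
    have h1 := Real.arctan_lt_pi_div_two (2 / F)
    have hpi := Real.pi_pos
    simp only [zero_div, Real.arctan_zero, mul_zero, sub_zero]
    rw [div_eq_mul_one_div Real.pi F, mul_comm Real.pi]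
    apply mul_le_mul_of_nonneg_left _ (by positivity)
    linarith
  · exact (hc.integrableOn_Icc (a := 0) (b := 2)).mono_set Ioo_subset_Icc_self
  · exact Filter.Eventually.of_forall fun u => by positivity

section
variable {ν C : ℝ} {j k : ℝ → ℝ}

theorem Kk_comb (h : BD ν C j k) (hC : 0 < C) {ε ω Λ : ℝ} (hε : 0 < ε) (hε1 : ε < 1) (hΛ : 0 < Λ)
    (hω : ss ν ≤ ω) (u t t' : ℝ) :
    ‖Kk ν j k ω Λ u t t'‖ₑ ≤ ENNReal.ofReal (192 * (8 * C) ^ 2 / ω ^ 4 * Λ ^ ε *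
      (32 * (Real.sqrt 2 * ω ^ 2 / Λ) ^ 3 / (u ^ 2 + (Real.sqrt 2 * ω ^ 2 / Λ) ^ 2)) ^ (1 - ε)) *
      (gg ε (t' - t) * gg ε (t' + t - u)) := by
  have hω0 : 0 < ω := by linarith [ss_one ν]
  set F : ℝ := Real.sqrt 2 * ω ^ 2 / Λ with hF
  have hF0 : 0 < F := by rw [hF]; positivity
  set c : ℝ := 192 * (8 * C) ^ 2 / ω ^ 4 with hc
  have hc0 : 0 < c := by rw [hc]; positivity
  have hpos : 0 < c * Λ ^ ε * (32 * F ^ 3 / (u ^ 2 + F ^ 2)) ^ (1 - ε) := by positivity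
  have hgpos : ∀ p, gg ε p ≠ 0 := by
    intro p
    unfold gg
    rw [Ne, ENNReal.rpow_eq_zero_iff]
    rintro (⟨_, h2⟩ | ⟨h1, _⟩)
    · linarith
    · exact ENNReal.ofReal_ne_top h1
  have hg0 : ∀ p, p = 0 → gg ε p = ∞ := by
    intro p hp
    unfold gg
    rw [hp, abs_zero, ENNReal.ofReal_zero]
    exact ENNReal.zero_rpow_of_neg (by linarith)
  by_cases hp : t' - t = 0
  · rw [hg0 _ hp, ENNReal.top_mul (hgpos _), ENNReal.mul_top (by simpa using hpos)]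
    exact le_top
  by_cases hr : t' + t - u = 0
  · rw [hg0 _ hr, ENNReal.mul_top (hgpos _), ENNReal.mul_top (by simpa using hpos)]
    exact le_top
  have hp' : 0 < |t' - t| := abs_pos.2 hp
  have hr' : 0 < |t' + t - u| := abs_pos.2 hr
  have hdiff : (2 * t' - u) ^ 2 - (2 * t - u) ^ 2 = 4 * ((t' - t) * (t' + t - u)) := by ring
  have hne : (2 * t - u) ^ 2 ≠ (2 * t' - u) ^ 2 := by
    intro he
    have : (2 * t' - u) ^ 2 - (2 * t - u) ^ 2 = 0 := by rw [he]; ring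
    rw [hdiff] at this
    have := mul_ne_zero hp hr
    simp_all
  have b1 := Kk_triv h hΛ hω u t t'
  have b2 := Kk_main h hΛ hω u t t' hne
  rw [hdiff, abs_mul, abs_mul, ← hF, ← hc] at b2
  have e4 : |(4 : ℝ)| = 4 := by norm_num
  rw [e4] at b2
  set X : ℝ := 32 * F ^ 3 / (4 * (|t' - t| * |t' + t - u|) * (u ^ 2 + F ^ 2)) with hX
  have hX0 : 0 < X := by rw [hX]; positivity
  have b1' : ‖Kk ν j k ω Λ u t t'‖ ≤ c * Λ := by
    refine b1.trans ?_
    apply mul_le_mul_of_nonneg_right _ hΛ.le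
    rw [hc]
    apply div_le_div_of_nonneg_right _ (by positivity)
    nlinarith [sq_nonneg (8 * C)]
  have hmin : ‖Kk ν j k ω Λ u t t'‖ ≤ c * (Λ ^ ε * X ^ (1 - ε)) := by
    rcases le_total Λ X with hc1 | hc1
    · refine b1'.trans (mul_le_mul_of_nonneg_left ?_ hc0.le)
      calc Λ = Λ ^ ε * Λ ^ (1 - ε) := by
            rw [← Real.rpow_add hΛ]; simp
        _ ≤ Λ ^ ε * X ^ (1 - ε) := by
            apply mul_le_mul_of_nonneg_left _ (by positivity)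
            exact Real.rpow_le_rpow hΛ.le hc1 (by linarith)
    · refine b2.trans (mul_le_mul_of_nonneg_left ?_ hc0.le)
      calc X = X ^ ε * X ^ (1 - ε) := by
            rw [← Real.rpow_add hX0]; simp
        _ ≤ Λ ^ ε * X ^ (1 - ε) := by
            apply mul_le_mul_of_nonneg_right _ (by positivity)
            exact Real.rpow_le_rpow hX0.le hc1 hε.le
  have hXs : X ^ (1 - ε) ≤ (32 * F ^ 3 / (u ^ 2 + F ^ 2)) ^ (1 - ε) *
      (|t' - t| ^ (-(1 - ε)) * |t' + t - u| ^ (-(1 - ε))) := by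
    have e1 : X ≤ (32 * F ^ 3 / (u ^ 2 + F ^ 2)) * (|t' - t|⁻¹ * |t' + t - u|⁻¹) := by
      have : X = (32 * F ^ 3 / (u ^ 2 + F ^ 2)) * (|t' - t|⁻¹ * |t' + t - u|⁻¹) / 4 := by
        rw [hX]
        field_simp
      rw [this]
      apply div_le_self _ (by norm_num)
      positivity
    calc X ^ (1 - ε) ≤ ((32 * F ^ 3 / (u ^ 2 + F ^ 2)) * (|t' - t|⁻¹ * |t' + t - u|⁻¹)) ^ (1 - ε) :=
          Real.rpow_le_rpow hX0.le e1 (by linarith)
      _ = _ := by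
          rw [Real.mul_rpow (by positivity) (by positivity),
            Real.mul_rpow (by positivity) (by positivity), Real.inv_rpow hp'.le,
            Real.inv_rpow hr'.le, Real.rpow_neg hp'.le, Real.rpow_neg hr'.le]
  have hfin : ‖Kk ν j k ω Λ u t t'‖ ≤ c * Λ ^ ε * (32 * F ^ 3 / (u ^ 2 + F ^ 2)) ^ (1 - ε) *
      (|t' - t| ^ (-(1 - ε)) * |t' + t - u| ^ (-(1 - ε))) := by
    refine hmin.trans ?_
    have := mul_le_mul_of_nonneg_left hXs (by positivity : 0 ≤ c * Λ ^ ε)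
    calc c * (Λ ^ ε * X ^ (1 - ε)) = c * Λ ^ ε * X ^ (1 - ε) := by ring
      _ ≤ _ := this
      _ = _ := by ring
  unfold gg
  rw [ENNReal.ofReal_rpow_of_pos hp', ENNReal.ofReal_rpow_of_pos hr',
    ← ENNReal.ofReal_mul (by positivity), ← ENNReal.ofReal_mul (by positivity), ← ofReal_norm]
  exact ENNReal.ofReal_le_ofReal hfin

/-- real estimate of the coefficient -/
theorem coef_bound {C ε ω Λ u : ℝ} (hC : 0 < C) (hε : 0 < ε) (hε1 : ε < 1) (hΛ : 1 ≤ Λ)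
    (hω : 1 ≤ ω) (hωΛ : ω ^ 4 ≤ 4 * Λ ^ 2) (hu : u ∈ Ioo (0 : ℝ) 2) :
    192 * (8 * C) ^ 2 / ω ^ 4 * Λ ^ ε *
      (32 * (Real.sqrt 2 * ω ^ 2 / Λ) ^ 3 / (u ^ 2 + (Real.sqrt 2 * ω ^ 2 / Λ) ^ 2)) ^ (1 - ε) ≤
    (9437184 * C ^ 2 * Λ ^ (-2 + 4 * ε)) * ((Real.sqrt 2 * ω ^ 2 / Λ) *
      (u ^ 2 + (Real.sqrt 2 * ω ^ 2 / Λ) ^ 2)⁻¹) := by
  have hΛ0 : 0 < Λ := by linarith
  have hω0 : 0 < ω := by linarith
  set F : ℝ := Real.sqrt 2 * ω ^ 2 / Λ with hF
  have hF0 : 0 < F := by rw [hF]; positivity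
  have hF2 : F ^ 2 = 2 * ω ^ 4 / Λ ^ 2 := by
    rw [hF, div_pow, mul_pow, Real.sq_sqrt (by norm_num)]
    ring
  have hF8 : F ^ 2 ≤ 8 := by
    rw [hF2, div_le_iff₀ (by positivity)]
    linarith
  have hFΛ : Λ⁻¹ ≤ F := by
    rw [hF, inv_eq_one_div]
    apply div_le_div_of_nonneg_right _ hΛ0.le
    have h1 : (1 : ℝ) ≤ Real.sqrt 2 := by
      rw [Real.one_le_sqrt]
      norm_num
    have h2 : (1 : ℝ) ≤ ω ^ 2 := one_le_pow₀ hω
    nlinarith
  have hS : 0 < u ^ 2 + F ^ 2 := by positivity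
  have hS12 : u ^ 2 + F ^ 2 ≤ 12 := by nlinarith [hu.1, hu.2]
  -- the power
  have e1 : (32 * F ^ 3 / (u ^ 2 + F ^ 2)) ^ (1 - ε) ≤
      384 * (F ^ 3 * Λ ^ (3 * ε)) * (u ^ 2 + F ^ 2)⁻¹ := by
    rw [Real.div_rpow (by positivity) hS.le, Real.mul_rpow (by norm_num) (by positivity)]
    have a1 : (32 : ℝ) ^ (1 - ε) ≤ 32 := by
      calc (32 : ℝ) ^ (1 - ε) ≤ 32 ^ (1 : ℝ) :=
            Real.rpow_le_rpow_of_exponent_le (by norm_num) (by linarith)
        _ = 32 := Real.rpow_one _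
    have a2 : (F ^ 3) ^ (1 - ε) ≤ F ^ 3 * Λ ^ (3 * ε) := by
      have b1 : (F ^ 3) ^ (1 - ε) = F ^ 3 * (F ^ 3) ^ (-ε) := by
        rw [sub_eq_add_neg, Real.rpow_add (by positivity), Real.rpow_one]
      have b2 : (F ^ 3) ^ (-ε) ≤ Λ ^ (3 * ε) := by
        have b3 : (Λ⁻¹) ^ 3 ≤ F ^ 3 := pow_le_pow_left₀ (by positivity) hFΛ 3
        calc (F ^ 3) ^ (-ε) ≤ ((Λ⁻¹) ^ 3) ^ (-ε) :=
              Real.rpow_le_rpow_of_nonpos (by positivity) b3 (by linarith)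
          _ = Λ ^ (3 * ε) := by
              rw [inv_pow, Real.inv_rpow (by positivity), Real.rpow_neg (by positivity), inv_inv,
                ← Real.rpow_natCast, ← Real.rpow_mul hΛ0.le]
              norm_num
      rw [b1]
      exact mul_le_mul_of_nonneg_left b2 (by positivity)
    have a3 : ((u ^ 2 + F ^ 2) ^ (1 - ε))⁻¹ ≤ 12 * (u ^ 2 + F ^ 2)⁻¹ := by
      have b1 : ((u ^ 2 + F ^ 2) ^ (1 - ε))⁻¹ = (u ^ 2 + F ^ 2) ^ ε * (u ^ 2 + F ^ 2)⁻¹ := by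
        rw [← Real.rpow_neg hS.le, neg_sub, Real.rpow_sub hS, Real.rpow_one]
        rfl
      have b2 : (u ^ 2 + F ^ 2) ^ ε ≤ 12 := by
        calc (u ^ 2 + F ^ 2) ^ ε ≤ 12 ^ ε := Real.rpow_le_rpow hS.le hS12 hε.le
          _ ≤ 12 ^ (1 : ℝ) := Real.rpow_le_rpow_of_exponent_le (by norm_num) hε1.le
          _ = 12 := Real.rpow_one _
      rw [b1]
      exact mul_le_mul_of_nonneg_right b2 (by positivity)
    rw [div_eq_mul_inv]
    calc (32 : ℝ) ^ (1 - ε) * (F ^ 3) ^ (1 - ε) * ((u ^ 2 + F ^ 2) ^ (1 - ε))⁻¹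
        ≤ 32 * (F ^ 3 * Λ ^ (3 * ε)) * (12 * (u ^ 2 + F ^ 2)⁻¹) := by gcongr
      _ = _ := by ring
  calc 192 * (8 * C) ^ 2 / ω ^ 4 * Λ ^ ε * (32 * F ^ 3 / (u ^ 2 + F ^ 2)) ^ (1 - ε)
      ≤ 192 * (8 * C) ^ 2 / ω ^ 4 * Λ ^ ε * (384 * (F ^ 3 * Λ ^ (3 * ε)) * (u ^ 2 + F ^ 2)⁻¹) :=
        mul_le_mul_of_nonneg_left e1 (by positivity)
    _ = (192 * 64 * 384 * C ^ 2) * (F ^ 2 / ω ^ 4) * (Λ ^ ε * Λ ^ (3 * ε)) *
          (F * (u ^ 2 + F ^ 2)⁻¹) := by ring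
    _ = (9437184 * C ^ 2 * Λ ^ (-2 + 4 * ε)) * (F * (u ^ 2 + F ^ 2)⁻¹) := by
        have c1 : F ^ 2 / ω ^ 4 = 2 * (Λ ^ 2)⁻¹ := by
          rw [hF2]
          field_simp
        have c2 : Λ ^ (-2 + 4 * ε) = (Λ ^ 2)⁻¹ * (Λ ^ ε * Λ ^ (3 * ε)) := by
          rw [← Real.rpow_natCast, ← Real.rpow_neg hΛ0.le, ← Real.rpow_add hΛ0,
            ← Real.rpow_add hΛ0]
          congr 1
          push_cast
          ring
        rw [c1, c2]
        ring

/-- **The bound of one piece.** -/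
theorem piece_bound (ε : ℝ) (hε : 0 < ε) (hε1 : ε < 1) (h : BD ν C j k) (hC : 0 < C)
    (hj : Measurable j) (hk : Measurable k) {ω Λ : ℝ} (hω : ss ν ≤ ω) (hΛ : 1 ≤ Λ)
    (hωΛ : ω ^ 4 ≤ 4 * Λ ^ 2) (g : ℝ → ℂ) (hg : Measurable g) (hg1 : ∀ t, ‖g t‖ ≤ 1) :
    ∫⁻ x in Ioc Λ (2 * Λ), ∫⁻ z : ℝ, ‖∫ t in Ioo (0 : ℝ) 1,
        Complex.exp (-((z * t : ℝ) : ℂ) * Complex.I) * (g t * Ap ν j k ω x t)‖ₑ ^ 4 ≤
      ENNReal.ofReal (18874368 * Real.pi ^ 2 * G1 ε ^ 2 * C ^ 2 * Λ ^ (-2 + 4 * ε)) := by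
  have hΛ0 : 0 < Λ := by linarith
  have hω1 : 1 ≤ ω := (ss_one ν).trans hω
  have hAm := Ap_meas (ν := ν) hj hk ω
  set M : ℝ := Real.sqrt (8 * C) with hM
  have hM0 : 0 ≤ M := Real.sqrt_nonneg _
  set F : ℝ := Real.sqrt 2 * ω ^ 2 / Λ with hF
  have hF0 : 0 < F := by rw [hF]; positivity
  -- Plancherel for every x
  have s1 : ∀ x, ∫⁻ z : ℝ, ‖∫ t in Ioo (0 : ℝ) 1,
      Complex.exp (-((z * t : ℝ) : ℂ) * Complex.I) * (g t * Ap ν j k ω x t)‖ₑ ^ 4 ≤
      ENNReal.ofReal (2 * Real.pi) * ∫⁻ u in Ioo (0 : ℝ) 2, ‖∫ t in Ioo (0 : ℝ) 1,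
        (g t * g (u - t)) * (Ap ν j k ω x t * Ap ν j k ω x (u - t))‖ₑ ^ 2 := by
    intro x
    refine (four_planch (fun t => g t * Ap ν j k ω x t)
      (hg.mul (hAm.comp (measurable_const.prodMk measurable_id))) M (fun t => ?_) ?_).trans ?_
    · rw [norm_mul]
      calc _ ≤ 1 * M := mul_le_mul (hg1 t) (Ap_bound h hω x t) (norm_nonneg _) zero_le_one
        _ = M := one_mul _
    · intro t ht
      rw [Ap_zero ω x t ht, mul_zero]
    · apply le_of_eq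
      congr 1
      refine lintegral_congr fun u => ?_
      congr 3
      funext t
      ring
  have hBm : ∀ u, Measurable (Function.uncurry fun x t => Ap ν j k ω x t * Ap ν j k ω x (u - t)) := by
    intro u
    exact hAm.mul (hAm.comp (measurable_fst.prodMk (measurable_const.sub measurable_snd)))
  have hBb : ∀ u x t, ‖Ap ν j k ω x t * Ap ν j k ω x (u - t)‖ ≤ M * M := fun u x t => by
    rw [norm_mul]
    exact mul_le_mul (Ap_bound h hω x t) (Ap_bound h hω x _) (norm_nonneg _) hM0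
  -- TT*
  have s2 : ∀ u, ∫⁻ x in Ioc Λ (2 * Λ), ‖∫ t in Ioo (0 : ℝ) 1,
        (g t * g (u - t)) * (Ap ν j k ω x t * Ap ν j k ω x (u - t))‖ₑ ^ 2 ≤
      ∫⁻ t in Ioo (0 : ℝ) 1, ∫⁻ t' in Ioo (0 : ℝ) 1, ‖Kk ν j k ω Λ u t t'‖ₑ := by
    intro u
    exact tt_star (volume.restrict (Ioc Λ (2 * Λ))) (volume.restrict (Ioo (0 : ℝ) 1))
      (fun x t => Ap ν j k ω x t * Ap ν j k ω x (u - t)) (hBm u) (M * M) (fun x t => hBb u x t)
      (fun t => g t * g (u - t)) (hg.mul (hg.comp (measurable_const.sub measurable_id)))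
      (fun t => by
        rw [norm_mul]
        exact mul_le_one₀ (hg1 _) (norm_nonneg _) (hg1 _))
  have s3 : ∀ u ∈ Ioo (0 : ℝ) 2, ∫⁻ t in Ioo (0 : ℝ) 1, ∫⁻ t' in Ioo (0 : ℝ) 1,
      ‖Kk ν j k ω Λ u t t'‖ₑ ≤ ENNReal.ofReal (9437184 * C ^ 2 * Λ ^ (-2 + 4 * ε)) *
        (ENNReal.ofReal F * ENNReal.ofReal ((u ^ 2 + F ^ 2)⁻¹)) * ENNReal.ofReal (G1 ε ^ 2) := by
    intro u hu
    calc ∫⁻ t in Ioo (0 : ℝ) 1, ∫⁻ t' in Ioo (0 : ℝ) 1, ‖Kk ν j k ω Λ u t t'‖ₑ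
        ≤ ∫⁻ t in Ioo (0 : ℝ) 1, ∫⁻ t' in Ioo (0 : ℝ) 1, ENNReal.ofReal (192 * (8 * C) ^ 2 / ω ^ 4 * Λ ^ ε *
          (32 * F ^ 3 / (u ^ 2 + F ^ 2)) ^ (1 - ε)) * (gg ε (t' - t) * gg ε (t' + t - u)) := by
          apply lintegral_mono
          intro t
          apply lintegral_mono
          intro t'
          exact Kk_comb h hC hε hε1 hΛ0 hω u t t'
      _ = ENNReal.ofReal (192 * (8 * C) ^ 2 / ω ^ 4 * Λ ^ ε *
          (32 * F ^ 3 / (u ^ 2 + F ^ 2)) ^ (1 - ε)) * ∫⁻ t in Ioo (0 : ℝ) 1, ∫⁻ t' in Ioo (0 : ℝ) 1,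
            gg ε (t' - t) * gg ε (t' + t - u) := by
          have hm : Measurable fun p : ℝ × ℝ => gg ε (p.2 - p.1) * gg ε (p.2 + p.1 - u) :=
            ((gg_meas ε).comp (measurable_snd.sub measurable_fst)).mul
              ((gg_meas ε).comp ((measurable_snd.add measurable_fst).sub_const u))
          rw [← lintegral_const_mul _ hm.lintegral_prod_right']
          refine lintegral_congr fun t => ?_
          have hm2 : Measurable fun t' : ℝ => gg ε (t' - t) * gg ε (t' + t - u) :=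
            hm.comp (measurable_const.prodMk measurable_id)
          rw [lintegral_const_mul _ hm2]
      _ ≤ _ := by
          refine mul_le_mul' ?_ (double ε hε u hu)
          rw [← ENNReal.ofReal_mul hF0.le, ← ENNReal.ofReal_mul (by positivity)]
          exact ENNReal.ofReal_le_ofReal (coef_bound hC hε hε1 hΛ hω1 hωΛ hu)
  -- measurability of the inner function
  have hHm : Measurable fun p : ℝ × ℝ => ‖∫ t in Ioo (0 : ℝ) 1,
        (g t * g (p.2 - t)) * (Ap ν j k ω p.1 t * Ap ν j k ω p.1 (p.2 - t))‖ₑ ^ 2 := by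
    have a1 : Measurable fun q : (ℝ × ℝ) × ℝ => (g q.2 * g (q.1.2 - q.2)) *
        (Ap ν j k ω q.1.1 q.2 * Ap ν j k ω q.1.1 (q.1.2 - q.2)) := by
      have m1 : Measurable fun q : (ℝ × ℝ) × ℝ => q.1.2 - q.2 := by fun_prop
      have m2 : Measurable fun q : (ℝ × ℝ) × ℝ => Ap ν j k ω q.1.1 q.2 :=
        hAm.comp ((measurable_fst.comp measurable_fst).prodMk measurable_snd)
      have m3 : Measurable fun q : (ℝ × ℝ) × ℝ => Ap ν j k ω q.1.1 (q.1.2 - q.2) :=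
        hAm.comp ((measurable_fst.comp measurable_fst).prodMk m1)
      exact ((hg.comp measurable_snd).mul (hg.comp m1)).mul (m2.mul m3)
    exact ((a1.stronglyMeasurable.integral_prod_right'
      (ν := volume.restrict (Ioo (0 : ℝ) 1))).measurable.enorm).pow_const 2
  calc ∫⁻ x in Ioc Λ (2 * Λ), ∫⁻ z : ℝ, ‖∫ t in Ioo (0 : ℝ) 1,
        Complex.exp (-((z * t : ℝ) : ℂ) * Complex.I) * (g t * Ap ν j k ω x t)‖ₑ ^ 4
      ≤ ∫⁻ x in Ioc Λ (2 * Λ), ENNReal.ofReal (2 * Real.pi) * ∫⁻ u in Ioo (0 : ℝ) 2,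
          ‖∫ t in Ioo (0 : ℝ) 1, (g t * g (u - t)) *
            (Ap ν j k ω x t * Ap ν j k ω x (u - t))‖ₑ ^ 2 := lintegral_mono fun x => s1 x
    _ = ENNReal.ofReal (2 * Real.pi) * ∫⁻ x in Ioc Λ (2 * Λ), ∫⁻ u in Ioo (0 : ℝ) 2,
          ‖∫ t in Ioo (0 : ℝ) 1, (g t * g (u - t)) *
            (Ap ν j k ω x t * Ap ν j k ω x (u - t))‖ₑ ^ 2 :=
        lintegral_const_mul _ hHm.lintegral_prod_right'
    _ = ENNReal.ofReal (2 * Real.pi) * ∫⁻ u in Ioo (0 : ℝ) 2, ∫⁻ x in Ioc Λ (2 * Λ),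
          ‖∫ t in Ioo (0 : ℝ) 1, (g t * g (u - t)) *
            (Ap ν j k ω x t * Ap ν j k ω x (u - t))‖ₑ ^ 2 := by
        rw [lintegral_lintegral_swap hHm.aemeasurable]
    _ ≤ ENNReal.ofReal (2 * Real.pi) * ∫⁻ u in Ioo (0 : ℝ) 2,
          (ENNReal.ofReal (9437184 * C ^ 2 * Λ ^ (-2 + 4 * ε)) *
        (ENNReal.ofReal F * ENNReal.ofReal ((u ^ 2 + F ^ 2)⁻¹)) * ENNReal.ofReal (G1 ε ^ 2)) := by
        refine mul_le_mul' le_rfl ?_
        apply setLIntegral_mono' measurableSet_Ioo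
        intro u hu
        exact (s2 u).trans (s3 u hu)
    _ = ENNReal.ofReal (2 * Real.pi) * (ENNReal.ofReal (9437184 * C ^ 2 * Λ ^ (-2 + 4 * ε)) *
          (ENNReal.ofReal F * ∫⁻ u in Ioo (0 : ℝ) 2, ENNReal.ofReal ((u ^ 2 + F ^ 2)⁻¹)) *
            ENNReal.ofReal (G1 ε ^ 2)) := by
        have hm : Measurable fun u : ℝ => ENNReal.ofReal ((u ^ 2 + F ^ 2)⁻¹) := by fun_prop
        rw [lintegral_mul_const _ ((hm.const_mul _).const_mul _),
          lintegral_const_mul _ (hm.const_mul _), lintegral_const_mul _ hm]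
    _ ≤ ENNReal.ofReal (2 * Real.pi) * (ENNReal.ofReal (9437184 * C ^ 2 * Λ ^ (-2 + 4 * ε)) *
          (ENNReal.ofReal F * ENNReal.ofReal (Real.pi / F)) * ENNReal.ofReal (G1 ε ^ 2)) := by
        gcongr
        exact cauchy_int F hF0
    _ = _ := by
        have hpi := Real.pi_pos
        rw [← ENNReal.ofReal_mul hF0.le, ← ENNReal.ofReal_mul (by positivity),
          ← ENNReal.ofReal_mul (by positivity), ← ENNReal.ofReal_mul (by positivity)]
        congr 1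
        field_simp
        ring

end

end Pool.Agent.H243.RA
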