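import Mathlib
import Pool.Agent.H243.RA.C6
set_option autoImplicit false

/-! The turning part. -/

open MeasureTheory Set
open scoped ENNReal

namespace Pool.Agent.H243.RA

theorem gg_int (η a : ℝ) (hη : 0 < η) (ha : 0 < a) :
    ∫⁻ p in Ioo (-a) a, gg η p ≤ ENNReal.ofReal (2 * a ^ η / η) := by
  have h1 : ∫⁻ p in Ioo (0 : ℝ) a, gg η p = ENNReal.ofReal (a ^ η / η) := by
    have hi : IntegrableOn (fun p : ℝ => p ^ (-(1 - η))) (Ioo 0 a) :=
      (intervalIntegral.integrableOn_Ioo_rpow_iff ha).2 (by linarith)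
    have e1 : ∫⁻ p in Ioo (0 : ℝ) a, gg η p = ∫⁻ p in Ioo (0 : ℝ) a, ENNReal.ofReal (p ^ (-(1 - η))) := by
      refine setLIntegral_congr_fun measurableSet_Ioo fun p hp => ?_
      unfold gg
      rw [abs_of_pos hp.1, ENNReal.ofReal_rpow_of_pos hp.1]
    rw [e1, ← ofReal_integral_eq_lintegral_ofReal hi]
    · rw [← integral_Ioc_eq_integral_Ioo, ← intervalIntegral.integral_of_le ha.le,
        integral_rpow (Or.inl (by linarith))]
      congr 1
      have e2 : -(1 - η) + 1 = η := by ring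
      rw [e2, Real.zero_rpow hη.ne', sub_zero]
    · refine (ae_restrict_iff' measurableSet_Ioo).2 (Filter.Eventually.of_forall fun p hp => ?_)
      exact Real.rpow_nonneg hp.1.le _
  have h2 : ∫⁻ p in Ioo (-a) 0, gg η p = ∫⁻ p in Ioo (0 : ℝ) a, gg η p := by
    rw [← lintegral_indicator measurableSet_Ioo, ← lintegral_indicator measurableSet_Ioo,
      ← lintegral_neg_eq_self]
    refine lintegral_congr fun p => ?_
    by_cases hp : p ∈ Ioo (0 : ℝ) a
    · rw [indicator_of_mem hp, indicator_of_mem (by constructor <;> linarith [hp.1, hp.2])]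
      unfold gg
      rw [abs_neg]
    · rw [indicator_of_notMem hp, indicator_of_notMem]
      intro h
      exact hp ⟨by linarith [h.2], by linarith [h.1]⟩
  have h3 : ∫⁻ p in Ioo (-a) a, gg η p ≤ ∫⁻ p in Ioo (-a) 0 ∪ (Ioo (0 : ℝ) a ∪ {0}), gg η p := by
    apply lintegral_mono_set
    intro p hp
    rcases lt_trichotomy p 0 with h | h | h
    · left; exact ⟨hp.1, h⟩
    · right; right; exact h
    · right; left; exact ⟨h, hp.2⟩
  calc _ ≤ _ := h3
    _ ≤ (∫⁻ p in Ioo (-a) 0, gg η p) + ∫⁻ p in Ioo (0 : ℝ) a ∪ {0}, gg η p :=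
        lintegral_union_le _ _ _
    _ ≤ (∫⁻ p in Ioo (-a) 0, gg η p) + ((∫⁻ p in Ioo (0 : ℝ) a, gg η p) + ∫⁻ p in ({0} : Set ℝ), gg η p) := by
        gcongr
        exact lintegral_union_le _ _ _
    _ = ENNReal.ofReal (a ^ η / η) + ENNReal.ofReal (a ^ η / η) := by
        rw [h2, h1]
        simp
    _ = _ := by
        rw [← ENNReal.ofReal_add (by positivity) (by positivity)]
        congr 1
        ring

theorem cauchy2 (F c : ℝ) (hF : 0 < F) :
    ∫⁻ t in Ioo (0 : ℝ) 1, ENNReal.ofReal ((1 + (t - c) ^ 2 / F ^ 2)⁻¹) ≤ ENNReal.ofReal (Real.pi * F) := by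
  have hd : ∀ t : ℝ, HasDerivAt (fun t => F * Real.arctan ((t - c) / F)) ((1 + (t - c) ^ 2 / F ^ 2)⁻¹) t := by
    intro t
    have h1 := ((((hasDerivAt_id t).sub_const c).div_const F).arctan).const_mul F
    refine HasDerivAt.congr_deriv h1 ?_
    simp only [id]
    field_simp
  have hc : Continuous fun t : ℝ => (1 + (t - c) ^ 2 / F ^ 2)⁻¹ := by
    apply Continuous.inv₀ (by fun_prop)
    intro t
    positivity
  rw [← ofReal_integral_eq_lintegral_ofReal]
  · apply ENNReal.ofReal_le_ofReal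
    rw [← integral_Ioc_eq_integral_Ioo, ← intervalIntegral.integral_of_le (by norm_num),
      intervalIntegral.integral_eq_sub_of_hasDerivAt (fun u _ => hd u) (hc.intervalIntegrable _ _)]
    have h1 := Real.arctan_lt_pi_div_two ((1 - c) / F)
    have h2 := Real.neg_pi_div_two_lt_arctan ((0 - c) / F)
    nlinarith
  · exact (hc.integrableOn_Icc (a := 0) (b := 1)).mono_set Ioo_subset_Icc_self
  · exact Filter.Eventually.of_forall fun u => by positivity

/-- the decay weight -/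
noncomputable def qq (ν x t : ℝ) : ℝ := ((1 + |(x * cs t) ^ 2 - ν ^ 2| / ss ν ^ 4) ^ 2)⁻¹

theorem qq_nonneg (ν x t : ℝ) : 0 ≤ qq ν x t := by unfold qq; positivity

theorem qq_le_one (ν x t : ℝ) : qq ν x t ≤ 1 := by
  unfold qq
  apply inv_le_one_of_one_le₀
  have h1 : 0 ≤ |(x * cs t) ^ 2 - ν ^ 2| / ss ν ^ 4 := by
    have := ss_one ν
    positivity
  nlinarith

theorem qq_meas (ν : ℝ) : Measurable fun p : ℝ × ℝ => qq ν p.1 p.2 := by
  have := cs_meas
  unfold qq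
  fun_prop

noncomputable def II (ν x : ℝ) : ℝ≥0∞ := ∫⁻ t in Ioo (0 : ℝ) 1, ENNReal.ofReal (qq ν x t)

theorem qq_le (ν : ℝ) {x t F c : ℝ} (hF : 0 < F)
    (h : (t - c) ^ 2 / F ^ 2 ≤ 2 * (|(x * cs t) ^ 2 - ν ^ 2| / ss ν ^ 4) +
      (|(x * cs t) ^ 2 - ν ^ 2| / ss ν ^ 4) ^ 2) :
    qq ν x t ≤ (1 + (t - c) ^ 2 / F ^ 2)⁻¹ := by
  unfold qq
  apply inv_anti₀ (by positivity)
  have : (1 + |(x * cs t) ^ 2 - ν ^ 2| / ss ν ^ 4) ^ 2 =
      1 + (2 * (|(x * cs t) ^ 2 - ν ^ 2| / ss ν ^ 4) + (|(x * cs t) ^ 2 - ν ^ 2| / ss ν ^ 4) ^ 2) := by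
    ring
  rw [this]
  linarith

/-- `|β - t²| ≥ (t - √β)²` and `|β - t²|² ≥ |β| (t - √β)²` -/
theorem beta_low (β t : ℝ) (ht : 0 ≤ t) :
    (t - Real.sqrt β) ^ 2 ≤ |β - t ^ 2| ∧ |β| * (t - Real.sqrt β) ^ 2 ≤ |β - t ^ 2| ^ 2 := by
  rcases le_total 0 β with hβ | hβ
  · set c := Real.sqrt β with hc
    have hc0 : 0 ≤ c := Real.sqrt_nonneg _
    have hc2 : β = c ^ 2 := (Real.sq_sqrt hβ).symm
    have e : |β - t ^ 2| = |t - c| * (c + t) := by
      rw [hc2, show c ^ 2 - t ^ 2 = (c - t) * (c + t) by ring, abs_mul, abs_of_nonneg (by positivity : 0 ≤ c + t), abs_sub_comm]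
    have h1 : |t - c| ≤ c + t := by
      rw [abs_le]
      constructor <;> linarith
    constructor
    · rw [e, ← sq_abs]
      nlinarith [abs_nonneg (t - c)]
    · rw [e, abs_of_nonneg hβ, hc2, mul_pow, sq_abs, mul_comm]
      apply mul_le_mul_of_nonneg_left _ (sq_nonneg _)
      nlinarith
  · have hs : Real.sqrt β = 0 := Real.sqrt_eq_zero_of_nonpos hβ
    rw [hs, sub_zero]
    have e : |β - t ^ 2| = |β| + t ^ 2 := by
      rw [abs_of_nonpos (by nlinarith : β - t ^ 2 ≤ 0), abs_of_nonpos hβ]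
      ring
    rw [e]
    have h0 : 0 ≤ |β| := abs_nonneg _
    constructor
    · linarith
    · nlinarith [sq_nonneg (|β|), sq_nonneg (t ^ 2), mul_nonneg h0 (sq_nonneg t)]

theorem II_bound (ν : ℝ) {x : ℝ} (hx : 0 < x) :
    II ν x ≤ ENNReal.ofReal (Real.pi * (ss ν ^ 2 / x)) ∧
    (x ^ 2 ≠ ν ^ 2 → II ν x ≤ ENNReal.ofReal (Real.pi * (ss ν ^ 4 / (x * Real.sqrt |x ^ 2 - ν ^ 2|)))) := by
  have hs1 := ss_one ν
  set s := ss ν with hs
  have hs0 : 0 < s := by linarith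
  set β : ℝ := 1 - ν ^ 2 / x ^ 2 with hβ
  have hw : ∀ t ∈ Ioo (0 : ℝ) 1, |(x * cs t) ^ 2 - ν ^ 2| / s ^ 4 = |β - t ^ 2| * (x ^ 2 / s ^ 4) := by
    intro t ht
    have e1 : (x * cs t) ^ 2 - ν ^ 2 = (β - t ^ 2) * x ^ 2 := by
      rw [mul_pow, cs_sq (by nlinarith [ht.1, ht.2]), hβ]
      field_simp
      ring
    rw [e1, abs_mul, abs_of_pos (by positivity : 0 < x ^ 2)]
    ring
  constructor
  · have hF : 0 < s ^ 2 / x := by positivity
    refine le_trans ?_ (cauchy2 (s ^ 2 / x) (Real.sqrt β) hF)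
    apply setLIntegral_mono' measurableSet_Ioo
    intro t ht
    apply ENNReal.ofReal_le_ofReal
    apply qq_le ν hF
    rw [← hs, hw t ht]
    have h1 := (beta_low β t ht.1.le).1
    have e : (t - Real.sqrt β) ^ 2 / (s ^ 2 / x) ^ 2 = (t - Real.sqrt β) ^ 2 * (x ^ 2 / s ^ 4) := by
      field_simp
    rw [e]
    have h2 : 0 ≤ |β - t ^ 2| * (x ^ 2 / s ^ 4) := by positivity
    have h3 := mul_le_mul_of_nonneg_right h1 (by positivity : 0 ≤ x ^ 2 / s ^ 4)
    nlinarith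
  · intro hne
    have hwpos : 0 < |x ^ 2 - ν ^ 2| := abs_pos.2 (sub_ne_zero.2 hne)
    have hF : 0 < s ^ 4 / (x * Real.sqrt |x ^ 2 - ν ^ 2|) := by positivity
    refine le_trans ?_ (cauchy2 (s ^ 4 / (x * Real.sqrt |x ^ 2 - ν ^ 2|)) (Real.sqrt β) hF)
    apply setLIntegral_mono' measurableSet_Ioo
    intro t ht
    apply ENNReal.ofReal_le_ofReal
    apply qq_le ν hF
    rw [← hs, hw t ht]
    have h1 := (beta_low β t ht.1.le).2
    have hβa : |β| = |x ^ 2 - ν ^ 2| / x ^ 2 := by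
      have : β = (x ^ 2 - ν ^ 2) / x ^ 2 := by rw [hβ]; field_simp
      rw [this, abs_div, abs_of_pos (by positivity : 0 < x ^ 2)]
    have e : (t - Real.sqrt β) ^ 2 / (s ^ 4 / (x * Real.sqrt |x ^ 2 - ν ^ 2|)) ^ 2 =
        |β| * (t - Real.sqrt β) ^ 2 * (x ^ 2 / s ^ 4) ^ 2 := by
      rw [hβa, div_pow, mul_pow, Real.sq_sqrt hwpos.le]
      field_simp
    rw [e, mul_pow]
    have h2 : 0 ≤ |β - t ^ 2| * (x ^ 2 / s ^ 4) := by positivity
    have h3 := mul_le_mul_of_nonneg_right h1 (by positivity : 0 ≤ (x ^ 2 / s ^ 4) ^ 2)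
    linarith

theorem II_cube (ν : ℝ) (hν : 0 ≤ ν) {δ x Λ : ℝ} (hδ : 0 < δ) (hδ1 : δ < 1) (hΛ : 1 ≤ Λ) (hx : Λ < x) :
    II ν x ^ 3 ≤ ENNReal.ofReal (Real.pi ^ 3 * ss ν ^ 10 * Λ ^ (-4 + δ / 2)) * gg (δ / 2) (x - ν) := by
  have hs1 := ss_one ν
  have hx0 : 0 < x := by linarith
  have hΛ0 : 0 < Λ := by linarith
  obtain ⟨b1, b2⟩ := II_bound ν hx0
  set s := ss ν with hs
  have hs0 : 0 < s := by linarith
  have hpi := Real.pi_pos
  by_cases hxν : x = ν
  · have : gg (δ / 2) (x - ν) = ∞ := by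
      unfold gg
      rw [hxν, sub_self, abs_zero, ENNReal.ofReal_zero]
      exact ENNReal.zero_rpow_of_neg (by linarith)
    rw [this, ENNReal.mul_top]
    · exact le_top
    · rw [Ne, ENNReal.ofReal_eq_zero, not_le]
      positivity
  have hne : x ^ 2 ≠ ν ^ 2 := by
    intro h
    exact hxν ((pow_left_inj₀ hx0.le hν (by norm_num)).1 h)
  have b2' := b2 hne
  have hp : 0 < |x - ν| := abs_pos.2 (sub_ne_zero.2 hxν)
  have hw : |x ^ 2 - ν ^ 2| = |x - ν| * (x + ν) := by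
    rw [show x ^ 2 - ν ^ 2 = (x - ν) * (x + ν) by ring, abs_mul, abs_of_pos (by linarith : 0 < x + ν)]
  have hw0 : 0 < |x ^ 2 - ν ^ 2| := abs_pos.2 (sub_ne_zero.2 hne)
  set A : ℝ := Real.pi * (s ^ 2 / x) with hA
  set B : ℝ := Real.pi * (s ^ 4 / (x * Real.sqrt |x ^ 2 - ν ^ 2|)) with hB
  have hA0 : 0 < A := by rw [hA]; positivity
  have hB0 : 0 < B := by rw [hB]; positivity
  have hfin : II ν x ≠ ∞ := ne_top_of_le_ne_top ENNReal.ofReal_ne_top b1
  have hI : II ν x ^ 3 ≤ ENNReal.ofReal (A ^ (1 + δ) * B ^ (2 - δ)) := by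
    have e3 : II ν x ^ 3 = II ν x ^ (1 + δ) * II ν x ^ (2 - δ) := by
      rw [← ENNReal.rpow_add_of_nonneg _ _ (by linarith) (by linarith), ← ENNReal.rpow_natCast]
      norm_num
    rw [e3, ENNReal.ofReal_mul (by positivity), ← ENNReal.ofReal_rpow_of_pos hA0,
      ← ENNReal.ofReal_rpow_of_pos hB0]
    exact mul_le_mul' (ENNReal.rpow_le_rpow b1 (by linarith)) (ENNReal.rpow_le_rpow b2' (by linarith))
  refine hI.trans ?_
  unfold gg
  rw [ENNReal.ofReal_rpow_of_pos hp, ← ENNReal.ofReal_mul (by positivity)]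
  apply ENNReal.ofReal_le_ofReal
  -- real estimate
  have e1 : A ^ (1 + δ) = Real.pi ^ (1 + δ) * (s ^ (2 * (1 + δ)) * x ^ (-(1 + δ))) := by
    rw [hA, Real.mul_rpow hpi.le (by positivity), Real.div_rpow (by positivity) hx0.le,
      ← Real.rpow_natCast s 2, ← Real.rpow_mul hs0.le, Real.rpow_neg hx0.le]
    push_cast
    ring
  have e2 : B ^ (2 - δ) = Real.pi ^ (2 - δ) * (s ^ (4 * (2 - δ)) * (x ^ (-(2 - δ)) *
      |x ^ 2 - ν ^ 2| ^ (-(1 - δ / 2)))) := by
    rw [hB, Real.mul_rpow hpi.le (by positivity), Real.div_rpow (by positivity) (by positivity),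
      ← Real.rpow_natCast s 4, ← Real.rpow_mul hs0.le, Real.mul_rpow hx0.le (Real.sqrt_nonneg _),
      Real.sqrt_eq_rpow, ← Real.rpow_mul hw0.le, Real.rpow_neg hx0.le, Real.rpow_neg hw0.le]
    rw [show (1 : ℝ) / 2 * (2 - δ) = 1 - δ / 2 by ring]
    push_cast
    field_simp
  rw [e1, e2]
  have p1 : Real.pi ^ (1 + δ) * Real.pi ^ (2 - δ) = Real.pi ^ 3 := by
    rw [← Real.rpow_add hpi, ← Real.rpow_natCast]
    norm_num
  have p2 : s ^ (2 * (1 + δ)) * s ^ (4 * (2 - δ)) ≤ s ^ 10 := by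
    rw [← Real.rpow_add hs0, ← Real.rpow_natCast]
    apply Real.rpow_le_rpow_of_exponent_le hs1
    push_cast
    linarith
  have p3 : x ^ (-(1 + δ)) * x ^ (-(2 - δ)) = x ^ (-3 : ℝ) := by
    rw [← Real.rpow_add hx0]
    congr 1
    ring
  have p4 : |x ^ 2 - ν ^ 2| ^ (-(1 - δ / 2)) ≤ |x - ν| ^ (-(1 - δ / 2)) * x ^ (-(1 - δ / 2)) := by
    rw [← Real.mul_rpow hp.le hx0.le]
    apply Real.rpow_le_rpow_of_nonpos (by positivity) _ (by linarith)
    rw [hw]
    exact mul_le_mul_of_nonneg_left (by linarith) hp.le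
  have p5 : x ^ (-3 : ℝ) * x ^ (-(1 - δ / 2)) ≤ Λ ^ (-4 + δ / 2) := by
    rw [← Real.rpow_add hx0]
    have : (-3 : ℝ) + -(1 - δ / 2) = -4 + δ / 2 := by ring
    rw [this]
    exact Real.rpow_le_rpow_of_nonpos hΛ0 hx.le (by linarith)
  have hq0 : 0 < |x - ν| ^ (-(1 - δ / 2)) := Real.rpow_pos_of_pos hp _
  calc Real.pi ^ (1 + δ) * (s ^ (2 * (1 + δ)) * x ^ (-(1 + δ))) *
        (Real.pi ^ (2 - δ) * (s ^ (4 * (2 - δ)) * (x ^ (-(2 - δ)) *
          |x ^ 2 - ν ^ 2| ^ (-(1 - δ / 2)))))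
      = (Real.pi ^ (1 + δ) * Real.pi ^ (2 - δ)) * (s ^ (2 * (1 + δ)) * s ^ (4 * (2 - δ))) *
          (x ^ (-(1 + δ)) * x ^ (-(2 - δ))) * |x ^ 2 - ν ^ 2| ^ (-(1 - δ / 2)) := by ring
    _ ≤ Real.pi ^ 3 * s ^ 10 * x ^ (-3 : ℝ) * (|x - ν| ^ (-(1 - δ / 2)) * x ^ (-(1 - δ / 2))) := by
        rw [p1, p3]
        gcongr
    _ = Real.pi ^ 3 * s ^ 10 * (x ^ (-3 : ℝ) * x ^ (-(1 - δ / 2))) * |x - ν| ^ (-(1 - δ / 2)) := by ring
    _ ≤ _ := by gcongr

/-- integral of the cube -/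
theorem II_int (ν : ℝ) (hν : 0 ≤ ν) {δ Λ : ℝ} (hδ : 0 < δ) (hδ1 : δ < 1) (hΛ : 1 ≤ Λ) :
    ∫⁻ x in Ioc Λ (2 * Λ), II ν x ^ 3 ≤
      ENNReal.ofReal (ss ν ^ 4 * ((20000 / δ) * Λ ^ (-2 + δ))) := by
  have hs1 := ss_one ν
  have hs3 := ss_three ν
  set s := ss ν with hs
  have hs0 : 0 < s := by linarith
  have hΛ0 : 0 < Λ := by linarith
  have hpi := Real.pi_pos
  have hpi4 : Real.pi < 3.15 := Real.pi_lt_d2
  rcases le_or_gt ν (4 * Λ) with hcase | hcase
  · have hs6 : s ^ 6 ≤ 16 * Λ ^ 2 := by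
      have h1 : s ^ 3 ≤ 4 * Λ := by
        rw [hs3]
        exact max_le (by linarith) hcase
      calc s ^ 6 = (s ^ 3) ^ 2 := by ring
        _ ≤ (4 * Λ) ^ 2 := pow_le_pow_left₀ (by positivity) h1 2
        _ = _ := by ring
    calc ∫⁻ x in Ioc Λ (2 * Λ), II ν x ^ 3
        ≤ ∫⁻ x in Ioc Λ (2 * Λ), ENNReal.ofReal (Real.pi ^ 3 * s ^ 10 * Λ ^ (-4 + δ / 2)) *
            gg (δ / 2) (x - ν) := by
          apply setLIntegral_mono' measurableSet_Ioc
          intro x hx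
          exact II_cube ν hν hδ hδ1 hΛ hx.1
      _ = ENNReal.ofReal (Real.pi ^ 3 * s ^ 10 * Λ ^ (-4 + δ / 2)) *
            ∫⁻ x in Ioc Λ (2 * Λ), gg (δ / 2) (x - ν) :=
          lintegral_const_mul _ ((gg_meas _).comp (by fun_prop))
      _ ≤ ENNReal.ofReal (Real.pi ^ 3 * s ^ 10 * Λ ^ (-4 + δ / 2)) *
            ENNReal.ofReal (2 * (5 * Λ) ^ (δ / 2) / (δ / 2)) := by
          refine mul_le_mul' le_rfl ?_
          refine le_trans ?_ (gg_int (δ / 2) (5 * Λ) (by linarith) (by linarith))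
          rw [← lintegral_indicator measurableSet_Ioc, ← lintegral_indicator measurableSet_Ioo]
          have e := lintegral_sub_right_eq_self (μ := (volume : Measure ℝ))
            (fun x => (Ioo (-(5 * Λ)) (5 * Λ)).indicator (gg (δ / 2)) x) ν
          rw [← e]
          apply lintegral_mono
          intro x
          simp only
          by_cases hx : x ∈ Ioc Λ (2 * Λ)
          · rw [indicator_of_mem hx, indicator_of_mem]
            constructor <;> linarith [hx.1, hx.2]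
          · rw [indicator_of_notMem hx]
            exact bot_le
      _ ≤ _ := by
          rw [← ENNReal.ofReal_mul (by positivity)]
          apply ENNReal.ofReal_le_ofReal
          have h5 : (5 * Λ) ^ (δ / 2) ≤ 5 * Λ ^ (δ / 2) := by
            rw [Real.mul_rpow (by norm_num) hΛ0.le]
            apply mul_le_mul_of_nonneg_right _ (by positivity)
            calc (5 : ℝ) ^ (δ / 2) ≤ 5 ^ (1 : ℝ) :=
                  Real.rpow_le_rpow_of_exponent_le (by norm_num) (by linarith)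
              _ = 5 := Real.rpow_one _
          have hL : Λ ^ (-4 + δ / 2) * Λ ^ (δ / 2) * Λ ^ 2 = Λ ^ (-2 + δ) := by
            rw [← Real.rpow_natCast, ← Real.rpow_add hΛ0, ← Real.rpow_add hΛ0]
            congr 1
            push_cast
            ring
          have hpi3 : Real.pi ^ 3 ≤ 31.26 := by
            calc Real.pi ^ 3 ≤ 3.15 ^ 3 := pow_le_pow_left₀ hpi.le hpi4.le 3
              _ ≤ _ := by norm_num
          calc Real.pi ^ 3 * s ^ 10 * Λ ^ (-4 + δ / 2) * (2 * (5 * Λ) ^ (δ / 2) / (δ / 2))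
              ≤ 31.26 * s ^ 10 * Λ ^ (-4 + δ / 2) * (2 * (5 * Λ ^ (δ / 2)) / (δ / 2)) := by gcongr
            _ = (625.2 / δ) * (s ^ 4 * (Λ ^ (-4 + δ / 2) * Λ ^ (δ / 2))) * s ^ 6 := by
                field_simp
                ring
            _ ≤ (625.2 / δ) * (s ^ 4 * (Λ ^ (-4 + δ / 2) * Λ ^ (δ / 2))) * (16 * Λ ^ 2) := by gcongr
            _ = s ^ 4 * ((10003.2 / δ) * (Λ ^ (-4 + δ / 2) * Λ ^ (δ / 2) * Λ ^ 2)) := by
                field_simp
                ring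
            _ ≤ _ := by
                rw [hL]
                gcongr
                norm_num
  · have hν1 : 1 ≤ ν := by linarith
    have hsν : s ^ 3 = ν := by rw [hs3, max_eq_right hν1]
    have hII : ∀ x ∈ Ioc Λ (2 * Λ), II ν x ^ 3 ≤ ENNReal.ofReal ((2 / s ^ 4) ^ 3) := by
      intro x hx
      rw [ENNReal.ofReal_pow (by positivity)]
      apply pow_le_pow_left'
      calc II ν x ≤ ∫⁻ t in Ioo (0 : ℝ) 1, ENNReal.ofReal (2 / s ^ 4) := by
            apply setLIntegral_mono' measurableSet_Ioo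
            intro t ht
            apply ENNReal.ofReal_le_ofReal
            have hx0 : 0 < x := lt_trans hΛ0 hx.1
            have hcs : cs t ^ 2 ≤ 1 := by
              rw [cs_sq (by nlinarith [ht.1, ht.2])]
              nlinarith [sq_nonneg t]
            have h1 : (x * cs t) ^ 2 ≤ ν ^ 2 / 4 := by
              rw [mul_pow]
              have : x ^ 2 ≤ ν ^ 2 / 4 := by
                have : x ≤ ν / 2 := by linarith [hx.2]
                nlinarith
              nlinarith [sq_nonneg x, sq_nonneg (cs t)]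
            have h2 : 3 / 4 * ν ^ 2 ≤ |(x * cs t) ^ 2 - ν ^ 2| := by
              rw [abs_of_nonpos (by nlinarith)]
              linarith
            have h3 : 3 / 4 * s ^ 2 ≤ |(x * cs t) ^ 2 - ν ^ 2| / s ^ 4 := by
              rw [le_div_iff₀ (by positivity)]
              calc 3 / 4 * s ^ 2 * s ^ 4 = 3 / 4 * (s ^ 3) ^ 2 := by ring
                _ = 3 / 4 * ν ^ 2 := by rw [hsν]
                _ ≤ _ := h2
            unfold qq
            rw [inv_le_comm₀ (by positivity) (by positivity), inv_div, ← hs]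
            calc s ^ 4 / 2 ≤ (3 / 4 * s ^ 2) ^ 2 := by nlinarith [pow_pos hs0 4]
              _ ≤ _ := by
                apply pow_le_pow_left₀ (by positivity)
                linarith
        _ = ENNReal.ofReal (2 / s ^ 4) := by
            simp
    calc ∫⁻ x in Ioc Λ (2 * Λ), II ν x ^ 3
        ≤ ∫⁻ x in Ioc Λ (2 * Λ), ENNReal.ofReal ((2 / s ^ 4) ^ 3) :=
          setLIntegral_mono' measurableSet_Ioc hII
      _ = ENNReal.ofReal ((2 / s ^ 4) ^ 3) * ENNReal.ofReal Λ := by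
          rw [setLIntegral_const, Real.volume_Ioc]
          congr 2
          ring
      _ ≤ _ := by
          rw [← ENNReal.ofReal_mul (by positivity)]
          apply ENNReal.ofReal_le_ofReal
          have h1 : Λ ^ 3 ≤ s ^ 9 := by
            calc Λ ^ 3 ≤ ν ^ 3 := pow_le_pow_left₀ hΛ0.le (by linarith) 3
              _ = (s ^ 3) ^ 3 := by rw [hsν]
              _ = _ := by ring
          have h2 : s ^ 9 ≤ s ^ 16 := pow_le_pow_right₀ hs1 (by norm_num)
          have h3 : (Λ ^ 2)⁻¹ ≤ Λ ^ (-2 + δ) := by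
            rw [← Real.rpow_natCast, ← Real.rpow_neg hΛ0.le]
            apply Real.rpow_le_rpow_of_exponent_le hΛ
            push_cast
            linarith
          have h4 : (2 / s ^ 4) ^ 3 * Λ = s ^ 4 * (8 * (Λ / s ^ 16)) := by
            field_simp
            ring
          have h5 : Λ / s ^ 16 ≤ (Λ ^ 2)⁻¹ := by
            rw [div_le_iff₀ (by positivity), inv_mul_eq_div, le_div_iff₀ (by positivity)]
            calc Λ * Λ ^ 2 = Λ ^ 3 := by ring
              _ ≤ _ := h1.trans h2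
          have h6 : (8 : ℝ) ≤ 20000 / δ := by
            rw [le_div_iff₀ hδ]
            linarith
          rw [h4]
          apply mul_le_mul_of_nonneg_left _ (by positivity)
          exact mul_le_mul h6 (h5.trans h3) (by positivity) (by positivity)

end Pool.Agent.H243.RA
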