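import Mathlib
import Pool.Agent.H243.RA.C7
set_option autoImplicit false

/-! The turning part: the `L⁴` bound. -/

open MeasureTheory Set
open scoped ENNReal

namespace Pool.Agent.H243.RA

section
variable {ν C : ℝ} {j k : ℝ → ℝ}

/-- the turning part of `j` -/
noncomputable def T0 (ν : ℝ) (j : ℝ → ℝ) (x t : ℝ) : ℝ :=
  open Classical in
  if (0 < x ∧ 0 < t ∧ t < 1) ∧ (x * cs t) ^ 2 - ν ^ 2 ≤ ss ν ^ 4 then j (x * cs t) else 0

theorem T0_meas (hj : Measurable j) : Measurable (Function.uncurry (T0 ν j)) := by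
  have h3 := cs_meas
  have hx : Measurable fun p : ℝ × ℝ => p.1 * cs p.2 :=
    measurable_fst.mul (h3.comp measurable_snd)
  unfold T0
  apply Measurable.ite
  · apply MeasurableSet.inter
    · exact (measurableSet_lt measurable_const measurable_fst).inter
        ((measurableSet_lt measurable_const measurable_snd).inter
          (measurableSet_lt measurable_snd measurable_const))
    · exact measurableSet_le ((hx.pow_const 2).sub_const _) measurable_const
  · exact hj.comp hx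
  · exact measurable_const

/-- the constant -/
noncomputable def TC (C : ℝ) : ℝ := 48 * 9 ^ 4 * (C + C ^ 2)

theorem T0_sq (h : BD ν C j k) (x t : ℝ) : T0 ν j x t ^ 2 ≤ TC C / ss ν ^ 2 * qq ν x t ^ 2 := by
  have hC := h.C_nonneg
  have hs1 := ss_one ν
  have hs0 : 0 < ss ν := by linarith
  have hT : 0 ≤ TC C := by unfold TC; positivity
  unfold T0
  split_ifs with hc
  · obtain ⟨⟨hx, ht0, ht1⟩, h1⟩ := hc
    have hcs := cs_pos ht0 ht1
    have h2 := turning h (mul_pos hx hcs) h1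
    unfold qq
    set q := 1 + |(x * cs t) ^ 2 - ν ^ 2| / ss ν ^ 4 with hq
    have hq0 : 0 < q := by rw [hq]; positivity
    have e : TC C / ss ν ^ 2 * ((q ^ 2)⁻¹) ^ 2 = TC C / (ss ν ^ 2 * q ^ 4) := by
      field_simp
    rw [e, le_div_iff₀ (by positivity)]
    unfold TC
    calc _ = ss ν ^ 2 * j (x * cs t) ^ 2 * q ^ 4 := by ring
      _ ≤ _ := h2
  · have := qq_nonneg ν x t
    rw [zero_pow two_ne_zero]
    positivity

theorem turn_bound (h : BD ν C j k) (hj : Measurable j) {δ Λ : ℝ} (hδ : 0 < δ) (hδ1 : δ < 1)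
    (hΛ : 1 ≤ Λ) (g : ℝ → ℂ) (hg : Measurable g) (hg1 : ∀ t, ‖g t‖ ≤ 1) :
    ∫⁻ x in Ioc Λ (2 * Λ), ∫⁻ z : ℝ, ‖∫ t in Ioo (0 : ℝ) 1,
        Complex.exp (-((z * t : ℝ) : ℂ) * Complex.I) * (g t * (T0 ν j x t : ℂ))‖ₑ ^ 4 ≤
      ENNReal.ofReal (2 * Real.pi * TC C ^ 2 * ((20000 / δ) * Λ ^ (-2 + δ))) := by
  have hC := h.C_nonneg
  have hs1 := ss_one ν
  have hs0 : 0 < ss ν := by linarith
  have hT : 0 ≤ TC C := by unfold TC; positivity
  have hpi := Real.pi_pos
  have hTm := T0_meas (ν := ν) hj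
  have hqm := qq_meas ν
  -- pointwise bound
  have hTb : ∀ x t, |T0 ν j x t| ≤ Real.sqrt (TC C / ss ν ^ 2) * qq ν x t := by
    intro x t
    apply abs_le_of_sq_le_sq _ (mul_nonneg (Real.sqrt_nonneg _) (qq_nonneg ν x t))
    rw [mul_pow, Real.sq_sqrt (by positivity)]
    exact T0_sq h x t
  set a : ℝ := Real.sqrt (TC C / ss ν ^ 2) with ha
  have ha0 : 0 ≤ a := Real.sqrt_nonneg _
  have ha2 : a ^ 2 = TC C / ss ν ^ 2 := Real.sq_sqrt (by positivity)
  have key : ∀ x, ∫⁻ z : ℝ, ‖∫ t in Ioo (0 : ℝ) 1,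
        Complex.exp (-((z * t : ℝ) : ℂ) * Complex.I) * (g t * (T0 ν j x t : ℂ))‖ₑ ^ 4 ≤
      ENNReal.ofReal (2 * Real.pi * TC C ^ 2 / ss ν ^ 4) * II ν x ^ 3 := by
    intro x
    set f : ℝ → ℂ := fun t => g t * (T0 ν j x t : ℂ) with hf
    have hfm : Measurable f :=
      hg.mul (Complex.measurable_ofReal.comp (hTm.comp (measurable_const.prodMk measurable_id)))
    have hfb : ∀ t, ‖f t‖ ≤ a * qq ν x t := by
      intro t
      simp only [hf]
      rw [norm_mul, Complex.norm_real, Real.norm_eq_abs]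
      calc ‖g t‖ * |T0 ν j x t| ≤ 1 * (a * qq ν x t) :=
            mul_le_mul (hg1 t) (hTb x t) (abs_nonneg _) zero_le_one
        _ = _ := one_mul _
    have hfb' : ∀ t, ‖f t‖ ≤ a := fun t =>
      (hfb t).trans (by
        have := mul_le_mul_of_nonneg_left (qq_le_one ν x t) ha0
        linarith)
    have hqm1 : Measurable fun t => ENNReal.ofReal (qq ν x t) :=
      (hqm.comp (measurable_const.prodMk measurable_id)).ennreal_ofReal
    -- sup bound
    have hsup : ∀ z : ℝ, ‖∫ t in Ioo (0 : ℝ) 1, Complex.exp (-((z * t : ℝ) : ℂ) * Complex.I) * f t‖ₑ ≤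
        ENNReal.ofReal a * II ν x := by
      intro z
      refine (enorm_integral_le_lintegral_enorm _).trans ?_
      unfold II
      rw [← lintegral_const_mul _ hqm1]
      apply lintegral_mono
      intro t
      dsimp only
      rw [enorm_mul, ← ENNReal.ofReal_mul ha0]
      have e1 : ‖Complex.exp (-((z * t : ℝ) : ℂ) * Complex.I)‖ₑ = 1 := by
        rw [← ofReal_norm, show -((z * t : ℝ) : ℂ) * Complex.I = ((-(z * t) : ℝ) : ℂ) * Complex.I by
          push_cast; ring, Complex.norm_exp_ofReal_mul_I, ENNReal.ofReal_one]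
      rw [e1, one_mul, ← ofReal_norm]
      exact ENNReal.ofReal_le_ofReal (hfb t)
    -- Plancherel
    have hpl := Pool.Agent.H789R2.FR.pl_phase (Ioo (0 : ℝ) 1) measurableSet_Ioo (by simp) (fun c => c)
      (fun _ => 1) measurable_id measurable_const (fun c _ => hasDerivWithinAt_id c _)
      (fun _ _ => one_ne_zero) (injOn_id _) f hfm ⟨a, hfb'⟩
    have hL2 : ∫⁻ c in Ioo (0 : ℝ) 1, ENNReal.ofReal (‖f c‖ ^ 2 / |(1 : ℝ)|) ≤
        ENNReal.ofReal (a ^ 2) * II ν x := by
      unfold II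
      rw [← lintegral_const_mul _ hqm1]
      apply lintegral_mono
      intro t
      dsimp only
      rw [← ENNReal.ofReal_mul (by positivity), abs_one, div_one]
      apply ENNReal.ofReal_le_ofReal
      calc ‖f t‖ ^ 2 ≤ (a * qq ν x t) ^ 2 := pow_le_pow_left₀ (norm_nonneg _) (hfb t) 2
        _ = a ^ 2 * (qq ν x t * qq ν x t) := by ring
        _ ≤ a ^ 2 * (1 * qq ν x t) := by
            apply mul_le_mul_of_nonneg_left _ (by positivity)
            exact mul_le_mul_of_nonneg_right (qq_le_one ν x t) (qq_nonneg ν x t)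
        _ = _ := by ring
    calc ∫⁻ z : ℝ, ‖∫ t in Ioo (0 : ℝ) 1, Complex.exp (-((z * t : ℝ) : ℂ) * Complex.I) * f t‖ₑ ^ 4
        ≤ ∫⁻ z : ℝ, (ENNReal.ofReal a * II ν x) ^ 2 * ENNReal.ofReal (‖∫ t in Ioo (0 : ℝ) 1,
            Complex.exp (-((z * t : ℝ) : ℂ) * Complex.I) * f t‖ ^ 2) := by
          apply lintegral_mono
          intro z
          dsimp only
          have e4 : ∀ y : ℝ≥0∞, y ^ 4 = y ^ 2 * y ^ 2 := fun y => by ring
          rw [e4]
          refine mul_le_mul' (pow_le_pow_left' (hsup z) 2) ?_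
          rw [ENNReal.ofReal_pow (norm_nonneg _), ofReal_norm]
      _ = (ENNReal.ofReal a * II ν x) ^ 2 * ∫⁻ z : ℝ, ENNReal.ofReal (‖∫ t in Ioo (0 : ℝ) 1,
            Complex.exp (-((z * t : ℝ) : ℂ) * Complex.I) * f t‖ ^ 2) := by
          rw [lintegral_const_mul']
          apply ENNReal.pow_ne_top
          apply ENNReal.mul_ne_top ENNReal.ofReal_ne_top
          have : II ν x ≤ ∫⁻ t in Ioo (0 : ℝ) 1, 1 := by
            unfold II
            apply lintegral_mono
            intro t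
            dsimp only
            rw [ENNReal.ofReal_le_one]
            exact qq_le_one ν x t
          refine ne_top_of_le_ne_top ?_ this
          simp
      _ ≤ (ENNReal.ofReal a * II ν x) ^ 2 * (ENNReal.ofReal (2 * Real.pi) *
            (ENNReal.ofReal (a ^ 2) * II ν x)) := by
          refine mul_le_mul' le_rfl (hpl.trans (mul_le_mul' le_rfl hL2))
      _ = (ENNReal.ofReal a ^ 2 * ENNReal.ofReal (2 * Real.pi) * ENNReal.ofReal (a ^ 2)) *
            II ν x ^ 3 := by ring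
      _ = _ := by
          congr 1
          rw [← ENNReal.ofReal_pow ha0, ← ENNReal.ofReal_mul (by positivity),
            ← ENNReal.ofReal_mul (by positivity), ha2]
          congr 1
          field_simp
  calc ∫⁻ x in Ioc Λ (2 * Λ), ∫⁻ z : ℝ, ‖∫ t in Ioo (0 : ℝ) 1,
        Complex.exp (-((z * t : ℝ) : ℂ) * Complex.I) * (g t * (T0 ν j x t : ℂ))‖ₑ ^ 4
      ≤ ∫⁻ x in Ioc Λ (2 * Λ), ENNReal.ofReal (2 * Real.pi * TC C ^ 2 / ss ν ^ 4) * II ν x ^ 3 :=
        lintegral_mono key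
    _ = ENNReal.ofReal (2 * Real.pi * TC C ^ 2 / ss ν ^ 4) * ∫⁻ x in Ioc Λ (2 * Λ), II ν x ^ 3 :=
        lintegral_const_mul' _ _ ENNReal.ofReal_ne_top
    _ ≤ ENNReal.ofReal (2 * Real.pi * TC C ^ 2 / ss ν ^ 4) *
          ENNReal.ofReal (ss ν ^ 4 * ((20000 / δ) * Λ ^ (-2 + δ))) :=
        mul_le_mul' le_rfl (II_int ν h.nn hδ hδ1 hΛ)
    _ = _ := by
        rw [← ENNReal.ofReal_mul (by positivity)]
        congr 1
        field_simp

end

end Pool.Agent.H243.RA
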