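import Mathlib
import Pool.Agent.H243.RA.C6
import Pool.Agent.H243.RA.C8
set_option autoImplicit false

/-! Summing the pieces. -/

open MeasureTheory Set
open scoped ENNReal

namespace Pool.Agent.H243.RA

/-- the one dimensional transform -/
noncomputable def F1 (h : ℝ → ℝ → ℂ) (p : ℝ × ℝ) : ℂ :=
  ∫ t in Ioo (0 : ℝ) 1, Complex.exp (-((p.2 * t : ℝ) : ℂ) * Complex.I) * h p.1 t

theorem F1_meas {h : ℝ → ℝ → ℂ} (hh : Measurable (Function.uncurry h)) : Measurable (F1 h) := by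
  unfold F1
  have : StronglyMeasurable (Function.uncurry (fun (p : ℝ × ℝ) (t : ℝ) =>
      Complex.exp (-((p.2 * t : ℝ) : ℂ) * Complex.I) * h p.1 t)) := by
    apply Measurable.stronglyMeasurable
    apply Measurable.mul
    · fun_prop
    · exact hh.comp ((measurable_fst.comp measurable_fst).prodMk measurable_snd)
  exact (this.integral_prod_right (ν := volume.restrict (Ioo (0 : ℝ) 1))).measurable

theorem exp_norm_one (y : ℝ) : ‖Complex.exp (-(y : ℂ) * Complex.I)‖ = 1 := by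
  rw [show -(y : ℂ) * Complex.I = ((-y : ℝ) : ℂ) * Complex.I by push_cast; ring,
    Complex.norm_exp_ofReal_mul_I]

theorem F1_int {f : ℝ → ℂ} (hf : Measurable f) {B : ℝ} (hB : ∀ t, ‖f t‖ ≤ B) (z : ℝ) :
    IntegrableOn (fun t => Complex.exp (-((z * t : ℝ) : ℂ) * Complex.I) * f t) (Ioo (0 : ℝ) 1) := by
  have hm : Measurable (fun t : ℝ => Complex.exp (-((z * t : ℝ) : ℂ) * Complex.I) * f t) := by
    apply Measurable.mul _ hf
    fun_prop
  apply Measure.integrableOn_of_bounded (M := B) (by simp) hm.aestronglyMeasurable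
  filter_upwards with t
  rw [norm_mul, exp_norm_one, one_mul]
  exact hB t

theorem four_add (x y : ℝ≥0∞) : (x + y) ^ 4 ≤ 8 * (x ^ 4 + y ^ 4) := by
  have h := ENNReal.rpow_add_le_mul_rpow_add_rpow x y (p := 4) (by norm_num)
  have e : (2 : ℝ≥0∞) ^ ((4 : ℝ) - 1) = 8 := by
    rw [show (4 : ℝ) - 1 = ((3 : ℕ) : ℝ) by norm_num, ENNReal.rpow_natCast]
    norm_num
  rw [e] at h
  have e1 : ∀ w : ℝ≥0∞, w ^ (4 : ℝ) = w ^ (4 : ℕ) := fun w => by
    rw [show (4 : ℝ) = ((4 : ℕ) : ℝ) by norm_num, ENNReal.rpow_natCast]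
  rw [e1, e1, e1] at h
  exact h

theorem four_sum {ι : Type*} (s : Finset ι) (f : ι → ℝ≥0∞) :
    (∑ i ∈ s, f i) ^ 4 ≤ (s.card : ℝ≥0∞) ^ 3 * ∑ i ∈ s, f i ^ 4 := by
  have h := ENNReal.rpow_sum_le_const_mul_sum_rpow s f (p := 4) (by norm_num)
  have e : (s.card : ℝ≥0∞) ^ ((4 : ℝ) - 1) = (s.card : ℝ≥0∞) ^ 3 := by
    rw [show (4 : ℝ) - 1 = ((3 : ℕ) : ℝ) by norm_num, ENNReal.rpow_natCast]
  rw [e] at h
  have e1 : ∀ w : ℝ≥0∞, w ^ (4 : ℝ) = w ^ (4 : ℕ) := fun w => by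
    rw [show (4 : ℝ) = ((4 : ℕ) : ℝ) by norm_num, ENNReal.rpow_natCast]
  simp only [e1] at h
  exact h

section
variable {ν C : ℝ} {j k : ℝ → ℝ}

/-- the scales -/
noncomputable def om (ν : ℝ) (i : ℕ) : ℝ := ss ν * (2 : ℝ) ^ ((i : ℝ) / 4)

theorem om_four (ν : ℝ) (i : ℕ) : om ν i ^ 4 = ss ν ^ 4 * 2 ^ i := by
  unfold om
  rw [mul_pow]
  congr 1
  rw [← Real.rpow_natCast, ← Real.rpow_mul (by norm_num)]
  rw [show (i : ℝ) / 4 * ((4 : ℕ) : ℝ) = i by push_cast; ring, Real.rpow_natCast]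

theorem om_ge (ν : ℝ) (i : ℕ) : ss ν ≤ om ν i := by
  unfold om
  have h1 : (1 : ℝ) ≤ (2 : ℝ) ^ ((i : ℝ) / 4) := Real.one_le_rpow (by norm_num) (by positivity)
  have h2 := ss_one ν
  nlinarith

theorem dec (_h : BD ν C j k) (N : ℕ) {x t : ℝ} (hx : 0 < x) (ht0 : 0 < t) (ht1 : t < 1)
    (hN : (x * cs t) ^ 2 - ν ^ 2 ≤ ss ν ^ 4 * 2 ^ N) :
    j (x * cs t) = T0 ν j x t + ∑ i ∈ Finset.range N, (Ap ν j k (om ν i) x t).re := by
  have hs1 := ss_one ν
  have hcs := cs_pos ht0 ht1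
  have hA : ∀ i, (Ap ν j k (om ν i) x t).re =
      open Classical in if om ν i ^ 4 < (x * cs t) ^ 2 - ν ^ 2 ∧
        (x * cs t) ^ 2 - ν ^ 2 ≤ 2 * om ν i ^ 4 then j (x * cs t) else 0 := by
    intro i
    have hom0 : 0 < om ν i := by linarith [om_ge ν i]
    have hom : 0 < om ν i ^ 4 := by positivity
    unfold Ap
    by_cases hc : om ν i ^ 4 < (x * cs t) ^ 2 - ν ^ 2 ∧ (x * cs t) ^ 2 - ν ^ 2 ≤ 2 * om ν i ^ 4
    · rw [if_pos ⟨⟨hx, ht0, ht1⟩, hc⟩, if_pos hc, Complex.re_ofReal_mul, cz_re]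
      unfold ZZ
      have hr : 0 < rr ν (x * cs t) := rr_pos _ _ (by linarith [hc.1])
      field_simp
    · rw [if_neg (fun hcon => hc hcon.2), if_neg hc]
      rfl
  by_cases hc : (x * cs t) ^ 2 - ν ^ 2 ≤ ss ν ^ 4
  · have hT : T0 ν j x t = j (x * cs t) := by
      unfold T0
      rw [if_pos ⟨⟨hx, ht0, ht1⟩, hc⟩]
    rw [hT, Finset.sum_eq_zero, add_zero]
    intro i _
    rw [hA, if_neg]
    rintro ⟨h1, _⟩
    have h2 : ss ν ^ 4 ≤ om ν i ^ 4 := pow_le_pow_left₀ (by linarith) (om_ge ν i) 4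
    linarith
  · push Not at hc
    have hT : T0 ν j x t = 0 := by
      unfold T0
      rw [if_neg]
      rintro ⟨_, h1⟩
      linarith
    rw [hT, zero_add]
    classical
    have hex : ∃ n : ℕ, (x * cs t) ^ 2 - ν ^ 2 ≤ ss ν ^ 4 * 2 ^ n := ⟨N, hN⟩
    set n := Nat.find hex with hn
    have hn1 := Nat.find_spec hex
    rw [← hn] at hn1
    have hn0 : n ≠ 0 := by
      intro h0
      rw [h0, pow_zero, mul_one] at hn1
      linarith
    obtain ⟨m, hm⟩ := Nat.exists_eq_succ_of_ne_zero hn0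
    have hn2 : ss ν ^ 4 * 2 ^ m < (x * cs t) ^ 2 - ν ^ 2 := by
      have := Nat.find_min hex (m := m) (by omega)
      push Not at this
      exact this
    have hnN : n ≤ N := Nat.find_min' hex hN
    rw [Finset.sum_eq_single m]
    · rw [hA, if_pos]
      rw [om_four]
      refine ⟨hn2, ?_⟩
      rw [hm, Nat.succ_eq_add_one, pow_succ (2 : ℝ) m] at hn1
      linarith
    · intro i _ hi
      rw [hA, if_neg]
      rw [om_four]
      rintro ⟨h1, h2⟩
      have hs4 : 0 < ss ν ^ 4 := by positivity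
      rcases lt_or_gt_of_ne hi with hlt | hgt
      · have h3 : (2 : ℝ) ^ (i + 1) ≤ 2 ^ m := pow_le_pow_right₀ (by norm_num) (by omega)
        rw [pow_succ] at h3
        have h4 : ss ν ^ 4 * (2 ^ i * 2) ≤ ss ν ^ 4 * 2 ^ m := mul_le_mul_of_nonneg_left h3 hs4.le
        linarith
      · have h3 : (2 : ℝ) ^ n ≤ 2 ^ i := pow_le_pow_right₀ (by norm_num) (by omega)
        have h4 : ss ν ^ 4 * 2 ^ n ≤ ss ν ^ 4 * 2 ^ i := mul_le_mul_of_nonneg_left h3 hs4.le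
        linarith
    · intro hm'
      exfalso
      apply hm'
      rw [Finset.mem_range]
      omega

theorem Ap_conj_F1 (ω : ℝ) (g : ℝ → ℂ) (x z : ℝ) :
    ‖F1 (fun x t => g t * (starRingEnd ℂ) (Ap ν j k ω x t)) (x, z)‖ₑ =
      ‖F1 (fun x t => (starRingEnd ℂ) (g t) * Ap ν j k ω x t) (x, -z)‖ₑ := by
  unfold F1
  rw [← ofReal_norm, ← ofReal_norm, ← RCLike.norm_conj (∫ t in Ioo (0 : ℝ) 1,
    Complex.exp (-(((x, z).2 * t : ℝ) : ℂ) * Complex.I) *
      (g t * (starRingEnd ℂ) (Ap ν j k ω (x, z).1 t))), ← integral_conj]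
  congr 2
  congr 1
  funext t
  rw [map_mul, map_mul, Complex.conj_conj, ← Complex.exp_conj]
  congr 2
  simp only [map_mul, map_neg, Complex.conj_ofReal, Complex.conj_I]
  push_cast
  ring

/-- number of pieces -/
theorem exists_N (ν Λ : ℝ) : ∃ N : ℕ, 4 * Λ ^ 2 ≤ ss ν ^ 4 * 2 ^ N ∧
    ∀ i < N, ss ν ^ 4 * 2 ^ i ≤ 4 * Λ ^ 2 := by
  classical
  have hs1 := ss_one ν
  have hs4 : 1 ≤ ss ν ^ 4 := one_le_pow₀ hs1
  have hex : ∃ N : ℕ, 4 * Λ ^ 2 ≤ ss ν ^ 4 * 2 ^ N := by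
    obtain ⟨N, hN⟩ := pow_unbounded_of_one_lt (4 * Λ ^ 2) (by norm_num : (1 : ℝ) < 2)
    refine ⟨N, ?_⟩
    have : (0 : ℝ) < 2 ^ N := by positivity
    nlinarith
  refine ⟨Nat.find hex, Nat.find_spec hex, ?_⟩
  intro i hi
  have := Nat.find_min hex hi
  push Not at this
  exact this.le

theorem N_le {η : ℝ} (hη : 0 < η) {Λ : ℝ} (hΛ : 1 ≤ Λ) {N : ℕ}
    (hN : ∀ i < N, (2 : ℝ) ^ i ≤ 4 * Λ ^ 2) :
    (N : ℝ) ≤ 8 ^ η / (η * Real.log 2) * Λ ^ (2 * η) := by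
  have hl : 0 < Real.log 2 := Real.log_pos (by norm_num)
  have h2 : (2 : ℝ) ^ N ≤ 8 * Λ ^ 2 := by
    rcases Nat.eq_zero_or_pos N with h0 | h0
    · rw [h0, pow_zero]; nlinarith
    · obtain ⟨m, rfl⟩ := Nat.exists_eq_succ_of_ne_zero h0.ne'
      have := hN m (by omega)
      rw [Nat.succ_eq_add_one, pow_succ]
      linarith
  have h3 : η * Real.log 2 * N ≤ 8 ^ η * Λ ^ (2 * η) := by
    calc η * Real.log 2 * N ≤ Real.exp (η * Real.log 2 * N) := by
          have := Real.add_one_le_exp (η * Real.log 2 * N)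
          linarith
      _ = ((2 : ℝ) ^ N) ^ η := by
          rw [← Real.rpow_natCast, ← Real.rpow_mul (by norm_num), Real.rpow_def_of_pos (by norm_num)]
          congr 1
          ring
      _ ≤ (8 * Λ ^ 2) ^ η := Real.rpow_le_rpow (by positivity) h2 hη.le
      _ = _ := by
          rw [Real.mul_rpow (by norm_num) (by positivity), ← Real.rpow_natCast Λ 2,
            ← Real.rpow_mul (by linarith)]
          congr 2
  rw [div_mul_eq_mul_div, le_div_iff₀ (by positivity)]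
  linarith

theorem core_ptw (h : BD ν C j k) (hj : Measurable j) (hk : Measurable k) {Λ : ℝ} (hΛ : 1 ≤ Λ)
    (g : ℝ → ℂ) (hg : Measurable g) (hg1 : ∀ t, ‖g t‖ ≤ 1) (N : ℕ)
    (hN : 4 * Λ ^ 2 ≤ ss ν ^ 4 * 2 ^ N) (x z : ℝ) (hx : x ∈ Ioc Λ (2 * Λ)) :
    ‖∫ t in Ioo (0 : ℝ) 1, Complex.exp (-((z * t : ℝ) : ℂ) * Complex.I) *
        (g t * (j (x * cs t) : ℂ))‖ₑ ^ 4 ≤
      8 * ‖F1 (fun x t => g t * (T0 ν j x t : ℂ)) (x, z)‖ₑ ^ 4 +
      64 * (N : ℝ≥0∞) ^ 3 * ∑ i ∈ Finset.range N,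
        (‖F1 (fun x t => g t * Ap ν j k (om ν i) x t) (x, z)‖ₑ ^ 4 +
         ‖F1 (fun x t => g t * (starRingEnd ℂ) (Ap ν j k (om ν i) x t)) (x, z)‖ₑ ^ 4) := by
  have hC := h.C_nonneg
  have hs1 := ss_one ν
  have hx0 : 0 < x := by linarith [hx.1]
  -- integrability
  have hTm := T0_meas (ν := ν) hj
  have hT1 : ∀ t, ‖g t * (T0 ν j x t : ℂ)‖ ≤ Real.sqrt (TC C / ss ν ^ 2) := by
    intro t
    rw [norm_mul, Complex.norm_real, Real.norm_eq_abs]
    have h1 : |T0 ν j x t| ≤ Real.sqrt (TC C / ss ν ^ 2) := by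
      rw [← Real.sqrt_sq_eq_abs]
      apply Real.sqrt_le_sqrt
      refine (T0_sq h x t).trans ?_
      have hT : 0 ≤ TC C := by unfold TC; positivity
      have h2 : qq ν x t ^ 2 ≤ 1 := pow_le_one₀ (qq_nonneg ν x t) (qq_le_one ν x t)
      calc _ ≤ TC C / ss ν ^ 2 * 1 := mul_le_mul_of_nonneg_left h2 (by positivity)
        _ = _ := mul_one _
    calc _ ≤ 1 * Real.sqrt (TC C / ss ν ^ 2) :=
          mul_le_mul (hg1 t) h1 (abs_nonneg _) zero_le_one
      _ = _ := one_mul _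
  have hTi := F1_int (hg.mul (Complex.measurable_ofReal.comp
    (hTm.comp (measurable_const.prodMk measurable_id)))) (f := fun t => g t * (T0 ν j x t : ℂ)) hT1 z
  have hAi : ∀ i, IntegrableOn (fun t => Complex.exp (-((z * t : ℝ) : ℂ) * Complex.I) *
      (g t * Ap ν j k (om ν i) x t)) (Ioo (0 : ℝ) 1) := by
    intro i
    apply F1_int (B := Real.sqrt (8 * C)) (hg.mul ((Ap_meas (ν := ν) hj hk (om ν i)).comp
      (measurable_const.prodMk measurable_id))) (f := fun t => g t * Ap ν j k (om ν i) x t)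
    intro t
    rw [norm_mul]
    calc _ ≤ 1 * Real.sqrt (8 * C) :=
          mul_le_mul (hg1 t) (Ap_bound h (om_ge ν i) x t) (norm_nonneg _) zero_le_one
      _ = _ := one_mul _
  have hAi' : ∀ i, IntegrableOn (fun t => Complex.exp (-((z * t : ℝ) : ℂ) * Complex.I) *
      (g t * (starRingEnd ℂ) (Ap ν j k (om ν i) x t))) (Ioo (0 : ℝ) 1) := by
    intro i
    apply F1_int (B := Real.sqrt (8 * C)) (hg.mul (Complex.continuous_conj.measurable.comp
      ((Ap_meas (ν := ν) hj hk (om ν i)).comp (measurable_const.prodMk measurable_id))))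
      (f := fun t => g t * (starRingEnd ℂ) (Ap ν j k (om ν i) x t))
    intro t
    rw [norm_mul, RCLike.norm_conj]
    calc _ ≤ 1 * Real.sqrt (8 * C) :=
          mul_le_mul (hg1 t) (Ap_bound h (om_ge ν i) x t) (norm_nonneg _) zero_le_one
      _ = _ := one_mul _
  have e1 : ∫ t in Ioo (0 : ℝ) 1, Complex.exp (-((z * t : ℝ) : ℂ) * Complex.I) *
        (g t * (j (x * cs t) : ℂ)) =
      F1 (fun x t => g t * (T0 ν j x t : ℂ)) (x, z) +
      ∑ i ∈ Finset.range N, (1 / 2 : ℂ) * (F1 (fun x t => g t * Ap ν j k (om ν i) x t) (x, z) +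
        F1 (fun x t => g t * (starRingEnd ℂ) (Ap ν j k (om ν i) x t)) (x, z)) := by
    unfold F1
    dsimp only
    simp_rw [← integral_add (hAi _) (hAi' _), ← integral_const_mul]
    have hAs : ∀ i, IntegrableOn (fun t => 1 / 2 * (Complex.exp (-((z * t : ℝ) : ℂ) * Complex.I) *
        (g t * Ap ν j k (om ν i) x t) + Complex.exp (-((z * t : ℝ) : ℂ) * Complex.I) *
        (g t * (starRingEnd ℂ) (Ap ν j k (om ν i) x t)))) (Ioo (0 : ℝ) 1) := fun i =>
      ((hAi i).add (hAi' i)).const_mul _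
    rw [← integral_finsetSum _ (fun i _ => hAs i), ← integral_add hTi]
    · apply setIntegral_congr_fun measurableSet_Ioo
      intro t ht
      dsimp only
      have hN' : (x * cs t) ^ 2 - ν ^ 2 ≤ ss ν ^ 4 * 2 ^ N := by
        refine le_trans ?_ hN
        have h1 : cs t ≤ 1 := by
          unfold cs
          rw [Real.sqrt_le_left (by norm_num)]
          nlinarith [ht.1]
        have h2 := cs_pos ht.1 ht.2
        have h3 : x * cs t ≤ 2 * Λ := by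
          calc x * cs t ≤ x * 1 := mul_le_mul_of_nonneg_left h1 hx0.le
            _ ≤ _ := by linarith [hx.2]
        have h4 : (x * cs t) ^ 2 ≤ (2 * Λ) ^ 2 := pow_le_pow_left₀ (by positivity) h3 2
        nlinarith
      have h5 := dec h N hx0 ht.1 ht.2 hN'
      have h6 : (j (x * cs t) : ℂ) = (T0 ν j x t : ℂ) + ∑ i ∈ Finset.range N,
          (1 / 2 : ℂ) * (Ap ν j k (om ν i) x t + (starRingEnd ℂ) (Ap ν j k (om ν i) x t)) := by
        rw [h5]
        push_cast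
        congr 1
        apply Finset.sum_congr rfl
        intro i _
        rw [Complex.add_conj]
        push_cast
        ring
      rw [h6]
      simp only [mul_add, Finset.mul_sum]
      congr 1
      apply Finset.sum_congr rfl
      intro i _
      ring
    · exact integrable_finsetSum _ (fun i _ => hAs i)
  rw [e1]
  have e2 : ∀ a : ℂ, ‖(1 / 2 : ℂ) * a‖ₑ ≤ ‖a‖ₑ := by
    intro a
    rw [enorm_mul]
    have : ‖(1 / 2 : ℂ)‖ₑ ≤ 1 := by
      rw [← ofReal_norm, ENNReal.ofReal_le_one]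
      norm_num
    calc _ ≤ 1 * ‖a‖ₑ := mul_le_mul' this le_rfl
      _ = _ := one_mul _
  calc ‖F1 (fun x t => g t * (T0 ν j x t : ℂ)) (x, z) +
      ∑ i ∈ Finset.range N, (1 / 2 : ℂ) * (F1 (fun x t => g t * Ap ν j k (om ν i) x t) (x, z) +
        F1 (fun x t => g t * (starRingEnd ℂ) (Ap ν j k (om ν i) x t)) (x, z))‖ₑ ^ 4
      ≤ (‖F1 (fun x t => g t * (T0 ν j x t : ℂ)) (x, z)‖ₑ + ∑ i ∈ Finset.range N,
        (‖F1 (fun x t => g t * Ap ν j k (om ν i) x t) (x, z)‖ₑ +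
        ‖F1 (fun x t => g t * (starRingEnd ℂ) (Ap ν j k (om ν i) x t)) (x, z)‖ₑ)) ^ 4 := by
        apply pow_le_pow_left'
        refine (enorm_add_le _ _).trans ?_
        gcongr
        refine (enorm_sum_le _ _).trans ?_
        gcongr with i hi
        exact (e2 _).trans (enorm_add_le _ _)
    _ ≤ 8 * (‖F1 (fun x t => g t * (T0 ν j x t : ℂ)) (x, z)‖ₑ ^ 4 + (∑ i ∈ Finset.range N,
        (‖F1 (fun x t => g t * Ap ν j k (om ν i) x t) (x, z)‖ₑ +
        ‖F1 (fun x t => g t * (starRingEnd ℂ) (Ap ν j k (om ν i) x t)) (x, z)‖ₑ)) ^ 4) :=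
        four_add _ _
    _ ≤ 8 * (‖F1 (fun x t => g t * (T0 ν j x t : ℂ)) (x, z)‖ₑ ^ 4 +
        ((Finset.range N).card : ℝ≥0∞) ^ 3 * (∑ i ∈ Finset.range N,
        (8 * (‖F1 (fun x t => g t * Ap ν j k (om ν i) x t) (x, z)‖ₑ ^ 4 +
        ‖F1 (fun x t => g t * (starRingEnd ℂ) (Ap ν j k (om ν i) x t)) (x, z)‖ₑ ^ 4)))) := by
        gcongr
        refine (four_sum _ _).trans ?_
        gcongr with i hi
        exact four_add _ _
    _ = _ := by
        rw [← Finset.mul_sum, Finset.card_range]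
        ring

/-- the `L⁴` bound on a dyadic shell, uniformly in the order -/
theorem core (ε : ℝ) (hε : 0 < ε) (hε1 : ε < 1) (C : ℝ) (hC : 0 < C) : ∃ K, 0 < K ∧
    ∀ (ν : ℝ) (j k : ℝ → ℝ), BD ν C j k → Measurable j → Measurable k → ∀ Λ : ℝ, 1 ≤ Λ →
    ∀ g : ℝ → ℂ, Measurable g → (∀ t, ‖g t‖ ≤ 1) →
    ∫⁻ x in Ioc Λ (2 * Λ), ∫⁻ z : ℝ, ‖∫ t in Ioo (0 : ℝ) 1,
      Complex.exp (-((z * t : ℝ) : ℂ) * Complex.I) * (g t * (j (x * cs t) : ℂ))‖ₑ ^ 4 ≤
      ENNReal.ofReal (K * Λ ^ (-2 + ε)) := by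
  have hpi := Real.pi_pos
  set η : ℝ := ε / 16 with hη
  have hη0 : 0 < η := by rw [hη]; linarith
  set N0 : ℝ := 8 ^ η / (η * Real.log 2) with hN0
  have hl : 0 < Real.log 2 := Real.log_pos (by norm_num)
  have hN00 : 0 < N0 := by rw [hN0]; positivity
  set KT : ℝ := 2 * Real.pi * TC C ^ 2 * (20000 / (ε / 4)) with hKT
  set KP : ℝ := 18874368 * Real.pi ^ 2 * G1 (ε / 16) ^ 2 * C ^ 2 with hKP
  have hTC : 0 ≤ TC C := by unfold TC; positivity
  have hKT0 : 0 ≤ KT := by rw [hKT]; positivity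
  have hKP0 : 0 ≤ KP := by rw [hKP]; positivity
  refine ⟨8 * KT + 128 * N0 ^ 4 * KP + 1, by positivity, ?_⟩
  intro ν j k h hj hk Λ hΛ g hg hg1
  have hΛ0 : 0 < Λ := by linarith
  obtain ⟨N, hN1, hN2⟩ := exists_N ν Λ
  have hs1 := ss_one ν
  have hs4 : 1 ≤ ss ν ^ 4 := one_le_pow₀ hs1
  have hNle : (N : ℝ) ≤ N0 * Λ ^ (2 * η) := by
    apply N_le hη0 hΛ
    intro i hi
    have := hN2 i hi
    have h2 : (0 : ℝ) < 2 ^ i := by positivity
    nlinarith
  -- measurability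
  have hTm := T0_meas (ν := ν) hj
  have hm0 : Measurable (F1 (fun x t => g t * (T0 ν j x t : ℂ))) :=
    F1_meas ((hg.comp measurable_snd).mul (Complex.measurable_ofReal.comp hTm))
  have hm1 : ∀ i, Measurable (F1 (fun x t => g t * Ap ν j k (om ν i) x t)) := fun i =>
    F1_meas ((hg.comp measurable_snd).mul (Ap_meas (ν := ν) hj hk (om ν i)))
  have hm2 : ∀ i, Measurable (F1 (fun x t => g t * (starRingEnd ℂ) (Ap ν j k (om ν i) x t))) :=
    fun i => F1_meas ((hg.comp measurable_snd).mul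
      (Complex.continuous_conj.measurable.comp (Ap_meas (ν := ν) hj hk (om ν i))))
  set μ := ((volume.restrict (Ioc Λ (2 * Λ))).prod (volume : Measure ℝ)) with hμ
  have hiter : ∀ f : ℝ × ℝ → ℝ≥0∞, Measurable f →
      ∫⁻ x in Ioc Λ (2 * Λ), ∫⁻ z : ℝ, f (x, z) = ∫⁻ p, f p ∂μ := by
    intro f hf
    rw [hμ, lintegral_prod _ hf.aemeasurable]
  have b0 : ∫⁻ p, ‖F1 (fun x t => g t * (T0 ν j x t : ℂ)) p‖ₑ ^ 4 ∂μ ≤
      ENNReal.ofReal (KT * Λ ^ (-2 + ε / 4)) := by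
    rw [← hiter _ (hm0.enorm.pow_const 4)]
    have := turn_bound h hj (δ := ε / 4) (by linarith) (by linarith) hΛ g hg hg1
    refine this.trans (le_of_eq ?_)
    rw [hKT]
    congr 1
    ring
  have hg' : Measurable fun t => (starRingEnd ℂ) (g t) := Complex.continuous_conj.measurable.comp hg
  have hg1' : ∀ t, ‖(starRingEnd ℂ) (g t)‖ ≤ 1 := fun t => by rw [RCLike.norm_conj]; exact hg1 t
  have hom : ∀ i < N, om ν i ^ 4 ≤ 4 * Λ ^ 2 := fun i hi => by rw [om_four]; exact hN2 i hi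
  have b1 : ∀ i < N, ∫⁻ p, ‖F1 (fun x t => g t * Ap ν j k (om ν i) x t) p‖ₑ ^ 4 ∂μ ≤
      ENNReal.ofReal (KP * Λ ^ (-2 + ε / 4)) := by
    intro i hi
    rw [← hiter _ ((hm1 i).enorm.pow_const 4)]
    have := piece_bound (ε / 16) (by linarith) (by linarith) h hC hj hk (om_ge ν i) hΛ (hom i hi)
      g hg hg1
    refine this.trans (le_of_eq ?_)
    rw [hKP, show 4 * (ε / 16) = ε / 4 by ring]
  have b2 : ∀ i < N, ∫⁻ p, ‖F1 (fun x t => g t * (starRingEnd ℂ) (Ap ν j k (om ν i) x t)) p‖ₑ ^ 4 ∂μ ≤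
      ENNReal.ofReal (KP * Λ ^ (-2 + ε / 4)) := by
    intro i hi
    rw [← hiter _ ((hm2 i).enorm.pow_const 4)]
    have := piece_bound (ε / 16) (by linarith) (by linarith) h hC hj hk (om_ge ν i) hΛ (hom i hi)
      _ hg' hg1'
    refine le_trans (le_of_eq ?_) (this.trans (le_of_eq ?_))
    · apply lintegral_congr
      intro x
      simp_rw [Ap_conj_F1]
      rw [lintegral_neg_eq_self (fun z => ‖F1 (fun x t => (starRingEnd ℂ) (g t) *
        Ap ν j k (om ν i) x t) (x, z)‖ₑ ^ 4)]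
      rfl
    · rw [hKP, show 4 * (ε / 16) = ε / 4 by ring]
  have hmtot : Measurable fun p : ℝ × ℝ => 8 * ‖F1 (fun x t => g t * (T0 ν j x t : ℂ)) p‖ₑ ^ 4 +
      64 * (N : ℝ≥0∞) ^ 3 * ∑ i ∈ Finset.range N,
        (‖F1 (fun x t => g t * Ap ν j k (om ν i) x t) p‖ₑ ^ 4 +
         ‖F1 (fun x t => g t * (starRingEnd ℂ) (Ap ν j k (om ν i) x t)) p‖ₑ ^ 4) := by
    apply Measurable.add ((hm0.enorm.pow_const 4).const_mul 8)
    apply Measurable.const_mul
    exact Finset.measurable_sum _ (fun i _ => ((hm1 i).enorm.pow_const 4).add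
      ((hm2 i).enorm.pow_const 4))
  calc ∫⁻ x in Ioc Λ (2 * Λ), ∫⁻ z : ℝ, ‖∫ t in Ioo (0 : ℝ) 1,
      Complex.exp (-((z * t : ℝ) : ℂ) * Complex.I) * (g t * (j (x * cs t) : ℂ))‖ₑ ^ 4
      ≤ ∫⁻ x in Ioc Λ (2 * Λ), ∫⁻ z : ℝ, (8 * ‖F1 (fun x t => g t * (T0 ν j x t : ℂ)) (x, z)‖ₑ ^ 4 +
      64 * (N : ℝ≥0∞) ^ 3 * ∑ i ∈ Finset.range N,
        (‖F1 (fun x t => g t * Ap ν j k (om ν i) x t) (x, z)‖ₑ ^ 4 +
         ‖F1 (fun x t => g t * (starRingEnd ℂ) (Ap ν j k (om ν i) x t)) (x, z)‖ₑ ^ 4)) := by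
        apply setLIntegral_mono' measurableSet_Ioc
        intro x hx
        apply lintegral_mono
        intro z
        exact core_ptw h hj hk hΛ g hg hg1 N hN1 x z hx
    _ = ∫⁻ p, (8 * ‖F1 (fun x t => g t * (T0 ν j x t : ℂ)) p‖ₑ ^ 4 +
      64 * (N : ℝ≥0∞) ^ 3 * ∑ i ∈ Finset.range N,
        (‖F1 (fun x t => g t * Ap ν j k (om ν i) x t) p‖ₑ ^ 4 +
         ‖F1 (fun x t => g t * (starRingEnd ℂ) (Ap ν j k (om ν i) x t)) p‖ₑ ^ 4)) ∂μ :=
        hiter _ hmtot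
    _ = 8 * (∫⁻ p, ‖F1 (fun x t => g t * (T0 ν j x t : ℂ)) p‖ₑ ^ 4 ∂μ) +
      64 * (N : ℝ≥0∞) ^ 3 * ∑ i ∈ Finset.range N,
        ((∫⁻ p, ‖F1 (fun x t => g t * Ap ν j k (om ν i) x t) p‖ₑ ^ 4 ∂μ) +
         ∫⁻ p, ‖F1 (fun x t => g t * (starRingEnd ℂ) (Ap ν j k (om ν i) x t)) p‖ₑ ^ 4 ∂μ) := by
        have hms : Measurable fun p => ∑ i ∈ Finset.range N,
        (‖F1 (fun x t => g t * Ap ν j k (om ν i) x t) p‖ₑ ^ 4 +
         ‖F1 (fun x t => g t * (starRingEnd ℂ) (Ap ν j k (om ν i) x t)) p‖ₑ ^ 4) :=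
          Finset.measurable_sum _ (fun i _ => ((hm1 i).enorm.pow_const 4).add
            ((hm2 i).enorm.pow_const 4))
        have hmi : ∀ i, Measurable fun p => (‖F1 (fun x t => g t * Ap ν j k (om ν i) x t) p‖ₑ ^ 4 +
         ‖F1 (fun x t => g t * (starRingEnd ℂ) (Ap ν j k (om ν i) x t)) p‖ₑ ^ 4) := fun i =>
          ((hm1 i).enorm.pow_const 4).add ((hm2 i).enorm.pow_const 4)
        rw [lintegral_add_left ((hm0.enorm.pow_const 4).const_mul 8),
          lintegral_const_mul _ (hm0.enorm.pow_const 4), lintegral_const_mul _ hms,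
          lintegral_finsetSum _ (fun i _ => hmi i)]
        congr 2
        apply Finset.sum_congr rfl
        intro i _
        exact lintegral_add_left ((hm1 i).enorm.pow_const 4) _
    _ ≤ 8 * ENNReal.ofReal (KT * Λ ^ (-2 + ε / 4)) +
      64 * (N : ℝ≥0∞) ^ 3 * ∑ i ∈ Finset.range N,
        (ENNReal.ofReal (KP * Λ ^ (-2 + ε / 4)) + ENNReal.ofReal (KP * Λ ^ (-2 + ε / 4))) := by
        gcongr with i hi i hi
        · exact b1 i (Finset.mem_range.1 hi)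
        · exact b2 i (Finset.mem_range.1 hi)
    _ = ENNReal.ofReal (8 * (KT * Λ ^ (-2 + ε / 4)) + 64 * (N : ℝ) ^ 3 *
          ((N : ℝ) * (KP * Λ ^ (-2 + ε / 4) + KP * Λ ^ (-2 + ε / 4)))) := by
        rw [Finset.sum_const, Finset.card_range, nsmul_eq_mul]
        have ha : 0 ≤ KT * Λ ^ (-2 + ε / 4) := by positivity
        have hb : 0 ≤ KP * Λ ^ (-2 + ε / 4) := by positivity
        generalize KT * Λ ^ (-2 + ε / 4) = a at ha
        generalize KP * Λ ^ (-2 + ε / 4) = b at hb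
        rw [ENNReal.ofReal_add (by positivity) (by positivity), ENNReal.ofReal_mul (by norm_num),
          ENNReal.ofReal_mul (p := 64 * (N : ℝ) ^ 3) (by positivity), ENNReal.ofReal_mul (by norm_num),
          ENNReal.ofReal_mul (by positivity), ENNReal.ofReal_add (by positivity) (by positivity),
          ENNReal.ofReal_pow (by positivity), ENNReal.ofReal_natCast]
        simp only [ENNReal.ofReal_ofNat]
    _ ≤ ENNReal.ofReal ((8 * KT + 128 * N0 ^ 4 * KP + 1) * Λ ^ (-2 + ε)) := by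
        apply ENNReal.ofReal_le_ofReal
        have hL1 : Λ ^ (-2 + ε / 4) ≤ Λ ^ (-2 + ε) := Real.rpow_le_rpow_of_exponent_le hΛ (by linarith)
        have hL0 : 0 < Λ ^ (-2 + ε / 4) := by positivity
        have hL3 : 0 < Λ ^ (-2 + ε) := by positivity
        have hN4 : (N : ℝ) ^ 4 * Λ ^ (-2 + ε / 4) ≤ N0 ^ 4 * Λ ^ (-2 + ε) := by
          calc (N : ℝ) ^ 4 * Λ ^ (-2 + ε / 4) ≤ (N0 * Λ ^ (2 * η)) ^ 4 * Λ ^ (-2 + ε / 4) := by
                gcongr
            _ = N0 ^ 4 * Λ ^ (2 * η * 4 + (-2 + ε / 4)) := by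
                rw [mul_pow, ← Real.rpow_natCast (Λ ^ (2 * η)) 4, ← Real.rpow_mul hΛ0.le,
                  mul_assoc, ← Real.rpow_add hΛ0]
                norm_num
            _ ≤ _ := by
                apply mul_le_mul_of_nonneg_left _ (by positivity)
                apply Real.rpow_le_rpow_of_exponent_le hΛ
                rw [hη]; linarith
        calc 8 * (KT * Λ ^ (-2 + ε / 4)) + 64 * (N : ℝ) ^ 3 *
          ((N : ℝ) * (KP * Λ ^ (-2 + ε / 4) + KP * Λ ^ (-2 + ε / 4)))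
            = 8 * KT * Λ ^ (-2 + ε / 4) + 128 * KP * ((N : ℝ) ^ 4 * Λ ^ (-2 + ε / 4)) := by ring
          _ ≤ 8 * KT * Λ ^ (-2 + ε) + 128 * KP * (N0 ^ 4 * Λ ^ (-2 + ε)) := by
              gcongr
          _ ≤ _ := by nlinarith

end

end Pool.Agent.H243.RA
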