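import Mathlib
import Pool.Graph.R_seed8.H438R2.BR.T11
import Pool.Graph.R_seed8.H789R2.FR.L2
import Pool.Agent.H243.RA.C9
set_option autoImplicit false

/-! The extension operator in cylindrical coordinates. -/

open MeasureTheory Set Metric
open scoped ENNReal RealInnerProductSpace

namespace Pool.Agent.H243.RA

open Pool.Agent.H789R2.FR (E sg T sg_finite sg_ae polar)
open Pool.Agent.H789R2.FR.L2 (norm_T_le measurable_T)
open Pool.Agent.H438R2.BR (J J_inner J_mp Q)
open Pool.Agent.H438R2.BR.T10 (e0 e0_norm e0_ne sg_one)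
open Pool.Agent.H438R2.BR.T11 (nu par par_meas sg_eq wt wt_meas wt_le)

theorem sg_one_eq : sg 1 = Measure.dirac e0 + Measure.dirac (-e0) := by
  refine Measure.ext_of_lintegral _ fun f hf => ?_
  rw [sg_one, lintegral_add_measure, lintegral_dirac' _ hf, lintegral_dirac' _ hf]

theorem int_sg_one (f : E 1 → ℂ) (hf : Measurable f) : ∫ v, f v ∂(sg 1) = f e0 + f (-e0) := by
  rw [sg_one_eq, integral_add_measure, integral_dirac' _ _ hf.stronglyMeasurable,
    integral_dirac' _ _ hf.stronglyMeasurable]
  · exact integrable_dirac' hf.stronglyMeasurable (by finiteness)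
  · exact integrable_dirac' hf.stronglyMeasurable (by finiteness)

variable {d : ℕ}

/-- the point of the sphere with last coordinate `s t` -/
noncomputable def pt (s t : ℝ) (u : E d) : E (d + 1) := J (cs t • u) ((s * t) • e0)

theorem pt_meas (s : ℝ) : Measurable fun p : ℝ × E d => pt s p.1 p.2 := by
  have h1 := (J_mp d 1).measurable
  have h2 : Measurable (fun p : ℝ × E d => ((cs p.1 • p.2, (s * p.1) • e0) : E d × E 1)) := by
    apply Measurable.prodMk
    · exact (cs_meas.comp measurable_fst).smul measurable_snd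
    · exact (measurable_const.mul measurable_fst).smul measurable_const
  exact h1.comp h2

/-- the integral over a parallel -/
noncomputable def Aa (s : ℝ) (g : E (d + 1) → ℂ) (x : E d) (t : ℝ) : ℂ :=
  ∫ u, Complex.exp (-((cs t * ⟪x, u⟫ : ℝ) : ℂ) * Complex.I) * g (pt s t u) ∂(sg d)

theorem Aa_meas (s : ℝ) (g : E (d + 1) → ℂ) (hg : Measurable g) :
    Measurable (Function.uncurry (Aa s g)) := by
  have := sg_finite d
  unfold Aa
  have h : Measurable (Function.uncurry (fun (p : E d × ℝ) (u : E d) =>
      Complex.exp (-((cs p.2 * ⟪p.1, u⟫ : ℝ) : ℂ) * Complex.I) * g (pt s p.2 u))) := by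
    apply Measurable.mul
    · have h2 : Measurable fun q : (E d × ℝ) × E d => cs q.1.2 * (⟪q.1.1, q.2⟫ : ℝ) :=
        (cs_meas.comp (measurable_snd.comp measurable_fst)).mul
          ((measurable_fst.comp measurable_fst).inner measurable_snd)
      exact Complex.measurable_exp.comp ((Complex.measurable_ofReal.comp h2).neg.mul_const _)
    · exact hg.comp ((pt_meas s).comp ((measurable_snd.comp measurable_fst).prodMk measurable_snd))
  exact (h.stronglyMeasurable.integral_prod_right (ν := sg d)).measurable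

theorem Aa_le (s : ℝ) (g : E (d + 1) → ℂ) {M : ℝ} (hM : ∀ w, ‖g w‖ ≤ M) (x : E d) (t : ℝ) :
    ‖Aa s g x t‖ ≤ M * (sg d).real univ := by
  have := sg_finite d
  unfold Aa
  refine norm_integral_le_of_norm_le_const (Filter.Eventually.of_forall fun u => ?_)
  rw [norm_mul, exp_norm_one, one_mul]
  exact hM _

theorem image_sin : Real.sin '' Q = Ioo 0 1 := by
  have hpi := Real.pi_pos
  ext s
  constructor
  · rintro ⟨θ, hθ, rfl⟩
    refine ⟨Real.sin_pos_of_pos_of_lt_pi hθ.1 (by linarith [hθ.2]), ?_⟩
    rw [← Real.sin_pi_div_two]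
    exact Real.sin_lt_sin_of_lt_of_le_pi_div_two (by linarith [hθ.1]) le_rfl hθ.2
  · intro hs
    refine ⟨Real.arcsin s, ⟨Real.arcsin_pos.2 hs.1, ?_⟩,
      Real.sin_arcsin (by linarith [hs.1]) hs.2.le⟩
    rw [Real.arcsin_lt_pi_div_two]
    exact hs.2

theorem cs_sin {θ : ℝ} (h : 0 ≤ Real.cos θ) : cs (Real.sin θ) = Real.cos θ := by
  unfold cs
  rw [← Real.cos_sq', Real.sqrt_sq h]

/-- the extension operator in cylindrical coordinates -/
theorem T_cyl (hd : 2 ≤ d) (g : E (d + 1) → ℂ) (hg : Measurable g) {M : ℝ}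
    (hM : ∀ w, ‖g w‖ ≤ M) (x : E d) (z : ℝ) :
    T g (J x (z • e0)) = ∫ t in Ioo (0 : ℝ) 1, ((cs t ^ (d - 2) : ℝ) : ℂ) *
      (Complex.exp (-((z * t : ℝ) : ℂ) * Complex.I) * Aa 1 g x t +
       Complex.exp (-((-z * t : ℝ) : ℂ) * Complex.I) * Aa (-1) g x t) := by
  have := sg_finite d
  have := sg_finite 1
  have hpi := Real.pi_pos
  set f : E (d + 1) → ℂ := fun w => Complex.exp (-((⟪J x (z • e0), w⟫ : ℝ) : ℂ) * Complex.I) * g w
    with hf
  have hfm : Measurable f := by
    apply Measurable.mul
    · have h1 : Continuous fun w : E (d + 1) =>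
          Complex.exp (-((⟪J x (z • e0), w⟫ : ℝ) : ℂ) * Complex.I) := by fun_prop
      exact h1.measurable
    · exact hg
  have hfb : ∀ w, ‖f w‖ ≤ M := by
    intro w
    simp only [hf]
    rw [norm_mul, exp_norm_one, one_mul]
    exact hM _
  have hT : T g (J x (z • e0)) = ∫ w, f w ∂(sg (d + 1)) := rfl
  rw [hT, sg_eq d 1 (by omega) le_rfl,
    integral_map (par_meas d 1).aemeasurable hfm.aestronglyMeasurable]
  have hint : Integrable (fun p => f (par d 1 p)) ((nu d 1).prod ((sg d).prod (sg 1))) := by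
    refine Integrable.mono' (integrable_const M) (hfm.comp (par_meas d 1)).aestronglyMeasurable ?_
    exact Filter.Eventually.of_forall fun p => hfb _
  rw [integral_prod _ hint]
  unfold nu
  rw [integral_withDensity_eq_integral_toReal_smul (wt_meas d 1)
    (Filter.Eventually.of_forall fun θ => (wt_le d 1 θ).trans_lt ENNReal.one_lt_top)]
  rw [← image_sin, integral_image_eq_integral_abs_deriv_smul (s := Q) (f := Real.sin)
    (f' := Real.cos) (by unfold Q; exact measurableSet_Ioo)
    (fun θ _ => (Real.hasDerivAt_sin θ).hasDerivWithinAt)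
    (fun a ha b hb h => Real.injOn_sin ⟨by linarith [ha.1], ha.2.le⟩ ⟨by linarith [hb.1], hb.2.le⟩ h)]
  refine setIntegral_congr_fun (by unfold Q; exact measurableSet_Ioo) ?_
  intro θ hθ
  have hcos : 0 < Real.cos θ := Real.cos_pos_of_mem_Ioo ⟨by linarith [hθ.1], hθ.2⟩
  have hw : (wt d 1 θ).toReal = (Real.cos θ) ^ (d - 1) := by
    unfold wt
    rw [Nat.sub_self, pow_zero, mul_one, ENNReal.toReal_ofReal (by positivity)]
  have inner : ∫ p : E d × E 1, f (par d 1 (θ, p)) ∂((sg d).prod (sg 1)) =
      Complex.exp (-((z * Real.sin θ : ℝ) : ℂ) * Complex.I) * Aa 1 g x (Real.sin θ) +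
      Complex.exp (-((-z * Real.sin θ : ℝ) : ℂ) * Complex.I) * Aa (-1) g x (Real.sin θ) := by
    have hint2 : Integrable (fun p => f (par d 1 (θ, p))) ((sg d).prod (sg 1)) := by
      refine Integrable.mono' (integrable_const M) (hfm.comp ((par_meas d 1).comp
        measurable_prodMk_left)).aestronglyMeasurable ?_
      exact Filter.Eventually.of_forall fun p => hfb _
    rw [integral_prod _ hint2]
    have h1 : ∀ u : E d, ∫ v, f (par d 1 (θ, (u, v))) ∂(sg 1) =
        f (par d 1 (θ, (u, e0))) + f (par d 1 (θ, (u, -e0))) := fun u =>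
      int_sg_one _ (hfm.comp ((par_meas d 1).comp (measurable_prodMk_left.comp
        measurable_prodMk_left)))
    simp only [h1]
    have hi : ∀ v : E 1, Integrable (fun u => f (par d 1 (θ, (u, v)))) (sg d) := by
      intro v
      refine Integrable.mono' (integrable_const M) (hfm.comp ((par_meas d 1).comp
        (measurable_prodMk_left.comp measurable_prodMk_right))).aestronglyMeasurable ?_
      exact Filter.Eventually.of_forall fun p => hfb _
    rw [integral_add (hi _) (hi _)]
    have h2 : ∀ (s : ℝ) (u : E d), f (par d 1 (θ, (u, s • e0))) =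
        Complex.exp (-((s * z * Real.sin θ : ℝ) : ℂ) * Complex.I) *
        (Complex.exp (-((cs (Real.sin θ) * ⟪x, u⟫ : ℝ) : ℂ) * Complex.I) *
          g (pt s (Real.sin θ) u)) := by
      intro s u
      simp only [hf, par, pt]
      rw [cs_sin hcos.le, J_inner, smul_smul, mul_comm (Real.sin θ) s, ← mul_assoc,
        ← Complex.exp_add]
      congr 2
      rw [inner_smul_right, inner_smul_right, real_inner_smul_left, real_inner_self_eq_norm_sq,
        e0_norm]
      push_cast
      ring
    have h3 : ∀ u : E d, f (par d 1 (θ, (u, e0))) = f (par d 1 (θ, (u, (1 : ℝ) • e0))) := fun u => by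
      rw [one_smul]
    have h4 : ∀ u : E d, f (par d 1 (θ, (u, -e0))) = f (par d 1 (θ, (u, (-1 : ℝ) • e0))) :=
      fun u => by rw [neg_smul, one_smul]
    simp only [h3, h4, h2]
    rw [integral_const_mul, integral_const_mul]
    unfold Aa
    simp only [one_mul, neg_mul]
  simp only
  rw [inner, hw, cs_sin hcos.le, abs_of_pos hcos, Complex.real_smul, Complex.real_smul, ← mul_assoc]
  congr 1
  rw [← Complex.ofReal_mul]
  congr 1
  rw [← pow_succ']
  congr 1
  omega

end Pool.Agent.H243.RA
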