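import Mathlib
import Pool.Graph.R_seed8.Y251.HR.B5
import Pool.Agent.H243.RA.D1
set_option autoImplicit false

/-! The `L²` bound on cylindrical shells. -/

open MeasureTheory Set Metric
open scoped ENNReal RealInnerProductSpace

namespace Pool.Agent.H243.RA

open Pool.Agent.H789R2.FR (E sg T sg_finite sg_ae polar pl_phase)
open Pool.Agent.H789R2.FR.L2 (norm_T_le measurable_T)
open Pool.Agent.H438R2.BR (J J_inner J_mp Q)
open Pool.Agent.H438R2.BR.T10 (e0 e0_norm e0_ne sg_one)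
open Pool.Agent.Y251.HR (shell shell2 shell_meas)

theorem mp_line : MeasurePreserving (fun z : ℝ => (z • e0 : E 1)) volume volume := by
  have h1 := (volume_preserving_funUnique (Fin 1) ℝ).symm
  have h2 := PiLp.volume_preserving_toLp (Fin 1)
  have h := h2.comp h1
  have e : (fun z : ℝ => (z • e0 : E 1)) = (WithLp.toLp 2 : (Fin 1 → ℝ) → E 1) ∘
      (MeasurableEquiv.funUnique (Fin 1) ℝ).symm := by
    funext z
    ext i
    fin_cases i
    simp [e0]
  rw [e]
  exact h

variable {d : ℕ}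

theorem cyl_int (F : E (d + 1) → ℝ≥0∞) (hF : Measurable F) :
    ∫⁻ w, F w = ∫⁻ x : E d, ∫⁻ z : ℝ, F (J x (z • e0)) := by
  have hJc : Measurable fun p : E d × E 1 => J p.1 p.2 := (J_mp d 1).measurable
  have hFJ : Measurable fun p : E d × E 1 => F (J p.1 p.2) := hF.comp hJc
  rw [← (J_mp d 1).lintegral_comp hF, lintegral_prod _ hFJ.aemeasurable]
  refine lintegral_congr fun x => ?_
  exact (mp_line.lintegral_comp (hF.comp (hJc.comp measurable_prodMk_left))).symm

theorem Jz_meas : Measurable fun p : E d × ℝ => (J p.1 (p.2 • e0) : E (d + 1)) := by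
  have h1 := (J_mp d 1).measurable
  exact h1.comp (measurable_fst.prodMk (measurable_snd.smul measurable_const))

theorem cs_nonneg (t : ℝ) : 0 ≤ cs t := Real.sqrt_nonneg _

theorem cs_le_one (t : ℝ) : cs t ≤ 1 := by
  unfold cs
  rw [Real.sqrt_le_left (by norm_num)]
  nlinarith

theorem lint_cs_inv : ∫⁻ t in Ioo (0 : ℝ) 1, ENNReal.ofReal ((cs t)⁻¹) ≤ ENNReal.ofReal 2 := by
  have hpi := Real.pi_pos
  rw [← image_sin, lintegral_image_eq_lintegral_abs_deriv_mul (s := Q) (f := Real.sin)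
    (f' := Real.cos) (by unfold Q; exact measurableSet_Ioo)
    (fun θ _ => (Real.hasDerivAt_sin θ).hasDerivWithinAt)
    (fun a ha b hb h => Real.injOn_sin ⟨by linarith [ha.1], ha.2.le⟩ ⟨by linarith [hb.1], hb.2.le⟩ h)]
  calc ∫⁻ θ in Q, ENNReal.ofReal |Real.cos θ| * ENNReal.ofReal ((cs (Real.sin θ))⁻¹)
      ≤ ∫⁻ θ in Q, 1 := by
        apply setLIntegral_mono' (by unfold Q; exact measurableSet_Ioo)
        intro θ hθ
        have hcos : 0 < Real.cos θ := Real.cos_pos_of_mem_Ioo ⟨by linarith [hθ.1], hθ.2⟩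
        rw [cs_sin hcos.le, abs_of_pos hcos, ← ENNReal.ofReal_mul hcos.le, mul_inv_cancel₀ hcos.ne',
          ENNReal.ofReal_one]
    _ = volume Q := by rw [setLIntegral_one]
    _ ≤ _ := by
        unfold Q
        rw [Real.volume_Ioo]
        apply ENNReal.ofReal_le_ofReal
        linarith [Real.pi_lt_four]

/-- a parallel as an extension operator in `d` dimensions -/
theorem Aa_eq (s : ℝ) (g : E (d + 1) → ℂ) (x : E d) (t : ℝ) :
    Aa s g x t = T (fun u => g (pt s t u)) (cs t • x) := by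
  unfold Aa T
  refine integral_congr_ae (Filter.Eventually.of_forall fun u => ?_)
  simp only
  rw [real_inner_smul_left]

theorem Aa_shell (hd : 2 ≤ d) : ∃ C : ℝ, 0 < C ∧ ∀ (g : E (d + 1) → ℂ), Measurable g →
    ∀ M : ℝ, (∀ w, ‖g w‖ ≤ M) → ∀ (s t Λ : ℝ), t ∈ Ioo (0 : ℝ) 1 → 1 ≤ Λ →
    ∫⁻ x in shell d Λ, ‖Aa s g x t‖ₑ ^ 2 ≤
      ENNReal.ofReal (C * M ^ 2 * Λ * ((cs t) ^ (d - 1))⁻¹) := by
  obtain ⟨C, hC, h⟩ := shell2 d hd
  have := sg_finite d
  set S : ℝ := (sg d).real univ with hS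
  have hS0 : 0 ≤ S := measureReal_nonneg
  have hne : Nonempty (Fin d) := ⟨⟨0, by omega⟩⟩
  obtain ⟨V, hV0, hV⟩ : ∃ V : ℝ, 0 ≤ V ∧ ∀ r : ℝ, 0 ≤ r →
      volume (closedBall (0 : E d) r) ≤ ENNReal.ofReal (V * r ^ d) := by
    refine ⟨(volume (closedBall (0 : E d) 1)).toReal, ENNReal.toReal_nonneg, fun r hr => ?_⟩
    rw [Measure.addHaar_closedBall' volume (0 : E d) hr, finrank_euclideanSpace_fin, mul_comm _ (r ^ d),
      ENNReal.ofReal_mul (by positivity), ENNReal.ofReal_toReal measure_closedBall_lt_top.ne]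
  refine ⟨C * S + S ^ 2 * V * 2 ^ d + 1, by positivity, fun g hg M hM s t Λ ht hΛ => ?_⟩
  have hM0 : 0 ≤ M := (norm_nonneg _).trans (hM 0)
  have hc := cs_pos ht.1 ht.2
  set c : ℝ := cs t with hcdef
  set G : E d → ℂ := fun u => g (pt s t u) with hG
  have hGm : Measurable G := hg.comp ((pt_meas s).comp measurable_prodMk_left)
  have hGM : ∀ u, ‖G u‖ ≤ M := fun u => hM _
  have hΛ0 : 0 < Λ := by linarith
  have hcd : 0 < c ^ d := by positivity
  have hcd1 : 0 < c ^ (d - 1) := by positivity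
  have hcdd : c ^ d = c ^ (d - 1) * c := by
    rw [← pow_succ]
    congr 1
    omega
  have e1 : ∀ x, Aa s g x t = T G (c • x) := fun x => Aa_eq s g x t
  simp only [e1]
  have hTm : Measurable (T G) := (measurable_T G hGm).measurable
  rcases le_or_gt 1 (c * Λ) with h1 | h1
  · have e2 : ∫⁻ x in shell d Λ, ‖T G (c • x)‖ₑ ^ 2 =
        ENNReal.ofReal ((c ^ d)⁻¹) * ∫⁻ y in shell d (c * Λ), ‖T G y‖ₑ ^ 2 := by
      rw [← lintegral_indicator (shell_meas Λ), ← lintegral_indicator (shell_meas (c * Λ))]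
      have hm : Measurable ((shell d (c * Λ)).indicator fun y => ‖T G y‖ₑ ^ 2) :=
        (hTm.enorm.pow_const 2).indicator (shell_meas _)
      have h3 := Measure.map_addHaar_smul (volume : Measure (E d)) hc.ne'
      have h4 : ∫⁻ y, (shell d (c * Λ)).indicator (fun y => ‖T G y‖ₑ ^ 2) y
          ∂(Measure.map ((c • ·) : E d → E d) volume) =
          ∫⁻ x : E d, (shell d (c * Λ)).indicator (fun y => ‖T G y‖ₑ ^ 2) (c • x) :=
        lintegral_map hm (measurable_const_smul _)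
      rw [h3, lintegral_smul_measure, smul_eq_mul, finrank_euclideanSpace_fin,
        abs_of_pos (by positivity)] at h4
      rw [h4]
      refine lintegral_congr fun x => ?_
      have hmem : x ∈ shell d Λ ↔ c • x ∈ shell d (c * Λ) := by
        unfold shell
        simp only [mem_ofPred_eq, norm_smul, Real.norm_of_nonneg hc.le]
        rw [mul_lt_mul_iff_right₀ hc, show 2 * (c * Λ) = c * (2 * Λ) by ring,
          mul_le_mul_iff_right₀ hc]
      by_cases hx : x ∈ shell d Λ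
      · rw [indicator_of_mem hx, indicator_of_mem (hmem.1 hx)]
      · rw [indicator_of_notMem hx, indicator_of_notMem (fun hcon => hx (hmem.2 hcon))]
    have h2 := h G hGm M hGM (c * Λ) h1
    have h3 : ∫⁻ w, ‖G w‖ₑ ^ 2 ∂(sg d) ≤ ENNReal.ofReal (M ^ 2 * S) := by
      calc ∫⁻ w, ‖G w‖ₑ ^ 2 ∂(sg d) ≤ ∫⁻ _w, ENNReal.ofReal (M ^ 2) ∂(sg d) := by
            apply lintegral_mono
            intro w
            dsimp only
            rw [← ofReal_norm, ← ENNReal.ofReal_pow (norm_nonneg _)]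
            exact ENNReal.ofReal_le_ofReal (pow_le_pow_left₀ (norm_nonneg _) (hGM w) 2)
        _ = _ := by
            rw [lintegral_const, ENNReal.ofReal_mul (by positivity), hS, ofReal_measureReal]
    rw [e2]
    calc ENNReal.ofReal ((c ^ d)⁻¹) * ∫⁻ y in shell d (c * Λ), ‖T G y‖ₑ ^ 2
        ≤ ENNReal.ofReal ((c ^ d)⁻¹) * (ENNReal.ofReal (C * (c * Λ)) *
          ENNReal.ofReal (M ^ 2 * S)) := by
          gcongr
          exact h2.trans (mul_le_mul' le_rfl h3)
      _ = ENNReal.ofReal ((c ^ d)⁻¹ * ((C * (c * Λ)) * (M ^ 2 * S))) := by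
          rw [← ENNReal.ofReal_mul (by positivity), ← ENNReal.ofReal_mul (by positivity)]
      _ ≤ _ := by
          apply ENNReal.ofReal_le_ofReal
          have e3 : (c ^ d)⁻¹ * ((C * (c * Λ)) * (M ^ 2 * S)) =
              (C * S) * (M ^ 2 * Λ * (c ^ (d - 1))⁻¹) := by
            rw [hcdd]
            field_simp
          rw [e3, show (C * S + S ^ 2 * V * 2 ^ d + 1) * M ^ 2 * Λ * (c ^ (d - 1))⁻¹ =
            (C * S + S ^ 2 * V * 2 ^ d + 1) * (M ^ 2 * Λ * (c ^ (d - 1))⁻¹) by ring]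
          apply mul_le_mul_of_nonneg_right _ (by positivity)
          have : 0 ≤ S ^ 2 * V * 2 ^ d := by positivity
          linarith
  · have hTb := norm_T_le G M hGM
    have hsub : shell d Λ ⊆ closedBall (0 : E d) (2 * Λ) := by
      intro x hx
      rw [mem_closedBall_zero_iff]
      exact hx.2
    calc ∫⁻ x in shell d Λ, ‖T G (c • x)‖ₑ ^ 2
        ≤ ∫⁻ _x in shell d Λ, ENNReal.ofReal ((M * S) ^ 2) := by
          apply lintegral_mono
          intro x
          dsimp only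
          rw [← ofReal_norm, ← ENNReal.ofReal_pow (norm_nonneg _)]
          exact ENNReal.ofReal_le_ofReal (pow_le_pow_left₀ (norm_nonneg _) (hTb _) 2)
      _ = ENNReal.ofReal ((M * S) ^ 2) * volume (shell d Λ) := by
          rw [setLIntegral_const]
      _ ≤ ENNReal.ofReal ((M * S) ^ 2) * ENNReal.ofReal (V * (2 * Λ) ^ d) := by
          gcongr
          exact (measure_mono hsub).trans (hV _ (by positivity))
      _ = ENNReal.ofReal ((M * S) ^ 2 * (V * (2 * Λ) ^ d)) := by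
          rw [← ENNReal.ofReal_mul (by positivity)]
      _ ≤ _ := by
          apply ENNReal.ofReal_le_ofReal
          have e3 : (M * S) ^ 2 * (V * (2 * Λ) ^ d) =
              (S ^ 2 * V * 2 ^ d) * (M ^ 2 * Λ * Λ ^ (d - 1)) := by
            have : Λ ^ d = Λ ^ (d - 1) * Λ := by
              rw [← pow_succ]
              congr 1
              omega
            rw [mul_pow 2 Λ d, this]
            ring
          have h5 : Λ ^ (d - 1) ≤ (c ^ (d - 1))⁻¹ := by
            rw [← inv_pow]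
            apply pow_le_pow_left₀ hΛ0.le
            rw [le_inv_comm₀ hΛ0 hc, ← one_div, le_div_iff₀ hΛ0]
            exact h1.le
          rw [e3, show (C * S + S ^ 2 * V * 2 ^ d + 1) * M ^ 2 * Λ * (c ^ (d - 1))⁻¹ =
            (C * S + S ^ 2 * V * 2 ^ d + 1) * (M ^ 2 * Λ * (c ^ (d - 1))⁻¹) by ring]
          apply mul_le_mul
          · have : 0 ≤ C * S := by positivity
            linarith
          · exact mul_le_mul_of_nonneg_left h5 (by positivity)
          · positivity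
          · positivity

/-- Plancherel in the last variable -/
theorem T_planch (hd : 2 ≤ d) (g : E (d + 1) → ℂ) (hg : Measurable g) {M : ℝ}
    (hM : ∀ w, ‖g w‖ ≤ M) (x : E d) :
    ∫⁻ z : ℝ, ‖T g (J x (z • e0))‖ₑ ^ 2 ≤ ENNReal.ofReal (4 * Real.pi) *
      ∫⁻ t in Ioo (0 : ℝ) 1, ENNReal.ofReal (cs t ^ (2 * (d - 2))) *
        (‖Aa 1 g x t‖ₑ ^ 2 + ‖Aa (-1) g x t‖ₑ ^ 2) := by
  have hpi := Real.pi_pos
  have hAm := fun s => Aa_meas s g hg
  have hAb := fun s => Aa_le s g hM x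
  have hM0 : 0 ≤ M := (norm_nonneg _).trans (hM 0)
  have := sg_finite d
  set S : ℝ := (sg d).real univ with hS
  set f : ℝ → ℝ → ℂ := fun s t => ((cs t ^ (d - 2) : ℝ) : ℂ) * Aa s g x t with hf
  have hAx : ∀ s, Measurable fun t : ℝ => Aa s g x t := by
    intro s
    have h1 := (hAm s).comp (measurable_prodMk_left (x := x))
    exact h1
  have hcm : Measurable fun t : ℝ => ((cs t ^ (d - 2) : ℝ) : ℂ) :=
    Complex.measurable_ofReal.comp (cs_meas.pow_const _)
  have hfm : ∀ s, Measurable (f s) := by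
    intro s
    have h1 := hcm.mul (hAx s)
    exact h1
  have hfb : ∀ s t, ‖f s t‖ ≤ M * S := by
    intro s t
    simp only [hf]
    rw [norm_mul, Complex.norm_real, Real.norm_eq_abs, abs_of_nonneg (pow_nonneg (cs_nonneg t) _)]
    calc _ ≤ 1 * (M * S) := mul_le_mul (pow_le_one₀ (cs_nonneg t) (cs_le_one t)) (hAb s t)
          (norm_nonneg _) zero_le_one
      _ = _ := one_mul _
  have hi : ∀ s z, IntegrableOn (fun t => Complex.exp (-((z * t : ℝ) : ℂ) * Complex.I) * f s t)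
      (Ioo (0 : ℝ) 1) := fun s z => F1_int (hfm s) (hfb s) z
  have e1 : ∀ z : ℝ, T g (J x (z • e0)) =
      (∫ t in Ioo (0 : ℝ) 1, Complex.exp (-((z * t : ℝ) : ℂ) * Complex.I) * f 1 t) +
      ∫ t in Ioo (0 : ℝ) 1, Complex.exp (-((-z * t : ℝ) : ℂ) * Complex.I) * f (-1) t := by
    intro z
    have h2 := integral_add (hi 1 z) (hi (-1) (-z))
    refine (T_cyl hd g hg hM x z).trans (Eq.trans ?_ h2)
    refine integral_congr_ae (Filter.Eventually.of_forall fun t => ?_)
    simp only [hf]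
    ring
  have hpl : ∀ s, ∫⁻ z : ℝ, ‖∫ t in Ioo (0 : ℝ) 1, Complex.exp (-((z * t : ℝ) : ℂ) * Complex.I) *
      f s t‖ₑ ^ 2 ≤ ENNReal.ofReal (2 * Real.pi) * ∫⁻ t in Ioo (0 : ℝ) 1,
        ENNReal.ofReal (cs t ^ (2 * (d - 2))) * ‖Aa s g x t‖ₑ ^ 2 := by
    intro s
    have h1 := pl_phase (Ioo (0 : ℝ) 1) measurableSet_Ioo (by simp) (fun c => c)
      (fun _ => 1) measurable_id measurable_const (fun c _ => hasDerivWithinAt_id c _)
      (fun _ _ => one_ne_zero) (injOn_id _) (f s) (hfm s) ⟨_, hfb s⟩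
    refine le_trans (le_of_eq ?_) (h1.trans (le_of_eq ?_))
    · refine lintegral_congr fun z => ?_
      rw [ENNReal.ofReal_pow (norm_nonneg _), ofReal_norm]
    · congr 1
      refine lintegral_congr fun t => ?_
      rw [abs_one, div_one, ENNReal.ofReal_pow (norm_nonneg _), ofReal_norm]
      simp only [hf]
      rw [enorm_mul, mul_pow]
      congr 1
      rw [← ofReal_norm, Complex.norm_real, Real.norm_eq_abs,
        abs_of_nonneg (pow_nonneg (cs_nonneg t) _), ← ENNReal.ofReal_pow (pow_nonneg (cs_nonneg t) _),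
        ← pow_mul, mul_comm]
  have hGm : ∀ s, Measurable fun z : ℝ => ∫ t in Ioo (0 : ℝ) 1,
      Complex.exp (-((z * t : ℝ) : ℂ) * Complex.I) * f s t := by
    intro s
    have h1 := F1_meas (h := fun _ t => f s t) ((hfm s).comp measurable_snd)
    exact h1.comp (measurable_prodMk_left (x := (0 : ℝ)))
  have two_add : ∀ a b : ℝ≥0∞, (a + b) ^ 2 ≤ 2 * (a ^ 2 + b ^ 2) := by
    intro a b
    have h := ENNReal.rpow_add_le_mul_rpow_add_rpow a b (p := 2) (by norm_num)
    rw [show (2 : ℝ) - 1 = 1 by norm_num, ENNReal.rpow_one] at h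
    have e1 : ∀ w : ℝ≥0∞, w ^ (2 : ℝ) = w ^ (2 : ℕ) := fun w => by
      rw [show (2 : ℝ) = ((2 : ℕ) : ℝ) by norm_num, ENNReal.rpow_natCast]
    rw [e1, e1, e1] at h
    exact h
  have hmA : ∀ s, Measurable fun t : ℝ => ENNReal.ofReal (cs t ^ (2 * (d - 2))) *
      ‖Aa s g x t‖ₑ ^ 2 := fun s =>
    (cs_meas.pow_const _).ennreal_ofReal.mul ((hAx s).enorm.pow_const 2)
  calc ∫⁻ z : ℝ, ‖T g (J x (z • e0))‖ₑ ^ 2
      ≤ ∫⁻ z : ℝ, 2 * (‖∫ t in Ioo (0 : ℝ) 1, Complex.exp (-((z * t : ℝ) : ℂ) * Complex.I) * f 1 t‖ₑ ^ 2 +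
        ‖∫ t in Ioo (0 : ℝ) 1, Complex.exp (-((-z * t : ℝ) : ℂ) * Complex.I) * f (-1) t‖ₑ ^ 2) := by
        apply lintegral_mono
        intro z
        dsimp only
        rw [e1 z]
        exact (pow_le_pow_left' (enorm_add_le _ _) 2).trans (two_add _ _)
    _ = 2 * ((∫⁻ z : ℝ, ‖∫ t in Ioo (0 : ℝ) 1, Complex.exp (-((z * t : ℝ) : ℂ) * Complex.I) * f 1 t‖ₑ ^ 2) +
        ∫⁻ z : ℝ, ‖∫ t in Ioo (0 : ℝ) 1, Complex.exp (-((z * t : ℝ) : ℂ) * Complex.I) * f (-1) t‖ₑ ^ 2) := by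
        have hm1 : Measurable fun z : ℝ => ‖∫ t in Ioo (0 : ℝ) 1,
            Complex.exp (-((z * t : ℝ) : ℂ) * Complex.I) * f 1 t‖ₑ ^ 2 := (hGm 1).enorm.pow_const 2
        have hm2 : Measurable fun z : ℝ => ‖∫ t in Ioo (0 : ℝ) 1,
            Complex.exp (-((-z * t : ℝ) : ℂ) * Complex.I) * f (-1) t‖ₑ ^ 2 :=
          ((hGm (-1)).comp measurable_neg).enorm.pow_const 2
        rw [lintegral_const_mul' _ _ (by norm_num), lintegral_add_left hm1]
        congr 2
        exact lintegral_neg_eq_self (fun z : ℝ => ‖∫ t in Ioo (0 : ℝ) 1,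
            Complex.exp (-((z * t : ℝ) : ℂ) * Complex.I) * f (-1) t‖ₑ ^ 2)
    _ ≤ 2 * (ENNReal.ofReal (2 * Real.pi) * (∫⁻ t in Ioo (0 : ℝ) 1,
        ENNReal.ofReal (cs t ^ (2 * (d - 2))) * ‖Aa 1 g x t‖ₑ ^ 2) +
        ENNReal.ofReal (2 * Real.pi) * ∫⁻ t in Ioo (0 : ℝ) 1,
        ENNReal.ofReal (cs t ^ (2 * (d - 2))) * ‖Aa (-1) g x t‖ₑ ^ 2) := by
        gcongr
        · exact hpl 1
        · exact hpl (-1)
    _ = _ := by
        rw [← mul_add, ← lintegral_add_left (hmA 1), ← mul_assoc]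
        congr 1
        · rw [show 4 * Real.pi = 2 * (2 * Real.pi) by ring, ENNReal.ofReal_mul (by norm_num)]
          norm_num
        · refine lintegral_congr fun t => ?_
          rw [mul_add]

/-- the `L²` bound on cylindrical shells -/
theorem L2cyl (hd : 2 ≤ d) : ∃ C : ℝ, 0 < C ∧ ∀ (g : E (d + 1) → ℂ), Measurable g →
    ∀ M : ℝ, (∀ w, ‖g w‖ ≤ M) → ∀ Λ : ℝ, 1 ≤ Λ →
    ∫⁻ x in shell d Λ, ∫⁻ z : ℝ, ‖T g (J x (z • e0))‖ₑ ^ 2 ≤ ENNReal.ofReal (C * M ^ 2 * Λ) := by
  obtain ⟨C, hC, h⟩ := Aa_shell hd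
  have hpi := Real.pi_pos
  have := sg_finite d
  refine ⟨16 * Real.pi * C, by positivity, fun g hg M hM Λ hΛ => ?_⟩
  have hM0 : 0 ≤ M := (norm_nonneg _).trans (hM 0)
  have hAm := fun s => Aa_meas s g hg
  have hm : Measurable fun p : E d × ℝ => ENNReal.ofReal (cs p.2 ^ (2 * (d - 2))) *
        (‖Aa 1 g p.1 p.2‖ₑ ^ 2 + ‖Aa (-1) g p.1 p.2‖ₑ ^ 2) :=
    ((cs_meas.comp measurable_snd).pow_const _).ennreal_ofReal.mul
      (((hAm 1).enorm.pow_const 2).add ((hAm (-1)).enorm.pow_const 2))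
  have hm1 : Measurable fun x : E d => ∫⁻ t in Ioo (0 : ℝ) 1, ENNReal.ofReal (cs t ^ (2 * (d - 2))) *
        (‖Aa 1 g x t‖ₑ ^ 2 + ‖Aa (-1) g x t‖ₑ ^ 2) := Measurable.lintegral_prod_right' hm
  have hmi : Measurable fun t : ℝ => ENNReal.ofReal ((cs t)⁻¹) := cs_meas.inv.ennreal_ofReal
  calc ∫⁻ x in shell d Λ, ∫⁻ z : ℝ, ‖T g (J x (z • e0))‖ₑ ^ 2
      ≤ ∫⁻ x in shell d Λ, ENNReal.ofReal (4 * Real.pi) *
      ∫⁻ t in Ioo (0 : ℝ) 1, ENNReal.ofReal (cs t ^ (2 * (d - 2))) *
        (‖Aa 1 g x t‖ₑ ^ 2 + ‖Aa (-1) g x t‖ₑ ^ 2) :=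
        lintegral_mono fun x => T_planch hd g hg hM x
    _ = ENNReal.ofReal (4 * Real.pi) * ∫⁻ t in Ioo (0 : ℝ) 1, ∫⁻ x in shell d Λ,
        ENNReal.ofReal (cs t ^ (2 * (d - 2))) *
        (‖Aa 1 g x t‖ₑ ^ 2 + ‖Aa (-1) g x t‖ₑ ^ 2) := by
        rw [lintegral_const_mul _ hm1, lintegral_lintegral_swap hm.aemeasurable]
    _ ≤ ENNReal.ofReal (4 * Real.pi) * ∫⁻ t in Ioo (0 : ℝ) 1,
        ENNReal.ofReal (2 * C * M ^ 2 * Λ) * ENNReal.ofReal ((cs t)⁻¹) := by
        gcongr ENNReal.ofReal (4 * Real.pi) * ?_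
        apply setLIntegral_mono' measurableSet_Ioo
        intro t ht
        have hc := cs_pos ht.1 ht.2
        have hA1 : ∀ s, Measurable fun x : E d => ‖Aa s g x t‖ₑ ^ 2 := fun s =>
          ((hAm s).comp measurable_prodMk_right).enorm.pow_const 2
        have hA2 : Measurable fun x : E d => ‖Aa 1 g x t‖ₑ ^ 2 + ‖Aa (-1) g x t‖ₑ ^ 2 :=
          (hA1 1).add (hA1 (-1))
        rw [lintegral_const_mul _ hA2, lintegral_add_left (hA1 1)]
        calc ENNReal.ofReal (cs t ^ (2 * (d - 2))) * ((∫⁻ x in shell d Λ, ‖Aa 1 g x t‖ₑ ^ 2) +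
              ∫⁻ x in shell d Λ, ‖Aa (-1) g x t‖ₑ ^ 2)
            ≤ ENNReal.ofReal (cs t ^ (2 * (d - 2))) *
              (ENNReal.ofReal (C * M ^ 2 * Λ * ((cs t) ^ (d - 1))⁻¹) +
               ENNReal.ofReal (C * M ^ 2 * Λ * ((cs t) ^ (d - 1))⁻¹)) := by
              gcongr
              · exact h g hg M hM 1 t Λ ht hΛ
              · exact h g hg M hM (-1) t Λ ht hΛ
          _ = ENNReal.ofReal (cs t ^ (2 * (d - 2)) * (2 * (C * M ^ 2 * Λ * ((cs t) ^ (d - 1))⁻¹))) := by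
              rw [← ENNReal.ofReal_add (by positivity) (by positivity), ← ENNReal.ofReal_mul
                (by positivity)]
              congr 1
              ring
          _ ≤ ENNReal.ofReal ((2 * C * M ^ 2 * Λ) * (cs t)⁻¹) := by
              apply ENNReal.ofReal_le_ofReal
              have h6 : cs t ^ (2 * (d - 2)) * ((cs t) ^ (d - 1))⁻¹ ≤ (cs t)⁻¹ := by
                rw [mul_inv_le_iff₀ (by positivity)]
                have e7 : (cs t)⁻¹ * cs t ^ (d - 1) = cs t ^ (d - 2) := by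
                  have : d - 1 = (d - 2) + 1 := by omega
                  rw [this, pow_succ]
                  field_simp
                rw [e7]
                apply pow_le_pow_of_le_one hc.le (cs_le_one t)
                omega
              calc _ = (2 * C * M ^ 2 * Λ) * (cs t ^ (2 * (d - 2)) * ((cs t) ^ (d - 1))⁻¹) := by ring
                _ ≤ _ := mul_le_mul_of_nonneg_left h6 (by positivity)
          _ = _ := by rw [ENNReal.ofReal_mul (by positivity)]
    _ = ENNReal.ofReal (4 * Real.pi) * (ENNReal.ofReal (2 * C * M ^ 2 * Λ) *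
        ∫⁻ t in Ioo (0 : ℝ) 1, ENNReal.ofReal ((cs t)⁻¹)) := by
        rw [lintegral_const_mul _ hmi]
    _ ≤ ENNReal.ofReal (4 * Real.pi) * (ENNReal.ofReal (2 * C * M ^ 2 * Λ) * ENNReal.ofReal 2) := by
        gcongr
        exact lint_cs_inv
    _ = _ := by
        rw [← ENNReal.ofReal_mul (by positivity), ← ENNReal.ofReal_mul (by positivity)]
        congr 1
        ring

/-- the `L²` bound on the central cylinder -/
theorem L2core (hd : 2 ≤ d) : ∃ C : ℝ, 0 < C ∧ ∀ (g : E (d + 1) → ℂ), Measurable g →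
    ∀ M : ℝ, (∀ w, ‖g w‖ ≤ M) →
    ∫⁻ x in closedBall (0 : E d) 1, ∫⁻ z : ℝ, ‖T g (J x (z • e0))‖ₑ ^ 2 ≤
      ENNReal.ofReal (C * M ^ 2) := by
  have hpi := Real.pi_pos
  have := sg_finite d
  set S : ℝ := (sg d).real univ with hS
  have hS0 : 0 ≤ S := measureReal_nonneg
  set V : ℝ := (volume (closedBall (0 : E d) 1)).toReal with hV
  have hV0 : 0 ≤ V := ENNReal.toReal_nonneg
  refine ⟨8 * Real.pi * S ^ 2 * V + 1, by positivity, fun g hg M hM => ?_⟩
  have hM0 : 0 ≤ M := (norm_nonneg _).trans (hM 0)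
  calc ∫⁻ x in closedBall (0 : E d) 1, ∫⁻ z : ℝ, ‖T g (J x (z • e0))‖ₑ ^ 2
      ≤ ∫⁻ _x in closedBall (0 : E d) 1, ENNReal.ofReal (8 * Real.pi * (M * S) ^ 2) := by
        apply lintegral_mono
        intro x
        dsimp only
        refine (T_planch hd g hg hM x).trans ?_
        have hb : ∀ s t, ‖Aa s g x t‖ₑ ^ 2 ≤ ENNReal.ofReal ((M * S) ^ 2) := by
          intro s t
          rw [← ofReal_norm, ← ENNReal.ofReal_pow (norm_nonneg _)]
          exact ENNReal.ofReal_le_ofReal (pow_le_pow_left₀ (norm_nonneg _) (Aa_le s g hM x t) 2)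
        calc ENNReal.ofReal (4 * Real.pi) *
            ∫⁻ t in Ioo (0 : ℝ) 1, ENNReal.ofReal (cs t ^ (2 * (d - 2))) *
              (‖Aa 1 g x t‖ₑ ^ 2 + ‖Aa (-1) g x t‖ₑ ^ 2)
            ≤ ENNReal.ofReal (4 * Real.pi) * ∫⁻ _t in Ioo (0 : ℝ) 1,
              ENNReal.ofReal (2 * (M * S) ^ 2) := by
              gcongr ENNReal.ofReal (4 * Real.pi) * ?_
              apply lintegral_mono
              intro t
              dsimp only
              calc ENNReal.ofReal (cs t ^ (2 * (d - 2))) *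
                  (‖Aa 1 g x t‖ₑ ^ 2 + ‖Aa (-1) g x t‖ₑ ^ 2)
                  ≤ 1 * (ENNReal.ofReal ((M * S) ^ 2) + ENNReal.ofReal ((M * S) ^ 2)) := by
                    gcongr
                    · rw [ENNReal.ofReal_le_one]
                      exact pow_le_one₀ (cs_nonneg t) (cs_le_one t)
                    · exact hb _ _
                    · exact hb _ _
                _ = _ := by
                    rw [one_mul, ← ENNReal.ofReal_add (by positivity) (by positivity)]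
                    congr 1
                    ring
          _ = ENNReal.ofReal (8 * Real.pi * (M * S) ^ 2) := by
              rw [setLIntegral_const, Real.volume_Ioo, sub_zero, ENNReal.ofReal_one, mul_one,
                ← ENNReal.ofReal_mul (by positivity)]
              congr 1
              ring
    _ = ENNReal.ofReal (8 * Real.pi * (M * S) ^ 2) * ENNReal.ofReal V := by
        rw [setLIntegral_const, hV, ENNReal.ofReal_toReal measure_closedBall_lt_top.ne]
    _ = ENNReal.ofReal (8 * Real.pi * (M * S) ^ 2 * V) := by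
        rw [← ENNReal.ofReal_mul (by positivity)]
    _ ≤ _ := by
        apply ENNReal.ofReal_le_ofReal
        nlinarith [sq_nonneg M]

end Pool.Agent.H243.RA
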