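import Mathlib
import Pool.Agent.H243.RA.B4
import Pool.Agent.H243.RA.D2
set_option autoImplicit false

/-! Densities whose restrictions to the parallels are harmonics of one degree: the `L⁴` bound. -/

open MeasureTheory Set Metric
open scoped ENNReal RealInnerProductSpace

namespace Pool.Agent.H243.RA

open Pool.Agent.W5h55.SH hiding e0 e0_norm
open Pool.Agent.H789R2.FR (E sg T sg_finite sg_ae polar pl_phase)
open Pool.Agent.H789R2.FR.L2 (norm_T_le measurable_T)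
open Pool.Agent.H438R2.BR (J J_inner J_mp Q)
open Pool.Agent.H438R2.BR.T10 (e0 e0_norm e0_ne sg_one)
open Pool.Agent.Y251.HR (shell shell2 shell_meas)

variable {d : ℕ}

/-- on each parallel the function is a homogeneous harmonic polynomial of degree `l` -/
def Lat (l : ℕ) (g : E (d + 1) → ℂ) : Prop :=
  ∀ s : ℝ, ∃ P : MvPolynomial (Fin d) ℂ, P.IsHomogeneous l ∧ Harm P ∧
    ∀ x : E d, ‖x‖ ^ 2 + s ^ 2 = 1 → g (J x (s • e0)) = ev P x

theorem Aa_lat (hd : 2 ≤ d) {l : ℕ} {g : E (d + 1) → ℂ} (hg : Lat l g) {s t r : ℝ}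
    (hs : s ^ 2 = 1) (ht : t ∈ Ioo (0 : ℝ) 1) (hr : 0 ≤ r) (w : E d) (hw : ‖w‖ = 1) :
    Aa s g (r • w) t = (-Complex.I) ^ l * (ga d l (r * cs t) : ℂ) * g (pt s t w) := by
  obtain ⟨P, hP1, hP2, hP3⟩ := hg (s * t)
  have hc := cs_pos ht.1 ht.2
  have hcs : cs t ^ 2 = 1 - t ^ 2 := by
    unfold cs
    rw [Real.sq_sqrt]
    nlinarith [ht.1, ht.2]
  have hpt : ∀ u : E d, ‖u‖ = 1 → g (pt s t u) = ev P (cs t • u) := by
    intro u hu
    unfold pt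
    apply hP3
    rw [norm_smul, hu, mul_one, Real.norm_of_nonneg hc.le, hcs, mul_pow, hs]
    ring
  rw [Aa_eq]
  have hae : (fun u => g (pt s t u)) =ᵐ[sg d] fun u => ((cs t : ℂ)) ^ l * ev P u := by
    filter_upwards [sg_ae d] with u hu
    rw [hpt u hu, ev_smul l P hP1, Complex.ofReal_pow]
  rw [T_congr hae]
  have hT : T (fun u => ((cs t : ℂ)) ^ l * ev P u) (cs t • r • w) =
      (cs t : ℂ) ^ l * T (ev P) (cs t • r • w) := by
    unfold T
    rw [← integral_const_mul]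
    refine integral_congr_ae (Filter.Eventually.of_forall fun u => ?_)
    simp only
    ring
  rw [hT, smul_smul, T_norm hd l P hP1 hP2 w hw _ (by positivity), hpt w hw, ev_smul l P hP1,
    mul_comm (cs t) r, Complex.ofReal_pow]
  ring

theorem jj_ga (d l : ℕ) (r c : ℝ) (hr : 0 < r) (hc : 0 < c) (hd : 2 ≤ d) :
    c ^ (d - 2) * ga d l (r * c) =
      r ^ (-(((d : ℝ) - 2) / 2)) * (c ^ (((d : ℝ) - 2) / 2) * jj d l (r * c)) := by
  unfold jj
  rw [Real.mul_rpow hr.le hc.le, ← Real.rpow_natCast c (d - 2), Nat.cast_sub hd]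
  have h1 : c ^ ((d : ℝ) - (2 : ℕ)) = c ^ (((d : ℝ) - 2) / 2) * c ^ (((d : ℝ) - 2) / 2) := by
    rw [← Real.rpow_add hc]
    congr 1
    push_cast
    ring
  have h2 : r ^ (-(((d : ℝ) - 2) / 2)) * r ^ (((d : ℝ) - 2) / 2) = 1 := by
    rw [← Real.rpow_add hr]
    simp
  rw [h1]
  calc c ^ (((d : ℝ) - 2) / 2) * c ^ (((d : ℝ) - 2) / 2) * ga d l (r * c)
      = 1 * (c ^ (((d : ℝ) - 2) / 2) * c ^ (((d : ℝ) - 2) / 2) * ga d l (r * c)) := by ring
    _ = (r ^ (-(((d : ℝ) - 2) / 2)) * r ^ (((d : ℝ) - 2) / 2)) *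
          (c ^ (((d : ℝ) - 2) / 2) * c ^ (((d : ℝ) - 2) / 2) * ga d l (r * c)) := by rw [h2]
    _ = _ := by ring

/-- the one dimensional densities -/
noncomputable def hh (s : ℝ) (g : E (d + 1) → ℂ) (w : E d) (t : ℝ) : ℂ :=
  ((cs t ^ (((d : ℝ) - 2) / 2) : ℝ) : ℂ) * g (pt s t w)

theorem hh_meas (s : ℝ) (g : E (d + 1) → ℂ) (hg : Measurable g) (w : E d) :
    Measurable (hh s g w) := by
  have h1 : Measurable fun t : ℝ => ((cs t ^ (((d : ℝ) - 2) / 2) : ℝ) : ℂ) :=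
    Complex.measurable_ofReal.comp (cs_meas.pow_const _)
  have h2 : Measurable fun t : ℝ => g (pt s t w) := hg.comp ((pt_meas s).comp measurable_prodMk_right)
  exact h1.mul h2

theorem hh_le (hd : 2 ≤ d) (s : ℝ) (g : E (d + 1) → ℂ) (hM : ∀ w, ‖g w‖ ≤ 1) (w : E d) (t : ℝ) :
    ‖hh s g w t‖ ≤ 1 := by
  unfold hh
  have h2 : (2 : ℝ) ≤ d := by exact_mod_cast hd
  rw [norm_mul, Complex.norm_real, Real.norm_of_nonneg (Real.rpow_nonneg (cs_nonneg t) _)]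
  have h1 : cs t ^ (((d : ℝ) - 2) / 2) ≤ 1 :=
    Real.rpow_le_one (cs_nonneg t) (cs_le_one t) (by linarith)
  calc _ ≤ 1 * 1 := mul_le_mul h1 (hM _) (norm_nonneg _) zero_le_one
    _ = 1 := one_mul _

/-- the extension operator of a density of latitudinal degree `l` -/
theorem T_lat (hd : 2 ≤ d) {l : ℕ} {g : E (d + 1) → ℂ} (hgm : Measurable g)
    (hM : ∀ w, ‖g w‖ ≤ 1) (hg : Lat l g) {r : ℝ} (hr : 0 < r) (w : E d) (hw : ‖w‖ = 1) (z : ℝ) :
    T g (J (r • w) (z • e0)) = (-Complex.I) ^ l * ((r ^ (-(((d : ℝ) - 2) / 2)) : ℝ) : ℂ) *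
      ((∫ t in Ioo (0 : ℝ) 1, Complex.exp (-((z * t : ℝ) : ℂ) * Complex.I) *
          (hh 1 g w t * (jj d l (r * cs t) : ℂ))) +
       ∫ t in Ioo (0 : ℝ) 1, Complex.exp (-((-z * t : ℝ) : ℂ) * Complex.I) *
          (hh (-1) g w t * (jj d l (r * cs t) : ℂ))) := by
  have hd2 : (2 : ℝ) ≤ d := by exact_mod_cast hd
  have hjc := jj_cont d l hd
  have hjm : Measurable fun t : ℝ => (jj d l (r * cs t) : ℂ) :=
    Complex.measurable_ofReal.comp (hjc.measurable.comp (cs_meas.const_mul r))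
  obtain ⟨B, hB⟩ := (isCompact_Icc (a := (0 : ℝ)) (b := r)).exists_bound_of_continuousOn
    hjc.continuousOn
  have hB0 : 0 ≤ B := (norm_nonneg _).trans (hB 0 ⟨le_rfl, hr.le⟩)
  have hjb : ∀ t : ℝ, ‖(jj d l (r * cs t) : ℂ)‖ ≤ B := by
    intro t
    rw [Complex.norm_real]
    apply hB
    refine ⟨mul_nonneg hr.le (cs_nonneg t), ?_⟩
    calc r * cs t ≤ r * 1 := mul_le_mul_of_nonneg_left (cs_le_one t) hr.le
      _ = r := mul_one r
  have hi : ∀ s z, IntegrableOn (fun t => Complex.exp (-((z * t : ℝ) : ℂ) * Complex.I) *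
      (hh s g w t * (jj d l (r * cs t) : ℂ))) (Ioo (0 : ℝ) 1) := by
    intro s z
    apply F1_int (B := B) ((hh_meas s g hgm w).mul hjm) (f := fun t => hh s g w t *
      (jj d l (r * cs t) : ℂ))
    intro t
    rw [norm_mul]
    calc _ ≤ 1 * B := mul_le_mul (hh_le hd s g hM w t) (hjb t) (norm_nonneg _) zero_le_one
      _ = B := one_mul B
  have h2 := integral_add (hi 1 z) (hi (-1) (-z))
  rw [T_cyl hd g hgm hM, ← h2, ← integral_const_mul]
  apply setIntegral_congr_fun measurableSet_Ioo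
  intro t ht
  dsimp only
  have hc := cs_pos ht.1 ht.2
  rw [Aa_lat hd hg (by norm_num) ht hr.le w hw, Aa_lat hd hg (by norm_num) ht hr.le w hw]
  have e : ((cs t ^ (d - 2) : ℝ) : ℂ) * (ga d l (r * cs t) : ℂ) =
      ((r ^ (-(((d : ℝ) - 2) / 2)) : ℝ) : ℂ) * (((cs t ^ (((d : ℝ) - 2) / 2) : ℝ) : ℂ) *
        (jj d l (r * cs t) : ℂ)) := by
    rw [← Complex.ofReal_mul, jj_ga d l r (cs t) hr hc hd]
    push_cast
    ring
  unfold hh
  linear_combination ((-Complex.I) ^ l * (Complex.exp (-((z * t : ℝ) : ℂ) * Complex.I) *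
    g (pt 1 t w) + Complex.exp (-((-z * t : ℝ) : ℂ) * Complex.I) * g (pt (-1) t w))) * e

/-- the `L⁴` bound in a half plane -/
theorem L4_ray (hd : 2 ≤ d) (ε : ℝ) (hε : 0 < ε) (hε1 : ε < 1) : ∃ K : ℝ, 0 < K ∧
    ∀ (l : ℕ) (g : E (d + 1) → ℂ), Measurable g → (∀ w, ‖g w‖ ≤ 1) → Lat l g → ∀ Λ : ℝ, 1 ≤ Λ →
    ∀ w : E d, ‖w‖ = 1 →
    ∫⁻ r in Ioc Λ (2 * Λ), ENNReal.ofReal (r ^ (d - 1)) *
      ∫⁻ z : ℝ, ‖T g (J (r • w) (z • e0))‖ₑ ^ 4 ≤
      ENNReal.ofReal (K * Λ ^ (-((d : ℝ) - 1) + ε)) := by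
  obtain ⟨C, hC, hBD⟩ := jj_BD d hd
  obtain ⟨K, hK, hcore⟩ := core ε hε hε1 C hC
  have hd2 : (2 : ℝ) ≤ d := by exact_mod_cast hd
  refine ⟨32 * K, by positivity, fun l g hgm hM hg Λ hΛ w hw => ?_⟩
  have hΛ0 : 0 < Λ := by linarith
  have hjm := (jj_cont d l hd).measurable
  have hkm : Measurable (kk d l) := by
    have h1 := (phi_cont (2 * l + d) (by omega)).measurable
    have h2 := (phi_cont (2 * l + d + 2) (by omega)).measurable
    unfold kk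
    fun_prop
  have hcs := fun s => hcore (nu d l) (jj d l) (kk d l) (hBD l) hjm hkm Λ hΛ (hh s g w)
    (hh_meas s g hgm w) (hh_le hd s g hM w)
  set G : ℝ → ℝ → ℝ → ℂ := fun s r z => ∫ t in Ioo (0 : ℝ) 1,
    Complex.exp (-((z * t : ℝ) : ℂ) * Complex.I) * (hh s g w t * (jj d l (r * cs t) : ℂ)) with hG
  have hGm : ∀ s, Measurable (Function.uncurry (G s)) := by
    intro s
    have h1 : Measurable (Function.uncurry fun (r t : ℝ) => hh s g w t * (jj d l (r * cs t) : ℂ)) := by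
      apply Measurable.mul ((hh_meas s g hgm w).comp measurable_snd)
      exact Complex.measurable_ofReal.comp (hjm.comp (measurable_fst.mul
        (cs_meas.comp measurable_snd)))
    exact F1_meas h1
  have hGm1 : ∀ s r, Measurable fun z => ‖G s r z‖ₑ ^ 4 := fun s r =>
    ((hGm s).comp measurable_prodMk_left).enorm.pow_const 4
  have hGm2 : ∀ s, Measurable fun r => ∫⁻ z, ‖G s r z‖ₑ ^ 4 := fun s =>
    Measurable.lintegral_prod_right' ((hGm s).enorm.pow_const 4)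
  have key : ∀ r ∈ Ioc Λ (2 * Λ), ENNReal.ofReal (r ^ (d - 1)) *
      ∫⁻ z : ℝ, ‖T g (J (r • w) (z • e0))‖ₑ ^ 4 ≤
      ENNReal.ofReal (16 * Λ ^ (3 - (d : ℝ))) * ((∫⁻ z, ‖G 1 r z‖ₑ ^ 4) +
        ∫⁻ z, ‖G (-1) r z‖ₑ ^ 4) := by
    intro r hr
    have hr0 : 0 < r := hΛ0.trans hr.1
    have e1 : ∀ z : ℝ, ‖T g (J (r • w) (z • e0))‖ₑ ^ 4 ≤
        ENNReal.ofReal (8 * (r ^ (-(((d : ℝ) - 2) / 2))) ^ 4) *
          (‖G 1 r z‖ₑ ^ 4 + ‖G (-1) r (-z)‖ₑ ^ 4) := by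
      intro z
      rw [T_lat hd hgm hM hg hr0 w hw z, enorm_mul, enorm_mul, enorm_pow]
      have h1 : ‖-Complex.I‖ₑ = 1 := by
        rw [← ofReal_norm, norm_neg, Complex.norm_I, ENNReal.ofReal_one]
      have h2 : ‖((r ^ (-(((d : ℝ) - 2) / 2)) : ℝ) : ℂ)‖ₑ =
          ENNReal.ofReal (r ^ (-(((d : ℝ) - 2) / 2))) := by
        rw [← ofReal_norm, Complex.norm_real, Real.norm_of_nonneg (Real.rpow_nonneg hr0.le _)]
      rw [h1, one_pow, one_mul, h2, mul_pow, mul_comm 8, ENNReal.ofReal_mul (by positivity),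
        ENNReal.ofReal_pow (by positivity), mul_assoc]
      gcongr
      refine (pow_le_pow_left' (enorm_add_le _ _) 4).trans ((four_add _ _).trans (le_of_eq ?_))
      rw [ENNReal.ofReal_ofNat]
    have e2 : ∫⁻ z : ℝ, ‖T g (J (r • w) (z • e0))‖ₑ ^ 4 ≤
        ENNReal.ofReal (8 * (r ^ (-(((d : ℝ) - 2) / 2))) ^ 4) * ((∫⁻ z, ‖G 1 r z‖ₑ ^ 4) +
        ∫⁻ z, ‖G (-1) r z‖ₑ ^ 4) := by
      refine (lintegral_mono e1).trans (le_of_eq ?_)
      rw [lintegral_const_mul' _ _ ENNReal.ofReal_ne_top, lintegral_add_left (hGm1 1 r)]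
      congr 2
      exact lintegral_neg_eq_self (fun z : ℝ => ‖G (-1) r z‖ₑ ^ 4)
    calc ENNReal.ofReal (r ^ (d - 1)) * ∫⁻ z : ℝ, ‖T g (J (r • w) (z • e0))‖ₑ ^ 4
        ≤ ENNReal.ofReal (r ^ (d - 1)) * (ENNReal.ofReal (8 * (r ^ (-(((d : ℝ) - 2) / 2))) ^ 4) *
          ((∫⁻ z, ‖G 1 r z‖ₑ ^ 4) + ∫⁻ z, ‖G (-1) r z‖ₑ ^ 4)) := mul_le_mul' le_rfl e2
      _ = ENNReal.ofReal (r ^ (d - 1) * (8 * (r ^ (-(((d : ℝ) - 2) / 2))) ^ 4)) *
          ((∫⁻ z, ‖G 1 r z‖ₑ ^ 4) + ∫⁻ z, ‖G (-1) r z‖ₑ ^ 4) := by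
          rw [← mul_assoc, ← ENNReal.ofReal_mul (by positivity)]
      _ ≤ _ := by
          refine mul_le_mul' (ENNReal.ofReal_le_ofReal ?_) le_rfl
          have h3 : r ^ (d - 1) * (8 * (r ^ (-(((d : ℝ) - 2) / 2))) ^ 4) =
              8 * r ^ (3 - (d : ℝ)) := by
            rw [← Real.rpow_natCast r (d - 1), ← Real.rpow_natCast (r ^ (-(((d : ℝ) - 2) / 2))) 4,
              ← Real.rpow_mul hr0.le, Nat.cast_sub (by omega), mul_left_comm, ← Real.rpow_add hr0]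
            congr 2
            push_cast
            ring
          rw [h3]
          have h4 : r ^ (3 - (d : ℝ)) ≤ 2 * Λ ^ (3 - (d : ℝ)) := by
            rcases Nat.lt_or_ge d 3 with h5 | h5
            · have h6 : d = 2 := by omega
              subst h6
              have e : (3 : ℝ) - ((2 : ℕ) : ℝ) = 1 := by norm_num
              rw [e, Real.rpow_one, Real.rpow_one]
              exact hr.2
            · have h7 : (3 : ℝ) ≤ d := by exact_mod_cast h5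
              have h8 : r ^ (3 - (d : ℝ)) ≤ Λ ^ (3 - (d : ℝ)) :=
                Real.rpow_le_rpow_of_nonpos hΛ0 hr.1.le (by linarith)
              have h9 : 0 < Λ ^ (3 - (d : ℝ)) := by positivity
              linarith
          linarith
  calc ∫⁻ r in Ioc Λ (2 * Λ), ENNReal.ofReal (r ^ (d - 1)) *
      ∫⁻ z : ℝ, ‖T g (J (r • w) (z • e0))‖ₑ ^ 4
      ≤ ∫⁻ r in Ioc Λ (2 * Λ), ENNReal.ofReal (16 * Λ ^ (3 - (d : ℝ))) *
        ((∫⁻ z, ‖G 1 r z‖ₑ ^ 4) + ∫⁻ z, ‖G (-1) r z‖ₑ ^ 4) :=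
        setLIntegral_mono' measurableSet_Ioc key
    _ = ENNReal.ofReal (16 * Λ ^ (3 - (d : ℝ))) *
        ((∫⁻ r in Ioc Λ (2 * Λ), ∫⁻ z, ‖G 1 r z‖ₑ ^ 4) +
         ∫⁻ r in Ioc Λ (2 * Λ), ∫⁻ z, ‖G (-1) r z‖ₑ ^ 4) := by
        rw [lintegral_const_mul' _ _ ENNReal.ofReal_ne_top, lintegral_add_left (hGm2 1)]
    _ ≤ ENNReal.ofReal (16 * Λ ^ (3 - (d : ℝ))) *
        (ENNReal.ofReal (K * Λ ^ (-2 + ε)) + ENNReal.ofReal (K * Λ ^ (-2 + ε))) := by
        gcongr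
        · exact hcs 1
        · exact hcs (-1)
    _ = _ := by
        rw [← ENNReal.ofReal_add (by positivity) (by positivity), ← ENNReal.ofReal_mul
          (by positivity)]
        congr 1
        have h10 : Λ ^ (3 - (d : ℝ)) * Λ ^ (-2 + ε) = Λ ^ (-((d : ℝ) - 1) + ε) := by
          rw [← Real.rpow_add hΛ0]
          congr 1
          ring
        calc 16 * Λ ^ (3 - (d : ℝ)) * (K * Λ ^ (-2 + ε) + K * Λ ^ (-2 + ε))
            = 32 * K * (Λ ^ (3 - (d : ℝ)) * Λ ^ (-2 + ε)) := by ring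
          _ = _ := by rw [h10]

end Pool.Agent.H243.RA
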