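import Mathlib
import Pool.Agent.H243.RA.D3
set_option autoImplicit false

/-! The `L⁴` bound on cylindrical shells, and the bound for large degrees. -/

open MeasureTheory Set Metric
open scoped ENNReal RealInnerProductSpace

namespace Pool.Agent.H243.RA

open Pool.Agent.W5h55.SH hiding e0 e0_norm
open Pool.Agent.H789R2.FR (E sg T sg_finite sg_ae polar pl_phase)
open Pool.Agent.H789R2.FR.L2 (norm_T_le measurable_T)
open Pool.Agent.H438R2.BR (J J_inner J_mp Q)
open Pool.Agent.H438R2.BR.T10 (e0 e0_norm e0_ne sg_one)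
open Pool.Agent.Y251.HR (shell shell2 shell_meas)

variable {d : ℕ}

theorem shell_polar (hd : 1 ≤ d) (f : E d → ℝ≥0∞) (hf : Measurable f) {Λ : ℝ} (hΛ : 0 < Λ) :
    ∫⁻ x in shell d Λ, f x = ∫⁻ w, (∫⁻ r in Ioc Λ (2 * Λ), ENNReal.ofReal (r ^ (d - 1)) *
      f (r • w)) ∂(sg d) := by
  rw [← lintegral_indicator (shell_meas Λ), polar (by omega) _ (hf.indicator (shell_meas Λ))]
  refine lintegral_congr_ae ?_
  filter_upwards [sg_ae d] with w hw
  rw [← lintegral_indicator measurableSet_Ioi, ← lintegral_indicator measurableSet_Ioc]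
  refine lintegral_congr fun r => ?_
  by_cases hr : r ∈ Ioc Λ (2 * Λ)
  · have hr0 : 0 < r := hΛ.trans hr.1
    have hmem : r • w ∈ shell d Λ := by
      unfold shell
      simp only [mem_ofPred_eq, norm_smul, hw, mul_one, Real.norm_of_nonneg hr0.le]
      exact hr
    rw [indicator_of_mem hr, indicator_of_mem (show r ∈ Ioi (0 : ℝ) from hr0),
      indicator_of_mem hmem]
  · rw [indicator_of_notMem hr]
    by_cases hr0 : r ∈ Ioi (0 : ℝ)
    · have hr0' : (0 : ℝ) < r := hr0
      have hmem : r • w ∉ shell d Λ := by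
        unfold shell
        simp only [mem_ofPred_eq, norm_smul, hw, mul_one, Real.norm_of_nonneg hr0'.le]
        exact hr
      rw [indicator_of_mem hr0, indicator_of_notMem hmem, mul_zero]
    · rw [indicator_of_notMem hr0]

theorem TJ_meas (g : E (d + 1) → ℂ) (hg : Measurable g) :
    Measurable fun p : E d × ℝ => T g (J p.1 (p.2 • e0)) := by
  have := sg_finite (d + 1)
  exact (measurable_T g hg).measurable.comp Jz_meas

theorem L4_shell (hd : 2 ≤ d) (ε : ℝ) (hε : 0 < ε) (hε1 : ε < 1) : ∃ K : ℝ, 0 < K ∧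
    ∀ (l : ℕ) (g : E (d + 1) → ℂ), Measurable g → (∀ w, ‖g w‖ ≤ 1) → Lat l g → ∀ Λ : ℝ, 1 ≤ Λ →
    ∫⁻ x in shell d Λ, ∫⁻ z : ℝ, ‖T g (J x (z • e0))‖ₑ ^ 4 ≤
      ENNReal.ofReal (K * Λ ^ (-((d : ℝ) - 1) + ε)) := by
  obtain ⟨K, hK, h⟩ := L4_ray hd ε hε hε1
  have := sg_finite d
  set S : ℝ := (sg d).real univ with hS
  have hS0 : 0 ≤ S := measureReal_nonneg
  refine ⟨K * S + 1, by positivity, fun l g hgm hM hg Λ hΛ => ?_⟩
  have hΛ0 : 0 < Λ := by linarith
  have hm : Measurable fun x : E d => ∫⁻ z : ℝ, ‖T g (J x (z • e0))‖ₑ ^ 4 :=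
    Measurable.lintegral_prod_right' ((TJ_meas g hgm).enorm.pow_const 4)
  rw [shell_polar (by omega) _ hm hΛ0]
  calc ∫⁻ w, (∫⁻ r in Ioc Λ (2 * Λ), ENNReal.ofReal (r ^ (d - 1)) *
      ∫⁻ z : ℝ, ‖T g (J (r • w) (z • e0))‖ₑ ^ 4) ∂(sg d)
      ≤ ∫⁻ _w, ENNReal.ofReal (K * Λ ^ (-((d : ℝ) - 1) + ε)) ∂(sg d) := by
        apply lintegral_mono_ae
        filter_upwards [sg_ae d] with w hw
        exact h l g hgm hM hg Λ hΛ w hw
    _ = ENNReal.ofReal (K * Λ ^ (-((d : ℝ) - 1) + ε)) * ENNReal.ofReal S := by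
        rw [lintegral_const, hS, ofReal_measureReal]
    _ ≤ _ := by
        rw [← ENNReal.ofReal_mul (by positivity)]
        apply ENNReal.ofReal_le_ofReal
        have : 0 < Λ ^ (-((d : ℝ) - 1) + ε) := by positivity
        nlinarith

/-- for large degree the radial factor is small -/
theorem ga_tail (hd : 2 ≤ d) (l : ℕ) (x : ℝ) (hx0 : 0 ≤ x) (hx : 8 * x ≤ l) :
    |ga d l x| ≤ ar d * (1 / 2) ^ l := by
  have har : 0 < ar d := ar_pos (by omega)
  have hprod : (2 : ℝ) ^ l * l.factorial ≤ ∏ i ∈ Finset.range l, ((d : ℝ) + 2 * i) := by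
    have h1 : (2 : ℝ) ^ l * l.factorial = ∏ i ∈ Finset.range l, (2 * ((i : ℝ) + 1)) := by
      rw [Finset.prod_mul_distrib, Finset.prod_const, Finset.card_range]
      congr 1
      rw [← Finset.prod_range_add_one_eq_factorial]
      push_cast
      rfl
    rw [h1]
    apply Finset.prod_le_prod
    · intro i _; positivity
    · intro i _
      have : (2 : ℝ) ≤ d := by exact_mod_cast hd
      linarith
  have hP : 0 < ∏ i ∈ Finset.range l, ((d : ℝ) + 2 * i) := by
    apply Finset.prod_pos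
    intro i _
    have : (2 : ℝ) ≤ d := by exact_mod_cast hd
    positivity
  have hphi : |phi (2 * l + d) x| ≤ Real.exp (x ^ 2 / (2 * (2 * l + d : ℕ))) := by
    have h1 := (phi_sum (2 * l + d) (by omega) x)
    have hN : (0 : ℝ) < ((2 * l + d : ℕ) : ℝ) := by
      have : 0 < 2 * l + d := by omega
      exact_mod_cast this
    have hterm : ∀ m : ℕ, ‖(-1 : ℝ) ^ m * x ^ (2 * m) / DD m (2 * l + d)‖ ≤
        (x ^ 2 / (2 * (2 * l + d : ℕ))) ^ m / m.factorial := by
      intro m
      have hD := DD_pos m (2 * l + d) (by omega)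
      have hDD : (m.factorial : ℝ) * (2 * ((2 * l + d : ℕ) : ℝ)) ^ m ≤ DD m (2 * l + d) := by
        unfold DD
        have e1 : (m.factorial : ℝ) * (2 * ((2 * l + d : ℕ) : ℝ)) ^ m =
            ∏ i ∈ Finset.range m, (((i : ℝ) + 1) * (2 * ((2 * l + d : ℕ) : ℝ))) := by
          rw [Finset.prod_mul_distrib, Finset.prod_const, Finset.card_range]
          congr 1
          rw [← Finset.prod_range_add_one_eq_factorial]
          push_cast
          rfl
        rw [e1]
        apply Finset.prod_le_prod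
        · intro i _; positivity
        · intro i _
          have h2 : (0 : ℝ) ≤ (i : ℝ) * ((i : ℝ) + 1) := by positivity
          nlinarith
      rw [norm_div, norm_mul, norm_pow, norm_neg, norm_one, one_pow, one_mul, norm_pow,
        Real.norm_of_nonneg hx0, Real.norm_of_nonneg hD.le, div_pow, ← pow_mul, div_div,
        mul_comm ((2 * ((2 * l + d : ℕ) : ℝ)) ^ m)]
      exact div_le_div_of_nonneg_left (by positivity) (by positivity) hDD
    have h2 := Real.summable_pow_div_factorial (x ^ 2 / (2 * ((2 * l + d : ℕ) : ℝ)))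
    have h3 := tsum_of_norm_bounded h2.hasSum hterm
    unfold phi
    rw [← Real.norm_eq_abs]
    refine h3.trans (le_of_eq ?_)
    rw [Real.exp_eq_exp_ℝ, NormedSpace.exp_eq_tsum_div]
  have hexp : Real.exp (x ^ 2 / (2 * (2 * l + d : ℕ))) ≤ Real.exp (l / 256) := by
    apply Real.exp_le_exp.2
    have hN : (0 : ℝ) < ((2 * l + d : ℕ) : ℝ) := by
      have : 0 < 2 * l + d := by omega
      exact_mod_cast this
    rw [div_le_div_iff₀ (by positivity) (by norm_num)]
    have hl : (0 : ℝ) ≤ l := Nat.cast_nonneg l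
    have hx2 : 64 * x ^ 2 ≤ (l : ℝ) ^ 2 := by nlinarith
    have hdN : (2 * (l : ℝ)) ≤ ((2 * l + d : ℕ) : ℝ) := by push_cast; linarith [Nat.cast_nonneg (α := ℝ) d]
    nlinarith
  have hpow : x ^ l / (2 ^ l * l.factorial) ≤ (Real.exp 1 / 16) ^ l := by
    have h1 : x ^ l ≤ ((l : ℝ) / 8) ^ l := pow_le_pow_left₀ hx0 (by linarith) l
    have h2 := Real.pow_div_factorial_le_exp (l : ℝ) (Nat.cast_nonneg l) l
    have h3 : Real.exp (l : ℝ) = Real.exp 1 ^ l := by
      rw [← Real.exp_nat_mul, mul_one]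
    have hf : (0 : ℝ) < l.factorial := by exact_mod_cast l.factorial_pos
    calc x ^ l / (2 ^ l * l.factorial) ≤ ((l : ℝ) / 8) ^ l / (2 ^ l * l.factorial) := by gcongr
      _ = ((l : ℝ) ^ l / l.factorial) * (1 / 16) ^ l := by
          rw [div_pow, div_pow, one_pow]
          have : (16 : ℝ) ^ l = 8 ^ l * 2 ^ l := by
            rw [← mul_pow]; norm_num
          rw [this]
          field_simp
      _ ≤ Real.exp 1 ^ l * (1 / 16) ^ l := by
          rw [← h3]
          gcongr
      _ = _ := by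
          rw [← mul_pow]
          congr 1
          ring
  unfold ga cc
  rw [abs_mul, abs_mul, abs_of_pos (div_pos har hP), abs_of_nonneg (pow_nonneg hx0 l)]
  calc ar d / (∏ i ∈ Finset.range l, ((d : ℝ) + 2 * i)) * x ^ l * |phi (2 * l + d) x|
      ≤ ar d / (2 ^ l * l.factorial) * x ^ l * Real.exp (l / 256) := by
        have hf : (0 : ℝ) < l.factorial := by exact_mod_cast l.factorial_pos
        gcongr
        exact hphi.trans hexp
    _ = ar d * ((x ^ l / (2 ^ l * l.factorial)) * Real.exp (l / 256)) := by ring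
    _ ≤ ar d * ((Real.exp 1 / 16) ^ l * Real.exp (l / 256)) := by gcongr
    _ = ar d * (Real.exp 1 / 16 * Real.exp (1 / 256)) ^ l := by
        rw [mul_pow, ← Real.exp_nat_mul (1 / 256) l]
        congr 3
        ring
    _ ≤ ar d * (1 / 2) ^ l := by
        have h1 : Real.exp 1 < 2.7182818286 := Real.exp_one_lt_d9
        have h2 : Real.exp (1 / 256) ≤ Real.exp 1 := Real.exp_le_exp.2 (by norm_num)
        have h3 : 0 < Real.exp (1 / 256) := Real.exp_pos _
        have h4 : 0 < Real.exp 1 := Real.exp_pos _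
        have h5 : Real.exp 1 / 16 * Real.exp (1 / 256) ≤ 1 / 2 := by nlinarith
        gcongr

/-- the bound for large degree -/
theorem T_tail (hd : 2 ≤ d) {l : ℕ} {g : E (d + 1) → ℂ} (hgm : Measurable g) {M : ℝ}
    (hM : ∀ w, ‖g w‖ ≤ M) (hg : Lat l g) {r : ℝ} (hr : 0 ≤ r) (hl : 8 * r ≤ l) (w : E d)
    (hw : ‖w‖ = 1) (z : ℝ) :
    ‖T g (J (r • w) (z • e0))‖ ≤ 2 * ar d * M * (1 / 2) ^ l := by
  have hM0 : 0 ≤ M := (norm_nonneg _).trans (hM 0)
  have har : 0 < ar d := ar_pos (by omega)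
  rw [T_cyl hd g hgm hM]
  have hb : ∀ t ∈ Ioo (0 : ℝ) 1, ‖((cs t ^ (d - 2) : ℝ) : ℂ) *
      (Complex.exp (-((z * t : ℝ) : ℂ) * Complex.I) * Aa 1 g (r • w) t +
       Complex.exp (-((-z * t : ℝ) : ℂ) * Complex.I) * Aa (-1) g (r • w) t)‖ ≤
      2 * ar d * M * (1 / 2) ^ l := by
    intro t ht
    have hc := cs_pos ht.1 ht.2
    have hA : ∀ s : ℝ, s ^ 2 = 1 → ‖Aa s g (r • w) t‖ ≤ ar d * (1 / 2) ^ l * M := by
      intro s hs
      rw [Aa_lat hd hg hs ht hr w hw, norm_mul, norm_mul, norm_pow, norm_neg, Complex.norm_I,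
        one_pow, one_mul, Complex.norm_real, Real.norm_eq_abs]
      have h1 : 8 * (r * cs t) ≤ l := by
        have := mul_le_mul_of_nonneg_left (cs_le_one t) hr
        linarith
      exact mul_le_mul (ga_tail hd l _ (by positivity) h1) (hM _) (norm_nonneg _) (by positivity)
    rw [norm_mul, Complex.norm_real, Real.norm_of_nonneg (by positivity)]
    calc cs t ^ (d - 2) * ‖Complex.exp (-((z * t : ℝ) : ℂ) * Complex.I) * Aa 1 g (r • w) t +
       Complex.exp (-((-z * t : ℝ) : ℂ) * Complex.I) * Aa (-1) g (r • w) t‖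
        ≤ 1 * (‖Aa 1 g (r • w) t‖ + ‖Aa (-1) g (r • w) t‖) := by
          apply mul_le_mul (pow_le_one₀ hc.le (cs_le_one t)) _ (norm_nonneg _) zero_le_one
          refine (norm_add_le _ _).trans ?_
          rw [norm_mul, norm_mul, exp_norm_one, exp_norm_one, one_mul, one_mul]
      _ ≤ 1 * (ar d * (1 / 2) ^ l * M + ar d * (1 / 2) ^ l * M) := by
          gcongr
          · exact hA 1 (by norm_num)
          · exact hA (-1) (by norm_num)
      _ = _ := by ring
  have h := norm_setIntegral_le_of_norm_le_const (μ := volume) (s := Ioo (0 : ℝ) 1)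
    (by simp : volume (Ioo (0 : ℝ) 1) < ⊤) hb
  refine h.trans (le_of_eq ?_)
  simp [Measure.real]

end Pool.Agent.H243.RA
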