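import Mathlib
import Pool.Agent.H243.RA.D4
set_option autoImplicit false

/-! Sums of densities of different latitudinal degrees: the `L⁴` bound on cylindrical shells. -/

open MeasureTheory Set Metric Filter Topology
open scoped ENNReal RealInnerProductSpace

namespace Pool.Agent.H243.RA

open Pool.Agent.W5h55.SH hiding e0 e0_norm
open Pool.Agent.H789R2.FR (E sg T sg_finite sg_ae polar pl_phase)
open Pool.Agent.H789R2.FR.L2 (norm_T_le measurable_T)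
open Pool.Agent.H438R2.BR (J J_inner J_mp Q)
open Pool.Agent.H438R2.BR.T10 (e0 e0_norm e0_ne sg_one)
open Pool.Agent.Y251.HR (shell shell2 shell_meas)

variable {d : ℕ}

/-- the data of the theorem -/
structure Sum (A β : ℝ) (m : ℕ → ℝ) (g : E (d + 1) → ℂ) (G : ℕ → E (d + 1) → ℂ) : Prop where
  gm : Measurable g
  gb : ∀ w, ‖g w‖ ≤ A
  Gm : ∀ l, Measurable (G l)
  Gb : ∀ l w, ‖G l w‖ ≤ m l
  lat : ∀ l, Lat l (G l)
  grow : ∀ N : ℕ, 1 ≤ N → ∑ l ∈ Finset.range N, m l ≤ A * (N : ℝ) ^ β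
  lim : Tendsto (fun N : ℕ => ∫⁻ w, ‖g w - ∑ l ∈ Finset.range N, G l w‖ₑ ∂(sg (d + 1))) atTop (𝓝 0)

theorem TJx_meas (g : E (d + 1) → ℂ) (hg : Measurable g) (x : E d) :
    Measurable fun z : ℝ => T g (J x (z • e0)) := by
  have h := (TJ_meas g hg).comp (measurable_prodMk_left (x := x))
  exact h

theorem TJI_meas (g : E (d + 1) → ℂ) (hg : Measurable g) :
    Measurable fun x : E d => ∫⁻ z : ℝ, ‖T g (J x (z • e0))‖ₑ ^ 4 :=
  Measurable.lintegral_prod_right' ((TJ_meas g hg).enorm.pow_const 4)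

theorem T_int (f : E (d + 1) → ℂ) (hf : Measurable f) {M : ℝ} (hM : ∀ w, ‖f w‖ ≤ M)
    (x : E (d + 1)) :
    Integrable (fun w => Complex.exp (-((⟪x, w⟫ : ℝ) : ℂ) * Complex.I) * f w) (sg (d + 1)) := by
  have := sg_finite (d + 1)
  refine Integrable.mono' (integrable_const M) ?_ ?_
  · have h1 : Continuous fun w : E (d + 1) => Complex.exp (-((⟪x, w⟫ : ℝ) : ℂ) * Complex.I) := by
      fun_prop
    exact (h1.measurable.mul hf).aestronglyMeasurable
  · refine Eventually.of_forall fun w => ?_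
    rw [norm_mul, exp_norm_one, one_mul]
    exact hM w

theorem T_add (f h : E (d + 1) → ℂ) (hf : Measurable f) (hh : Measurable h) {M M' : ℝ}
    (hM : ∀ w, ‖f w‖ ≤ M) (hM' : ∀ w, ‖h w‖ ≤ M') (x : E (d + 1)) :
    T (fun w => f w + h w) x = T f x + T h x := by
  unfold T
  rw [← integral_add (T_int f hf hM x) (T_int h hh hM' x)]
  refine integral_congr_ae (Eventually.of_forall fun w => ?_)
  simp only
  ring

theorem T_smul (c : ℂ) (f : E (d + 1) → ℂ) (x : E (d + 1)) :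
    T (fun w => c * f w) x = c * T f x := by
  unfold T
  rw [← integral_const_mul]
  refine integral_congr_ae (Eventually.of_forall fun w => ?_)
  simp only
  ring

theorem T_sum (F : Finset ℕ) (G : ℕ → E (d + 1) → ℂ) (hG : ∀ l, Measurable (G l)) {M : ℕ → ℝ}
    (hM : ∀ l w, ‖G l w‖ ≤ M l) (x : E (d + 1)) :
    T (fun w => ∑ l ∈ F, G l w) x = ∑ l ∈ F, T (G l) x := by
  unfold T
  rw [← integral_finsetSum F fun l _ => T_int (G l) (hG l) (hM l) x]
  refine integral_congr_ae (Eventually.of_forall fun w => ?_)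
  simp only
  rw [Finset.mul_sum]

theorem T_le_int (f : E (d + 1) → ℂ) (x : E (d + 1)) :
    ‖T f x‖ₑ ≤ ∫⁻ w, ‖f w‖ₑ ∂(sg (d + 1)) := by
  unfold T
  refine (enorm_integral_le_lintegral_enorm _).trans (le_of_eq ?_)
  refine lintegral_congr fun w => ?_
  rw [enorm_mul, ← ofReal_norm, exp_norm_one, ENNReal.ofReal_one, one_mul]

theorem Lat_smul {l : ℕ} {g : E (d + 1) → ℂ} (c : ℂ) (hg : Lat l g) : Lat l (fun w => c * g w) := by
  intro s
  obtain ⟨P, h1, h2, h3⟩ := hg s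
  refine ⟨MvPolynomial.C c * P, ?_, ?_, fun x hx => ?_⟩
  · have := (MvPolynomial.isHomogeneous_C (Fin d) c).mul h1
    rwa [zero_add] at this
  · unfold Harm at h2 ⊢
    simp only [MvPolynomial.pderiv_C_mul]
    rw [← Finset.mul_sum, h2, mul_zero]
  · simp only
    rw [h3 x hx, ev_mul, ev_C]

/-- the bound for one degree, with a general bound for the density -/
theorem L4_shell' (hd : 2 ≤ d) (ε : ℝ) (hε : 0 < ε) (hε1 : ε < 1) : ∃ K : ℝ, 0 < K ∧
    ∀ (l : ℕ) (g : E (d + 1) → ℂ) (M : ℝ), Measurable g → (∀ w, ‖g w‖ ≤ M) → Lat l g →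
    ∀ Λ : ℝ, 1 ≤ Λ →
    ∫⁻ x in shell d Λ, ∫⁻ z : ℝ, ‖T g (J x (z • e0))‖ₑ ^ 4 ≤
      ENNReal.ofReal (M ^ 4 * (K * Λ ^ (-((d : ℝ) - 1) + ε))) := by
  obtain ⟨K, hK, h⟩ := L4_shell hd ε hε hε1
  refine ⟨K, hK, fun l g M hgm hM hg Λ hΛ => ?_⟩
  have hM0 : 0 ≤ M := (norm_nonneg _).trans (hM 0)
  have hΛ0 : 0 < Λ := by linarith
  rcases hM0.eq_or_lt with h0 | h0
  · have hz : ∀ w, g w = 0 := fun w => norm_le_zero_iff.1 (by rw [h0]; exact hM w)
    have hT : ∀ x, T g x = 0 := by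
      intro x
      unfold T
      simp [hz]
    simp [hT]
  · have h1 := h l (fun w => ((M⁻¹ : ℝ) : ℂ) * g w) (hgm.const_mul _) (fun w => by
      rw [norm_mul, Complex.norm_real, Real.norm_of_nonneg (by positivity), inv_mul_le_iff₀ h0,
        mul_one]
      exact hM w) (Lat_smul _ hg) Λ hΛ
    have e1 : ∀ x, T g x = ((M : ℝ) : ℂ) * T (fun w => ((M⁻¹ : ℝ) : ℂ) * g w) x := by
      intro x
      rw [T_smul, ← mul_assoc, ← Complex.ofReal_mul, mul_inv_cancel₀ h0.ne', Complex.ofReal_one,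
        one_mul]
    have e2 : ∀ x, ‖T g x‖ₑ ^ 4 = ENNReal.ofReal (M ^ 4) *
        ‖T (fun w => ((M⁻¹ : ℝ) : ℂ) * g w) x‖ₑ ^ 4 := by
      intro x
      rw [e1 x, enorm_mul, mul_pow]
      congr 1
      rw [← ofReal_norm, Complex.norm_real, Real.norm_of_nonneg hM0, ENNReal.ofReal_pow hM0]
    simp_rw [e2, lintegral_const_mul' _ _ ENNReal.ofReal_ne_top]
    rw [ENNReal.ofReal_mul (by positivity)]
    gcongr

/-- Minkowski's inequality on the shell -/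
theorem mink {Λ D : ℝ} (hD : 0 ≤ D) (F : Finset ℕ) (H : ℕ → E (d + 1) → ℂ)
    (hH : ∀ l, Measurable (H l)) (c : ℕ → ℝ) (hc : ∀ l, 0 ≤ c l)
    (h : ∀ l, ∫⁻ x in shell d Λ, ∫⁻ z : ℝ, ‖H l (J x (z • e0))‖ₑ ^ 4 ≤
      ENNReal.ofReal (c l ^ 4 * D)) :
    ∫⁻ x in shell d Λ, ∫⁻ z : ℝ, ‖∑ l ∈ F, H l (J x (z • e0))‖ₑ ^ 4 ≤
      ENNReal.ofReal ((∑ l ∈ F, c l) ^ 4 * D) := by
  set μ : Measure (E d × ℝ) := (volume.restrict (shell d Λ)).prod (volume : Measure ℝ) with hμ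
  have e1 : ∀ f : E d × ℝ → ℝ≥0∞, Measurable f → ∫⁻ x in shell d Λ, ∫⁻ z : ℝ, f (x, z) =
      ∫⁻ y, f y ∂μ := by
    intro f hf
    rw [hμ, lintegral_prod _ hf.aemeasurable]
  have hm : ∀ l, Measurable fun y : E d × ℝ => H l (J y.1 (y.2 • e0)) := fun l => (hH l).comp Jz_meas
  have hn : ∀ f : E d × ℝ → ℂ, ∫⁻ y, ‖f y‖ₑ ^ 4 ∂μ = eLpNorm f 4 μ ^ 4 := by
    intro f
    rw [eLpNorm_eq_lintegral_rpow_enorm_toReal (by norm_num) (by norm_num)]
    rw [← ENNReal.rpow_natCast, ← ENNReal.rpow_mul]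
    norm_num
  have h1 : ∀ l, eLpNorm (fun y : E d × ℝ => H l (J y.1 (y.2 • e0))) 4 μ ≤
      ENNReal.ofReal (c l * D ^ ((1 : ℝ) / 4)) := by
    intro l
    have h2 := h l
    rw [e1 _ ((hm l).enorm.pow_const 4), hn] at h2
    have h3 : ENNReal.ofReal (c l ^ 4 * D) = ENNReal.ofReal (c l * D ^ ((1 : ℝ) / 4)) ^ 4 := by
      rw [← ENNReal.ofReal_pow (mul_nonneg (hc l) (by positivity)), mul_pow,
        ← Real.rpow_natCast (D ^ ((1 : ℝ) / 4)) 4, ← Real.rpow_mul hD]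
      norm_num
    rw [h3] at h2
    exact (ENNReal.pow_le_pow_left_iff (by norm_num)).1 h2
  have hms : Measurable fun y : E d × ℝ => ‖∑ l ∈ F, H l (J y.1 (y.2 • e0))‖ₑ ^ 4 :=
    (Finset.measurable_sum _ fun l _ => hm l).enorm.pow_const 4
  rw [e1 _ hms, hn]
  have h4 := eLpNorm_sum_le (μ := μ) (s := F) (f := fun l (y : E d × ℝ) => H l (J y.1 (y.2 • e0)))
    (fun l _ => (hm l).aestronglyMeasurable) (p := 4) (by norm_num)
  have e2 : (fun y : E d × ℝ => ∑ l ∈ F, H l (J y.1 (y.2 • e0))) =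
      ∑ l ∈ F, fun y : E d × ℝ => H l (J y.1 (y.2 • e0)) := by
    funext y
    rw [Finset.sum_apply]
  rw [e2]
  calc eLpNorm (∑ l ∈ F, fun y : E d × ℝ => H l (J y.1 (y.2 • e0))) 4 μ ^ 4
      ≤ (∑ l ∈ F, ENNReal.ofReal (c l * D ^ ((1 : ℝ) / 4))) ^ 4 := by
        gcongr
        exact h4.trans (Finset.sum_le_sum fun l _ => h1 l)
    _ = ENNReal.ofReal (((∑ l ∈ F, c l) * D ^ ((1 : ℝ) / 4)) ^ 4) := by
        rw [← ENNReal.ofReal_sum_of_nonneg (fun l _ => mul_nonneg (hc l) (by positivity)),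
          ← Finset.sum_mul, ENNReal.ofReal_pow (mul_nonneg (Finset.sum_nonneg fun l _ => hc l)
            (by positivity))]
    _ = _ := by
        congr 1
        rw [mul_pow, ← Real.rpow_natCast (D ^ ((1 : ℝ) / 4)) 4, ← Real.rpow_mul hD]
        norm_num

theorem geom_tail (q : ℝ) (hq : 0 < q) (hq1 : q < 1) (N N' : ℕ) :
    ∑ l ∈ Finset.Ico N N', q ^ l ≤ (1 - q)⁻¹ * q ^ N := by
  have h1q : 0 < 1 - q := by linarith
  rcases le_or_gt N N' with h | h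
  · rw [geom_sum_Ico hq1.ne h]
    have h1 : (0 : ℝ) < q ^ N' := by positivity
    have : (q ^ N' - q ^ N) / (q - 1) = (1 - q)⁻¹ * (q ^ N - q ^ N') := by
      rw [← neg_sub 1 q, ← neg_sub (q ^ N) (q ^ N'), neg_div_neg_eq, div_eq_mul_inv, mul_comm]
    rw [this]
    apply mul_le_mul_of_nonneg_left _ (by positivity)
    linarith
  · rw [Finset.Ico_eq_empty (by omega), Finset.sum_empty]
    positivity

/-- powers are dominated by a slow exponential -/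
theorem pow_slow (k : ℕ) (y : ℝ) (hy : 0 ≤ y) : y ^ k ≤ k.factorial * 4 ^ k * Real.exp (y / 4) := by
  have h := Real.pow_div_factorial_le_exp (y / 4) (by positivity) k
  have hf : (0 : ℝ) < k.factorial := by exact_mod_cast k.factorial_pos
  rw [div_le_iff₀ hf, div_pow, div_le_iff₀ (by positivity)] at h
  linarith

theorem exp_quarter : Real.exp (1 / 4) ≤ 4 / 3 := by
  have h := Real.exp_one_lt_d9
  have h1 : Real.exp (1 / 4) ^ 4 = Real.exp 1 := by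
    rw [← Real.exp_nat_mul]
    norm_num
  by_contra hcon
  push Not at hcon
  have h2 : ((4 : ℝ) / 3) ^ 4 < Real.exp (1 / 4) ^ 4 :=
    pow_lt_pow_left₀ hcon (by norm_num) (by norm_num)
  rw [h1] at h2
  norm_num at h2
  linarith

/-- the constant for the weights -/
noncomputable def cw (d : ℕ) : ℝ := d.factorial * 4 ^ d * (4 / 3)

theorem pow_geom (d l : ℕ) : ((l : ℝ) + 1) ^ d ≤ cw d * (4 / 3) ^ l := by
  have h := pow_slow d ((l : ℝ) + 1) (by positivity)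
  have h1 : Real.exp (((l : ℝ) + 1) / 4) ≤ (4 / 3) * (4 / 3) ^ l := by
    have : ((l : ℝ) + 1) / 4 = 1 / 4 + l * (1 / 4) := by ring
    rw [this, Real.exp_add, Real.exp_nat_mul]
    have h3 := exp_quarter
    have h4 := (Real.exp_pos (1 / 4)).le
    gcongr
  unfold cw
  calc ((l : ℝ) + 1) ^ d ≤ d.factorial * 4 ^ d * Real.exp (((l : ℝ) + 1) / 4) := h
    _ ≤ d.factorial * 4 ^ d * ((4 / 3) * (4 / 3) ^ l) := by gcongr
    _ = _ := by ring

variable {A β : ℝ} {m : ℕ → ℝ} {g : E (d + 1) → ℂ} {G : ℕ → E (d + 1) → ℂ}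

theorem Sum.A0 (h : Sum A β m g G) : 0 ≤ A := (norm_nonneg _).trans (h.gb 0)

theorem Sum.m0 (h : Sum A β m g G) (l : ℕ) : 0 ≤ m l := (norm_nonneg _).trans (h.Gb l 0)

theorem Sum.ml (h : Sum A β m g G) (hβ : β ≤ d) (l : ℕ) : m l ≤ A * ((l : ℝ) + 1) ^ d := by
  have h1 := h.grow (l + 1) (by omega)
  have h2 : m l ≤ ∑ i ∈ Finset.range (l + 1), m i :=
    Finset.single_le_sum (f := m) (fun i _ => h.m0 i) (Finset.self_mem_range_succ l)
  have h3 : (((l + 1 : ℕ) : ℝ)) ^ β ≤ ((l : ℝ) + 1) ^ d := by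
    rw [← Real.rpow_natCast _ d]
    push_cast
    exact Real.rpow_le_rpow_of_exponent_le (by linarith [Nat.cast_nonneg (α := ℝ) l]) hβ
  calc m l ≤ A * (((l + 1 : ℕ) : ℝ)) ^ β := h2.trans h1
    _ ≤ _ := mul_le_mul_of_nonneg_left h3 h.A0

/-- the tail -/
theorem T_rem (hd : 2 ≤ d) (hβ : β ≤ d) (h : Sum A β m g G) (N : ℕ) {r : ℝ} (hr : 0 ≤ r)
    (hN : 8 * r ≤ N) (w : E d) (hw : ‖w‖ = 1) (z : ℝ) :
    ‖T (fun w => g w - ∑ l ∈ Finset.range N, G l w) (J (r • w) (z • e0))‖ ≤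
      6 * ar d * cw d * A * (2 / 3) ^ N := by
  have hA0 := h.A0
  have har : 0 < ar d := ar_pos (by omega)
  have hcw : 0 < cw d := by unfold cw; positivity
  set x : E (d + 1) := J (r • w) (z • e0) with hx
  have hSm : ∀ n : ℕ, Measurable fun w => ∑ l ∈ Finset.range n, G l w := fun n =>
    Finset.measurable_sum _ fun l _ => h.Gm l
  have hSb : ∀ (F : Finset ℕ) (w : E (d + 1)), ‖∑ l ∈ F, G l w‖ ≤ ∑ l ∈ F, m l := by
    intro F w
    exact (norm_sum_le _ _).trans (Finset.sum_le_sum fun l _ => h.Gb l w)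
  have hDm : ∀ n : ℕ, Measurable fun w => g w - ∑ l ∈ Finset.range n, G l w := fun n =>
    h.gm.sub (hSm n)
  have hDb : ∀ (n : ℕ) (w : E (d + 1)), ‖g w - ∑ l ∈ Finset.range n, G l w‖ ≤
      A + ∑ l ∈ Finset.range n, m l := fun n w =>
    (norm_sub_le _ _).trans (add_le_add (h.gb w) (hSb _ w))
  have key : ∀ n : ℕ, N ≤ n → ENNReal.ofReal ‖T (fun w => g w - ∑ l ∈ Finset.range N, G l w) x‖ ≤
      (∫⁻ w, ‖g w - ∑ l ∈ Finset.range n, G l w‖ₑ ∂(sg (d + 1))) +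
        ENNReal.ofReal (6 * ar d * cw d * A * (2 / 3) ^ N) := by
    intro n hn
    have e1 : (fun w => g w - ∑ l ∈ Finset.range N, G l w) =
        fun w => (g w - ∑ l ∈ Finset.range n, G l w) + ∑ l ∈ Finset.Ico N n, G l w := by
      funext w
      rw [← Finset.sum_range_add_sum_Ico _ hn]
      ring
    have e2 : T (fun w => g w - ∑ l ∈ Finset.range N, G l w) x =
        T (fun w => g w - ∑ l ∈ Finset.range n, G l w) x + ∑ l ∈ Finset.Ico N n, T (G l) x := by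
      rw [e1, T_add _ _ (hDm n) (Finset.measurable_sum _ fun l _ => h.Gm l) (hDb n) (hSb _) x,
        T_sum _ G h.Gm h.Gb]
    rw [e2, ofReal_norm]
    refine (enorm_add_le _ _).trans (add_le_add (T_le_int _ x) ?_)
    rw [← ofReal_norm]
    apply ENNReal.ofReal_le_ofReal
    calc ‖∑ l ∈ Finset.Ico N n, T (G l) x‖ ≤ ∑ l ∈ Finset.Ico N n, ‖T (G l) x‖ := norm_sum_le _ _
      _ ≤ ∑ l ∈ Finset.Ico N n, 2 * ar d * cw d * A * (2 / 3) ^ l := by
          apply Finset.sum_le_sum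
          intro l hl
          rw [Finset.mem_Ico] at hl
          have h5 : (N : ℝ) ≤ l := by exact_mod_cast hl.1
          refine (T_tail hd (h.Gm l) (h.Gb l) (h.lat l) hr (by linarith) w hw z).trans ?_
          have h6 := h.ml hβ l
          have h7 := pow_geom d l
          calc 2 * ar d * m l * (1 / 2) ^ l
              ≤ 2 * ar d * (A * (cw d * (4 / 3) ^ l)) * (1 / 2) ^ l := by
                gcongr
                exact h6.trans (mul_le_mul_of_nonneg_left h7 hA0)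
            _ = 2 * ar d * cw d * A * ((4 / 3) ^ l * (1 / 2) ^ l) := by ring
            _ = _ := by
                rw [← mul_pow]
                norm_num
      _ = 2 * ar d * cw d * A * ∑ l ∈ Finset.Ico N n, (2 / 3 : ℝ) ^ l := by rw [Finset.mul_sum]
      _ ≤ 2 * ar d * cw d * A * ((1 - 2 / 3)⁻¹ * (2 / 3) ^ N) :=
          mul_le_mul_of_nonneg_left (geom_tail (2 / 3) (by norm_num) (by norm_num) N n)
            (by positivity)
      _ = _ := by norm_num; ring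
  have hlim : Tendsto (fun n : ℕ => (∫⁻ w, ‖g w - ∑ l ∈ Finset.range n, G l w‖ₑ ∂(sg (d + 1))) +
        ENNReal.ofReal (6 * ar d * cw d * A * (2 / 3) ^ N)) atTop
        (𝓝 (0 + ENNReal.ofReal (6 * ar d * cw d * A * (2 / 3) ^ N))) := h.lim.add_const _
  have hle := ge_of_tendsto hlim (eventually_atTop.2 ⟨N, key⟩)
  rw [zero_add] at hle
  exact (ENNReal.ofReal_le_ofReal_iff (by positivity)).1 hle

/-- the constant of the exponential estimate -/
theorem exp_est (d N : ℕ) {Λ : ℝ} (hΛ : 1 ≤ Λ) (hN : 16 * Λ ≤ N) :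
    ((2 / 3 : ℝ) ^ N) ^ 2 * ((1 + (N : ℝ)) ^ d) ^ 2 * Λ ^ d ≤ cw (3 * d) := by
  have hN0 : (0 : ℝ) ≤ N := Nat.cast_nonneg N
  have h1 : Λ ^ d ≤ (1 + (N : ℝ)) ^ d := pow_le_pow_left₀ (by linarith) (by linarith) d
  have h2 := pow_geom (3 * d) N
  have h3 : ((2 / 3 : ℝ) ^ N) ^ 2 = (4 / 9) ^ N := by
    rw [← pow_mul, mul_comm, pow_mul]; norm_num
  have hcw : 0 < cw (3 * d) := by unfold cw; positivity
  calc ((2 / 3 : ℝ) ^ N) ^ 2 * ((1 + (N : ℝ)) ^ d) ^ 2 * Λ ^ d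
      ≤ (4 / 9) ^ N * ((1 + (N : ℝ)) ^ d) ^ 2 * (1 + (N : ℝ)) ^ d := by
        rw [h3]
        gcongr
    _ = (4 / 9) ^ N * ((N : ℝ) + 1) ^ (3 * d) := by
        rw [add_comm 1 (N : ℝ)]
        ring
    _ ≤ (4 / 9) ^ N * (cw (3 * d) * (4 / 3) ^ N) := by gcongr
    _ = cw (3 * d) * (16 / 27) ^ N := by
        have : (16 / 27 : ℝ) ^ N = (4 / 9) ^ N * (4 / 3) ^ N := by
          rw [← mul_pow]; norm_num
        rw [this]
        ring
    _ ≤ cw (3 * d) * 1 := by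
        gcongr
        exact pow_le_one₀ (by norm_num) (by norm_num)
    _ = _ := mul_one _

/-- the `L⁴` bound for sums -/
theorem L4_sum (hd : 2 ≤ d) (ε β : ℝ) (hε : 0 < ε) (hε1 : ε < 1) (hβ : 0 ≤ β) (hβd : β ≤ d) :
    ∃ K : ℝ, 0 < K ∧ ∀ (m : ℕ → ℝ) (g : E (d + 1) → ℂ) (G : ℕ → E (d + 1) → ℂ),
    Sum 1 β m g G → ∀ Λ : ℝ, 1 ≤ Λ →
    ∫⁻ x in shell d Λ, ∫⁻ z : ℝ, ‖T g (J x (z • e0))‖ₑ ^ 4 ≤
      ENNReal.ofReal (K * Λ ^ (4 * β - ((d : ℝ) - 1) + ε)) := by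
  obtain ⟨K, hK, h4⟩ := L4_shell' hd ε hε hε1
  obtain ⟨C, hC, h2⟩ := L2cyl hd
  have har : 0 < ar d := ar_pos (by omega)
  have hcw : 0 < cw d := by unfold cw; positivity
  have hcw3 : 0 < cw (3 * d) := by unfold cw; positivity
  set B : ℝ := (6 * ar d * cw d) ^ 2 * C * 4 * cw (3 * d) with hB
  have hB0 : 0 < B := by rw [hB]; positivity
  refine ⟨8 * (((17 : ℝ) ^ β) ^ 4 * K + B), by positivity, fun m g G hS Λ hΛ => ?_⟩
  have hΛ0 : 0 < Λ := by linarith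
  set N : ℕ := ⌈16 * Λ⌉₊ with hN
  have hN1 : 16 * Λ ≤ N := Nat.le_ceil _
  have hN2 : (N : ℝ) ≤ 17 * Λ := by
    have := (Nat.ceil_lt_add_one (by positivity : 0 ≤ 16 * Λ)).le
    rw [← hN] at this
    linarith
  have hN3 : 1 ≤ N := by
    have : (1 : ℝ) ≤ N := by linarith
    exact_mod_cast this
  have hsum : ∑ l ∈ Finset.range N, m l ≤ (17 * Λ) ^ β := by
    have h1 := hS.grow N hN3
    rw [one_mul] at h1
    exact h1.trans (Real.rpow_le_rpow (Nat.cast_nonneg N) hN2 hβ)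
  have hsum0 : 0 ≤ ∑ l ∈ Finset.range N, m l := Finset.sum_nonneg fun l _ => hS.m0 l
  have hsum' : ∑ l ∈ Finset.range N, m l ≤ (1 + (N : ℝ)) ^ d := by
    have h1 := hS.grow N hN3
    rw [one_mul] at h1
    have hN1r : (1 : ℝ) ≤ N := by exact_mod_cast hN3
    calc _ ≤ (N : ℝ) ^ β := h1
      _ ≤ (N : ℝ) ^ (d : ℝ) := Real.rpow_le_rpow_of_exponent_le hN1r hβd
      _ = (N : ℝ) ^ d := Real.rpow_natCast _ _
      _ ≤ _ := pow_le_pow_left₀ (by positivity) (by linarith) d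
  -- the two parts
  set P : E (d + 1) → ℂ := fun w => ∑ l ∈ Finset.range N, G l w with hP
  set R : E (d + 1) → ℂ := fun w => g w - ∑ l ∈ Finset.range N, G l w with hR
  have hPm : Measurable P := Finset.measurable_sum _ fun l _ => hS.Gm l
  have hPb : ∀ w, ‖P w‖ ≤ ∑ l ∈ Finset.range N, m l := fun w =>
    (norm_sum_le _ _).trans (Finset.sum_le_sum fun l _ => hS.Gb l w)
  have hRm : Measurable R := hS.gm.sub (Finset.measurable_sum _ fun l _ => hS.Gm l)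
  have hRb : ∀ w, ‖R w‖ ≤ 2 * (1 + (N : ℝ)) ^ d := by
    intro w
    refine (norm_sub_le _ _).trans ?_
    have h1 : (1 : ℝ) ≤ (1 + (N : ℝ)) ^ d :=
      one_le_pow₀ (by linarith [Nat.cast_nonneg (α := ℝ) N])
    have h3 := (hPb w).trans hsum'
    have h5 := hS.gb w
    linarith
  have hg : g = fun w => P w + R w := by
    funext w
    simp only [hP, hR]
    ring
  have hT : ∀ x, T g x = T P x + T R x := by
    intro x
    conv_lhs => rw [hg]
    exact T_add P R hPm hRm hPb hRb x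
  have hTP : ∀ x, T P x = ∑ l ∈ Finset.range N, T (G l) x := fun x => T_sum _ G hS.Gm hS.Gb x
  -- main part
  have b1 : ∫⁻ x in shell d Λ, ∫⁻ z : ℝ, ‖T P (J x (z • e0))‖ₑ ^ 4 ≤
      ENNReal.ofReal (((17 : ℝ) ^ β) ^ 4 * K * Λ ^ (4 * β - ((d : ℝ) - 1) + ε)) := by
    simp_rw [hTP]
    have := sg_finite (d + 1)
    refine (mink (D := K * Λ ^ (-((d : ℝ) - 1) + ε)) (by positivity) (Finset.range N)
      (fun l => T (G l)) (fun l => (measurable_T (G l) (hS.Gm l)).measurable) m hS.m0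
      (fun l => h4 l (G l) (m l) (hS.Gm l) (hS.Gb l) (hS.lat l) Λ hΛ)).trans ?_
    apply ENNReal.ofReal_le_ofReal
    have h5 : (∑ l ∈ Finset.range N, m l) ^ 4 ≤ ((17 * Λ) ^ β) ^ 4 :=
      pow_le_pow_left₀ hsum0 hsum 4
    have h6 : ((17 * Λ) ^ β) ^ 4 = ((17 : ℝ) ^ β) ^ 4 * Λ ^ (4 * β) := by
      rw [Real.mul_rpow (by norm_num) hΛ0.le, mul_pow _ (Λ ^ β),
        ← Real.rpow_natCast (Λ ^ β) 4, ← Real.rpow_mul hΛ0.le]
      congr 2
      push_cast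
      ring
    rw [h6] at h5
    calc (∑ l ∈ Finset.range N, m l) ^ 4 * (K * Λ ^ (-((d : ℝ) - 1) + ε))
        ≤ (((17 : ℝ) ^ β) ^ 4 * Λ ^ (4 * β)) * (K * Λ ^ (-((d : ℝ) - 1) + ε)) := by gcongr
      _ = ((17 : ℝ) ^ β) ^ 4 * K * (Λ ^ (4 * β) * Λ ^ (-((d : ℝ) - 1) + ε)) := by ring
      _ = _ := by
          rw [← Real.rpow_add hΛ0]
          congr 2
          ring
  -- remainder
  set τ : ℝ := 6 * ar d * cw d * 1 * (2 / 3) ^ N with hτ
  have hτ0 : 0 ≤ τ := by rw [hτ]; positivity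
  have b2 : ∫⁻ x in shell d Λ, ∫⁻ z : ℝ, ‖T R (J x (z • e0))‖ₑ ^ 4 ≤
      ENNReal.ofReal (B * Λ ^ (4 * β - ((d : ℝ) - 1) + ε)) := by
    have hpt : ∀ x ∈ shell d Λ, ∀ z : ℝ, ‖T R (J x (z • e0))‖ ≤ τ := by
      intro x hx z
      have hx0 : 0 < ‖x‖ := hΛ0.trans hx.1
      have e : x = ‖x‖ • (‖x‖⁻¹ • x) := by
        rw [smul_smul, mul_inv_cancel₀ hx0.ne', one_smul]
      have hw : ‖‖x‖⁻¹ • x‖ = 1 := by
        rw [norm_smul, norm_inv, norm_norm, inv_mul_cancel₀ hx0.ne']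
      rw [e]
      apply T_rem hd hβd hS N hx0.le _ _ hw z
      have := hx.2
      linarith
    calc ∫⁻ x in shell d Λ, ∫⁻ z : ℝ, ‖T R (J x (z • e0))‖ₑ ^ 4
        ≤ ∫⁻ x in shell d Λ, ∫⁻ z : ℝ, ENNReal.ofReal (τ ^ 2) * ‖T R (J x (z • e0))‖ₑ ^ 2 := by
          apply setLIntegral_mono' (shell_meas Λ)
          intro x hx
          apply lintegral_mono
          intro z
          dsimp only
          have e4 : ∀ y : ℝ≥0∞, y ^ 4 = y ^ 2 * y ^ 2 := fun y => by ring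
          rw [e4]
          gcongr
          rw [← ofReal_norm, ← ENNReal.ofReal_pow (norm_nonneg _)]
          exact ENNReal.ofReal_le_ofReal (pow_le_pow_left₀ (norm_nonneg _) (hpt x hx z) 2)
      _ = ENNReal.ofReal (τ ^ 2) * ∫⁻ x in shell d Λ, ∫⁻ z : ℝ, ‖T R (J x (z • e0))‖ₑ ^ 2 := by
          simp_rw [lintegral_const_mul' _ _ ENNReal.ofReal_ne_top]
      _ ≤ ENNReal.ofReal (τ ^ 2) * ENNReal.ofReal (C * (2 * (1 + (N : ℝ)) ^ d) ^ 2 * Λ) := by
          gcongr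
          exact h2 R hRm _ hRb Λ hΛ
      _ = ENNReal.ofReal (τ ^ 2 * (C * (2 * (1 + (N : ℝ)) ^ d) ^ 2 * Λ)) := by
          rw [← ENNReal.ofReal_mul (by positivity)]
      _ ≤ _ := by
          apply ENNReal.ofReal_le_ofReal
          have h5 := exp_est d N hΛ hN1
          have h6 : Λ ^ (-((d : ℝ) - 1)) ≤ Λ ^ (4 * β - ((d : ℝ) - 1) + ε) :=
            Real.rpow_le_rpow_of_exponent_le hΛ (by linarith)
          have h7 : Λ = Λ ^ d * Λ ^ (-((d : ℝ) - 1)) := by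
            rw [← Real.rpow_natCast Λ d, ← Real.rpow_add hΛ0]
            rw [show (d : ℝ) + -((d : ℝ) - 1) = 1 by ring, Real.rpow_one]
          calc τ ^ 2 * (C * (2 * (1 + (N : ℝ)) ^ d) ^ 2 * Λ)
              = (6 * ar d * cw d) ^ 2 * C * 4 *
                (((2 / 3 : ℝ) ^ N) ^ 2 * ((1 + (N : ℝ)) ^ d) ^ 2 * Λ ^ d) *
                Λ ^ (-((d : ℝ) - 1)) := by
                conv_lhs => rw [h7]
                rw [hτ]
                ring
            _ ≤ (6 * ar d * cw d) ^ 2 * C * 4 * cw (3 * d) *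
                Λ ^ (4 * β - ((d : ℝ) - 1) + ε) := by gcongr
            _ = _ := by rw [hB]
  calc ∫⁻ x in shell d Λ, ∫⁻ z : ℝ, ‖T g (J x (z • e0))‖ₑ ^ 4
      ≤ ∫⁻ x in shell d Λ, ∫⁻ z : ℝ, 8 * (‖T P (J x (z • e0))‖ₑ ^ 4 +
        ‖T R (J x (z • e0))‖ₑ ^ 4) := by
        apply lintegral_mono
        intro x
        apply lintegral_mono
        intro z
        dsimp only
        rw [hT]
        exact (pow_le_pow_left' (enorm_add_le _ _) 4).trans (four_add _ _)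
    _ = 8 * ((∫⁻ x in shell d Λ, ∫⁻ z : ℝ, ‖T P (J x (z • e0))‖ₑ ^ 4) +
        ∫⁻ x in shell d Λ, ∫⁻ z : ℝ, ‖T R (J x (z • e0))‖ₑ ^ 4) := by
        have e1 : ∀ x : E d, ∫⁻ z : ℝ, 8 * (‖T P (J x (z • e0))‖ₑ ^ 4 +
            ‖T R (J x (z • e0))‖ₑ ^ 4) = 8 * ((∫⁻ z : ℝ, ‖T P (J x (z • e0))‖ₑ ^ 4) +
            ∫⁻ z : ℝ, ‖T R (J x (z • e0))‖ₑ ^ 4) := by
          intro x
          have hmx : Measurable fun z : ℝ => ‖T P (J x (z • e0))‖ₑ ^ 4 :=
            (TJx_meas P hPm x).enorm.pow_const 4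
          rw [lintegral_const_mul' _ _ (by norm_num), lintegral_add_left hmx]
        simp only [e1]
        have hmm : Measurable fun x : E d => ∫⁻ z : ℝ, ‖T P (J x (z • e0))‖ₑ ^ 4 :=
          TJI_meas P hPm
        rw [lintegral_const_mul' _ _ (by norm_num), lintegral_add_left hmm]
    _ ≤ 8 * (ENNReal.ofReal (((17 : ℝ) ^ β) ^ 4 * K * Λ ^ (4 * β - ((d : ℝ) - 1) + ε)) +
        ENNReal.ofReal (B * Λ ^ (4 * β - ((d : ℝ) - 1) + ε))) := by gcongr
    _ = _ := by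
        rw [← ENNReal.ofReal_add (by positivity) (by positivity),
          show (8 : ℝ≥0∞) = ENNReal.ofReal 8 by norm_num, ← ENNReal.ofReal_mul (by norm_num)]
        congr 1
        ring

end Pool.Agent.H243.RA
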