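import Mathlib
import Pool.Agent.H243.RA.D5
set_option autoImplicit false

/-! From the bounds on cylindrical shells to `L^p`. -/

open MeasureTheory Set Metric Filter Topology
open scoped ENNReal RealInnerProductSpace

namespace Pool.Agent.H243.RA

open Pool.Agent.H789R2.FR (E sg T sg_finite sg_ae polar pl_phase)
open Pool.Agent.H438R2.BR (J J_inner J_mp Q)
open Pool.Agent.H438R2.BR.T10 (e0 e0_norm e0_ne sg_one)
open Pool.Agent.Y251.HR (shell shell2 shell_meas)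

variable {d : ℕ}

theorem cover (x : E d) : x ∈ closedBall (0 : E d) 1 ∪ ⋃ k : ℕ, shell d ((2 : ℝ) ^ k) := by
  rcases le_or_gt ‖x‖ 1 with h | h
  · left
    rwa [mem_closedBall_zero_iff]
  · right
    rw [mem_iUnion]
    classical
    have hex : ∃ n : ℕ, ‖x‖ ≤ (2 : ℝ) ^ n := by
      obtain ⟨n, hn⟩ := pow_unbounded_of_one_lt ‖x‖ (by norm_num : (1 : ℝ) < 2)
      exact ⟨n, hn.le⟩
    have h0 : Nat.find hex ≠ 0 := by
      intro h0
      have := Nat.find_spec hex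
      rw [h0, pow_zero] at this
      linarith
    obtain ⟨m, hm⟩ := Nat.exists_eq_succ_of_ne_zero h0
    refine ⟨m, ?_, ?_⟩
    · have := Nat.find_min hex (m := m) (by omega)
      push Not at this
      exact this
    · have := Nat.find_spec hex
      rw [hm, Nat.succ_eq_add_one, pow_succ] at this
      linarith

/-- the interpolation -/
theorem Lp_of {p σ B C0 C2 C4 : ℝ} (hp2 : 2 < p) (hp4 : p < 4) (hB : 0 ≤ B) (hC0 : 0 ≤ C0)
    (hC2 : 0 ≤ C2) (hC4 : 0 ≤ C4) (hσ : (4 - p) / 2 - σ * ((p - 2) / 2) < 0) :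
    ∃ K : ℝ, 0 < K ∧ ∀ F : E (d + 1) → ℂ, Measurable F → (∀ w, ‖F w‖ ≤ B) →
    (∫⁻ x in closedBall (0 : E d) 1, ∫⁻ z : ℝ, ‖F (J x (z • e0))‖ₑ ^ 2 ≤ ENNReal.ofReal C0) →
    (∀ Λ : ℝ, 1 ≤ Λ → ∫⁻ x in shell d Λ, ∫⁻ z : ℝ, ‖F (J x (z • e0))‖ₑ ^ 2 ≤
      ENNReal.ofReal (C2 * Λ)) →
    (∀ Λ : ℝ, 1 ≤ Λ → ∫⁻ x in shell d Λ, ∫⁻ z : ℝ, ‖F (J x (z • e0))‖ₑ ^ 4 ≤
      ENNReal.ofReal (C4 * Λ ^ (-σ))) →
    ∫⁻ w, ‖F w‖ₑ ^ p ≤ ENNReal.ofReal K := by
  set a : ℝ := (4 - p) / 2 with ha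
  set b : ℝ := (p - 2) / 2 with hb
  have ha0 : 0 ≤ a := by rw [ha]; linarith
  have hb0 : 0 ≤ b := by rw [hb]; linarith
  have hab : a + b = 1 := by rw [ha, hb]; ring
  set κ : ℝ := σ * b - a with hκ
  have hκ0 : 0 < κ := by rw [hκ]; linarith
  set q : ℝ := (2 : ℝ) ^ (-κ) with hq
  have hq0 : 0 < q := by rw [hq]; positivity
  have hq1 : q < 1 := by
    rw [hq]
    exact Real.rpow_lt_one_of_one_lt_of_neg (by norm_num) (by linarith)
  set D : ℝ := C2 ^ a * C4 ^ b with hD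
  have hD0 : 0 ≤ D := by rw [hD]; positivity
  have hinv : 0 < (1 - q)⁻¹ := inv_pos.2 (by linarith)
  refine ⟨B ^ (p - 2) * C0 + D * (1 - q)⁻¹ + 1, by positivity,
    fun F hF hFB h0 h2 h4 => ?_⟩
  have hJF : Measurable fun y : E d × ℝ => F (J y.1 (y.2 • e0)) := hF.comp Jz_meas
  have hJp : Measurable fun y : E d × ℝ => ‖F (J y.1 (y.2 • e0))‖ₑ ^ p := hJF.enorm.pow_const p
  have hJ2 : Measurable fun y : E d × ℝ => ‖F (J y.1 (y.2 • e0))‖ₑ ^ 2 := hJF.enorm.pow_const 2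
  have hJ4 : Measurable fun y : E d × ℝ => ‖F (J y.1 (y.2 • e0))‖ₑ ^ 4 := hJF.enorm.pow_const 4
  -- the shells
  have hshell : ∀ Λ : ℝ, 1 ≤ Λ → ∫⁻ x in shell d Λ, ∫⁻ z : ℝ, ‖F (J x (z • e0))‖ₑ ^ p ≤
      ENNReal.ofReal (D * Λ ^ (-κ)) := by
    intro Λ hΛ
    have hΛ0 : 0 < Λ := by linarith
    have e1 : ∀ f : E d × ℝ → ℝ≥0∞, Measurable f → ∫⁻ x in shell d Λ, ∫⁻ z : ℝ, f (x, z) =
        ∫⁻ y, f y ∂((volume.restrict (shell d Λ)).prod (volume : Measure ℝ)) := by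
      intro f hf
      rw [lintegral_prod _ hf.aemeasurable]
    have h2' := h2 Λ hΛ
    have h4' := h4 Λ hΛ
    rw [e1 _ hJ2] at h2'
    rw [e1 _ hJ4] at h4'
    rw [e1 _ hJp]
    calc ∫⁻ y, ‖F (J y.1 (y.2 • e0))‖ₑ ^ p
          ∂((volume.restrict (shell d Λ)).prod (volume : Measure ℝ))
        = ∫⁻ y, (‖F (J y.1 (y.2 • e0))‖ₑ ^ 2) ^ a * (‖F (J y.1 (y.2 • e0))‖ₑ ^ 4) ^ b
          ∂((volume.restrict (shell d Λ)).prod (volume : Measure ℝ)) := by
          refine lintegral_congr fun y => ?_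
          rw [← ENNReal.rpow_natCast _ 2, ← ENNReal.rpow_natCast _ 4, ← ENNReal.rpow_mul,
            ← ENNReal.rpow_mul, ← ENNReal.rpow_add_of_nonneg _ _ (by positivity) (by positivity)]
          congr 1
          rw [ha, hb]
          push_cast
          ring
      _ ≤ (∫⁻ y, ‖F (J y.1 (y.2 • e0))‖ₑ ^ 2
            ∂((volume.restrict (shell d Λ)).prod (volume : Measure ℝ))) ^ a *
          (∫⁻ y, ‖F (J y.1 (y.2 • e0))‖ₑ ^ 4
            ∂((volume.restrict (shell d Λ)).prod (volume : Measure ℝ))) ^ b :=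
          ENNReal.lintegral_mul_norm_pow_le hJ2.aemeasurable hJ4.aemeasurable ha0 hb0 hab
      _ ≤ ENNReal.ofReal (C2 * Λ) ^ a * ENNReal.ofReal (C4 * Λ ^ (-σ)) ^ b := by gcongr
      _ = ENNReal.ofReal ((C2 * Λ) ^ a * (C4 * Λ ^ (-σ)) ^ b) := by
          rw [ENNReal.ofReal_rpow_of_nonneg (by positivity) ha0,
            ENNReal.ofReal_rpow_of_nonneg (by positivity) hb0, ← ENNReal.ofReal_mul (by positivity)]
      _ = _ := by
          congr 1
          rw [Real.mul_rpow hC2 hΛ0.le, Real.mul_rpow hC4 (by positivity), ← Real.rpow_mul hΛ0.le,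
            hD]
          have : Λ ^ a * Λ ^ (-σ * b) = Λ ^ (-κ) := by
            rw [← Real.rpow_add hΛ0]
            congr 1
            rw [hκ]
            ring
          calc C2 ^ a * Λ ^ a * (C4 ^ b * Λ ^ (-σ * b)) = C2 ^ a * C4 ^ b * (Λ ^ a * Λ ^ (-σ * b)) := by
                ring
            _ = _ := by rw [this]
  -- the core
  have hcore : ∫⁻ x in closedBall (0 : E d) 1, ∫⁻ z : ℝ, ‖F (J x (z • e0))‖ₑ ^ p ≤
      ENNReal.ofReal (B ^ (p - 2) * C0) := by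
    calc ∫⁻ x in closedBall (0 : E d) 1, ∫⁻ z : ℝ, ‖F (J x (z • e0))‖ₑ ^ p
        ≤ ∫⁻ x in closedBall (0 : E d) 1, ∫⁻ z : ℝ, ENNReal.ofReal (B ^ (p - 2)) *
          ‖F (J x (z • e0))‖ₑ ^ 2 := by
          apply lintegral_mono
          intro x
          apply lintegral_mono
          intro z
          dsimp only
          have e2 : ∀ y : ℝ≥0∞, y ^ p = y ^ (p - 2) * y ^ 2 := by
            intro y
            rw [← ENNReal.rpow_natCast _ 2, ← ENNReal.rpow_add_of_nonneg _ _ (by linarith)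
              (by positivity)]
            congr 1
            push_cast
            ring
          rw [e2]
          gcongr
          rw [← ofReal_norm, ENNReal.ofReal_rpow_of_nonneg (norm_nonneg _) (by linarith)]
          exact ENNReal.ofReal_le_ofReal (Real.rpow_le_rpow (norm_nonneg _) (hFB _) (by linarith))
      _ = ENNReal.ofReal (B ^ (p - 2)) * ∫⁻ x in closedBall (0 : E d) 1, ∫⁻ z : ℝ,
          ‖F (J x (z • e0))‖ₑ ^ 2 := by
          simp_rw [lintegral_const_mul' _ _ ENNReal.ofReal_ne_top]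
      _ ≤ ENNReal.ofReal (B ^ (p - 2)) * ENNReal.ofReal C0 := by gcongr
      _ = _ := by rw [← ENNReal.ofReal_mul (by positivity)]
  rw [cyl_int _ (hF.enorm.pow_const p)]
  calc ∫⁻ x : E d, ∫⁻ z : ℝ, ‖F (J x (z • e0))‖ₑ ^ p
      = ∫⁻ x in closedBall (0 : E d) 1 ∪ ⋃ k : ℕ, shell d ((2 : ℝ) ^ k),
          ∫⁻ z : ℝ, ‖F (J x (z • e0))‖ₑ ^ p := by
        rw [eq_univ_of_forall (cover (d := d)), Measure.restrict_univ]
    _ ≤ (∫⁻ x in closedBall (0 : E d) 1, ∫⁻ z : ℝ, ‖F (J x (z • e0))‖ₑ ^ p) +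
        ∑' k : ℕ, ∫⁻ x in shell d ((2 : ℝ) ^ k), ∫⁻ z : ℝ, ‖F (J x (z • e0))‖ₑ ^ p :=
        (lintegral_union_le _ _ _).trans (add_le_add le_rfl (lintegral_iUnion_le _ _))
    _ ≤ ENNReal.ofReal (B ^ (p - 2) * C0) + ∑' k : ℕ, ENNReal.ofReal (D * q ^ k) := by
        gcongr with k
        refine (hshell _ (one_le_pow₀ (by norm_num))).trans (le_of_eq ?_)
        congr 2
        rw [hq, ← Real.rpow_natCast, ← Real.rpow_natCast, ← Real.rpow_mul (by norm_num),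
          ← Real.rpow_mul (by norm_num)]
        congr 1
        ring
    _ = ENNReal.ofReal (B ^ (p - 2) * C0) + ENNReal.ofReal (D * (1 - q)⁻¹) := by
        congr 1
        have hs := (hasSum_geometric_of_lt_one hq0.le hq1).mul_left D
        rw [← hs.tsum_eq, ENNReal.ofReal_tsum_of_nonneg (fun k => by positivity) hs.summable]
    _ ≤ _ := by
        rw [← ENNReal.ofReal_add (by positivity) (by positivity)]
        apply ENNReal.ofReal_le_ofReal
        linarith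

end Pool.Agent.H243.RA
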