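import Mathlib
import Pool.Agent.H243.RA.D6
set_option autoImplicit false

/-! The `L^p` bound for the extension operator. -/

open MeasureTheory Set Metric Filter Topology
open scoped ENNReal RealInnerProductSpace

namespace Pool.Agent.H243.RA

open Pool.Agent.H789R2.FR (E sg T sg_finite sg_ae polar pl_phase)
open Pool.Agent.H789R2.FR.L2 (norm_T_le measurable_T)
open Pool.Agent.H438R2.BR (J J_inner J_mp Q)
open Pool.Agent.H438R2.BR.T10 (e0 e0_norm e0_ne sg_one)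
open Pool.Agent.Y251.HR (shell shell2 shell_meas)

variable {d : ℕ}

/-- the critical exponent -/
noncomputable def pc (d : ℕ) (β : ℝ) : ℝ := 2 * (d + 1 - 4 * β) / (d - 4 * β)

theorem main_T (hd : 2 ≤ d) (β p : ℝ) (hβ : 0 ≤ β) (hβ1 : 4 * β < (d : ℝ) - 1) (hp : pc d β < p) :
    ∃ K : ℝ, 0 < K ∧ ∀ (m : ℕ → ℝ) (g : E (d + 1) → ℂ) (G : ℕ → E (d + 1) → ℂ),
    Sum 1 β m g G → ∫⁻ w, ‖T g w‖ₑ ^ p ≤ ENNReal.ofReal K := by
  have hden : 0 < (d : ℝ) - 4 * β := by linarith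
  have hpc2 : 2 < pc d β := by
    unfold pc
    rw [lt_div_iff₀ hden]
    linarith
  have hpc4 : pc d β < 4 := by
    unfold pc
    rw [div_lt_iff₀ hden]
    linarith
  have hdd : (2 : ℝ) ≤ d := by exact_mod_cast hd
  set p0 : ℝ := (pc d β + min p 4) / 2 with hp0
  have hmin : pc d β < min p 4 := lt_min hp hpc4
  have h1 : pc d β < p0 := by rw [hp0]; linarith
  have h2 : p0 < min p 4 := by rw [hp0]; linarith
  have h3 : p0 < p := h2.trans_le (min_le_left _ _)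
  have h4 : p0 < 4 := h2.trans_le (min_le_right _ _)
  have h5 : 2 < p0 := by linarith
  set gap : ℝ := p0 * (d - 4 * β) - 2 * (d + 1 - 4 * β) with hgap
  have hgap0 : 0 < gap := by
    have h6 := h1
    unfold pc at h6
    rw [div_lt_iff₀ hden] at h6
    rw [hgap]
    linarith
  set ε : ℝ := min (1 / 2) (gap / 8) with hε
  have hε0 : 0 < ε := lt_min (by norm_num) (by linarith)
  have hε1 : ε < 1 := (min_le_left _ _).trans_lt (by norm_num)
  have hε2 : ε ≤ gap / 8 := min_le_right _ _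
  obtain ⟨K4, hK4, h4b⟩ := L4_sum hd ε β hε0 hε1 hβ (by linarith)
  obtain ⟨C2, hC2, h2b⟩ := L2cyl hd
  obtain ⟨C0, hC0, h0b⟩ := L2core hd
  have hfin := sg_finite (d + 1)
  set S : ℝ := (sg (d + 1)).real univ with hS
  have hS0 : 0 ≤ S := measureReal_nonneg
  set σ : ℝ := (d : ℝ) - 1 - 4 * β - ε with hσ
  have hσ1 : (4 - p0) / 2 - σ * ((p0 - 2) / 2) < 0 := by
    have e1 : (4 - p0) / 2 - σ * ((p0 - 2) / 2) = -(gap - ε * (p0 - 2)) / 2 := by
      rw [hσ, hgap]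
      ring
    have e2 : ε * (p0 - 2) ≤ gap / 8 * 2 := by
      apply mul_le_mul hε2 (by linarith) (by linarith) (by linarith)
    rw [e1]
    linarith
  obtain ⟨K, hK, hLp⟩ := Lp_of (d := d) h5 h4 hS0 hC0.le hC2.le hK4.le hσ1
  refine ⟨S ^ (p - p0) * K + 1, by positivity, fun m g G hSum => ?_⟩
  have hTm : Measurable (T g) := (measurable_T g hSum.gm).measurable
  have hTb : ∀ w, ‖T g w‖ ≤ S := by
    intro w
    have := norm_T_le g 1 hSum.gb w
    rwa [one_mul] at this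
  have hmain := hLp (T g) hTm hTb (by
      have := h0b g hSum.gm 1 hSum.gb
      rwa [one_pow, mul_one] at this) (fun Λ hΛ => by
      have := h2b g hSum.gm 1 hSum.gb Λ hΛ
      rwa [one_pow, mul_one] at this) (fun Λ hΛ => by
      have := h4b m g G hSum Λ hΛ
      have e : 4 * β - ((d : ℝ) - 1) + ε = -σ := by rw [hσ]; ring
      rwa [e] at this)
  calc ∫⁻ w, ‖T g w‖ₑ ^ p ≤ ∫⁻ w, ENNReal.ofReal (S ^ (p - p0)) * ‖T g w‖ₑ ^ p0 := by
        apply lintegral_mono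
        intro w
        dsimp only
        have e2 : ‖T g w‖ₑ ^ p = ‖T g w‖ₑ ^ (p - p0) * ‖T g w‖ₑ ^ p0 := by
          rw [← ENNReal.rpow_add_of_nonneg _ _ (by linarith) (by linarith)]
          congr 1
          ring
        rw [e2]
        gcongr
        rw [← ofReal_norm, ENNReal.ofReal_rpow_of_nonneg (norm_nonneg _) (by linarith)]
        exact ENNReal.ofReal_le_ofReal (Real.rpow_le_rpow (norm_nonneg _) (hTb w) (by linarith))
    _ = ENNReal.ofReal (S ^ (p - p0)) * ∫⁻ w, ‖T g w‖ₑ ^ p0 :=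
        lintegral_const_mul' _ _ ENNReal.ofReal_ne_top
    _ ≤ ENNReal.ofReal (S ^ (p - p0)) * ENNReal.ofReal K := by gcongr
    _ ≤ _ := by
        rw [← ENNReal.ofReal_mul (by positivity)]
        exact ENNReal.ofReal_le_ofReal (by linarith)

/-- scaling of the data -/
theorem Sum.scale {A β : ℝ} {m : ℕ → ℝ} {g : E (d + 1) → ℂ} {G : ℕ → E (d + 1) → ℂ}
    (h : Sum A β m g G) (hA : 0 < A) : Sum 1 β (fun l => A⁻¹ * m l)
      (fun w => ((A⁻¹ : ℝ) : ℂ) * g w) (fun l w => ((A⁻¹ : ℝ) : ℂ) * G l w) where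
  gm := h.gm.const_mul _
  gb w := by
    rw [norm_mul, Complex.norm_real, Real.norm_of_nonneg (by positivity), inv_mul_le_iff₀ hA,
      mul_one]
    exact h.gb w
  Gm l := (h.Gm l).const_mul _
  Gb l w := by
    rw [norm_mul, Complex.norm_real, Real.norm_of_nonneg (by positivity)]
    exact mul_le_mul_of_nonneg_left (h.Gb l w) (by positivity)
  lat l := Lat_smul _ (h.lat l)
  grow N hN := by
    rw [← Finset.mul_sum, one_mul, inv_mul_le_iff₀ hA]
    exact h.grow N hN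
  lim := by
    have e1 : ∀ N : ℕ, ∫⁻ w, ‖((A⁻¹ : ℝ) : ℂ) * g w -
        ∑ l ∈ Finset.range N, ((A⁻¹ : ℝ) : ℂ) * G l w‖ₑ ∂(sg (d + 1)) =
        ‖((A⁻¹ : ℝ) : ℂ)‖ₑ * ∫⁻ w, ‖g w - ∑ l ∈ Finset.range N, G l w‖ₑ ∂(sg (d + 1)) := by
      intro N
      rw [← lintegral_const_mul' _ _ (by finiteness)]
      refine lintegral_congr fun w => ?_
      rw [← Finset.mul_sum, ← mul_sub, enorm_mul]
    simp only [e1]
    have := ENNReal.Tendsto.const_mul (a := ‖((A⁻¹ : ℝ) : ℂ)‖ₑ) h.lim (Or.inr (by finiteness))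
    rwa [mul_zero] at this

theorem main_T' (hd : 2 ≤ d) (β p : ℝ) (hβ : 0 ≤ β) (hβ1 : 4 * β < (d : ℝ) - 1) (hp : pc d β < p) :
    ∃ K : ℝ, 0 < K ∧ ∀ (A : ℝ) (m : ℕ → ℝ) (g : E (d + 1) → ℂ) (G : ℕ → E (d + 1) → ℂ),
    Sum A β m g G → ∫⁻ w, ‖T g w‖ₑ ^ p ≤ ENNReal.ofReal (A ^ p * K) := by
  obtain ⟨K, hK, h⟩ := main_T hd β p hβ hβ1 hp
  have hden : 0 < (d : ℝ) - 4 * β := by linarith
  have hpc2 : 2 < pc d β := by
    unfold pc
    rw [lt_div_iff₀ hden]
    linarith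
  have hp0 : 0 < p := by linarith
  refine ⟨K, hK, fun A m g G hS => ?_⟩
  have hA0 := hS.A0
  rcases hA0.eq_or_lt with h0 | h0
  · have hz : ∀ w, g w = 0 := fun w => norm_le_zero_iff.1 (by rw [h0]; exact hS.gb w)
    have hT : ∀ x, T g x = 0 := by
      intro x
      unfold T
      simp [hz]
    simp [hT, ENNReal.zero_rpow_of_pos hp0]
  · have h1 := h _ _ _ (hS.scale h0)
    have e1 : ∀ x, ‖T g x‖ₑ ^ p = ENNReal.ofReal (A ^ p) *
        ‖T (fun w => ((A⁻¹ : ℝ) : ℂ) * g w) x‖ₑ ^ p := by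
      intro x
      have e2 : T g x = ((A : ℝ) : ℂ) * T (fun w => ((A⁻¹ : ℝ) : ℂ) * g w) x := by
        rw [T_smul, ← mul_assoc, ← Complex.ofReal_mul, mul_inv_cancel₀ h0.ne', Complex.ofReal_one,
          one_mul]
      rw [e2, enorm_mul, ENNReal.mul_rpow_of_nonneg _ _ hp0.le]
      congr 1
      rw [← ofReal_norm, Complex.norm_real, Real.norm_of_nonneg hA0,
        ENNReal.ofReal_rpow_of_nonneg hA0 hp0.le]
    simp_rw [e1, lintegral_const_mul' _ _ ENNReal.ofReal_ne_top]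
    rw [ENNReal.ofReal_mul (by positivity)]
    gcongr

end Pool.Agent.H243.RA
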