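import Mathlib
import Pool.Agent.H243.RA.D7
set_option autoImplicit false

/-! Densities on the sphere. -/

open MeasureTheory Set Metric Filter Topology
open scoped ENNReal RealInnerProductSpace NNReal

namespace Pool.Agent.H243.RA

open Pool.Agent.W5h55.SH (Harm ev)
open Pool.Agent.H789R2.FR (E sg T sg_finite sg_ae)
open Pool.Agent.H789R2.FR.L2 (norm_T_le measurable_T)
open Pool.Agent.H438R2.BR (J J_inner)
open Pool.Agent.H438R2.BR.T10 (e0 e0_norm)

/-- surface measure on the unit sphere -/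
noncomputable def sigma (n : ℕ) : Measure (sphere (0 : E n) 1) := (volume : Measure (E n)).toSphere

/-- the Fourier transform of the measure `g dσ` -/
noncomputable def ft {n : ℕ} (g : sphere (0 : E n) 1 → ℂ) (ξ : E n) : ℂ :=
  ∫ x, Complex.exp (-(2 * Real.pi * ⟪(x : E n), ξ⟫ : ℝ) * Complex.I) * g x ∂(sigma n)

/-- the extension by zero -/
noncomputable def ext {n : ℕ} (g : sphere (0 : E n) 1 → ℂ) : E n → ℂ :=
  Function.extend Subtype.val g 0

theorem ext_meas {n : ℕ} {g : sphere (0 : E n) 1 → ℂ} (hg : Measurable g) : Measurable (ext g) :=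
  (MeasurableEmbedding.subtype_coe isClosed_sphere.measurableSet).measurable_extend hg
    measurable_zero

theorem ext_apply {n : ℕ} (g : sphere (0 : E n) 1 → ℂ) (x : sphere (0 : E n) 1) :
    ext g (x : E n) = g x := Subtype.val_injective.extend_apply _ _ _

theorem ext_le {n : ℕ} {g : sphere (0 : E n) 1 → ℂ} {M : ℝ} (hM0 : 0 ≤ M) (hM : ∀ x, ‖g x‖ ≤ M)
    (w : E n) : ‖ext g w‖ ≤ M := by
  by_cases h : ∃ y : sphere (0 : E n) 1, (y : E n) = w
  · obtain ⟨y, rfl⟩ := h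
    rw [ext_apply]
    exact hM y
  · unfold ext
    rw [Function.extend_apply' _ _ _ h]
    simpa using hM0

theorem ft_ext {n : ℕ} (g : sphere (0 : E n) 1 → ℂ) (hg : Measurable g) (ξ : E n) :
    ft g ξ = T (ext g) ((2 * Real.pi) • ξ) := by
  unfold T ft sigma
  have m1 : Measurable fun w : E n =>
      Complex.exp (-((⟪(2 * Real.pi) • ξ, w⟫ : ℝ) : ℂ) * Complex.I) * ext g w := by
    have h2 : Measurable fun z : E n => (⟪(2 * Real.pi) • ξ, z⟫ : ℝ) :=
      (by fun_prop : Continuous _).measurable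
    exact (Complex.measurable_exp.comp ((Complex.measurable_ofReal.comp h2).neg.mul_const _)).mul
      (ext_meas hg)
  simp only [sg]
  rw [integral_map measurable_subtype_coe.aemeasurable m1.aestronglyMeasurable]
  refine integral_congr_ae (Filter.Eventually.of_forall fun x => ?_)
  simp only
  rw [real_inner_smul_left, real_inner_comm, ext_apply]

theorem scale {n : ℕ} (f : E n → ℝ≥0∞) (hf : Measurable f) :
    ∫⁻ ξ : E n, f ((2 * Real.pi) • ξ) ≤ ∫⁻ z, f z := by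
  have h2pi : (2 * Real.pi) ≠ 0 := by positivity
  have h3 := Measure.map_addHaar_smul (volume : Measure (E n)) h2pi
  have h4 : ∫⁻ x : E n, f x ∂(Measure.map ((2 * Real.pi) • · : E n → E n) volume) =
      ∫⁻ ξ : E n, f ((2 * Real.pi) • ξ) := lintegral_map hf (measurable_const_smul _)
  rw [← h4, h3, lintegral_smul_measure, smul_eq_mul]
  have h5 : ENNReal.ofReal |((2 * Real.pi) ^ Module.finrank ℝ (E n))⁻¹| ≤ 1 := by
    rw [ENNReal.ofReal_le_one, abs_of_nonneg (by positivity)]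
    apply inv_le_one_of_one_le₀
    apply one_le_pow₀
    have := Real.pi_gt_three
    linarith
  calc _ ≤ 1 * ∫⁻ z, f z := mul_le_mul' h5 le_rfl
    _ = _ := one_mul _

theorem norm_J {d : ℕ} (x : E d) (s : ℝ) : ‖(J x (s • e0) : E (d + 1))‖ ^ 2 = ‖x‖ ^ 2 + s ^ 2 := by
  rw [← real_inner_self_eq_norm_sq, J_inner, real_inner_self_eq_norm_sq, real_inner_self_eq_norm_sq,
    norm_smul, e0_norm, mul_one, Real.norm_eq_abs, sq_abs]

theorem J_castSucc {d : ℕ} (x : E d) (s : ℝ) (i : Fin d) :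
    (J x (s • e0) : E (d + 1)) i.castSucc = x i := by
  simp only [J]
  exact Fin.append_left _ _ i

theorem J_last {d : ℕ} (x : E d) (s : ℝ) : (J x (s • e0) : E (d + 1)) (Fin.last d) = s := by
  simp only [J]
  have h : Fin.last d = Fin.natAdd d (0 : Fin 1) := by
    ext
    simp
  rw [h, Fin.append_right]
  simp [e0]

/-- the function is a homogeneous harmonic polynomial of degree `l` on each parallel -/
def Latitudinal {d : ℕ} (l : ℕ) (g : sphere (0 : E (d + 1)) 1 → ℂ) : Prop :=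
  ∀ s : ℝ, ∃ P : MvPolynomial (Fin d) ℂ, P.IsHomogeneous l ∧
    ∑ i, MvPolynomial.pderiv i (MvPolynomial.pderiv i P) = 0 ∧
    ∀ x : sphere (0 : E (d + 1)) 1, (x : E (d + 1)) (Fin.last d) = s →
      g x = MvPolynomial.eval (fun i : Fin d => (((x : E (d + 1)) i.castSucc : ℝ) : ℂ)) P

theorem Latitudinal.lat {d l : ℕ} {g : sphere (0 : E (d + 1)) 1 → ℂ} (h : Latitudinal l g) :
    Lat l (ext g) := by
  intro s
  obtain ⟨P, h1, h2, h3⟩ := h s
  refine ⟨P, h1, h2, fun x hx => ?_⟩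
  have hn : ‖(J x (s • e0) : E (d + 1))‖ = 1 := by
    have := norm_J x s
    rw [hx] at this
    have h0 := norm_nonneg (J x (s • e0) : E (d + 1))
    nlinarith
  have hy : (J x (s • e0) : E (d + 1)) ∈ sphere (0 : E (d + 1)) 1 := by
    rw [mem_sphere_zero_iff_norm]
    exact hn
  have h4 := h3 ⟨_, hy⟩ (J_last x s)
  have h5 := ext_apply g ⟨_, hy⟩
  rw [h5, h4]
  unfold ev
  congr 2
  funext i
  exact congrArg _ (J_castSucc x s i)

/-- an expansion of a density -/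
structure Expansion {d : ℕ} (A β : ℝ) (m : ℕ → ℝ) (g : sphere (0 : E (d + 1)) 1 → ℂ)
    (G : ℕ → sphere (0 : E (d + 1)) 1 → ℂ) : Prop where
  gm : Measurable g
  gb : ∀ x, ‖g x‖ ≤ A
  Gm : ∀ l, Measurable (G l)
  Gb : ∀ l x, ‖G l x‖ ≤ m l
  lat : ∀ l, Latitudinal l (G l)
  grow : ∀ N : ℕ, 1 ≤ N → ∑ l ∈ Finset.range N, m l ≤ A * (N : ℝ) ^ β
  lim : Tendsto (fun N : ℕ => ∫⁻ x, ‖g x - ∑ l ∈ Finset.range N, G l x‖ₑ ∂(sigma (d + 1)))
    atTop (𝓝 0)

theorem exists_pt (d : ℕ) : ∃ x : E (d + 1), x ∈ sphere (0 : E (d + 1)) 1 := by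
  refine ⟨J (0 : E d) ((1 : ℝ) • e0), ?_⟩
  rw [mem_sphere_zero_iff_norm]
  have := norm_J (0 : E d) 1
  have h0 := norm_nonneg (J (0 : E d) ((1 : ℝ) • e0) : E (d + 1))
  rw [norm_zero] at this
  nlinarith

theorem Expansion.toSum {d : ℕ} {A β : ℝ} {m : ℕ → ℝ} {g : sphere (0 : E (d + 1)) 1 → ℂ}
    {G : ℕ → sphere (0 : E (d + 1)) 1 → ℂ} (h : Expansion A β m g G) :
    Sum A β m (ext g) (fun l => ext (G l)) := by
  obtain ⟨x0, hx0⟩ := exists_pt d
  have hA0 : 0 ≤ A := (norm_nonneg _).trans (h.gb ⟨x0, hx0⟩)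
  have hm0 : ∀ l, 0 ≤ m l := fun l => (norm_nonneg _).trans (h.Gb l ⟨x0, hx0⟩)
  refine ⟨ext_meas h.gm, ext_le hA0 h.gb, fun l => ext_meas (h.Gm l), fun l => ext_le (hm0 l) (h.Gb l),
    fun l => (h.lat l).lat, h.grow, ?_⟩
  refine h.lim.congr fun N => ?_
  have hm : Measurable fun w : E (d + 1) => ‖ext g w - ∑ l ∈ Finset.range N, ext (G l) w‖ₑ :=
    ((ext_meas h.gm).sub (Finset.measurable_sum _ fun l _ => ext_meas (h.Gm l))).enorm
  rw [sg, lintegral_map hm measurable_subtype_coe]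
  unfold sigma
  refine lintegral_congr fun x => ?_
  simp only [ext_apply]

theorem ft_bound {d : ℕ} (hd : 2 ≤ d) (β p : ℝ) (hβ : 0 ≤ β) (hβ1 : 4 * β < (d : ℝ) - 1)
    (hp : pc d β < p) : ∃ C : ℝ≥0, ∀ (A : ℝ) (m : ℕ → ℝ) (g : sphere (0 : E (d + 1)) 1 → ℂ)
    (G : ℕ → sphere (0 : E (d + 1)) 1 → ℂ), Expansion A β m g G →
    eLpNorm (ft g) (ENNReal.ofReal p) volume ≤ C * ENNReal.ofReal A := by
  obtain ⟨K, hK, h⟩ := main_T' hd β p hβ hβ1 hp
  have hden : 0 < (d : ℝ) - 4 * β := by linarith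
  have hpc2 : 2 < pc d β := by
    unfold pc
    rw [lt_div_iff₀ hden]
    linarith
  have hp0 : 0 < p := by linarith
  refine ⟨Real.toNNReal (K ^ (1 / p)), fun A m g G hE => ?_⟩
  have hS := hE.toSum
  have hA0 := hS.A0
  have h1 := h A m _ _ hS
  have := sg_finite (d + 1)
  have hTm : Measurable (T (ext g)) := (measurable_T _ hS.gm).measurable
  rw [eLpNorm_eq_lintegral_rpow_enorm_toReal (by rw [ne_eq, ENNReal.ofReal_eq_zero]; linarith)
    ENNReal.ofReal_ne_top, ENNReal.toReal_ofReal hp0.le]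
  have h2 : ∫⁻ ξ, ‖ft g ξ‖ₑ ^ p ≤ ENNReal.ofReal (A ^ p * K) := by
    simp_rw [ft_ext g hE.gm]
    exact (scale (fun x => ‖T (ext g) x‖ₑ ^ p) (hTm.enorm.pow_const p)).trans h1
  calc (∫⁻ ξ, ‖ft g ξ‖ₑ ^ p) ^ (1 / p) ≤ (ENNReal.ofReal (A ^ p * K)) ^ (1 / p) := by gcongr
    _ = ENNReal.ofReal (A * K ^ (1 / p)) := by
        rw [ENNReal.ofReal_rpow_of_nonneg (by positivity) (by positivity),
          Real.mul_rpow (by positivity) hK.le, ← Real.rpow_mul hA0, mul_one_div_cancel hp0.ne',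
          Real.rpow_one]
    _ = _ := by
        rw [ENNReal.ofReal_mul hA0, mul_comm]
        rfl

end Pool.Agent.H243.RA
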