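import Mathlib
set_option autoImplicit false

/-! Convergence of Fourier series in `L¹` of a period, with a uniform bound. -/

open MeasureTheory Set Metric Filter Topology AddCircle
open scoped ENNReal NNReal

namespace Pool.Agent.H243.RA

theorem orth_sub_le {E : Type*} [NormedAddCommGroup E] [InnerProductSpace ℂ E] {ι : Type*}
    {v : ι → E} (hv : Orthonormal ℂ v) (x : E) (s : Finset ι) :
    ‖x - ∑ i ∈ s, inner ℂ (v i) x • v i‖ ≤ ‖x‖ := by
  have h₂ : (∑ i ∈ s, ∑ j ∈ s, inner ℂ (v i) x * inner ℂ x (v j) * inner ℂ (v j) (v i)) =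
      (∑ k ∈ s, inner ℂ (v k) x * inner ℂ x (v k) : ℂ) := hv.inner_left_right_finset
  have h₃ : ∀ z : ℂ, RCLike.re (z * (starRingEnd ℂ) z) = ‖z‖ ^ 2 := by
    intro z
    simp only [RCLike.mul_conj]
    norm_cast
  have hbf : ‖x - ∑ i ∈ s, inner ℂ (v i) x • v i‖ ^ 2 = ‖x‖ ^ 2 - ∑ i ∈ s, ‖inner ℂ (v i) x‖ ^ 2 := by
    rw [@norm_sub_sq ℂ, sub_add]
    simp only [@InnerProductSpace.norm_sq_eq_re_inner ℂ E, inner_sum, sum_inner]
    simp only [inner_smul_right, two_mul, inner_smul_left, inner_conj_symm, ← mul_assoc, h₂,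
      add_sub_cancel_right, sub_right_inj]
    simp only [map_sum, ← inner_conj_symm x, ← h₃]
  have h4 : 0 ≤ ∑ i ∈ s, ‖inner ℂ (v i) x‖ ^ 2 := Finset.sum_nonneg fun i _ => by positivity
  apply le_of_sq_le_sq (by linarith) (norm_nonneg _)

local instance instPos : Fact (0 < 2 * Real.pi) := ⟨Real.two_pi_pos⟩

/-- the Fourier coefficients -/
noncomputable def cf (h : ℝ → ℂ) (k : ℤ) : ℂ :=
  (((2 * Real.pi)⁻¹ : ℝ) : ℂ) * ∫ φ in (0 : ℝ)..(2 * Real.pi),
    h φ * Complex.exp (-((k * φ : ℝ) : ℂ) * Complex.I)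

theorem cf_eq (h : ℝ → ℂ) (k : ℤ) :
    fourierCoeff (AddCircle.liftIoc (2 * Real.pi) 0 h) k = cf h k := by
  have hpi := Real.pi_pos
  rw [fourierCoeff_eq_intervalIntegral _ _ 0, cf, zero_add, one_div, Complex.real_smul]
  congr 1
  rw [intervalIntegral.integral_of_le (by positivity), intervalIntegral.integral_of_le (by positivity)]
  apply setIntegral_congr_fun measurableSet_Ioc
  intro φ hφ
  simp only
  rw [AddCircle.liftIoc_coe_apply (by rwa [zero_add]), fourier_coe_apply, smul_eq_mul, mul_comm]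
  congr 2
  have : (Real.pi : ℂ) ≠ 0 := by exact_mod_cast hpi.ne'
  push_cast
  field_simp

theorem circ (h : ℝ → ℂ) (hm : Measurable h) {A : ℝ} (hA : 0 ≤ A) (hb : ∀ φ, ‖h φ‖ ≤ A) :
    Tendsto (fun s : Finset ℤ => ∫⁻ φ in Ioc (0 : ℝ) (2 * Real.pi),
      ‖h φ - ∑ k ∈ s, cf h k * Complex.exp (((k * φ : ℝ) : ℂ) * Complex.I)‖ₑ) atTop (𝓝 0) ∧
    ∀ s : Finset ℤ, ∫⁻ φ in Ioc (0 : ℝ) (2 * Real.pi),
      ‖h φ - ∑ k ∈ s, cf h k * Complex.exp (((k * φ : ℝ) : ℂ) * Complex.I)‖ₑ ≤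
      ENNReal.ofReal (2 * Real.pi * A) := by
  have hpi := Real.pi_pos
  set H : AddCircle (2 * Real.pi) → ℂ := AddCircle.liftIoc (2 * Real.pi) 0 h with hH
  have hL : MemLp h 2 (volume.restrict (Ioc 0 (0 + 2 * Real.pi))) :=
    MemLp.of_bound hm.aestronglyMeasurable A (Eventually.of_forall hb)
  have hHL : MemLp H 2 (haarAddCircle (T := 2 * Real.pi)) := hL.memLp_liftIoc.haarAddCircle
  set f : Lp ℂ 2 (haarAddCircle (T := 2 * Real.pi)) := hHL.toLp H with hf
  have hcf : ∀ k, fourierCoeff (f : AddCircle (2 * Real.pi) → ℂ) k = cf h k := by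
    intro k
    rw [fourierCoeff_congr_ae hHL.coeFn_toLp]
    exact cf_eq h k
  have hHb : ∀ b, ‖H b‖ ≤ A := by
    intro b
    rw [hH]
    unfold AddCircle.liftIoc
    exact hb _
  have hfn : ‖f‖ ≤ A := by
    rw [hf, Lp.norm_toLp]
    apply ENNReal.toReal_le_of_le_ofReal hA
    refine (eLpNorm_le_of_ae_bound (Eventually.of_forall hHb)).trans (le_of_eq ?_)
    simp
  -- the integral in terms of the norm
  have key : ∀ s : Finset ℤ, ∫⁻ φ in Ioc (0 : ℝ) (2 * Real.pi),
      ‖h φ - ∑ k ∈ s, cf h k * Complex.exp (((k * φ : ℝ) : ℂ) * Complex.I)‖ₑ ≤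
      ENNReal.ofReal (2 * Real.pi) * ENNReal.ofReal ‖f - ∑ k ∈ s, cf h k • fourierLp 2 k‖ := by
    intro s
    set Ψ : AddCircle (2 * Real.pi) → ℂ := fun b => H b - ∑ k ∈ s, cf h k * fourier k b with hΨ
    have e1 : ∫⁻ φ in Ioc (0 : ℝ) (2 * Real.pi),
        ‖h φ - ∑ k ∈ s, cf h k * Complex.exp (((k * φ : ℝ) : ℂ) * Complex.I)‖ₑ =
        ∫⁻ b : AddCircle (2 * Real.pi), ‖Ψ b‖ₑ := by
      rw [← AddCircle.lintegral_preimage (2 * Real.pi) 0, zero_add]
      apply setLIntegral_congr_fun measurableSet_Ioc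
      intro φ hφ
      simp only [hΨ, hH]
      rw [AddCircle.liftIoc_coe_apply (by rwa [zero_add])]
      congr 3
      funext k
      rw [fourier_coe_apply]
      congr 2
      have : (Real.pi : ℂ) ≠ 0 := by exact_mod_cast hpi.ne'
      push_cast
      field_simp
    have e2 : Ψ =ᵐ[haarAddCircle] (f - ∑ k ∈ s, cf h k • fourierLp 2 k : Lp ℂ 2 haarAddCircle) := by
      have a1 := Lp.coeFn_sub f (∑ k ∈ s, cf h k • fourierLp (T := 2 * Real.pi) 2 k)
      have a2 := Lp.coeFn_finsetSum s (fun k => cf h k • fourierLp (T := 2 * Real.pi) 2 k)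
      have a3 : ∀ k : ℤ, (cf h k • fourierLp (T := 2 * Real.pi) 2 k : Lp ℂ 2 haarAddCircle)
          =ᵐ[haarAddCircle] fun b => cf h k * fourier k b := by
        intro k
        filter_upwards [Lp.coeFn_smul (cf h k) (fourierLp (T := 2 * Real.pi) 2 k),
          coeFn_fourierLp (T := 2 * Real.pi) 2 k] with b hb1 hb2
        rw [hb1, Pi.smul_apply, hb2, smul_eq_mul]
      filter_upwards [a1, a2, ae_all_iff.2 a3, hHL.coeFn_toLp] with b hb1 hb2 hb3 hb4
      rw [hb1, Pi.sub_apply, hb2, hf, hb4, Finset.sum_apply]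
      simp only [hb3, hΨ]
    have hΨm : AEStronglyMeasurable Ψ (haarAddCircle (T := 2 * Real.pi)) :=
      (Lp.aestronglyMeasurable _).congr e2.symm
    rw [e1, volume_eq_smul_haarAddCircle, lintegral_smul_measure, smul_eq_mul]
    gcongr
    rw [← eLpNorm_one_eq_lintegral_enorm]
    refine (eLpNorm_le_eLpNorm_of_exponent_le (q := 2) (by norm_num) hΨm).trans ?_
    rw [eLpNorm_congr_ae e2, Lp.norm_def, ENNReal.ofReal_toReal (Lp.eLpNorm_ne_top _)]
  constructor
  · have h1 := hasSum_fourier_series_L2 f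
    simp only [hcf] at h1
    have h2 : Tendsto (fun s : Finset ℤ => f - ∑ k ∈ s, cf h k • fourierLp (T := 2 * Real.pi) 2 k)
        atTop (𝓝 (f - f)) := h1.const_sub f
    rw [sub_self] at h2
    have h3 := (h2.norm)
    rw [norm_zero] at h3
    have h4 := (ENNReal.tendsto_ofReal h3)
    have h5 := ENNReal.Tendsto.const_mul (a := ENNReal.ofReal (2 * Real.pi)) h4
      (Or.inr ENNReal.ofReal_ne_top)
    rw [ENNReal.ofReal_zero, mul_zero] at h5
    exact tendsto_of_tendsto_of_tendsto_of_le_of_le tendsto_const_nhds h5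
      (fun s => zero_le) key
  · intro s
    refine (key s).trans ?_
    rw [← ENNReal.ofReal_mul (by positivity)]
    apply ENNReal.ofReal_le_ofReal
    apply mul_le_mul_of_nonneg_left _ (by positivity)
    have h6 := orth_sub_le (orthonormal_fourier (T := 2 * Real.pi)) f s
    have h7 : ∀ k : ℤ, inner ℂ (fourierLp (T := 2 * Real.pi) 2 k) f = cf h k := by
      intro k
      rw [← hcf, ← fourierBasis_repr, ← coe_fourierBasis, HilbertBasis.repr_apply_apply]
    simp only [h7] at h6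
    exact h6.trans hfn

end Pool.Agent.H243.RA
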