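import Mathlib
import Pool.Agent.H243.RA.D8
import Pool.Agent.H243.RA.F1
set_option autoImplicit false

/-! The Fourier expansion in longitude on the unit sphere of `ℝ³`. -/

open MeasureTheory Set Metric Filter Topology
open scoped ENNReal NNReal RealInnerProductSpace

namespace Pool.Agent.H243.RA

open Pool.Agent.H789R2.FR (E sg T sg_finite sg_ae sg_inv sg_apply)

/-- the unit sphere -/
abbrev S2 := sphere (0 : E 3) 1

/-- The rotation of the unit sphere of `ℝ^3` by the angle `h` about the third axis. -/
noncomputable def rotate (h : ℝ) (x : sphere (0 : E 3) 1) : sphere (0 : E 3) 1 :=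
  ⟨!₂[x.1 0 * Real.cos h - x.1 1 * Real.sin h, x.1 0 * Real.sin h + x.1 1 * Real.cos h, x.1 2],
    by
      have hx : ‖x.1‖ = 1 := by simp
      rw [mem_sphere_zero_iff_norm]
      rw [EuclideanSpace.norm_eq, Fin.sum_univ_three] at hx ⊢
      refine Eq.trans ?_ hx
      congr 1
      simp only [Real.norm_eq_abs, sq_abs]
      simp
      nlinarith [Real.sin_sq_add_cos_sq h]⟩

theorem rotate_zero' (h : ℝ) (x : S2) : (rotate h x).1 0 = x.1 0 * Real.cos h - x.1 1 * Real.sin h :=
  rfl
theorem rotate_one' (h : ℝ) (x : S2) : (rotate h x).1 1 = x.1 0 * Real.sin h + x.1 1 * Real.cos h :=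
  rfl
theorem rotate_two' (h : ℝ) (x : S2) : (rotate h x).1 2 = x.1 2 := rfl

theorem S2_ext {x y : S2} (h0 : x.1 0 = y.1 0) (h1 : x.1 1 = y.1 1) (h2 : x.1 2 = y.1 2) : x = y := by
  apply Subtype.ext
  ext i
  fin_cases i
  · exact h0
  · exact h1
  · exact h2

theorem rotate_add (a b : ℝ) (x : S2) : rotate (a + b) x = rotate a (rotate b x) := by
  apply S2_ext
  · rw [rotate_zero', rotate_zero', rotate_zero', rotate_one', Real.cos_add, Real.sin_add]
    ring
  · rw [rotate_one', rotate_one', rotate_zero', rotate_one', Real.cos_add, Real.sin_add]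
    ring
  · rw [rotate_two', rotate_two', rotate_two']

theorem rotate_per (a : ℝ) (x : S2) : rotate (a + 2 * Real.pi) x = rotate a x := by
  apply S2_ext
  · rw [rotate_zero', rotate_zero', Real.cos_add_two_pi, Real.sin_add_two_pi]
  · rw [rotate_one', rotate_one', Real.cos_add_two_pi, Real.sin_add_two_pi]
  · rw [rotate_two', rotate_two']

theorem rotate_joint : Measurable fun p : ℝ × S2 => rotate p.1 p.2 := by
  apply Continuous.measurable
  apply Continuous.subtype_mk
  refine (PiLp.continuous_toLp 2 _).comp ?_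
  refine continuous_pi fun i => ?_
  fin_cases i
  · simp
    fun_prop
  · simp
    fun_prop
  · simp
    fun_prop

/-- `rotate h` as a linear isometry equivalence -/
noncomputable def rotL (h : ℝ) : E 3 ≃ₗᵢ[ℝ] E 3 where
  toFun x := !₂[x 0 * Real.cos h - x 1 * Real.sin h, x 0 * Real.sin h + x 1 * Real.cos h, x 2]
  invFun x := !₂[x 0 * Real.cos h + x 1 * Real.sin h, - x 0 * Real.sin h + x 1 * Real.cos h, x 2]
  map_add' x y := by
    ext i
    fin_cases i <;> simp <;> ring
  map_smul' c x := by
    ext i
    fin_cases i <;> simp <;> ring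
  left_inv x := by
    have hs := Real.sin_sq_add_cos_sq h
    ext i
    fin_cases i
    · simp
      linear_combination (x 0) * hs
    · simp
      linear_combination (x 1) * hs
    · simp
  right_inv x := by
    have hs := Real.sin_sq_add_cos_sq h
    ext i
    fin_cases i
    · simp
      linear_combination (x 0) * hs
    · simp
      linear_combination (x 1) * hs
    · simp
  norm_map' x := by
    simp only [LinearEquiv.coe_mk, LinearMap.coe_mk, AddHom.coe_mk]
    rw [EuclideanSpace.norm_eq, EuclideanSpace.norm_eq, Fin.sum_univ_three, Fin.sum_univ_three]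
    congr 1
    simp only [Real.norm_eq_abs, sq_abs]
    simp
    nlinarith [Real.sin_sq_add_cos_sq h]

theorem rotate_coe (h : ℝ) (x : S2) : ((rotate h x : S2) : E 3) = rotL h (x : E 3) := rfl

theorem rotate_meas (h : ℝ) : Measurable (rotate h) := rotate_joint.comp measurable_prodMk_left

theorem rotate_mp (h : ℝ) : MeasurePreserving (rotate h) (sigma 3) (sigma 3) := by
  refine ⟨rotate_meas h, ?_⟩
  ext N hN
  rw [Measure.map_apply (rotate_meas h) hN]
  have hemb : MeasurableEmbedding (Subtype.val : S2 → E 3) :=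
    MeasurableEmbedding.subtype_coe isClosed_sphere.measurableSet
  have hN' : MeasurableSet (Subtype.val '' N : Set (E 3)) := hemb.measurableSet_image' hN
  have h1 : sigma 3 N = sg 3 (Subtype.val '' N) := by
    rw [sg_apply hN', preimage_image_eq _ Subtype.val_injective]
    rfl
  have h2 := (sg_inv (rotL h)).measure_preimage hN'.nullMeasurableSet
  rw [h1, ← h2, sg_apply ((rotL h).continuous.measurable hN')]
  unfold sigma
  congr 1
  ext x
  simp only [mem_preimage]
  rw [← rotate_coe]
  constructor
  · intro hx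
    exact ⟨_, hx, rfl⟩
  · rintro ⟨y, hy, hxy⟩
    rwa [← Subtype.val_injective hxy]

/-- the component of frequency `k` in longitude -/
noncomputable def comp (k : ℤ) (g : S2 → ℂ) (x : S2) : ℂ :=
  (((2 * Real.pi)⁻¹ : ℝ) : ℂ) * ∫ φ in (0 : ℝ)..(2 * Real.pi),
    g (rotate φ x) * Complex.exp (-((k * φ : ℝ) : ℂ) * Complex.I)

theorem comp_cf (k : ℤ) (g : S2 → ℂ) (x : S2) : comp k g x = cf (fun φ => g (rotate φ x)) k := rfl

theorem comp_meas (k : ℤ) {g : S2 → ℂ} (hg : Measurable g) : Measurable (comp k g) := by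
  unfold comp
  apply Measurable.const_mul
  have h : Measurable (Function.uncurry fun (x : S2) (φ : ℝ) =>
      g (rotate φ x) * Complex.exp (-((k * φ : ℝ) : ℂ) * Complex.I)) := by
    apply Measurable.mul
    · exact hg.comp (rotate_joint.comp (measurable_snd.prodMk measurable_fst))
    · have : Continuous fun p : S2 × ℝ => Complex.exp (-((k * p.2 : ℝ) : ℂ) * Complex.I) := by
        fun_prop
      exact this.measurable
  simp only [intervalIntegral.integral_of_le Real.two_pi_pos.le]
  exact (h.stronglyMeasurable.integral_prod_right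
    (ν := volume.restrict (Ioc 0 (2 * Real.pi)))).measurable

theorem comp_le (k : ℤ) {g : S2 → ℂ} {A : ℝ} (hA : ∀ x, ‖g x‖ ≤ A) (x : S2) :
    ‖comp k g x‖ ≤ A := by
  have hpi := Real.two_pi_pos
  have h := intervalIntegral.norm_integral_le_of_norm_le_const (a := 0) (b := 2 * Real.pi) (C := A)
    (f := fun φ => g (rotate φ x) * Complex.exp (-((k * φ : ℝ) : ℂ) * Complex.I)) (fun φ _ => by
      rw [norm_mul, show -((k * φ : ℝ) : ℂ) * Complex.I = ((-(k * φ) : ℝ) : ℂ) * Complex.I by
        push_cast; ring, Complex.norm_exp_ofReal_mul_I, mul_one]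
      exact hA _)
  unfold comp
  rw [norm_mul, Complex.norm_real, Real.norm_of_nonneg (by positivity), inv_mul_le_iff₀ hpi]
  refine h.trans (le_of_eq ?_)
  rw [sub_zero, abs_of_pos hpi, mul_comm]

theorem comp_rotate (k : ℤ) (g : S2 → ℂ) (ψ : ℝ) (x : S2) :
    comp k g (rotate ψ x) = Complex.exp (((k * ψ : ℝ) : ℂ) * Complex.I) * comp k g x := by
  have hpi := Real.two_pi_pos
  unfold comp
  have h1 : ∀ φ : ℝ, g (rotate φ (rotate ψ x)) * Complex.exp (-((k * φ : ℝ) : ℂ) * Complex.I) =
      Complex.exp (((k * ψ : ℝ) : ℂ) * Complex.I) *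
        (fun θ : ℝ => g (rotate θ x) * Complex.exp (-((k * θ : ℝ) : ℂ) * Complex.I)) (φ + ψ) := by
    intro φ
    simp only
    rw [rotate_add, mul_left_comm, ← Complex.exp_add]
    congr 2
    push_cast
    ring
  simp only [h1]
  rw [intervalIntegral.integral_const_mul]
  have hper : Function.Periodic (fun θ : ℝ => g (rotate θ x) *
      Complex.exp (-((k * θ : ℝ) : ℂ) * Complex.I)) (2 * Real.pi) := by
    intro θ
    simp only
    rw [rotate_per]
    congr 1
    rw [show -((k * (θ + 2 * Real.pi) : ℝ) : ℂ) * Complex.I =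
      -((k * θ : ℝ) : ℂ) * Complex.I + ((-k : ℤ) : ℂ) * (2 * Real.pi * Complex.I) by push_cast; ring,
      Complex.exp_add, Complex.exp_int_mul_two_pi_mul_I, mul_one]
  rw [intervalIntegral.integral_comp_add_right (fun θ : ℝ => g (rotate θ x) *
    Complex.exp (-((k * θ : ℝ) : ℂ) * Complex.I)), zero_add, add_comm (2 * Real.pi) ψ,
    hper.intervalIntegral_add_eq ψ 0, zero_add]
  ring

end Pool.Agent.H243.RA
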