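import Mathlib
import Pool.Agent.H243.RA.F2
set_option autoImplicit false

/-! Bounded densities on the unit sphere of `ℝ³` and their expansion in longitude. -/

open MeasureTheory Set Metric Filter Topology
open scoped ENNReal NNReal RealInnerProductSpace

namespace Pool.Agent.H243.RA

open Pool.Agent.H789R2.FR (E sg T sg_finite sg_ae sg_inv sg_apply)

/-- a linear form -/
noncomputable def lin (c : ℂ) : MvPolynomial (Fin 2) ℂ :=
  MvPolynomial.X 0 + MvPolynomial.C c * MvPolynomial.X 1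

theorem lin_hom (c : ℂ) (l : ℕ) : ((lin c) ^ l).IsHomogeneous l := by
  have h1 : (lin c).IsHomogeneous 1 := by
    refine (MvPolynomial.isHomogeneous_X ℂ _).add ?_
    have := (MvPolynomial.isHomogeneous_C (Fin 2) c).mul
      (MvPolynomial.isHomogeneous_X ℂ (1 : Fin 2))
    simpa using this
  have := h1.pow l
  simpa using this

theorem lin_harm (c : ℂ) (hc : c ^ 2 = -1) (b : ℂ) (l : ℕ) :
    ∑ i, MvPolynomial.pderiv i (MvPolynomial.pderiv i (MvPolynomial.C b * (lin c) ^ l)) = 0 := by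
  set a : Fin 2 → ℂ := ![1, c] with ha
  have h1 : ∀ i, MvPolynomial.pderiv i (lin c) = MvPolynomial.C (a i) := by
    intro i
    unfold lin
    rw [map_add, MvPolynomial.pderiv_C_mul, ha]
    fin_cases i
    · simp
    · simp
  have h2 : ∀ i, MvPolynomial.pderiv i (MvPolynomial.pderiv i (MvPolynomial.C b * (lin c) ^ l)) =
      MvPolynomial.C b * (((l * (l - 1 : ℕ) : ℕ) : MvPolynomial (Fin 2) ℂ) * (lin c) ^ (l - 1 - 1)) *
        MvPolynomial.C (a i ^ 2) := by
    intro i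
    rw [MvPolynomial.pderiv_C_mul, MvPolynomial.pderiv_C_mul, mul_assoc]
    congr 1
    rw [Derivation.leibniz_pow, h1]
    simp only [smul_eq_mul, nsmul_eq_mul, map_pow, Nat.cast_mul]
    rw [mul_comm ((lin c) ^ (l - 1)) (MvPolynomial.C (a i)), ← mul_assoc,
      ← map_natCast (MvPolynomial.C : ℂ →+* MvPolynomial (Fin 2) ℂ) l, ← map_mul,
      MvPolynomial.pderiv_C_mul, Derivation.leibniz_pow, h1]
    simp only [smul_eq_mul, nsmul_eq_mul, map_mul, map_natCast]
    ring
  rw [Finset.sum_congr rfl fun i _ => h2 i, ← Finset.mul_sum, ← map_sum]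
  have h3 : ∑ i, a i ^ 2 = 0 := by
    rw [Fin.sum_univ_two, ha]
    simp [hc]
  rw [h3, map_zero, mul_zero]

theorem lin_eval (c b : ℂ) (l : ℕ) (y : Fin 2 → ℂ) :
    MvPolynomial.eval y (MvPolynomial.C b * (lin c) ^ l) = b * (y 0 + c * y 1) ^ l := by
  unfold lin
  simp

/-- the base point of a parallel -/
noncomputable def base (s : ℝ) (hs : s ^ 2 ≤ 1) : S2 :=
  ⟨!₂[Real.sqrt (1 - s ^ 2), 0, s], by
    rw [mem_sphere_zero_iff_norm, EuclideanSpace.norm_eq, Fin.sum_univ_three]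
    have : Real.sqrt (1 - s ^ 2) ^ 2 = 1 - s ^ 2 := Real.sq_sqrt (by linarith)
    simp [this]⟩

theorem exists_angle (x : S2) (hs : (x.1 2) ^ 2 ≤ 1) :
    ∃ ψ : ℝ, x = rotate ψ (base (x.1 2) hs) ∧
      x.1 0 = Real.sqrt (1 - (x.1 2) ^ 2) * Real.cos ψ ∧
      x.1 1 = Real.sqrt (1 - (x.1 2) ^ 2) * Real.sin ψ := by
  have hx : ‖x.1‖ = 1 := by simp
  rw [EuclideanSpace.norm_eq, Fin.sum_univ_three, Real.sqrt_eq_one] at hx
  simp only [Real.norm_eq_abs, sq_abs] at hx
  set z : ℂ := ⟨x.1 0, x.1 1⟩ with hz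
  have hn : ‖z‖ = Real.sqrt (1 - (x.1 2) ^ 2) := by
    rw [Complex.norm_def, Complex.normSq_apply]
    congr 1
    simp only [hz]
    linarith
  have h0 : x.1 0 = Real.sqrt (1 - (x.1 2) ^ 2) * Real.cos z.arg := by
    rw [← hn, Complex.norm_mul_cos_arg]
  have h1 : x.1 1 = Real.sqrt (1 - (x.1 2) ^ 2) * Real.sin z.arg := by
    rw [← hn, Complex.norm_mul_sin_arg]
  refine ⟨z.arg, ?_, h0, h1⟩
  apply S2_ext
  · rw [rotate_zero', h0]
    simp [base]
  · rw [rotate_one', h1]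
    simp [base]
  · rw [rotate_two']
    simp [base]

theorem sq_le_one (x : S2) : (x.1 2) ^ 2 ≤ 1 := by
  have hx : ‖x.1‖ = 1 := by simp
  rw [EuclideanSpace.norm_eq, Fin.sum_univ_three, Real.sqrt_eq_one] at hx
  simp only [Real.norm_eq_abs, sq_abs] at hx
  nlinarith [sq_nonneg (x.1 0), sq_nonneg (x.1 1)]

theorem base_fix (s : ℝ) (hs : s ^ 2 ≤ 1) (h : Real.sqrt (1 - s ^ 2) = 0) (ψ : ℝ) :
    rotate ψ (base s hs) = base s hs := by
  apply S2_ext
  · rw [rotate_zero']
    simp [base, h]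
  · rw [rotate_one']
    simp [base, h]
  · rw [rotate_two']

theorem comp_lat (k : ℤ) (g : S2 → ℂ) : Latitudinal (d := 2) k.natAbs (comp k g) := by
  intro s
  by_cases hs : s ^ 2 ≤ 1
  swap
  · refine ⟨0, MvPolynomial.isHomogeneous_zero _ _ _, by simp, fun x hx => ?_⟩
    exfalso
    apply hs
    have := sq_le_one x
    have hx' : x.1 2 = s := hx
    rwa [hx'] at this
  set r : ℝ := Real.sqrt (1 - s ^ 2) with hr
  set c : ℂ := comp k g (base s hs) with hc
  -- the sign
  obtain ⟨u, hu1, hu⟩ : ∃ u : ℝ, (u = 1 ∨ u = -1) ∧ u * (k.natAbs : ℝ) = k := by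
    rcases le_total 0 k with h | h
    · refine ⟨1, Or.inl rfl, ?_⟩
      rw [one_mul, Nat.cast_natAbs, abs_of_nonneg h]
    · refine ⟨-1, Or.inr rfl, ?_⟩
      rw [Nat.cast_natAbs, abs_of_nonpos h]
      push_cast
      ring
  have hu2 : u ^ 2 = 1 := by
    rcases hu1 with rfl | rfl <;> norm_num
  have huc : ((u : ℂ) * Complex.I) ^ 2 = -1 := by
    rw [mul_pow, Complex.I_sq, ← Complex.ofReal_pow, hu2]
    simp
  refine ⟨MvPolynomial.C (c * ((r⁻¹ ^ k.natAbs : ℝ) : ℂ)) * (lin ((u : ℂ) * Complex.I)) ^ k.natAbs,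
    ?_, lin_harm _ huc _ _, fun x hx => ?_⟩
  · have := (MvPolynomial.isHomogeneous_C (Fin 2) (c * ((r⁻¹ ^ k.natAbs : ℝ) : ℂ))).mul
      (lin_hom ((u : ℂ) * Complex.I) k.natAbs)
    rwa [zero_add] at this
  · have hx' : x.1 2 = s := hx
    obtain ⟨ψ, h1, h2, h3⟩ := exists_angle x (sq_le_one x)
    have hb : base (x.1 2) (sq_le_one x) = base s hs := by
      apply S2_ext <;> simp [base, hx']
    rw [hb] at h1
    rw [hx', ← hr] at h2 h3
    have hcx : comp k g x = Complex.exp (((k * ψ : ℝ) : ℂ) * Complex.I) * c := by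
      conv_lhs => rw [h1]
      rw [comp_rotate]
    rw [hcx, lin_eval]
    have e0 : (((x : E (2 + 1)) (Fin.castSucc (0 : Fin 2)) : ℝ) : ℂ) = ((r * Real.cos ψ : ℝ) : ℂ) :=
      congrArg _ h2
    have e1 : (((x : E (2 + 1)) (Fin.castSucc (1 : Fin 2)) : ℝ) : ℂ) = ((r * Real.sin ψ : ℝ) : ℂ) :=
      congrArg _ h3
    rw [e0, e1]
    have e2 : ((r * Real.cos ψ : ℝ) : ℂ) + (u : ℂ) * Complex.I * ((r * Real.sin ψ : ℝ) : ℂ) =
        (r : ℂ) * Complex.exp (((u * ψ : ℝ) : ℂ) * Complex.I) := by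
      have hcos : Real.cos (u * ψ) = Real.cos ψ := by
        rcases hu1 with h9 | h9 <;> rw [h9]
        · rw [one_mul]
        · rw [neg_one_mul, Real.cos_neg]
      have hsin : Real.sin (u * ψ) = u * Real.sin ψ := by
        rcases hu1 with h9 | h9 <;> rw [h9]
        · rw [one_mul, one_mul]
        · rw [neg_one_mul, Real.sin_neg, neg_one_mul]
      rw [Complex.exp_mul_I, ← Complex.ofReal_cos, ← Complex.ofReal_sin, hcos, hsin]
      push_cast
      ring
    have e3 : Complex.exp (((u * ψ : ℝ) : ℂ) * Complex.I) ^ k.natAbs =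
        Complex.exp (((k * ψ : ℝ) : ℂ) * Complex.I) := by
      rw [← Complex.exp_nat_mul]
      congr 1
      rw [← hu]
      push_cast
      ring
    rw [e2, mul_pow, e3]
    rcases eq_or_ne r 0 with hr0 | hr0
    · rcases eq_or_ne k 0 with hk | hk
      · subst hk
        simp
      · -- the coefficient vanishes
        have hc0 : c = 0 := by
          have h5 := comp_rotate k g (Real.pi / k) (base s hs)
          rw [base_fix s hs hr0, ← hc] at h5
          have hk' : (k : ℝ) ≠ 0 := by exact_mod_cast hk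
          rw [show (k : ℝ) * (Real.pi / k) = Real.pi by field_simp, Complex.exp_pi_mul_I] at h5
          have : (2 : ℂ) * c = 0 := by linear_combination h5
          simpa using this
        rw [hc0]
        simp
    · have h6 : ((r⁻¹ ^ k.natAbs : ℝ) : ℂ) * (r : ℂ) ^ k.natAbs = 1 := by
        rw [← Complex.ofReal_pow, ← Complex.ofReal_mul, ← mul_pow, inv_mul_cancel₀ hr0, one_pow,
          Complex.ofReal_one]
      calc Complex.exp (((k * ψ : ℝ) : ℂ) * Complex.I) * c
          = c * 1 * Complex.exp (((k * ψ : ℝ) : ℂ) * Complex.I) := by ring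
        _ = c * (((r⁻¹ ^ k.natAbs : ℝ) : ℂ) * (r : ℂ) ^ k.natAbs) *
            Complex.exp (((k * ψ : ℝ) : ℂ) * Complex.I) := by rw [h6]
        _ = _ := by ring

end Pool.Agent.H243.RA
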