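import Mathlib
import Pool.Agent.H243.RA.F3
set_option autoImplicit false

/-! Bounded densities on the unit sphere of `ℝ³` with sparse spectrum in longitude. -/

open MeasureTheory Set Metric Filter Topology
open scoped ENNReal NNReal RealInnerProductSpace

namespace Pool.Agent.H243.RA

open Pool.Agent.H789R2.FR (E sg T sg_finite sg_ae sg_inv sg_apply)

instance sigma_fin (n : ℕ) : IsFiniteMeasure (sigma n) := by
  unfold sigma
  infer_instance

/-- the frequencies of size less than `N` -/
noncomputable def fr (N : ℕ) : Finset ℤ := Finset.Ioo (-(N : ℤ)) N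

theorem fr_tendsto : Tendsto fr atTop atTop := by
  apply tendsto_atTop_finset_of_monotone
  · intro a b hab x hx
    unfold fr at hx ⊢
    rw [Finset.mem_Ioo] at hx ⊢
    omega
  · intro x
    refine ⟨x.natAbs + 1, ?_⟩
    unfold fr
    rw [Finset.mem_Ioo]
    omega

theorem fr_sum (c : ℤ → ℂ) (N : ℕ) : ∑ k ∈ fr N, c k =
    ∑ l ∈ Finset.range N, if l = 0 then c 0 else c l + c (-(l : ℤ)) := by
  induction N with
  | zero => simp [fr]
  | succ n ih =>
    rw [Finset.sum_range_succ, ← ih]
    rcases Nat.eq_zero_or_pos n with h0 | h0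
    · subst h0
      have e1 : fr (0 + 1) = {0} := by
        unfold fr
        ext x
        rw [Finset.mem_Ioo, Finset.mem_singleton]
        omega
      have e2 : fr 0 = ∅ := by
        unfold fr
        ext x
        simp only [Finset.mem_Ioo, Finset.notMem_empty, iff_false]
        omega
      rw [e1, e2]
      simp
    · have e1 : fr (n + 1) = insert (n : ℤ) (insert (-(n : ℤ)) (fr n)) := by
        unfold fr
        ext x
        rw [Finset.mem_insert, Finset.mem_insert, Finset.mem_Ioo, Finset.mem_Ioo]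
        omega
      have h1 : (n : ℤ) ∉ insert (-(n : ℤ)) (fr n) := by
        unfold fr
        rw [Finset.mem_insert, Finset.mem_Ioo]
        omega
      have h2 : (-(n : ℤ)) ∉ fr n := by
        unfold fr
        rw [Finset.mem_Ioo]
        omega
      rw [e1, Finset.sum_insert h1, Finset.sum_insert h2, if_neg (by omega)]
      ring

theorem avg_rot (F : S2 → ℝ≥0∞) (hF : Measurable F) :
    ∫⁻ x, F x ∂(sigma 3) = ∫⁻ x, ENNReal.ofReal ((2 * Real.pi)⁻¹) *
      (∫⁻ φ in Ioc (0 : ℝ) (2 * Real.pi), F (rotate φ x)) ∂(sigma 3) := by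
  have hpi := Real.two_pi_pos
  have hm : Measurable (Function.uncurry fun (x : S2) (φ : ℝ) => F (rotate φ x)) :=
    hF.comp (rotate_joint.comp (measurable_snd.prodMk measurable_fst))
  rw [lintegral_const_mul' _ _ ENNReal.ofReal_ne_top, lintegral_lintegral_swap hm.aemeasurable]
  have h1 : ∀ φ : ℝ, ∫⁻ x, F (rotate φ x) ∂(sigma 3) = ∫⁻ x, F x ∂(sigma 3) := fun φ =>
    (rotate_mp φ).lintegral_comp hF
  simp only [h1]
  rw [setLIntegral_const, Real.volume_Ioc, sub_zero, mul_comm, mul_assoc, ← ENNReal.ofReal_mul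
    (by positivity), mul_inv_cancel₀ hpi.ne', ENNReal.ofReal_one, mul_one]

theorem four_lim {g : S2 → ℂ} (hg : Measurable g) {A : ℝ} (hA : 0 ≤ A) (hb : ∀ x, ‖g x‖ ≤ A) :
    Tendsto (fun N : ℕ => ∫⁻ x, ‖g x - ∑ k ∈ fr N, comp k g x‖ₑ ∂(sigma 3)) atTop (𝓝 0) := by
  have hpi := Real.two_pi_pos
  have hm : ∀ N : ℕ, Measurable fun x : S2 => ‖g x - ∑ k ∈ fr N, comp k g x‖ₑ := fun N =>
    (hg.sub (Finset.measurable_sum _ fun k _ => comp_meas k hg)).enorm
  have e1 : ∀ N : ℕ, ∫⁻ x, ‖g x - ∑ k ∈ fr N, comp k g x‖ₑ ∂(sigma 3) =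
      ∫⁻ x, ENNReal.ofReal ((2 * Real.pi)⁻¹) * (∫⁻ φ in Ioc (0 : ℝ) (2 * Real.pi),
        ‖g (rotate φ x) - ∑ k ∈ fr N, comp k g (rotate φ x)‖ₑ) ∂(sigma 3) := fun N =>
    avg_rot _ (hm N)
  have e2 : ∀ (N : ℕ) (x : S2), ∫⁻ φ in Ioc (0 : ℝ) (2 * Real.pi),
        ‖g (rotate φ x) - ∑ k ∈ fr N, comp k g (rotate φ x)‖ₑ =
      ∫⁻ φ in Ioc (0 : ℝ) (2 * Real.pi), ‖(fun φ => g (rotate φ x)) φ -
        ∑ k ∈ fr N, cf (fun φ => g (rotate φ x)) k *
          Complex.exp (((k * φ : ℝ) : ℂ) * Complex.I)‖ₑ := by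
    intro N x
    refine lintegral_congr fun φ => ?_
    simp only
    congr 2
    apply Finset.sum_congr rfl
    intro k _
    rw [comp_rotate, ← comp_cf, mul_comm]
  have hc := fun x : S2 => circ (fun φ => g (rotate φ x))
    (hg.comp (rotate_joint.comp measurable_prodMk_right)) hA (fun φ => hb _)
  simp only [e1]
  have h0 : ∫⁻ _x, (0 : ℝ≥0∞) ∂(sigma 3) = 0 := lintegral_zero
  rw [← h0]
  apply tendsto_lintegral_of_dominated_convergence (fun _ => ENNReal.ofReal A)
  · intro N
    apply Measurable.const_mul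
    have hm2 : Measurable (Function.uncurry fun (x : S2) (φ : ℝ) =>
        ‖g (rotate φ x) - ∑ k ∈ fr N, comp k g (rotate φ x)‖ₑ) :=
      (hm N).comp (rotate_joint.comp (measurable_snd.prodMk measurable_fst))
    exact hm2.lintegral_prod_right'
  · intro N
    refine Eventually.of_forall fun x => ?_
    simp only
    rw [e2]
    calc _ ≤ ENNReal.ofReal ((2 * Real.pi)⁻¹) * ENNReal.ofReal (2 * Real.pi * A) :=
          mul_le_mul' le_rfl ((hc x).2 (fr N))
      _ = _ := by
          rw [← ENNReal.ofReal_mul (by positivity), ← mul_assoc, inv_mul_cancel₀ hpi.ne', one_mul]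
  · rw [lintegral_const]
    finiteness
  · refine Eventually.of_forall fun x => ?_
    simp only [e2]
    have h1 := ((hc x).1).comp fr_tendsto
    have h2 := ENNReal.Tendsto.const_mul (a := ENNReal.ofReal ((2 * Real.pi)⁻¹)) h1
      (Or.inr ENNReal.ofReal_ne_top)
    rw [mul_zero] at h2
    exact h2

theorem Lat_add {l : ℕ} {f h : S2 → ℂ} (hf : Latitudinal (d := 2) l f)
    (hh : Latitudinal (d := 2) l h) : Latitudinal (d := 2) l (fun x => f x + h x) := by
  intro s
  obtain ⟨P, h1, h2, h3⟩ := hf s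
  obtain ⟨P', h1', h2', h3'⟩ := hh s
  refine ⟨P + P', h1.add h1', ?_, fun x hx => ?_⟩
  · simp only [map_add, Finset.sum_add_distrib]
    rw [h2, h2', add_zero]
  · simp only
    rw [h3 x hx, h3' x hx, map_add]

theorem Lat_zero (l : ℕ) {d : ℕ} : Latitudinal (d := d) l (fun _ => 0) := fun s =>
  ⟨0, MvPolynomial.isHomogeneous_zero _ _ _, by simp, fun x _ => by simp⟩

/-- the expansion of a bounded density with given spectrum in longitude -/
theorem long_exp {A B β : ℝ} (hA : 0 ≤ A) (hB : 1 ≤ B) {L : Set ℕ}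
    (hL : ∀ N : ℕ, 1 ≤ N → ((L ∩ Iio N).ncard : ℝ) ≤ B * (N : ℝ) ^ β) {g : S2 → ℂ}
    (hg : Measurable g) (hb : ∀ x, ‖g x‖ ≤ A)
    (hs : ∀ k : ℤ, k.natAbs ∉ L → comp k g =ᵐ[sigma 3] 0) :
    ∃ (m : ℕ → ℝ) (G : ℕ → S2 → ℂ), Expansion (d := 2) (2 * A * B) β m g G := by
  classical
  refine ⟨fun l => if l ∈ L then 2 * A else 0, fun l x => if l ∈ L then
    (if l = 0 then comp 0 g x else comp l g x + comp (-(l : ℤ)) g x) else 0, hg, ?_, ?_, ?_, ?_, ?_, ?_⟩
  · intro x
    refine (hb x).trans ?_
    nlinarith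
  · intro l
    by_cases hl : l ∈ L
    · simp only [if_pos hl]
      by_cases h0 : l = 0
      · simp only [if_pos h0]
        exact comp_meas 0 hg
      · simp only [if_neg h0]
        exact (comp_meas _ hg).add (comp_meas _ hg)
    · simp only [if_neg hl]
      exact measurable_const
  · intro l x
    by_cases hl : l ∈ L
    · simp only [if_pos hl]
      by_cases h0 : l = 0
      · simp only [if_pos h0]
        have := comp_le 0 hb x
        linarith
      · simp only [if_neg h0]
        refine (norm_add_le _ _).trans ?_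
        have h1 := comp_le (l : ℤ) hb x
        have h2 := comp_le (-(l : ℤ)) hb x
        linarith
    · simp only [if_neg hl]
      simp
  · intro l
    by_cases hl : l ∈ L
    · simp only [if_pos hl]
      by_cases h0 : l = 0
      · simp only [if_pos h0]
        subst h0
        exact comp_lat 0 g
      · simp only [if_neg h0]
        have h1 := comp_lat (l : ℤ) g
        have h2 := comp_lat (-(l : ℤ)) g
        rw [Int.natAbs_natCast] at h1
        rw [Int.natAbs_neg, Int.natAbs_natCast] at h2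
        exact Lat_add h1 h2
    · simp only [if_neg hl]
      exact Lat_zero l
  · intro N hN
    rw [← Finset.sum_filter, Finset.sum_const, nsmul_eq_mul]
    have hcard : (((Finset.range N).filter fun l => l ∈ L).card : ℝ) ≤ B * (N : ℝ) ^ β := by
      refine le_trans (le_of_eq ?_) (hL N hN)
      rw [← Set.ncard_coe_finset]
      congr 2
      ext l
      simp [and_comm]
    calc _ ≤ B * (N : ℝ) ^ β * (2 * A) := mul_le_mul_of_nonneg_right hcard (by linarith)
      _ = _ := by ring
  · refine (four_lim hg hA hb).congr fun N => ?_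
    have hae : ∀ᵐ x ∂(sigma 3), ∀ k : ℤ, k.natAbs ∉ L → comp k g x = 0 := by
      rw [ae_all_iff]
      intro k
      by_cases hk : k.natAbs ∈ L
      · exact Eventually.of_forall fun x h => absurd hk h
      · filter_upwards [hs k hk] with x hx _
        exact hx
    apply lintegral_congr_ae
    filter_upwards [hae] with x hx
    congr 2
    rw [fr_sum (fun k => comp k g x)]
    apply Finset.sum_congr rfl
    intro l _
    by_cases hl : l ∈ L
    · rw [if_pos hl]
    · rw [if_neg hl]
      by_cases h0 : l = 0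
      · rw [if_pos h0]
        apply hx
        rw [h0] at hl
        exact hl
      · rw [if_neg h0, hx (l : ℤ) (by rwa [Int.natAbs_natCast]),
          hx (-(l : ℤ)) (by rwa [Int.natAbs_neg, Int.natAbs_natCast]), add_zero]

end Pool.Agent.H243.RA
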