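import Mathlib
import Pool.Agent.H243.RA.F4
set_option autoImplicit false

/-! Bounded densities on the unit sphere of `ℝ³` of bounded variation in longitude. -/

open MeasureTheory Set Metric Filter Topology
open scoped ENNReal NNReal RealInnerProductSpace

namespace Pool.Agent.H243.RA

/-- the modulus of continuity in longitude, in `L¹` of the parallels, is at most `V h` -/
def Variation (V : ℝ) (g : S2 → ℂ) : Prop := ∀ (x : S2) (h : ℝ), 0 < h →
  ∫ φ in (0 : ℝ)..(2 * Real.pi), ‖g (rotate (φ + h) x) - g (rotate φ x)‖ ≤ V * h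

theorem comp_var {g : S2 → ℂ} (hg : Measurable g) {A V : ℝ} (hb : ∀ x, ‖g x‖ ≤ A)
    (hV : Variation V g) (k : ℤ) (hk : k ≠ 0) (x : S2) : ‖comp k g x‖ ≤ V / (4 * |(k : ℝ)|) := by
  have hpi := Real.pi_pos
  have hk0 : (0 : ℝ) < |(k : ℝ)| := abs_pos.2 (by exact_mod_cast hk)
  set ψ : ℝ := Real.pi / |(k : ℝ)| with hψ
  have hψ0 : 0 < ψ := by positivity
  have h1 : comp k g (rotate ψ x) = -comp k g x := by
    rw [comp_rotate]
    have e : Complex.exp (((k * ψ : ℝ) : ℂ) * Complex.I) = -1 := by
      rcases lt_or_gt_of_ne hk with hneg | hpos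
      · have hk' : (k : ℝ) < 0 := by exact_mod_cast hneg
        have : (k : ℝ) * ψ = -Real.pi := by
          rw [hψ, abs_of_neg hk']
          field_simp
        rw [this]
        rw [show ((-Real.pi : ℝ) : ℂ) * Complex.I = -(Real.pi * Complex.I) by push_cast; ring,
          Complex.exp_neg, Complex.exp_pi_mul_I]
        norm_num
      · have hk' : (0 : ℝ) < k := by exact_mod_cast hpos
        have : (k : ℝ) * ψ = Real.pi := by
          rw [hψ, abs_of_pos hk']
          field_simp
        rw [this, Complex.exp_pi_mul_I]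
    rw [e]
    ring
  have hint : ∀ y : S2, IntervalIntegrable (fun φ => g (rotate φ y) *
      Complex.exp (-((k * φ : ℝ) : ℂ) * Complex.I)) volume 0 (2 * Real.pi) := by
    intro y
    apply IntervalIntegrable.mono_fun' (g := fun _ => A) intervalIntegrable_const
    · apply AEStronglyMeasurable.mul
      · exact (hg.comp (rotate_joint.comp measurable_prodMk_right)).aestronglyMeasurable
      · apply Continuous.aestronglyMeasurable
        fun_prop
    · refine Eventually.of_forall fun φ => ?_
      simp only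
      rw [norm_mul, ← Complex.ofReal_neg, Complex.norm_exp_ofReal_mul_I, mul_one]
      exact hb _
  have h2 : (2 : ℂ) * comp k g x = comp k g x - comp k g (rotate ψ x) := by
    rw [h1]
    ring
  have h3 : comp k g x - comp k g (rotate ψ x) = (((2 * Real.pi)⁻¹ : ℝ) : ℂ) *
      ∫ φ in (0 : ℝ)..(2 * Real.pi), (g (rotate φ x) - g (rotate (φ + ψ) x)) *
        Complex.exp (-((k * φ : ℝ) : ℂ) * Complex.I) := by
    unfold comp
    rw [← mul_sub, ← intervalIntegral.integral_sub (hint _) (hint _)]
    congr 1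
    apply intervalIntegral.integral_congr
    intro φ _
    simp only
    rw [← rotate_add]
    ring
  have h4 : ‖∫ φ in (0 : ℝ)..(2 * Real.pi), (g (rotate φ x) - g (rotate (φ + ψ) x)) *
        Complex.exp (-((k * φ : ℝ) : ℂ) * Complex.I)‖ ≤ V * ψ := by
    refine le_trans ?_ (hV x ψ hψ0)
    refine (intervalIntegral.norm_integral_le_integral_norm (by positivity)).trans (le_of_eq ?_)
    apply intervalIntegral.integral_congr
    intro φ _
    simp only
    rw [norm_mul, ← Complex.ofReal_neg, Complex.norm_exp_ofReal_mul_I, mul_one, norm_sub_rev]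
  have h5 : 2 * ‖comp k g x‖ ≤ (2 * Real.pi)⁻¹ * (V * ψ) := by
    have e : 2 * ‖comp k g x‖ = ‖(2 : ℂ) * comp k g x‖ := by
      rw [norm_mul]
      norm_num
    rw [e, h2, h3, norm_mul, Complex.norm_real, Real.norm_of_nonneg (by positivity)]
    gcongr
  have h6 : (2 * Real.pi)⁻¹ * (V * ψ) = 2 * (V / (4 * |(k : ℝ)|)) := by
    rw [hψ]
    field_simp
    ring
  linarith

theorem harm_le {β : ℝ} (hβ : 0 < β) (N : ℕ) (hN : 1 ≤ N) :
    ∑ l ∈ Finset.range N, 1 / ((l : ℝ) + 1) ≤ (1 + 1 / β) * (N : ℝ) ^ β := by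
  have hN' : (1 : ℝ) ≤ N := by exact_mod_cast hN
  have h1 : ∑ l ∈ Finset.range N, 1 / ((l : ℝ) + 1) ≤ 1 + Real.log N := by
    have := harmonic_le_one_add_log N
    unfold harmonic at this
    push_cast at this
    simpa [one_div] using this
  have h2 := Real.log_le_rpow_div (x := N) (by positivity) hβ
  have h3 : 1 ≤ (N : ℝ) ^ β := Real.one_le_rpow hN' hβ.le
  calc _ ≤ 1 + Real.log N := h1
    _ ≤ (N : ℝ) ^ β + (N : ℝ) ^ β / β := add_le_add h3 h2
    _ = _ := by ring

/-- the expansion of a bounded density of bounded variation in longitude -/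
theorem var_exp {A β : ℝ} (hA : 0 ≤ A) (hβ : 0 < β) {g : S2 → ℂ}
    (hg : Measurable g) (hb : ∀ x, ‖g x‖ ≤ A) (hV : Variation A g) :
    ∃ (m : ℕ → ℝ) (G : ℕ → S2 → ℂ), Expansion (d := 2) (2 * A * (1 + 1 / β)) β m g G := by
  classical
  refine ⟨fun l => 2 * A * (1 / ((l : ℝ) + 1)), fun l x =>
    (if l = 0 then comp 0 g x else comp l g x + comp (-(l : ℤ)) g x), hg, ?_, ?_, ?_, ?_, ?_, ?_⟩
  · intro x
    refine (hb x).trans ?_
    have : 0 ≤ 1 / β := by positivity
    nlinarith
  · intro l
    by_cases h0 : l = 0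
    · simp only [if_pos h0]
      exact comp_meas 0 hg
    · simp only [if_neg h0]
      exact (comp_meas _ hg).add (comp_meas _ hg)
  · intro l x
    by_cases h0 : l = 0
    · simp only [if_pos h0]
      have := comp_le 0 hb x
      subst h0
      norm_num
      linarith
    · simp only [if_neg h0]
      refine (norm_add_le _ _).trans ?_
      have hl : (1 : ℝ) ≤ l := by exact_mod_cast Nat.one_le_iff_ne_zero.2 h0
      have h1 := comp_var hg hb hV (l : ℤ) (by exact_mod_cast h0) x
      have h2 := comp_var hg hb hV (-(l : ℤ)) (by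
        rw [Ne, neg_eq_zero]
        exact_mod_cast h0) x
      push_cast at h1 h2
      rw [abs_neg] at h2
      rw [abs_of_pos (by linarith : (0 : ℝ) < l)] at h1 h2
      have h3 : A / (4 * l) + A / (4 * l) ≤ 2 * A * (1 / ((l : ℝ) + 1)) := by
        have e1 : A / (4 * l) + A / (4 * l) = A * (1 / (2 * l)) := by
          field_simp
          ring
        rw [e1]
        have e2 : 1 / (2 * (l : ℝ)) ≤ 2 * (1 / ((l : ℝ) + 1)) := by
          rw [mul_one_div, div_le_div_iff₀ (by positivity) (by positivity)]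
          nlinarith
        nlinarith
      linarith
  · intro l
    by_cases h0 : l = 0
    · simp only [if_pos h0]
      subst h0
      exact comp_lat 0 g
    · simp only [if_neg h0]
      have h1 := comp_lat (l : ℤ) g
      have h2 := comp_lat (-(l : ℤ)) g
      rw [Int.natAbs_natCast] at h1
      rw [Int.natAbs_neg, Int.natAbs_natCast] at h2
      exact Lat_add h1 h2
  · intro N hN
    rw [← Finset.mul_sum]
    calc _ ≤ 2 * A * ((1 + 1 / β) * (N : ℝ) ^ β) :=
          mul_le_mul_of_nonneg_left (harm_le hβ N hN) (by linarith)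
      _ = _ := by ring
  · refine (four_lim hg hA hb).congr fun N => ?_
    refine lintegral_congr fun x => ?_
    congr 2
    rw [fr_sum (fun k => comp k g x)]

end Pool.Agent.H243.RA
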